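import Mathlib

/-!
The sequence lemma used for the second moment argument.
-/

namespace Pool.Agent.Meteor

open Finset Filter Topology

/-- `Q k = 1 + ∑_{i ≤ k} i² a_i²`. -/
noncomputable def QQ (a : ℕ → ℝ) (k : ℕ) : ℝ := 1 + ∑ i ∈ range (k + 1), (i : ℝ) ^ 2 * a i ^ 2

/-- `W k = Q k / k²`. -/
noncomputable def WW (a : ℕ → ℝ) (k : ℕ) : ℝ := QQ a k / (k : ℝ) ^ 2

/-- `f k = a_k² / (a_k + W_k)`. -/
noncomputable def ff (a : ℕ → ℝ) (k : ℕ) : ℝ := a k ^ 2 / (a k + WW a k)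

theorem QQ_succ (a : ℕ → ℝ) (k : ℕ) :
    QQ a (k + 1) = QQ a k + ((k : ℝ) + 1) ^ 2 * a (k + 1) ^ 2 := by
  unfold QQ
  rw [sum_range_succ _ (k + 1)]
  push_cast
  ring

theorem one_le_QQ (a : ℕ → ℝ) (k : ℕ) : 1 ≤ QQ a k := by
  unfold QQ
  have : 0 ≤ ∑ i ∈ range (k + 1), (i : ℝ) ^ 2 * a i ^ 2 :=
    sum_nonneg (fun i _ => by positivity)
  linarith

theorem QQ_mono (a : ℕ → ℝ) : Monotone (QQ a) := by
  apply monotone_nat_of_le_succ
  intro n
  rw [QQ_succ]
  have : 0 ≤ ((n : ℝ) + 1) ^ 2 * a (n + 1) ^ 2 := by positivity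
  linarith

theorem WW_pos (a : ℕ → ℝ) {k : ℕ} (hk : 1 ≤ k) : 0 < WW a k := by
  unfold WW
  have h1 := one_le_QQ a k
  have : (0 : ℝ) < k := by exact_mod_cast hk
  positivity

theorem WW_nonneg (a : ℕ → ℝ) (k : ℕ) : 0 ≤ WW a k := by
  unfold WW
  have h1 := one_le_QQ a k
  positivity

theorem ff_nonneg {a : ℕ → ℝ} (ha : ∀ k, 0 ≤ a k) (k : ℕ) : 0 ≤ ff a k := by
  unfold ff
  have := WW_nonneg a k
  have := ha k
  positivity

/-- `W_{k+1} ≤ W_k + a_{k+1}²`. -/
theorem WW_succ_le (a : ℕ → ℝ) {k : ℕ} (hk : 1 ≤ k) : WW a (k + 1) ≤ WW a k + a (k + 1) ^ 2 := by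
  unfold WW
  rw [QQ_succ]
  have hk' : (0 : ℝ) < k := by exact_mod_cast hk
  have h1 := one_le_QQ a k
  push_cast
  rw [add_div, mul_div_assoc]
  have h2 : QQ a k / ((k : ℝ) + 1) ^ 2 ≤ QQ a k / (k : ℝ) ^ 2 := by
    apply div_le_div_of_nonneg_left (by linarith) (by positivity)
    nlinarith
  have h3 : ((k : ℝ) + 1) ^ 2 * (a (k + 1) ^ 2 / ((k : ℝ) + 1) ^ 2) = a (k + 1) ^ 2 := by
    field_simp
  rw [h3]
  linarith

/-- `W_k ≤ (n/k)² W_n` for `k ≤ n`. -/
theorem WW_le_mul (a : ℕ → ℝ) {k n : ℕ} (hk : 1 ≤ k) (hkn : k ≤ n) :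
    WW a k ≤ ((n : ℝ) / k) ^ 2 * WW a n := by
  unfold WW
  have hk' : (0 : ℝ) < k := by exact_mod_cast hk
  have hn' : (0 : ℝ) < n := by exact_mod_cast (lt_of_lt_of_le hk hkn)
  have h1 := QQ_mono a hkn
  rw [div_pow, div_mul_div_comm, mul_comm ((n : ℝ) ^ 2) (QQ a n), mul_div_mul_right _ _
    (by positivity)]
  gcongr

/-- Abel–Dini. -/
theorem bounded_of_summable_ratio {Q : ℕ → ℝ} (hQ1 : ∀ k, 1 ≤ Q k) (hQm : Monotone Q)
    (hs : Summable (fun k => (Q (k + 1) - Q k) / Q (k + 1))) : ∃ B, ∀ k, Q k ≤ B := by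
  have hnn : ∀ k, 0 ≤ (Q (k + 1) - Q k) / Q (k + 1) := by
    intro k
    have h1 := hQ1 (k + 1)
    have h2 := hQm (Nat.le_succ k)
    apply div_nonneg <;> [(simp only [Nat.succ_eq_add_one] at h2; linarith); linarith]
  have htail := (hasSum_nat_add_iff' 0).mpr hs.hasSum
  have hcauchy := hs.tendsto_sum_tsum_nat
  -- choose n with the tail at most 1/2
  obtain ⟨n, hn⟩ : ∃ n, ∑' k, (Q (k + 1) - Q k) / Q (k + 1) - 1 / 2 <
      ∑ k ∈ range n, (Q (k + 1) - Q k) / Q (k + 1) := by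
    have := (tendsto_order.mp hcauchy).1 (∑' k, (Q (k + 1) - Q k) / Q (k + 1) - 1 / 2)
      (by linarith)
    obtain ⟨n, hn⟩ := this.exists
    exact ⟨n, hn⟩
  refine ⟨2 * Q n, fun N => ?_⟩
  rcases le_total N n with h | h
  · have := hQm h
    have := hQ1 n
    linarith
  · have hQN : 0 < Q N := by have := hQ1 N; linarith
    have h1 : (Q N - Q n) / Q N ≤ ∑ k ∈ Ico n N, (Q (k + 1) - Q k) / Q (k + 1) := by
      have h2 : Q N - Q n = ∑ k ∈ Ico n N, (Q (k + 1) - Q k) := by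
        rw [sum_Ico_eq_sub _ h, sum_range_sub, sum_range_sub]
        ring
      rw [h2, sum_div]
      apply sum_le_sum
      intro k hk
      have hk' := mem_Ico.mp hk
      have h3 : 0 < Q (k + 1) := by have := hQ1 (k + 1); linarith
      have h4 : Q (k + 1) ≤ Q N := hQm (by omega)
      have h5 := hQm (Nat.le_succ k)
      simp only [Nat.succ_eq_add_one] at h5
      apply div_le_div_of_nonneg_left (by linarith) h3 h4
    have h6 : ∑ k ∈ Ico n N, (Q (k + 1) - Q k) / Q (k + 1) < 1 / 2 := by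
      have h7 : ∑ k ∈ range N, (Q (k + 1) - Q k) / Q (k + 1) ≤
          ∑' k, (Q (k + 1) - Q k) / Q (k + 1) := hs.sum_le_tsum _ (fun k _ => hnn k)
      rw [sum_Ico_eq_sub _ h]
      linarith
    have h8 : (Q N - Q n) / Q N < 1 / 2 := lt_of_le_of_lt h1 h6
    rw [div_lt_iff₀ hQN] at h8
    linarith

theorem seq_lemma (a : ℕ → ℝ) (ha : ∀ k, 0 ≤ a k) (h2 : ∀ k, a (k + 1) ≤ 2 * a k)
    {C : ℝ} (hC : 0 ≤ C) {k0 : ℕ} (hI : ∀ k, k0 ≤ k → 3 / 2 * a k - C * WW a k ≤ a (k + 1))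
    (hns : ¬ Summable a) : ¬ Summable (ff a) := by
  intro hs
  have hf0 : Tendsto (ff a) atTop (𝓝 0) := hs.tendsto_atTop_zero
  -- the constant
  obtain ⟨D, hD1, hD2⟩ : ∃ D : ℝ, 1 ≤ D ∧ 10 * C ≤ D := ⟨max 1 (10 * C), le_max_left _ _,
    le_max_right _ _⟩
  have hDpos : 0 < D := by linarith
  -- small threshold
  obtain ⟨δ, hδpos, hδ⟩ : ∃ δ : ℝ, 0 < δ ∧ 2 * δ * D ≤ 1 / 4 :=
    ⟨1 / (8 * D), by positivity, by field_simp; norm_num⟩
  have hev : ∀ᶠ k in atTop, ff a k < δ / 2 := (tendsto_order.mp hf0).2 _ (by positivity)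
  obtain ⟨k1, hk1⟩ := eventually_atTop.mp hev
  -- Claim
  have claim : ∀ k, max (max k0 k1) 1 ≤ k → a k ≤ D * WW a k := by
    by_contra hcon
    push Not at hcon
    obtain ⟨k, hk, hgt⟩ := hcon
    have hkk0 : k0 ≤ k := le_trans (le_trans (le_max_left _ _) (le_max_left _ _)) hk
    have hkk1 : k1 ≤ k := le_trans (le_trans (le_max_right _ _) (le_max_left _ _)) hk
    have hk1' : 1 ≤ k := le_trans (le_max_right _ _) hk
    -- a is at most 2 f when a > D W
    have hsmall : ∀ n, k ≤ n → D * WW a n < a n → a n < δ := by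
      intro n hn hgt'
      have hW := WW_pos a (show 1 ≤ n by omega)
      have hapos : 0 < a n := lt_of_le_of_lt (by positivity) hgt'
      have hWa : WW a n ≤ a n := by nlinarith
      have h3 : a n / 2 ≤ ff a n := by
        unfold ff
        rw [div_le_div_iff₀ (by norm_num) (by positivity)]
        nlinarith
      have h4 := hk1 n (by omega)
      linarith
    have hstep : ∀ n, k ≤ n → D * WW a n < a n →
        (7 / 5 * a n ≤ a (n + 1) ∧ D * WW a (n + 1) < a (n + 1)) := by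
      intro n hn hgt'
      have hW := WW_pos a (show 1 ≤ n by omega)
      have hapos : 0 < a n := lt_of_le_of_lt (by positivity) hgt'
      have h3 := hI n (by omega)
      have h4 : C * WW a n ≤ 1 / 10 * a n := by nlinarith
      have h5 : 7 / 5 * a n ≤ a (n + 1) := by linarith
      refine ⟨h5, ?_⟩
      have h6 := WW_succ_le a (show 1 ≤ n by omega)
      have h7 := hsmall n hn hgt'
      have h8 := h2 n
      have hap : 0 < a (n + 1) := by linarith
      -- D W_{n+1} ≤ D W_n + D a_{n+1}^2 < a_n + D * a_{n+1} * 2 δ ≤ 5/7 a_{n+1} + 1/4 a_{n+1}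
      have h9 : a (n + 1) ≤ 2 * δ := by linarith
      have h10 : D * a (n + 1) ^ 2 ≤ 1 / 4 * a (n + 1) := by
        have : D * a (n + 1) ≤ 1 / 4 := by nlinarith
        nlinarith
      have h11 : D * WW a (n + 1) ≤ D * WW a n + D * a (n + 1) ^ 2 := by nlinarith
      linarith
    have hind : ∀ j, (7 / 5 : ℝ) ^ j * a k ≤ a (k + j) ∧ D * WW a (k + j) < a (k + j) := by
      intro j
      induction j with
      | zero => simpa using hgt
      | succ j ih =>
        obtain ⟨h3, h4⟩ := hstep (k + j) (by omega) ih.2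
        rw [← add_assoc]
        refine ⟨?_, h4⟩
        rw [pow_succ]
        have := ih.1
        nlinarith
    have hak : 0 < a k := lt_of_le_of_lt (mul_nonneg hDpos.le (WW_nonneg a k)) hgt
    have htend : Tendsto (fun j : ℕ => (7 / 5 : ℝ) ^ j * a k) atTop atTop :=
      (tendsto_pow_atTop_atTop_of_one_lt (by norm_num)).atTop_mul_const hak
    obtain ⟨j, hj⟩ := (htend.eventually_ge_atTop δ).exists
    have h3 := hsmall (k + j) (by omega) (hind j).2
    linarith [(hind j).1]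
  -- Now Q is bounded
  obtain ⟨k2, hk2⟩ : ∃ k2, k2 = max (max k0 k1) 1 := ⟨_, rfl⟩
  rw [← hk2] at claim
  have hk2pos : 1 ≤ k2 := by rw [hk2]; exact le_max_right _ _
  have hsumr : Summable (fun k => (QQ a (k + 1) - QQ a k) / QQ a (k + 1)) := by
    have hs1 : Summable (fun k => ff a (k + 1)) := (summable_nat_add_iff 1).mpr hs
    have hs2 : Summable (fun k => (1 + D) * ff a (k + 1)) := hs1.mul_left _
    rw [← summable_nat_add_iff k2] at hs2 ⊢
    apply Summable.of_nonneg_of_le _ _ hs2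
    · intro k
      have h3 := QQ_mono a (Nat.le_succ (k + k2))
      have h4 := one_le_QQ a (k + k2 + 1)
      simp only [Nat.succ_eq_add_one] at h3
      exact div_nonneg (by linarith) (by linarith)
    · intro k
      obtain ⟨n, hn⟩ : ∃ n, n = k + k2 := ⟨_, rfl⟩
      rw [← hn]
      have hnpos : (0 : ℝ) < (n : ℝ) + 1 := by positivity
      have h3 := claim (n + 1) (by omega)
      have hW := WW_pos a (show 1 ≤ n + 1 by omega)
      have h4 := one_le_QQ a (n + 1)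
      have h5 := ha (n + 1)
      rw [QQ_succ]
      rw [← QQ_succ]
      have hWQ : QQ a (n + 1) = ((n : ℝ) + 1) ^ 2 * WW a (n + 1) := by
        unfold WW; push_cast; field_simp
      have h6 : (QQ a n + ((n : ℝ) + 1) ^ 2 * a (n + 1) ^ 2 - QQ a n) / QQ a (n + 1) =
          a (n + 1) ^ 2 / WW a (n + 1) := by
        rw [hWQ]
        field_simp
        ring
      have h6' : (QQ a (n + 1) - QQ a n) / QQ a (n + 1) = a (n + 1) ^ 2 / WW a (n + 1) := by
        rw [← h6]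
        congr 1
        rw [QQ_succ]
      rw [h6']
      unfold ff
      rw [div_le_iff₀ hW, ← mul_div_assoc, div_mul_eq_mul_div, le_div_iff₀ (by positivity)]
      nlinarith [sq_nonneg (a (n + 1))]
  obtain ⟨B, hB⟩ := bounded_of_summable_ratio (one_le_QQ a) (QQ_mono a) hsumr
  have hB1 : 1 ≤ B := le_trans (one_le_QQ a 0) (hB 0)
  -- hence Σ i² a_i² < ∞ and Σ a_i < ∞
  apply hns
  have hs3 : Summable (fun i : ℕ => (i : ℝ) ^ 2 * a i ^ 2) := by
    apply summable_of_sum_range_le (c := B) (fun i => by positivity)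
    intro n
    have h3 := hB n
    unfold QQ at h3
    rw [sum_range_succ] at h3
    have : 0 ≤ (n : ℝ) ^ 2 * a n ^ 2 := by positivity
    linarith
  have hs4 : Summable (fun i : ℕ => 1 / (i : ℝ) ^ 2) :=
    Real.summable_one_div_nat_pow.mpr (by norm_num)
  have hs5 := hs3.add hs4
  rw [← summable_nat_add_iff 1] at hs5 ⊢
  apply Summable.of_nonneg_of_le (fun i => ha _) _ hs5
  intro i
  have hi : (0 : ℝ) < ((i + 1 : ℕ) : ℝ) := by positivity
  obtain ⟨u, hu⟩ : ∃ u, u = ((i + 1 : ℕ) : ℝ) := ⟨_, rfl⟩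
  simp only [← hu] at hi ⊢
  obtain ⟨x, hx⟩ : ∃ x, x = a (i + 1) := ⟨_, rfl⟩
  have hx0 : 0 ≤ x := hx ▸ ha _
  simp only [← hx]
  have h3 : 0 ≤ (u * x - 1 / u) ^ 2 := sq_nonneg _
  have h4 : (u * x - 1 / u) ^ 2 = u ^ 2 * x ^ 2 - 2 * x + 1 / u ^ 2 := by
    field_simp
    ring
  linarith

end Pool.Agent.Meteor
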