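import Mathlib

/-!
Abstract annihilation dynamics of finite sets with a symmetric contact-time function `τ`.
-/

namespace Pool.Agent.Meteor

open Set
open scoped ENNReal NNReal

variable {X : Type*}

/-- Removal-time functions up to the horizon `h`. -/
def DynUp (τ : X → X → ℝ≥0∞) (F : Set X) (h : ℝ≥0∞) (T : X → ℝ≥0∞) : Prop :=
  (∀ x ∈ F, ∀ y ∈ F, y ≠ x → τ x y ≤ T y → T x ≤ τ x y) ∧
  (∀ x ∈ F, T x < h → ∃ y ∈ F, y ≠ x ∧ τ x y ≤ T y ∧ T x = τ x y)

theorem DynUp.mono {τ : X → X → ℝ≥0∞} {F : Set X} {h h' : ℝ≥0∞} {T : X → ℝ≥0∞}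
    (H : DynUp τ F h T) (hh : h' ≤ h) : DynUp τ F h' T :=
  ⟨H.1, fun x hx hlt => H.2 x hx (lt_of_lt_of_le hlt hh)⟩

/-- Uniqueness up to the horizon. -/
theorem DynUp.uniq {τ : X → X → ℝ≥0∞} {F : Set X} (hF : F.Finite) {h : ℝ≥0∞}
    {T T' : X → ℝ≥0∞} (H : DynUp τ F h T) (H' : DynUp τ F h T') :
    ∀ x ∈ F, min (T x) h = min (T' x) h := by
  by_contra hcon
  push Not at hcon
  obtain ⟨x0, hx0, hne0⟩ := hcon
  -- choose a disagreement with minimal `min (T x) (T' x)`
  have hfin : ({x ∈ F | min (T x) h ≠ min (T' x) h}).Finite := hF.subset (fun x hx => hx.1)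
  have hnon : ({x ∈ F | min (T x) h ≠ min (T' x) h}).Nonempty := ⟨x0, hx0, hne0⟩
  obtain ⟨x, ⟨hxF, hxne⟩, hmin⟩ :=
    Set.exists_min_image _ (fun x => min (T x) (T' x)) hfin hnon
  have key : ∀ (T T' : X → ℝ≥0∞), DynUp τ F h T → DynUp τ F h T' →
      (∀ y ∈ F, min (T y) h ≠ min (T' y) h → min (T x) (T' x) ≤ min (T y) (T' y)) →
      min (T x) h ≠ min (T' x) h → T x < T' x → False := by
    intro T T' H H' hmin hxne hlt
    have hTh : T x < h := by
      by_contra hge
      push Not at hge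
      exact hxne (by rw [min_eq_right hge, min_eq_right (hge.trans hlt.le)])
    obtain ⟨z, hzF, hzx, hz1, hz2⟩ := H.2 x hxF hTh
    have h1 : ¬ τ x z ≤ T' z := fun hle =>
      absurd (H'.1 x hxF z hzF hzx hle) (by rw [← hz2]; exact not_le.mpr hlt)
    push Not at h1
    have h2 : T' z < T x := by rw [hz2]; exact h1
    have h3 : T' z < T z := lt_of_lt_of_le h1 hz1
    have h4 : min (T z) h ≠ min (T' z) h := by
      intro heq
      have : min (T' z) h = T' z := min_eq_left (h2.trans hTh).le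
      rw [this] at heq
      have h5 : T' z < min (T z) h := lt_min h3 (h2.trans hTh)
      exact absurd heq (ne_of_gt h5)
    have h6 := hmin z hzF h4
    rw [min_eq_left hlt.le, min_eq_right h3.le] at h6
    exact absurd h2 (not_lt.mpr h6)
  rcases lt_trichotomy (T x) (T' x) with hlt | heq | hgt
  · exact key T T' H H' (fun y hy hne => hmin y ⟨hy, hne⟩) hxne hlt
  · exact hxne (by rw [heq])
  · exact key T' T H' H (fun y hy hne => by
      have := hmin y ⟨hy, fun h => hne h.symm⟩
      simpa [min_comm] using this) (fun h => hxne h.symm) hgt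

/-- Existence of the dynamics of a finite set. -/
theorem exists_dyn (τ : X → X → ℝ≥0∞) (hsym : ∀ x y, τ x y = τ y x) :
    ∀ (n : ℕ) (F : Set X), F.Finite → F.ncard ≤ n → ∃ T : X → ℝ≥0∞, DynUp τ F ∞ T := by
  classical
  intro n
  induction n with
  | zero =>
    intro F hF hc
    have : F = ∅ := by
      rw [← Set.ncard_eq_zero hF]; omega
    subst this
    exact ⟨fun _ => 0, by constructor <;> intro x hx <;> exact absurd hx (by simp)⟩
  | succ n ih =>
    intro F hF hc
    by_cases hall : ∀ x ∈ F, ∀ y ∈ F, y ≠ x → τ x y = ∞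
    · refine ⟨fun _ => ∞, ?_, ?_⟩
      · intro x hx y hy hne _
        simp only [hall x hx y hy hne]; exact le_rfl
      · intro x hx hlt; exact absurd hlt (by simp)
    · push Not at hall
      obtain ⟨x1, hx1, y1, hy1, hne1, hfin1⟩ := hall
      have hPfin : ({p ∈ F ×ˢ F | p.2 ≠ p.1}).Finite := (hF.prod hF).subset (fun p hp => hp.1)
      have hPne : ({p ∈ F ×ˢ F | p.2 ≠ p.1}).Nonempty := ⟨(x1, y1), ⟨hx1, hy1⟩, hne1⟩
      obtain ⟨p0, ⟨hp0F, hp0ne⟩, hp0min⟩ :=
        Set.exists_min_image _ (fun p : X × X => τ p.1 p.2) hPfin hPne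
      obtain ⟨m, hm⟩ : ∃ m, m = τ p0.1 p0.2 := ⟨_, rfl⟩
      have hmmin : ∀ x ∈ F, ∀ y ∈ F, y ≠ x → m ≤ τ x y := by
        intro x hx y hy hne
        rw [hm]
        exact hp0min (x, y) ⟨⟨hx, hy⟩, hne⟩
      have hmfin : m ≠ ∞ := by
        have := hmmin x1 hx1 y1 hy1 hne1
        intro h; rw [h] at this; exact hfin1 (top_le_iff.mp this)
      let Z : Set X := {x ∈ F | ∃ y ∈ F, y ≠ x ∧ τ x y = m}
      have hZF : Z ⊆ F := fun x hx => hx.1
      have hZne : p0.1 ∈ Z := ⟨hp0F.1, p0.2, hp0F.2, hp0ne, hm.symm⟩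
      have hcard : (F \ Z).ncard ≤ n := by
        have h1 : (F \ Z).ncard < F.ncard := by
          apply Set.ncard_lt_ncard _ hF
          refine ⟨Set.sdiff_subset, fun hsub => ?_⟩
          exact (hsub hp0F.1).2 hZne
        omega
      obtain ⟨T, hT1, hT2⟩ := ih (F \ Z) (hF.subset Set.sdiff_subset) hcard
      refine ⟨fun x => if x ∈ Z then m else T x, ?_, ?_⟩
      · intro x hx y hy hne hle
        by_cases hxZ : x ∈ Z
        · simp only [hxZ, if_true]
          exact hmmin x hx y hy hne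
        · simp only [hxZ, if_false]
          by_cases hyZ : y ∈ Z
          · simp only [hyZ, if_true] at hle
            exact absurd ⟨hx, y, hy, hne, le_antisymm hle (hmmin x hx y hy hne)⟩ hxZ
          · simp only [hyZ, if_false] at hle
            exact hT1 x ⟨hx, hxZ⟩ y ⟨hy, hyZ⟩ hne hle
      · intro x hx hlt
        by_cases hxZ : x ∈ Z
        · obtain ⟨_, y, hy, hne, hxy⟩ := hxZ
          have hyZ : y ∈ Z := ⟨hy, x, hx, hne.symm, by rw [hsym]; exact hxy⟩
          have hxZ' : x ∈ Z := ⟨hx, y, hy, hne, hxy⟩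
          refine ⟨y, hy, hne, ?_, ?_⟩
          · simp only [hyZ, if_true, hxy]; exact le_rfl
          · simp only [hxZ', if_true, hxy]
        · simp only [hxZ, if_false] at hlt
          obtain ⟨y, hy, hne, h1, h2⟩ := hT2 x ⟨hx, hxZ⟩ hlt
          refine ⟨y, hy.1, hne, ?_, ?_⟩
          · simp only [hy.2, if_false]; exact h1
          · simp only [hxZ, if_false]; exact h2

open Classical in
/-- Removal time of `x` in the dynamics of `insert x F`. -/
noncomputable def life (τ : X → X → ℝ≥0∞) (F : Set X) (x : X) : ℝ≥0∞ :=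
  if h : ∃ T : X → ℝ≥0∞, DynUp τ (insert x F) ∞ T then h.choose x else 0

theorem life_insert (τ : X → X → ℝ≥0∞) (F : Set X) (x : X) :
    life τ (insert x F) x = life τ F x := by
  unfold life
  rw [Set.insert_idem]

theorem life_congr {τ : X → X → ℝ≥0∞} {F G : Set X} {x : X} (h : insert x F = insert x G) :
    life τ F x = life τ G x := by
  rw [← life_insert, h, life_insert]

theorem life_diff (τ : X → X → ℝ≥0∞) (F : Set X) (x : X) :
    life τ (F \ {x}) x = life τ F x := by
  apply life_congr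
  ext y
  by_cases h : y = x <;> simp [h]

variable {τ : X → X → ℝ≥0∞}

/-- Any dynamics gives the lifetimes. -/
theorem DynUp.eq_life (hsym : ∀ x y, τ x y = τ y x) {F : Set X} (hF : F.Finite)
    {T : X → ℝ≥0∞} (H : DynUp τ F ∞ T) {x : X} (hx : x ∈ F) : T x = life τ F x := by
  have hins : insert x F = F := Set.insert_eq_of_mem hx
  have hex : ∃ T : X → ℝ≥0∞, DynUp τ (insert x F) ∞ T := by
    rw [hins]; exact ⟨T, H⟩
  have h1 : life τ F x = hex.choose x := by
    unfold life; rw [dif_pos hex]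
  have h2 := hex.choose_spec
  obtain ⟨T0, hT0⟩ : ∃ T0, T0 = hex.choose := ⟨_, rfl⟩
  rw [← hT0] at h1 h2
  rw [hins] at h2
  have h3 := DynUp.uniq hF H h2 x hx
  rw [h1]
  simpa using h3

/-- The lifetimes form a dynamics. -/
theorem dyn_life (hsym : ∀ x y, τ x y = τ y x) {F : Set X} (hF : F.Finite) :
    DynUp τ F ∞ (life τ F) := by
  obtain ⟨T, hT⟩ := exists_dyn τ hsym _ F hF le_rfl
  have h : ∀ x ∈ F, T x = life τ F x := fun x hx => hT.eq_life hsym hF hx
  constructor
  · intro x hx y hy hne hle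
    rw [← h y hy] at hle
    rw [← h x hx]
    exact hT.1 x hx y hy hne hle
  · intro x hx hlt
    rw [← h x hx] at hlt
    obtain ⟨y, hy, hne, h1, h2⟩ := hT.2 x hx hlt
    exact ⟨y, hy, hne, by rw [← h y hy]; exact h1, by rw [← h x hx]; exact h2⟩

theorem life_le (hsym : ∀ x y, τ x y = τ y x) {F : Set X} (hF : F.Finite) {x y : X}
    (hx : x ∈ F) (hy : y ∈ F) (hne : y ≠ x) (h : τ x y ≤ life τ F y) : life τ F x ≤ τ x y :=
  (dyn_life hsym hF).1 x hx y hy hne h

theorem exists_killer (hsym : ∀ x y, τ x y = τ y x) {F : Set X} (hF : F.Finite) {x : X}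
    (hx : x ∈ F) (h : life τ F x < ∞) :
    ∃ y ∈ F, y ≠ x ∧ life τ F y = τ x y ∧ life τ F x = τ x y := by
  obtain ⟨y, hy, hne, h1, h2⟩ := (dyn_life hsym hF).2 x hx h
  refine ⟨y, hy, hne, le_antisymm ?_ h1, h2⟩
  have := (dyn_life hsym hF).1 y hy x hx hne.symm (by rw [hsym, h2])
  rw [hsym x y]; exact this

/-- Removing a particle that is still alive at time `s` does not change anything before `s`. -/
theorem life_insert_other (hsym : ∀ x y, τ x y = τ y x) {G : Set X} (hG : G.Finite) {x : X}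
    (hx : x ∉ G) {y : X} (hy : y ∈ G) :
    min (life τ (insert x G) y) (life τ G x) = min (life τ G y) (life τ G x) := by
  have hF : (insert x G).Finite := hG.insert x
  have h1 := dyn_life hsym hF
  have hxl : life τ (insert x G) x = life τ G x := life_insert τ G x
  have h2 : DynUp τ G (life τ G x) (life τ (insert x G)) := by
    constructor
    · intro a ha b hb hne hle
      exact h1.1 a (Set.mem_insert_of_mem _ ha) b (Set.mem_insert_of_mem _ hb) hne hle
    · intro a ha hlt
      obtain ⟨b, hb, hne, hb1, hb2⟩ := h1.2 a (Set.mem_insert_of_mem _ ha)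
        (lt_of_lt_of_le hlt le_top)
      rcases Set.mem_insert_iff.mp hb with rfl | hb'
      · exfalso
        have h3 : life τ (insert b G) b ≤ τ b a :=
          h1.1 b (Set.mem_insert _ _) a (Set.mem_insert_of_mem _ ha) hne.symm
            (by rw [hsym, hb2])
        rw [hxl, hsym, ← hb2] at h3
        exact absurd hlt (not_lt.mpr h3)
      · exact ⟨b, hb', hne, hb1, hb2⟩
  exact DynUp.uniq hG h2 ((dyn_life hsym hG).mono le_top) y hy

theorem le_life_insert_iff (hsym : ∀ x y, τ x y = τ y x) {G : Set X} (hG : G.Finite) {x : X}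
    (hx : x ∉ G) {y : X} (hy : y ∈ G) {s : ℝ≥0∞} (hs : s ≤ life τ G x) :
    s ≤ life τ (insert x G) y ↔ s ≤ life τ G y := by
  have h := life_insert_other hsym hG hx hy
  constructor
  · intro h1
    have : s ≤ min (life τ (insert x G) y) (life τ G x) := le_min h1 hs
    rw [h] at this
    exact this.trans (min_le_left _ _)
  · intro h1
    have : s ≤ min (life τ G y) (life τ G x) := le_min h1 hs
    rw [← h] at this
    exact this.trans (min_le_left _ _)

/-- The recursive characterisation of survival. -/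
theorem le_life_iff (hsym : ∀ x y, τ x y = τ y x) {G : Set X} (hG : G.Finite) {x : X}
    (hx : x ∉ G) {s : ℝ≥0∞} :
    s ≤ life τ G x ↔ ∀ y ∈ G, τ x y < s → life τ G y < τ x y := by
  have hF : (insert x G).Finite := hG.insert x
  have hxl : life τ (insert x G) x = life τ G x := life_insert τ G x
  constructor
  · intro hs y hy hlt
    by_contra hge
    push Not at hge
    have h1 : τ x y ≤ life τ (insert x G) y :=
      (le_life_insert_iff hsym hG hx hy (hlt.le.trans hs)).mpr hge
    have hne : y ≠ x := fun h => hx (h ▸ hy)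
    have h2 := life_le hsym hF (Set.mem_insert _ _) (Set.mem_insert_of_mem _ hy) hne h1
    rw [hxl] at h2
    exact absurd hlt (not_lt.mpr (hs.trans h2))
  · intro h
    by_contra hlt
    push Not at hlt
    obtain ⟨y, hy, hne, h1, h2⟩ := exists_killer hsym hF (Set.mem_insert x G)
      (by rw [hxl]; exact lt_of_lt_of_le hlt le_top)
    have hyG : y ∈ G := (Set.mem_insert_iff.mp hy).resolve_left hne
    rw [hxl] at h2
    have h3 := h y hyG (by rw [← h2]; exact hlt)
    have h4 : τ x y ≤ life τ G y :=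
      (le_life_insert_iff hsym hG hx hyG (by rw [h2])).mp (by rw [h1])
    exact absurd h3 (not_lt.mpr h4)

/-- Successive approximations of the survival up to time `t` of `x` in the environment `F`. -/
def SS (τ : X → X → ℝ≥0∞) : ℕ → Set X → X → ℝ≥0∞ → Prop
  | 0, _, _, _ => True
  | n + 1, F, x, t => ∀ y ∈ F, τ x y < t → ¬ SS τ n (F \ {y}) y (τ x y)

/-- Existence of a chain of length `n` from `(x, t)` in `F`. -/
def CC (τ : X → X → ℝ≥0∞) : ℕ → Set X → X → ℝ≥0∞ → Prop
  | 0, _, _, _ => True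
  | n + 1, F, x, t => ∃ y ∈ F, τ x y < t ∧ CC τ n (F \ {y}) y (τ x y)

theorem CC_mono : ∀ (n : ℕ) {F G : Set X} (_ : F ⊆ G) {x : X} {t u : ℝ≥0∞} (_ : t ≤ u),
    CC τ n F x t → CC τ n G x u := by
  intro n
  induction n with
  | zero => intro F G _ x t u _ _; trivial
  | succ n ih =>
    intro F G hFG x t u htu h
    obtain ⟨y, hy, hlt, hC⟩ := h
    exact ⟨y, hFG hy, lt_of_lt_of_le hlt htu, ih (Set.sdiff_subset_sdiff_left hFG) le_rfl hC⟩

theorem CC_succ : ∀ (n : ℕ) {F : Set X} {x : X} {t : ℝ≥0∞}, CC τ (n + 1) F x t → CC τ n F x t := by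
  intro n
  induction n with
  | zero => intro F x t _; trivial
  | succ n ih =>
    intro F x t h
    obtain ⟨y, hy, hlt, hC⟩ := h
    exact ⟨y, hy, hlt, ih hC⟩

theorem CC_antitone {m n : ℕ} (hmn : m ≤ n) {F : Set X} {x : X} {t : ℝ≥0∞}
    (h : CC τ n F x t) : CC τ m F x t := by
  induction n, hmn using Nat.le_induction with
  | base => exact h
  | succ n _ ih => exact ih (CC_succ n h)

theorem SS_anti (n : ℕ) {F : Set X} {x : X} {t u : ℝ≥0∞} (htu : t ≤ u)
    (h : SS τ n F x u) : SS τ n F x t := by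
  cases n with
  | zero => trivial
  | succ n => exact fun y hy hlt => h y hy (lt_of_lt_of_le hlt htu)

theorem SS_stable : ∀ (n : ℕ) {F : Set X} {x : X} {t : ℝ≥0∞}, ¬ CC τ (n + 1) F x t →
    (SS τ n F x t ↔ SS τ (n + 1) F x t) := by
  intro n
  induction n with
  | zero =>
    intro F x t h
    refine ⟨fun _ y hy hlt => ?_, fun _ => trivial⟩
    exact absurd ⟨y, hy, hlt, trivial⟩ h
  | succ n ih =>
    intro F x t h
    have h' : ∀ y ∈ F, τ x y < t → ¬ CC τ (n + 1) (F \ {y}) y (τ x y) :=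
      fun y hy hlt hC => h ⟨y, hy, hlt, hC⟩
    constructor
    · intro h1 y hy hlt
      rw [← ih (h' y hy hlt)]
      exact h1 y hy hlt
    · intro h1 y hy hlt
      rw [ih (h' y hy hlt)]
      exact h1 y hy hlt

theorem SS_stable' {m n : ℕ} (hmn : m ≤ n) {F : Set X} {x : X} {t : ℝ≥0∞}
    (h : ¬ CC τ (m + 1) F x t) : SS τ m F x t ↔ SS τ n F x t := by
  induction n, hmn using Nat.le_induction with
  | base => rfl
  | succ n hn ih =>
    rw [ih]
    exact SS_stable n (fun hC => h (CC_antitone (by omega) hC))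

theorem SS_sandwich (hsym : ∀ x y, τ x y = τ y x) : ∀ (n : ℕ) {G : Set X} (_ : G.Finite)
    {x : X} (_ : x ∉ G) {s : ℝ≥0∞},
    (s ≤ life τ G x → SS τ (2 * n) G x s) ∧ (SS τ (2 * n + 1) G x s → s ≤ life τ G x) := by
  intro n
  induction n with
  | zero =>
    intro G hG x hx s
    refine ⟨fun _ => trivial, fun h => ?_⟩
    rw [le_life_iff hsym hG hx]
    intro y hy hlt
    exact absurd trivial (h y hy hlt)
  | succ n ih =>
    intro G hG x hx s
    have A : s ≤ life τ G x → SS τ (2 * (n + 1)) G x s := by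
      intro hs
      rw [le_life_iff hsym hG hx] at hs
      intro y hy hlt hS
      have := (ih (G := G \ {y}) (hG.subset Set.sdiff_subset) (x := y) (by simp)).2 hS
      rw [life_diff] at this
      exact absurd (hs y hy hlt) (not_lt.mpr this)
    refine ⟨A, fun hs => ?_⟩
    rw [le_life_iff hsym hG hx]
    intro y hy hlt
    by_contra hge
    push Not at hge
    have h1 := hs y hy hlt
    apply h1
    have hG' : (G \ {y}).Finite := hG.subset Set.sdiff_subset
    have hy' : y ∉ G \ {y} := by simp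
    rw [← life_diff] at hge
    rw [le_life_iff hsym hG' hy'] at hge
    intro z hz hlt' hS
    have := (ih (G := (G \ {y}) \ {z}) (hG'.subset Set.sdiff_subset) (x := z) (by simp)).2 hS
    rw [life_diff] at this
    exact absurd (hge z hz hlt') (not_lt.mpr this)

theorem SS_upper (hsym : ∀ x y, τ x y = τ y x) (n : ℕ) {G : Set X} (hG : G.Finite)
    {x : X} (hx : x ∉ G) {s : ℝ≥0∞} (h : s ≤ life τ G x) : SS τ (2 * n) G x s :=
  (SS_sandwich hsym n hG hx).1 h

theorem SS_lower (hsym : ∀ x y, τ x y = τ y x) (n : ℕ) {G : Set X} (hG : G.Finite)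
    {x : X} (hx : x ∉ G) {s : ℝ≥0∞} (h : SS τ (2 * n + 1) G x s) : s ≤ life τ G x :=
  (SS_sandwich hsym n hG hx).2 h

/-- Without chains of length `m + 1`, the `m`-th approximation is exact. -/
theorem SS_exact (hsym : ∀ x y, τ x y = τ y x) {m : ℕ} {G : Set X} (hG : G.Finite)
    {x : X} (hx : x ∉ G) {s : ℝ≥0∞} (h : ¬ CC τ (m + 1) G x s) :
    SS τ m G x s ↔ s ≤ life τ G x := by
  constructor
  · intro h1
    apply SS_lower hsym m hG hx
    exact (SS_stable' (by omega) h).mp h1
  · intro h1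
    have := SS_upper hsym m hG hx h1
    exact (SS_stable' (by omega) h).mpr this

end Pool.Agent.Meteor
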