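import Mathlib

/-!
Annihilating ballistic meteors in Euclidean space: the definitions used in the statement.
-/

namespace Pool.Agent.Meteor

open MeasureTheory Filter
open scoped ENNReal NNReal

/-- The Euclidean space `ℝ^d`. -/
abbrev Sp (d : ℕ) : Type := EuclideanSpace ℝ (Fin d)

/-- The unit sphere of `ℝ^d`. -/
abbrev Dir (d : ℕ) : Type := Metric.sphere (0 : Sp d) 1

/-- A meteor: its centre at time `0` together with its direction. -/
abbrev Met (d : ℕ) : Type := Sp d × Dir d

/-- The centre at time `t` of the (unhindered) meteor `x`. -/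
noncomputable def pos {d : ℕ} (x : Met d) (t : ℝ) : Sp d := x.1 + t • (x.2 : Sp d)

/-- The uniform probability measure on the unit sphere: normalised surface measure. -/
noncomputable def unif (d : ℕ) : Measure (Dir d) :=
  ((volume : Measure (Sp d)).toSphere Set.univ)⁻¹ • (volume : Measure (Sp d)).toSphere

/-- The intensity of the marked process: Lebesgue measure times the uniform distribution. -/
noncomputable def intensity (d : ℕ) : Measure (Met d) := (volume : Measure (Sp d)).prod (unif d)

/-- `ξ` is a Poisson random set with intensity measure `μ`: its numbers of points in finitely many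
pairwise disjoint measurable sets of finite measure are independent Poisson random variables
with the measures of these sets as their means. -/
structure IsPoissonSet {Ω X : Type*} [MeasurableSpace Ω] [MeasurableSpace X]
    (P : Measure Ω) (ξ : Ω → Set X) (μ : Measure X) : Prop where
  meas : ∀ (A : Set X), MeasurableSet A → ∀ k : ℕ, MeasurableSet {ω | (ξ ω ∩ A).encard = k}
  prob : ∀ (n : ℕ) (A : Fin n → Set X), (∀ i, MeasurableSet (A i)) →
    (∀ i j, i ≠ j → Disjoint (A i) (A j)) → (∀ i, μ (A i) ≠ ∞) → ∀ k : Fin n → ℕ,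
      P {ω | ∀ i, (ξ ω ∩ A i).encard = k i} =
        ∏ i, ENNReal.ofReal (Real.exp (-(μ (A i)).toReal) * (μ (A i)).toReal ^ (k i)
          / (Nat.factorial (k i)))

/-- The meteors whose centres at time `0` lie in the ball of radius `R` about the origin. -/
def inBall {d : ℕ} (F : Set (Met d)) (R : ℝ) : Set (Met d) := {x ∈ F | ‖x.1‖ ≤ R}

/-- `T` gives the removal times (possibly `∞`) of the dynamics started from the set `F`: the
meteor `x` is removed at time `t` exactly if it has not been removed before time `t` and at time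
`t` its ball touches the ball of another meteor that has not been removed before time `t`. -/
def IsDynamics {d : ℕ} (ε : ℝ) (F : Set (Met d)) (T : Met d → ℝ≥0∞) : Prop :=
  ∀ x ∈ F, ∀ t : ℝ≥0, T x = t ↔
    ((t : ℝ≥0∞) ≤ T x ∧ ∃ y ∈ F, y ≠ x ∧ (t : ℝ≥0∞) ≤ T y ∧ ‖pos x t - pos y t‖ ≤ 2 * ε)

/-- The meteor `x` still exists at time `t` in the dynamics started from `F`. -/
def ExistsAt {d : ℕ} (ε : ℝ) (F : Set (Met d)) (x : Met d) (t : ℝ≥0) : Prop :=
  ∃ T : Met d → ℝ≥0∞, IsDynamics ε F T ∧ (t : ℝ≥0∞) < T x

/-- The meteor `x` still exists at time `t` in the `R`-dynamics for all large `R`. -/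
def InfExistsAt {d : ℕ} (ε : ℝ) (F : Set (Met d)) (x : Met d) (t : ℝ≥0) : Prop :=
  ∀ᶠ R : ℝ in atTop, ExistsAt ε (inBall F R) x t

/-- The infinite process exists: for every meteor and every time, whether the meteor still exists
at that time in the `R`-dynamics does not depend on `R` for all large `R`. -/
def InfiniteProcessExists {d : ℕ} (ε : ℝ) (F : Set (Met d)) : Prop :=
  ∀ x ∈ F, ∀ t : ℝ≥0, (∀ᶠ R : ℝ in atTop, ExistsAt ε (inBall F R) x t) ∨
    (∀ᶠ R : ℝ in atTop, ¬ ExistsAt ε (inBall F R) x t)

/-- The meteors that occupy the origin at some time in the infinite process. -/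
def visitors {d : ℕ} (ε : ℝ) (F : Set (Met d)) : Set (Met d) :=
  {x ∈ F | ∃ t : ℝ≥0, InfExistsAt ε F x t ∧ ‖pos x t‖ ≤ ε}

end Pool.Agent.Meteor
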