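import Mathlib
import Pool.Agent.Lib_helper89.Poisson.ZeroOne
import Pool.Agent.Lib_helper16.Meteor.Dyn

/-!
Measurable versions of the approximations on the space of measures.
-/

namespace Pool.Agent.Meteor

open MeasureTheory Filter ProbabilityTheory Set
open scoped ENNReal NNReal Topology

variable {X : Type*} [MeasurableSpace X] [MeasurableSingletonClass X]

theorem cnt_eq_zero_iff (F : Set X) {A : Set X} (hA : MeasurableSet A) :
    cnt F A = 0 ↔ ∀ y ∈ F, y ∉ A := by
  rw [cnt_apply F hA]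
  simp only [ENat.toENNReal_eq_zero, Set.encard_eq_zero]
  rw [Set.eq_empty_iff_forall_notMem]
  simp

theorem cnt_restrict (F : Set X) {A : Set X} (hA : MeasurableSet A) :
    (cnt F).restrict A = cnt (F ∩ A) := by
  unfold cnt
  rw [Measure.restrict_restrict hA, Set.inter_comm]

theorem cnt_mono {F G : Set X} (h : F ⊆ G) : cnt F ≤ cnt G := by
  unfold cnt
  exact Measure.restrict_mono_set _ h

theorem LF_mono {K : ℕ → Set X} {μ ν : Measure X} (h : μ ≤ ν) (hν : ν ∈ LF K) : μ ∈ LF K :=
  fun m => lt_of_le_of_lt (h _) (hν m)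

theorem cnt_insert {F : Set X} {x : X} (hx : x ∉ F) :
    cnt (insert x F) = cnt F + Measure.dirac x := by
  ext A hA
  rw [Measure.add_apply, cnt_apply _ hA, cnt_apply _ hA, Measure.dirac_apply' _ hA]
  by_cases hxA : x ∈ A
  · rw [Set.insert_inter_of_mem hxA, Set.encard_insert_of_notMem (fun h => hx h.1)]
    simp [hxA]
  · rw [Set.insert_inter_of_notMem hxA]
    simp [hxA]

theorem finite_of_cnt_lt_top {F : Set X} {A : Set X} (hA : MeasurableSet A) (h : cnt F A < ∞) :
    (F ∩ A).Finite := by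
  rw [cnt_apply F hA] at h
  rw [← Set.encard_lt_top_iff]
  by_contra hc
  rw [not_lt, top_le_iff] at hc
  rw [hc] at h
  simp at h

variable {K : ℕ → Set X} (hK : ∀ m, MeasurableSet (K m))

/-- Delete the point `y` (and cut down to locally finite measures). -/
noncomputable def del (ν : Measure X) (y : X) : Measure X := (goodK K hK ν).restrict {y}ᶜ

theorem measurable_goodK_left (hcov : ⋃ m, K m = Set.univ) {α : Type*} [MeasurableSpace α] {g : α → Measure X}
    (hg : Measurable g) {S : Set (α × X)} (hS : MeasurableSet S) :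
    Measurable fun a => goodK K hK (g a) (Prod.mk a ⁻¹' S) := by
  have := goodK_sfinite hK hcov
  have := Kernel.measurable_kernel_prodMk_left (κ := (goodK K hK).comap g hg) hS
  simpa [Kernel.comap_apply] using this

theorem measurable_del (hcov : ⋃ m, K m = Set.univ) (hdiag : MeasurableSet {p : X × X | p.1 = p.2}) :
    Measurable fun q : Measure X × X => del hK q.1 q.2 := by
  apply Measure.measurable_of_measurable_coe
  intro A hA
  have h1 : ∀ q : Measure X × X, del hK q.1 q.2 A =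
      goodK K hK q.1 (Prod.mk q ⁻¹' {p : (Measure X × X) × X | p.2 ∈ A ∧ ¬ (p.1.2 = p.2)}) := by
    intro q
    unfold del
    rw [Measure.restrict_apply hA]
    congr 1
    ext z
    simp only [mem_inter_iff, mem_compl_iff, mem_singleton_iff, mem_preimage, mem_ofPred_eq]
    constructor
    · rintro ⟨h1, h2⟩; exact ⟨h1, fun h => h2 h.symm⟩
    · rintro ⟨h1, h2⟩; exact ⟨h1, fun h => h2 h.symm⟩
  simp only [h1]
  apply measurable_goodK_left hK hcov measurable_fst
  have hA' : MeasurableSet {p : (Measure X × X) × X | p.2 ∈ A} := measurable_snd hA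
  have hB' : MeasurableSet {p : (Measure X × X) × X | p.1.2 = p.2} := by
    have : Measurable (fun p : (Measure X × X) × X => ((p.1.2, p.2) : X × X)) := by fun_prop
    exact this hdiag
  exact hA'.inter hB'.compl

/-- One step of the recursion on the level of measures. -/
def stepS (τ : X → X → ℝ≥0∞) (S : Set ((Measure X × X) × ℝ≥0∞)) :
    Set ((Measure X × X) × ℝ≥0∞) :=
  {q | goodK K hK q.1.1 {y | τ q.1.2 y < q.2 ∧ ((del hK q.1.1 y, y), τ q.1.2 y) ∈ S} = 0}

/-- Measure version of the approximations `SS`. -/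
def SSm (τ : X → X → ℝ≥0∞) : ℕ → Set ((Measure X × X) × ℝ≥0∞)
  | 0 => Set.univ
  | n + 1 => stepS hK τ (SSm τ n)

/-- Measure version of the chain events `CC`. -/
def CCm (τ : X → X → ℝ≥0∞) : ℕ → Set ((Measure X × X) × ℝ≥0∞)
  | 0 => Set.univ
  | n + 1 => (stepS hK τ (CCm τ n))ᶜ

section meas

variable {τ : X → X → ℝ≥0∞} (hcov : ⋃ m, K m = Set.univ) (hτ : Measurable (fun p : X × X => τ p.1 p.2))
  (hdiag : MeasurableSet {p : X × X | p.1 = p.2})

include hcov hτ hdiag

theorem measurableSet_inner {S : Set ((Measure X × X) × ℝ≥0∞)} (hS : MeasurableSet S) :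
    MeasurableSet {p : ((Measure X × X) × ℝ≥0∞) × X |
      τ p.1.1.2 p.2 < p.1.2 ∧ ((del hK p.1.1.1 p.2, p.2), τ p.1.1.2 p.2) ∈ S} := by
  have h1 : Measurable (fun p : ((Measure X × X) × ℝ≥0∞) × X => τ p.1.1.2 p.2) := by
    have h : Measurable (fun p : ((Measure X × X) × ℝ≥0∞) × X => ((p.1.1.2, p.2) : X × X)) := by
      fun_prop
    have h' : Measurable ((fun p : X × X => τ p.1 p.2) ∘
        (fun p : ((Measure X × X) × ℝ≥0∞) × X => ((p.1.1.2, p.2) : X × X))) := hτ.comp h
    exact h'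
  have h2 : Measurable (fun p : ((Measure X × X) × ℝ≥0∞) × X => del hK p.1.1.1 p.2) := by
    have h : Measurable (fun p : ((Measure X × X) × ℝ≥0∞) × X =>
      ((p.1.1.1, p.2) : Measure X × X)) := by fun_prop
    have h' : Measurable ((fun q : Measure X × X => del hK q.1 q.2) ∘
        (fun p : ((Measure X × X) × ℝ≥0∞) × X => ((p.1.1.1, p.2) : Measure X × X))) :=
      (measurable_del hK hcov hdiag).comp h
    exact h'
  have h3 : Measurable (fun p : ((Measure X × X) × ℝ≥0∞) × X =>
      ((del hK p.1.1.1 p.2, p.2), τ p.1.1.2 p.2)) := (h2.prodMk measurable_snd).prodMk h1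
  have hA : MeasurableSet {p : ((Measure X × X) × ℝ≥0∞) × X | τ p.1.1.2 p.2 < p.1.2} :=
    measurableSet_lt h1 (measurable_snd.comp measurable_fst)
  have hB : MeasurableSet {p : ((Measure X × X) × ℝ≥0∞) × X |
      ((del hK p.1.1.1 p.2, p.2), τ p.1.1.2 p.2) ∈ S} := h3 hS
  exact hA.inter hB

theorem measurableSet_stepS {S : Set ((Measure X × X) × ℝ≥0∞)} (hS : MeasurableSet S) :
    MeasurableSet (stepS hK τ S) := by
  have h := measurable_goodK_left hK hcov (g := fun q : (Measure X × X) × ℝ≥0∞ => q.1.1)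
    (by fun_prop) (measurableSet_inner hK hcov hτ hdiag hS)
  have h2 : MeasurableSet {q : (Measure X × X) × ℝ≥0∞ |
      goodK K hK q.1.1 (Prod.mk q ⁻¹' {p : ((Measure X × X) × ℝ≥0∞) × X |
        τ p.1.1.2 p.2 < p.1.2 ∧ ((del hK p.1.1.1 p.2, p.2), τ p.1.1.2 p.2) ∈ S}) = 0} :=
    h (measurableSet_singleton 0)
  exact h2

theorem measurableSet_SSm (n : ℕ) : MeasurableSet (SSm hK τ n) := by
  induction n with
  | zero => exact MeasurableSet.univ
  | succ n ih => exact measurableSet_stepS hK hcov hτ hdiag ih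

theorem measurableSet_CCm (n : ℕ) : MeasurableSet (CCm hK τ n) := by
  induction n with
  | zero => exact MeasurableSet.univ
  | succ n ih => exact (measurableSet_stepS hK hcov hτ hdiag ih).compl

omit hcov hτ hdiag in
theorem del_cnt {F : Set X} (hF : cnt F ∈ LF K) (y : X) : del hK (cnt F) y = cnt (F \ {y}) := by
  unfold del
  rw [goodK_apply hK hF, cnt_restrict F (measurableSet_singleton y).compl]
  rfl

omit hcov hτ hdiag in
theorem LF_cnt_subset {F G : Set X} (h : F ⊆ G) (hG : cnt G ∈ LF K) : cnt F ∈ LF K :=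
  LF_mono (cnt_mono h) hG

theorem mem_stepS_cnt {S : Set ((Measure X × X) × ℝ≥0∞)} (hS : MeasurableSet S) {F : Set X}
    (hF : cnt F ∈ LF K) (x : X) (t : ℝ≥0∞) :
    ((cnt F, x), t) ∈ stepS hK τ S ↔
      ∀ y ∈ F, τ x y < t → ((cnt (F \ {y}), y), τ x y) ∉ S := by
  have hm : MeasurableSet {y | τ x y < t ∧ ((del hK (cnt F) y, y), τ x y) ∈ S} := by
    have h := measurableSet_inner hK hcov hτ hdiag hS
    exact measurable_prodMk_left (x := ((cnt F, x), t)) h
  unfold stepS
  rw [mem_ofPred_eq, goodK_apply hK hF, cnt_eq_zero_iff F hm]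
  simp only [mem_ofPred_eq, not_and, del_cnt hK hF]

theorem mem_SSm_iff (n : ℕ) : ∀ {F : Set X} (_ : cnt F ∈ LF K) (x : X) (t : ℝ≥0∞),
    ((cnt F, x), t) ∈ SSm hK τ n ↔ SS τ n F x t := by
  induction n with
  | zero => intro F _ x t; exact ⟨fun _ => trivial, fun _ => trivial⟩
  | succ n ih =>
    intro F hF x t
    show ((cnt F, x), t) ∈ stepS hK τ (SSm hK τ n) ↔ _
    rw [mem_stepS_cnt hK hcov hτ hdiag (measurableSet_SSm hK hcov hτ hdiag n) hF]
    constructor
    · intro h y hy hlt
      rw [← ih (LF_cnt_subset Set.sdiff_subset hF)]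
      exact h y hy hlt
    · intro h y hy hlt
      rw [ih (LF_cnt_subset Set.sdiff_subset hF)]
      exact h y hy hlt

theorem mem_CCm_iff (n : ℕ) : ∀ {F : Set X} (_ : cnt F ∈ LF K) (x : X) (t : ℝ≥0∞),
    ((cnt F, x), t) ∈ CCm hK τ n ↔ CC τ n F x t := by
  induction n with
  | zero => intro F _ x t; exact ⟨fun _ => trivial, fun _ => trivial⟩
  | succ n ih =>
    intro F hF x t
    show ((cnt F, x), t) ∈ (stepS hK τ (CCm hK τ n))ᶜ ↔ _
    rw [mem_compl_iff, mem_stepS_cnt hK hcov hτ hdiag (measurableSet_CCm hK hcov hτ hdiag n) hF]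
    push Not
    constructor
    · rintro ⟨y, hy, hlt, h⟩
      exact ⟨y, hy, hlt, (ih (LF_cnt_subset Set.sdiff_subset hF) _ _).mp h⟩
    · rintro ⟨y, hy, hlt, h⟩
      exact ⟨y, hy, hlt, (ih (LF_cnt_subset Set.sdiff_subset hF) _ _).mpr h⟩

end meas

end Pool.Agent.Meteor
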