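import Mathlib
import Pool.Agent.Lib_helper16.Meteor.Meas

/-!
Reduced Campbell–Mecke formulas.
-/

namespace Pool.Agent.Meteor

open MeasureTheory Filter ProbabilityTheory Set
open scoped ENNReal NNReal Topology

variable {Ω X : Type*} [MeasurableSpace Ω] [MeasurableSpace X] [MeasurableSingletonClass X]
  {P : Measure Ω} [IsProbabilityMeasure P] {ξ : Ω → Set X} {μ : Measure X}
  {K : ℕ → Set X}

/-- The standing assumptions on the Poisson set. -/
structure PP (P : Measure Ω) (ξ : Ω → Set X) (μ : Measure X) (K : ℕ → Set X) : Prop where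
  poisson : IsPoissonSet P ξ μ
  meas : ∀ m, MeasurableSet (K m)
  mono : Monotone K
  cov : ⋃ m, K m = Set.univ
  fin : ∀ m, μ (K m) < ∞
  noatom : ∀ x, μ {x} = 0
  diag : MeasurableSet {p : X × X | p.1 = p.2}

namespace PP

variable (H : PP P ξ μ K)

include H

theorem measurable_N : Measurable (fun ω => cnt (ξ ω)) := measurable_cnt H.poisson

theorem ae_LF : ∀ᵐ ω ∂P, cnt (ξ ω) ∈ LF K := Meteor.ae_LF H.poisson H.meas H.fin

theorem ae_not_mem (x : X) : ∀ᵐ ω ∂P, x ∉ ξ ω := Meteor.ae_not_mem H.poisson (H.noatom x)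

theorem sigmaFinite : SigmaFinite μ := by
  refine ⟨⟨⟨K, fun _ => trivial, H.fin, H.cov⟩⟩⟩

/-- Reduced Campbell–Mecke formula. -/
theorem mecke_del {f : X × Measure X → ℝ≥0∞} (hf : Measurable f) :
    ∫⁻ ω, ∫⁻ y, f (y, cnt (ξ ω \ {y})) ∂(cnt (ξ ω)) ∂P = ∫⁻ y, ∫⁻ ω, f (y, cnt (ξ ω)) ∂P ∂μ := by
  have hd := measurable_del H.meas H.cov H.diag
  have hg : Measurable (fun p : X × Measure X => f (p.1, del H.meas p.2 p.1)) := by
    apply hf.comp
    apply measurable_fst.prodMk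
    have h : Measurable (fun p : X × Measure X => (p.2, p.1)) := by fun_prop
    exact hd.comp h
  have h1 := mecke H.poisson H.meas H.mono H.cov H.fin hg
  have h2 : ∫⁻ ω, ∫⁻ y, f (y, cnt (ξ ω \ {y})) ∂(cnt (ξ ω)) ∂P =
      ∫⁻ ω, ∫⁻ x, f (x, del H.meas (cnt (ξ ω)) x) ∂(cnt (ξ ω)) ∂P := by
    apply lintegral_congr_ae
    filter_upwards [H.ae_LF] with ω hω
    apply lintegral_congr
    intro y
    rw [del_cnt H.meas hω]
  rw [h2, h1]
  apply lintegral_congr
  intro y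
  apply lintegral_congr_ae
  filter_upwards [H.ae_LF, H.ae_not_mem y] with ω hω hy
  have h3 : cnt (insert y (ξ ω)) ∈ LF K := by
    intro m
    rw [cnt_insert hy, Measure.add_apply]
    apply ENNReal.add_lt_top.mpr ⟨hω m, ?_⟩
    exact lt_of_le_of_lt prob_le_one ENNReal.one_lt_top
  have h4 : f (y, del H.meas (cnt (ξ ω) + Measure.dirac y) y) = f (y, cnt (ξ ω)) := by
    rw [← cnt_insert hy, del_cnt H.meas h3, Set.insert_sdiff_self_of_notMem hy]
  exact h4

/-- Expected number of points with a given property. -/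
theorem expect_count {S : Set (X × Measure X)} (hS : MeasurableSet S) :
    ∫⁻ ω, cnt (ξ ω) {y | (y, cnt (ξ ω \ {y})) ∈ S} ∂P =
      ∫⁻ y, P {ω | (y, cnt (ξ ω)) ∈ S} ∂μ := by
  have h1 := H.mecke_del (f := S.indicator (fun _ => 1)) (measurable_const.indicator hS)
  have h2 : ∀ y, ∫⁻ ω, S.indicator (fun _ => (1 : ℝ≥0∞)) (y, cnt (ξ ω)) ∂P =
      P {ω | (y, cnt (ξ ω)) ∈ S} := by
    intro y
    have hm : MeasurableSet {ω | (y, cnt (ξ ω)) ∈ S} := by
      have : Measurable (fun ω => (y, cnt (ξ ω))) := measurable_const.prodMk H.measurable_N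
      exact this hS
    rw [← lintegral_indicator_one hm]
    rfl
  simp only [h2] at h1
  rw [← h1]
  apply lintegral_congr_ae
  filter_upwards [H.ae_LF] with ω hω
  have hm : MeasurableSet {y | (y, cnt (ξ ω \ {y})) ∈ S} := by
    have h3 : Measurable (fun y : X => (y, del H.meas (cnt (ξ ω)) y)) := by
      apply measurable_id.prodMk
      have h : Measurable (fun y : X => (cnt (ξ ω), y)) := by fun_prop
      exact (measurable_del H.meas H.cov H.diag).comp h
    have h4 := h3 hS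
    simp only [del_cnt H.meas hω] at h4
    exact h4
  have h5 : (fun y => S.indicator (fun _ => (1 : ℝ≥0∞)) (y, cnt (ξ ω \ {y}))) =
      ({y | (y, cnt (ξ ω \ {y})) ∈ S} : Set X).indicator 1 := by
    ext y
    by_cases hy : (y, cnt (ξ ω \ {y})) ∈ S
    · rw [Set.indicator_of_mem hy, Set.indicator_of_mem (by exact hy)]; rfl
    · rw [Set.indicator_of_notMem hy, Set.indicator_of_notMem (by exact hy)]
  rw [h5, lintegral_indicator_one hm]

theorem one_le_cnt {F : Set X} {A : Set X} (hA : MeasurableSet A) (h : ∃ y ∈ F, y ∈ A) :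
    1 ≤ cnt F A := by
  rw [cnt_apply F hA]
  have : 1 ≤ (F ∩ A).encard := by
    rw [Set.one_le_encard_iff_nonempty]
    obtain ⟨y, hy, hyA⟩ := h
    exact ⟨y, hy, hyA⟩
  have h2 := ENat.toENNReal_le.mpr this
  simpa using h2

theorem prob_exists_le {S : Set (X × Measure X)} (hS : MeasurableSet S) :
    P {ω | ∃ y ∈ ξ ω, (y, cnt (ξ ω \ {y})) ∈ S} ≤ ∫⁻ y, P {ω | (y, cnt (ξ ω)) ∈ S} ∂μ := by
  rw [← H.expect_count hS]
  -- majorise by a measurable function
  have hd := measurable_del H.meas H.cov H.diag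
  have hSm : MeasurableSet {p : Ω × X | (p.2, del H.meas (cnt (ξ p.1)) p.2) ∈ S} := by
    have h1 : Measurable (fun p : Ω × X => (p.2, del H.meas (cnt (ξ p.1)) p.2)) := by
      apply measurable_snd.prodMk
      have h : Measurable (fun p : Ω × X => (cnt (ξ p.1), p.2)) :=
        (H.measurable_N.comp measurable_fst).prodMk measurable_snd
      exact hd.comp h
    exact h1 hS
  have hmeas := measurable_goodK_left H.meas H.cov (g := fun ω => cnt (ξ ω)) H.measurable_N hSm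
  have hm2 : MeasurableSet {ω | 1 ≤ goodK K H.meas (cnt (ξ ω)) (Prod.mk ω ⁻¹'
      {p : Ω × X | (p.2, del H.meas (cnt (ξ p.1)) p.2) ∈ S})} := measurableSet_le
        measurable_const hmeas
  have hle : P {ω | ∃ y ∈ ξ ω, (y, cnt (ξ ω \ {y})) ∈ S} ≤
      P {ω | 1 ≤ goodK K H.meas (cnt (ξ ω)) (Prod.mk ω ⁻¹'
      {p : Ω × X | (p.2, del H.meas (cnt (ξ p.1)) p.2) ∈ S})} := by
    apply measure_mono_ae
    filter_upwards [H.ae_LF] with ω hω hex
    show 1 ≤ goodK K H.meas (cnt (ξ ω)) (Prod.mk ω ⁻¹'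
      {p : Ω × X | (p.2, del H.meas (cnt (ξ p.1)) p.2) ∈ S})
    rw [goodK_apply H.meas hω]
    apply H.one_le_cnt (measurable_prodMk_left hSm)
    obtain ⟨y, hy, hyS⟩ := hex
    refine ⟨y, hy, ?_⟩
    show (y, del H.meas (cnt (ξ ω)) y) ∈ S
    rw [del_cnt H.meas hω]
    exact hyS
  refine hle.trans ?_
  have h3 := mul_meas_ge_le_lintegral hmeas (μ := P) 1
  rw [one_mul] at h3
  refine h3.trans (le_of_eq ?_)
  apply lintegral_congr_ae
  filter_upwards [H.ae_LF] with ω hω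
  rw [goodK_apply H.meas hω]
  congr 1
  ext y
  show (y, del H.meas (cnt (ξ ω)) y) ∈ S ↔ (y, cnt (ξ ω \ {y})) ∈ S
  rw [del_cnt H.meas hω]

theorem ae_forall_mem {S : Set (X × Measure X)} (hS : MeasurableSet S)
    (h : ∀ᵐ y ∂μ, ∀ᵐ ω ∂P, (y, cnt (ξ ω)) ∉ S) :
    ∀ᵐ ω ∂P, ∀ y ∈ ξ ω, (y, cnt (ξ ω \ {y})) ∉ S := by
  have h1 := H.prob_exists_le hS
  have h2 : ∫⁻ y, P {ω | (y, cnt (ξ ω)) ∈ S} ∂μ = 0 := by
    rw [lintegral_eq_zero_iff']
    · filter_upwards [h] with y hy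
      have : P {ω | ¬ (y, cnt (ξ ω)) ∉ S} = 0 := hy
      simpa using this
    · have hm : MeasurableSet {p : X × Ω | (p.1, cnt (ξ p.2)) ∈ S} := by
        have : Measurable (fun p : X × Ω => (p.1, cnt (ξ p.2))) :=
          measurable_fst.prodMk (H.measurable_N.comp measurable_snd)
        exact this hS
      exact (measurable_measure_prodMk_left hm).aemeasurable
  rw [h2] at h1
  have h3 : P {ω | ∃ y ∈ ξ ω, (y, cnt (ξ ω \ {y})) ∈ S} = 0 := le_antisymm h1 zero_le
  have h4 : ∀ᵐ ω ∂P, ¬ (∃ y ∈ ξ ω, (y, cnt (ξ ω \ {y})) ∈ S) := by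
    rw [ae_iff]
    simpa using h3
  filter_upwards [h4] with ω hω y hy hyS
  exact hω ⟨y, hy, hyS⟩

end PP

end Pool.Agent.Meteor
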