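import Mathlib
import Pool.Agent.Lib_helper16.Meteor.Defs
import Pool.Agent.Lib_helper16.Meteor.Dyn

/-!
The contact time of two meteors; relation of the abstract dynamics with `IsDynamics`; locality.
-/

namespace Pool.Agent.Meteor

open MeasureTheory Filter Set
open scoped ENNReal NNReal Topology

variable {d : ℕ}

/-- First contact time of two meteors. -/
noncomputable def tau (ε : ℝ) (x y : Met d) : ℝ≥0∞ :=
  ⨅ (t : ℝ≥0) (_ : ‖pos x t - pos y t‖ ≤ 2 * ε), (t : ℝ≥0∞)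

theorem tau_symm (ε : ℝ) (x y : Met d) : tau ε x y = tau ε y x := by
  unfold tau
  simp only [norm_sub_rev]

theorem tau_le {ε : ℝ} {x y : Met d} {t : ℝ≥0} (h : ‖pos x t - pos y t‖ ≤ 2 * ε) :
    tau ε x y ≤ t := iInf₂_le t h

theorem continuous_pos : Continuous (fun p : Met d × ℝ => pos p.1 p.2) := by
  unfold pos
  fun_prop

theorem continuous_pos_nn (x : Met d) : Continuous (fun t : ℝ≥0 => pos x t) := by
  unfold pos
  fun_prop

theorem tau_le_iff {ε : ℝ} {x y : Met d} {t : ℝ≥0} :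
    tau ε x y ≤ t ↔ ∃ s ≤ t, ‖pos x s - pos y s‖ ≤ 2 * ε := by
  constructor
  · intro h
    have hcl : IsClosed {s : ℝ≥0 | ‖pos x s - pos y s‖ ≤ 2 * ε} :=
      isClosed_le (((continuous_pos_nn x).sub (continuous_pos_nn y)).norm) continuous_const
    have hne : {s : ℝ≥0 | ‖pos x s - pos y s‖ ≤ 2 * ε}.Nonempty := by
      by_contra hemp
      rw [Set.not_nonempty_iff_eq_empty] at hemp
      have : tau ε x y = ∞ := by
        unfold tau
        simp only [iInf_eq_top]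
        intro s hs
        exact absurd (show s ∈ {s : ℝ≥0 | ‖pos x s - pos y s‖ ≤ 2 * ε} from hs) (by simp [hemp])
      rw [this] at h
      exact absurd h (by simp)
    have hmem := hcl.csInf_mem hne (OrderBot.bddBelow _)
    refine ⟨_, ?_, hmem⟩
    rw [← ENNReal.coe_le_coe]
    refine le_trans ?_ h
    unfold tau
    refine le_iInf₂ (fun s hs => ?_)
    exact ENNReal.coe_le_coe.mpr (csInf_le (OrderBot.bddBelow _) hs)
  · rintro ⟨s, hst, hs⟩
    exact (tau_le hs).trans (ENNReal.coe_le_coe.mpr hst)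

theorem contact_of_tau_eq {ε : ℝ} {x y : Met d} {t : ℝ≥0} (h : tau ε x y = t) :
    ‖pos x t - pos y t‖ ≤ 2 * ε := by
  obtain ⟨s, hst, hs⟩ := tau_le_iff.mp h.le
  have h1 := tau_le hs
  rw [h] at h1
  have : s = t := le_antisymm hst (ENNReal.coe_le_coe.mp h1)
  rw [← this]; exact hs

theorem isClosed_tau_le (ε : ℝ) (t : ℝ≥0) :
    IsClosed {p : Met d × Met d | tau ε p.1 p.2 ≤ t} := by
  have h1 : IsClosed {q : (Met d × Met d) × (Icc (0 : ℝ≥0) t) |
      ‖pos q.1.1 (q.2 : ℝ≥0) - pos q.1.2 (q.2 : ℝ≥0)‖ ≤ 2 * ε} := by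
    apply isClosed_le _ continuous_const
    apply Continuous.norm
    unfold pos
    fun_prop
  have h2 := isClosedMap_fst_of_compactSpace (X := Met d × Met d) (Y := Icc (0 : ℝ≥0) t) _ h1
  convert h2 using 1
  ext p
  simp only [mem_ofPred_eq, mem_image, Prod.exists, exists_and_right, exists_eq_right]
  rw [tau_le_iff]
  constructor
  · rintro ⟨s, hs, h⟩
    exact ⟨⟨s, ⟨zero_le, hs⟩⟩, h⟩
  · rintro ⟨s, h⟩
    exact ⟨s.1, s.2.2, h⟩

theorem measurable_tau (ε : ℝ) : Measurable (fun p : Met d × Met d => tau ε p.1 p.2) := by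
  apply measurable_of_Iic
  intro c
  induction c with
  | top => simp
  | coe t => exact (isClosed_tau_le ε t).measurableSet

theorem measurable_tau_right (ε : ℝ) (x : Met d) : Measurable (fun y : Met d => tau ε x y) := by
  have h : Measurable (fun y : Met d => ((x, y) : Met d × Met d)) := measurable_prodMk_left
  have h2 : Measurable ((fun p : Met d × Met d => tau ε p.1 p.2) ∘
      (fun y : Met d => ((x, y) : Met d × Met d))) := (measurable_tau ε).comp h
  exact h2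

/-! ### Relation with the dynamics of the statement -/

theorem dynamics_iff {ε : ℝ} {F : Set (Met d)} {T : Met d → ℝ≥0∞} :
    IsDynamics ε F T ↔ DynUp (tau ε) F ∞ T := by
  constructor
  · intro H
    constructor
    · intro x hx y hy hne hle
      by_contra hlt
      push Not at hlt
      obtain ⟨t, ht⟩ : ∃ t : ℝ≥0, tau ε x y = t := by
        have : tau ε x y ≠ ∞ := (lt_of_lt_of_le hlt le_top).ne
        exact ⟨(tau ε x y).toNNReal, (ENNReal.coe_toNNReal this).symm⟩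
      rw [ht] at hlt hle
      have := (H x hx t).mpr ⟨hlt.le, y, hy, hne, hle, contact_of_tau_eq ht⟩
      exact absurd this hlt.ne'
    · intro x hx hlt
      obtain ⟨t, ht⟩ : ∃ t : ℝ≥0, T x = t := ⟨(T x).toNNReal, (ENNReal.coe_toNNReal hlt.ne).symm⟩
      obtain ⟨h1, y, hy, hne, h2, h3⟩ := (H x hx t).mp ht
      have h4 := tau_le h3
      refine ⟨y, hy, hne, h4.trans h2, ?_⟩
      apply le_antisymm _ (by rw [ht]; exact h4)
      by_contra hlt'
      push Not at hlt'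
      obtain ⟨s, hs⟩ : ∃ s : ℝ≥0, tau ε x y = s := by
        have : tau ε x y ≠ ∞ := (lt_of_lt_of_le hlt' le_top).ne
        exact ⟨(tau ε x y).toNNReal, (ENNReal.coe_toNNReal this).symm⟩
      have := (H x hx s).mpr ⟨by rw [← hs]; exact hlt'.le, y, hy, hne,
        by rw [← hs]; exact h4.trans h2, contact_of_tau_eq hs⟩
      rw [this, hs] at hlt'
      exact absurd hlt' (lt_irrefl _)
  · intro H x hx t
    constructor
    · intro ht
      obtain ⟨y, hy, hne, h1, h2⟩ := H.2 x hx (by rw [ht]; exact ENNReal.coe_lt_top)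
      refine ⟨ht.ge, y, hy, hne, ?_, ?_⟩
      · rw [← ht, h2]; exact h1
      · exact contact_of_tau_eq (by rw [← h2]; exact ht)
    · rintro ⟨h1, y, hy, hne, h2, h3⟩
      have h4 := tau_le h3
      exact le_antisymm ((H.1 x hx y hy hne (h4.trans h2)).trans h4) h1

theorem existsAt_iff {ε : ℝ} {F : Set (Met d)} (hF : F.Finite) {x : Met d} (hx : x ∈ F)
    {t : ℝ≥0} : ExistsAt ε F x t ↔ (t : ℝ≥0∞) < life (tau ε) F x := by
  constructor
  · rintro ⟨T, hT, hlt⟩
    rwa [← (dynamics_iff.mp hT).eq_life (tau_symm ε) hF hx]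
  · intro h
    exact ⟨life (tau ε) F, dynamics_iff.mpr (dyn_life (tau_symm ε) hF), h⟩

/-! ### Locality -/

theorem norm_pos_sub_pos (x : Met d) (s t : ℝ) : ‖pos x s - pos x t‖ = |s - t| := by
  unfold pos
  rw [add_sub_add_left_eq_sub, ← sub_smul, norm_smul, Real.norm_eq_abs]
  have : ‖(x.2 : Sp d)‖ = 1 := by
    simp
  rw [this, mul_one]

/-- The region on which the `n`-th approximation depends. -/
def reg (ε : ℝ) (n : ℕ) (x : Met d) (t : ℝ≥0∞) : Set (Met d) :=
  {y | ‖y.1 - pos x t.toReal‖ ≤ t.toReal + 2 * ε * n}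

theorem reg_step {ε : ℝ} {n : ℕ} {x y : Met d} {t : ℝ≥0∞} (ht : t ≠ ∞)
    (h : tau ε x y < t) : reg ε n y (tau ε x y) ⊆ reg ε (n + 1) x t := by
  obtain ⟨s, hs⟩ : ∃ s : ℝ≥0, tau ε x y = s :=
    ⟨(tau ε x y).toNNReal, (ENNReal.coe_toNNReal (h.trans (lt_top_iff_ne_top.mpr ht)).ne).symm⟩
  obtain ⟨u, rfl⟩ : ∃ u : ℝ≥0, t = u := ⟨t.toNNReal, (ENNReal.coe_toNNReal ht).symm⟩
  rw [hs] at h ⊢
  have hsu : s < u := ENNReal.coe_lt_coe.mp h
  have hsu' : (s : ℝ) < u := by exact_mod_cast hsu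
  have h1 := contact_of_tau_eq hs
  intro z hz
  simp only [reg, mem_ofPred_eq, ENNReal.coe_toReal] at hz ⊢
  have h2 : z.1 - pos x u = (z.1 - pos y s) + -(pos x s - pos y s) + (pos x s - pos x u) := by
    abel
  rw [h2]
  have h3 := norm_pos_sub_pos x (s : ℝ) (u : ℝ)
  have h4 : |(s : ℝ) - u| = u - s := by rw [abs_sub_comm]; exact abs_of_pos (by linarith)
  calc ‖(z.1 - pos y s) + -(pos x s - pos y s) + (pos x s - pos x u)‖
      ≤ ‖z.1 - pos y s‖ + ‖-(pos x s - pos y s)‖ + ‖pos x s - pos x u‖ := norm_add₃_le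
    _ ≤ (s + 2 * ε * n) + 2 * ε + (u - s) := by
        rw [norm_neg, h3, h4]; gcongr
    _ = u + 2 * ε * ((n + 1 : ℕ) : ℝ) := by push_cast; ring

theorem mem_reg_of_tau_lt {ε : ℝ} (hε : 0 ≤ ε) {n : ℕ} {x y : Met d} {t : ℝ≥0∞} (ht : t ≠ ∞)
    (h : tau ε x y < t) : y ∈ reg ε (n + 1) x t := by
  apply reg_step ht h
  obtain ⟨s, hs⟩ : ∃ s : ℝ≥0, tau ε x y = s :=
    ⟨(tau ε x y).toNNReal, (ENNReal.coe_toNNReal (h.trans (lt_top_iff_ne_top.mpr ht)).ne).symm⟩
  rw [hs]
  simp only [reg, mem_ofPred_eq, ENNReal.coe_toReal]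
  have h1 : y.1 = pos y 0 := by simp [pos]
  rw [h1, norm_pos_sub_pos]
  have : |0 - (s : ℝ)| = s := by simp
  rw [this]
  have : 0 ≤ 2 * ε * n := by positivity
  linarith

theorem SS_local {ε : ℝ} (hε : 0 ≤ ε) : ∀ (n : ℕ) {F G : Set (Met d)} {x : Met d} {t : ℝ≥0∞}
    (_ : t ≠ ∞), F ∩ reg ε n x t = G ∩ reg ε n x t →
    (SS (tau ε) n F x t ↔ SS (tau ε) n G x t) := by
  intro n
  induction n with
  | zero => intro F G x t _ _; exact Iff.rfl
  | succ n ih =>
    have key : ∀ {F G : Set (Met d)} {x : Met d} {t : ℝ≥0∞} (_ : t ≠ ∞),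
        F ∩ reg ε (n + 1) x t = G ∩ reg ε (n + 1) x t →
        SS (tau ε) (n + 1) F x t → SS (tau ε) (n + 1) G x t := by
      intro F G x t ht hFG h y hy hlt
      have hyr : y ∈ reg ε (n + 1) x t := mem_reg_of_tau_lt hε ht hlt
      have hyF : y ∈ F := by
        have : y ∈ G ∩ reg ε (n + 1) x t := ⟨hy, hyr⟩
        rw [← hFG] at this
        exact this.1
      have h1 := h y hyF hlt
      rwa [ih (G := G \ {y}) (hlt.trans (lt_top_iff_ne_top.mpr ht)).ne] at h1
      have hsub := reg_step (n := n) ht hlt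
      ext z
      constructor
      · rintro ⟨⟨hz1, hz2⟩, hz3⟩
        have : z ∈ F ∩ reg ε (n + 1) x t := ⟨hz1, hsub hz3⟩
        rw [hFG] at this
        exact ⟨⟨this.1, hz2⟩, hz3⟩
      · rintro ⟨⟨hz1, hz2⟩, hz3⟩
        have : z ∈ G ∩ reg ε (n + 1) x t := ⟨hz1, hsub hz3⟩
        rw [← hFG] at this
        exact ⟨⟨this.1, hz2⟩, hz3⟩
    intro F G x t ht hFG
    exact ⟨key ht hFG, key ht hFG.symm⟩

/-- The region is contained in a ball about the starting point. -/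
theorem reg_subset {ε : ℝ} {n : ℕ} {x : Met d} {t : ℝ≥0} :
    reg ε n x t ⊆ {y | ‖y.1 - x.1‖ ≤ 2 * t + 2 * ε * n} := by
  intro y hy
  simp only [reg, mem_ofPred_eq, ENNReal.coe_toReal] at hy ⊢
  have h1 : y.1 - x.1 = (y.1 - pos x t) + (pos x t - pos x 0) := by
    have : pos x 0 = x.1 := by simp [pos]
    rw [this]; abel
  rw [h1]
  have h2 := norm_pos_sub_pos x (t : ℝ) 0
  have h3 : |(t : ℝ) - 0| = t := by simp
  calc ‖(y.1 - pos x t) + (pos x t - pos x 0)‖ ≤ ‖y.1 - pos x t‖ + ‖pos x t - pos x 0‖ :=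
        norm_add_le _ _
    _ ≤ 2 * t + 2 * ε * n := by rw [h2, h3]; linarith

/-! ### Lifetimes in large balls -/

theorem inBall_subset (F : Set (Met d)) (R : ℝ) : inBall F R ⊆ F := fun _ hx => hx.1

theorem inBall_mono (F : Set (Met d)) {R S : ℝ} (h : R ≤ S) : inBall F R ⊆ inBall F S :=
  fun _ hx => ⟨hx.1, hx.2.trans h⟩

/-- Eventual exactness of the approximations. -/
theorem eventually_life_iff {ε : ℝ} (hε : 0 ≤ ε) {F : Set (Met d)}
    (hF : ∀ R, (inBall F R).Finite) {x : Met d} {t : ℝ≥0} {m : ℕ}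
    (h : ¬ CC (tau ε) (m + 1) (F \ {x}) x t) :
    ∀ᶠ R : ℝ in atTop, (((t : ℝ≥0∞) ≤ life (tau ε) (inBall F R) x) ↔
      SS (tau ε) m (F \ {x}) x t) := by
  filter_upwards [eventually_ge_atTop (‖x.1‖ + (2 * t + 2 * ε * m))] with R hR
  have hfin : (inBall F R \ {x}).Finite := (hF R).subset Set.sdiff_subset
  have hx : x ∉ inBall F R \ {x} := by simp
  have hC : ¬ CC (tau ε) (m + 1) (inBall F R \ {x}) x t := by
    intro hC
    apply h
    exact CC_mono _ (Set.sdiff_subset_sdiff_left (inBall_subset F R)) le_rfl hC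
  rw [← life_diff, ← SS_exact (tau_symm ε) hfin hx hC]
  apply SS_local hε m ENNReal.coe_ne_top
  ext y
  simp only [mem_inter_iff, Set.mem_sdiff, mem_singleton_iff]
  constructor
  · rintro ⟨⟨h1, h2⟩, h3⟩
    exact ⟨⟨h1.1, h2⟩, h3⟩
  · rintro ⟨⟨h1, h2⟩, h3⟩
    refine ⟨⟨⟨h1, ?_⟩, h2⟩, h3⟩
    have h4 := reg_subset h3
    simp only [mem_ofPred_eq] at h4
    have h5 : ‖y.1‖ ≤ ‖x.1‖ + ‖y.1 - x.1‖ := by
      have := norm_add_le x.1 (y.1 - x.1)
      simpa using this
    linarith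

end Pool.Agent.Meteor
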