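import Mathlib
import Pool.Agent.Lib_helper16.Meteor.Tau

/-!
Measure estimates: caps, tubes, contact times.
-/

namespace Pool.Agent.Meteor

open MeasureTheory Filter Set
open scoped ENNReal NNReal Topology Pointwise

variable {d : ℕ}

section basics

variable [NeZero d]

theorem toSphere_univ_pos : 0 < (volume : Measure (Sp d)).toSphere Set.univ := by
  rw [Measure.toSphere_apply_univ]
  have h1 : 0 < (volume : Measure (Sp d)) (Metric.ball 0 1) := Metric.measure_ball_pos _ _ one_pos
  have h2 : (0 : ℝ≥0∞) < (Module.finrank ℝ (Sp d) : ℝ≥0∞) := by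
    simp [NeZero.pos d]
  exact ENNReal.mul_pos h2.ne' h1.ne'

omit [NeZero d] in
theorem toSphere_univ_lt_top : (volume : Measure (Sp d)).toSphere Set.univ < ∞ :=
  measure_lt_top _ _

instance unif_prob : IsProbabilityMeasure (unif d) := by
  constructor
  unfold unif
  rw [Measure.smul_apply, smul_eq_mul]
  exact ENNReal.inv_mul_cancel toSphere_univ_pos.ne' toSphere_univ_lt_top.ne

instance intensity_sfinite : SFinite (intensity d) := by
  unfold intensity; infer_instance

instance intensity_sigmaFinite : SigmaFinite (intensity d) := by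
  unfold intensity; infer_instance

theorem cap_bound (v : Dir d) {β : ℝ} (hβ : 0 < β) :
    unif d {w | ‖(w : Sp d) - v‖ ≤ β} ≤ ENNReal.ofReal (3 * 2 ^ d * β ^ (d - 1)) := by
  have hdpos : 1 ≤ d := NeZero.one_le
  rcases le_or_gt β 1 with h1 | h1
  · -- small caps
    obtain ⟨n, hn⟩ : ∃ n : ℕ, n = ⌈1 / β⌉₊ := ⟨_, rfl⟩
    have hn1 : 1 / β ≤ n := by rw [hn]; exact Nat.le_ceil _
    have hn2 : (n : ℝ) < 1 / β + 1 := by rw [hn]; exact Nat.ceil_lt_add_one (by positivity)
    have hnpos : (0 : ℝ) < n := lt_of_lt_of_le (by positivity) hn1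
    have hn3 : 1 / (n : ℝ) ≤ β := by
      rw [div_le_iff₀ hnpos]
      rw [div_le_iff₀ hβ] at hn1
      linarith
    have hmeas : MeasurableSet {w : Dir d | ‖(w : Sp d) - v‖ ≤ β} := by
      apply (isClosed_le _ continuous_const).measurableSet
      fun_prop
    have hsub : (Ioo (0 : ℝ) 1 • ((↑) '' {w : Dir d | ‖(w : Sp d) - v‖ ≤ β}) : Set (Sp d)) ⊆
        ⋃ i ∈ Finset.range (n + 1), Metric.closedBall (((i : ℝ) / n) • (v : Sp d)) (2 * β) := by
      rintro _ ⟨r, hr, _, ⟨w, hw, rfl⟩, rfl⟩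
      simp only [mem_iUnion, Metric.mem_closedBall, dist_eq_norm]
      refine ⟨⌊r * n⌋₊, ?_, ?_⟩
      · rw [Finset.mem_range]
        have : r * n ≤ n := by nlinarith [hr.2]
        have := Nat.floor_le_floor this
        rw [Nat.floor_natCast] at this
        omega
      · obtain ⟨i, hi⟩ : ∃ i : ℕ, i = ⌊r * n⌋₊ := ⟨_, rfl⟩
        rw [← hi]
        have h2 : (i : ℝ) ≤ r * n := by rw [hi]; exact Nat.floor_le (by nlinarith [hr.1])
        have h3 : r * n < i + 1 := by rw [hi]; exact Nat.lt_floor_add_one _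
        have h4 : |r - i / n| ≤ β := by
          have h5 : r - i / n = (r * n - i) / n := by field_simp
          rw [h5, abs_of_nonneg (div_nonneg (by linarith) hnpos.le)]
          refine le_trans ?_ hn3
          gcongr
          linarith
        have h5 : r • (w : Sp d) - ((i : ℝ) / n) • (v : Sp d) =
            r • ((w : Sp d) - v) + (r - i / n) • (v : Sp d) := by
          rw [smul_sub, sub_smul]; abel
        show ‖r • (w : Sp d) - ((i : ℝ) / n) • (v : Sp d)‖ ≤ 2 * β
        rw [h5]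
        have hvn : ‖(v : Sp d)‖ = 1 := by simp
        calc _ ≤ ‖r • ((w : Sp d) - v)‖ + ‖(r - i / n) • (v : Sp d)‖ := norm_add_le _ _
          _ = |r| * ‖(w : Sp d) - v‖ + |r - i / n| * 1 := by
              rw [norm_smul, norm_smul, Real.norm_eq_abs, Real.norm_eq_abs, hvn]
          _ ≤ 1 * β + β * 1 := by
              have : |r| ≤ 1 := by rw [abs_of_pos hr.1]; exact hr.2.le
              have hw' : ‖(w : Sp d) - v‖ ≤ β := hw
              gcongr
          _ = 2 * β := by ring
    unfold unif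
    rw [Measure.smul_apply, smul_eq_mul, Measure.toSphere_apply' _ hmeas]
    have hvol : (volume : Measure (Sp d))
        (Ioo (0 : ℝ) 1 • ((↑) '' {w : Dir d | ‖(w : Sp d) - v‖ ≤ β})) ≤
        ENNReal.ofReal (3 * 2 ^ d * β ^ (d - 1)) * volume (Metric.ball (0 : Sp d) 1) := by
      calc (volume : Measure (Sp d)) _ ≤ volume (⋃ i ∈ Finset.range (n + 1),
            Metric.closedBall (((i : ℝ) / n) • (v : Sp d)) (2 * β)) := measure_mono hsub
        _ ≤ ∑ i ∈ Finset.range (n + 1),
            volume (Metric.closedBall (((i : ℝ) / n) • (v : Sp d)) (2 * β)) :=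
            measure_biUnion_finset_le _ _
        _ = ∑ _i ∈ Finset.range (n + 1),
            ENNReal.ofReal ((2 * β) ^ d) * volume (Metric.ball (0 : Sp d) 1) := by
            apply Finset.sum_congr rfl
            intro i _
            rw [Measure.addHaar_closedBall _ _ (by positivity)]
            simp
        _ = ENNReal.ofReal ((n + 1) * (2 * β) ^ d) * volume (Metric.ball (0 : Sp d) 1) := by
            rw [Finset.sum_const, Finset.card_range, nsmul_eq_mul, ← mul_assoc,
              ENNReal.ofReal_mul (by positivity)]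
            congr 2
            rw [← ENNReal.ofReal_natCast]
            push_cast
            rfl
        _ ≤ _ := by
            refine mul_le_mul' (ENNReal.ofReal_le_ofReal ?_) le_rfl
            have h6 : β ^ d = β ^ (d - 1) * β := by
              rw [← pow_succ]; congr 1; omega
            rw [mul_pow, h6]
            have h7 : (n + 1 : ℝ) * β ≤ 3 := by
              have : (n + 1 : ℝ) ≤ 1 / β + 2 := by linarith
              calc (n + 1 : ℝ) * β ≤ (1 / β + 2) * β := by gcongr
                _ = 1 + 2 * β := by field_simp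
                _ ≤ 3 := by linarith
            have h8 : 0 ≤ 2 ^ d * β ^ (d - 1) := by positivity
            calc (n + 1 : ℝ) * (2 ^ d * (β ^ (d - 1) * β)) = ((n + 1) * β) * (2 ^ d * β ^ (d - 1)) := by
                  ring
              _ ≤ 3 * (2 ^ d * β ^ (d - 1)) := by gcongr
              _ = 3 * 2 ^ d * β ^ (d - 1) := by ring
    calc ((volume : Measure (Sp d)).toSphere univ)⁻¹ * (↑(Module.finrank ℝ (Sp d)) *
          volume (Ioo (0 : ℝ) 1 • ((↑) '' {w : Dir d | ‖(w : Sp d) - v‖ ≤ β}) : Set (Sp d)))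
        ≤ ((volume : Measure (Sp d)).toSphere univ)⁻¹ * (↑(Module.finrank ℝ (Sp d)) *
          (ENNReal.ofReal (3 * 2 ^ d * β ^ (d - 1)) * volume (Metric.ball (0 : Sp d) 1))) := by
          gcongr
      _ = ENNReal.ofReal (3 * 2 ^ d * β ^ (d - 1)) *
          (((volume : Measure (Sp d)).toSphere univ)⁻¹ * (volume : Measure (Sp d)).toSphere univ) := by
          rw [Measure.toSphere_apply_univ]
          ring
      _ = ENNReal.ofReal (3 * 2 ^ d * β ^ (d - 1)) := by
          rw [ENNReal.inv_mul_cancel toSphere_univ_pos.ne' toSphere_univ_lt_top.ne, mul_one]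
  · calc unif d {w | ‖(w : Sp d) - v‖ ≤ β} ≤ 1 := prob_le_one
      _ ≤ ENNReal.ofReal (3 * 2 ^ d * β ^ (d - 1)) := by
        rw [← ENNReal.ofReal_one]
        apply ENNReal.ofReal_le_ofReal
        have h2 : (1 : ℝ) ≤ 2 ^ d := one_le_pow₀ (by norm_num)
        have h3 : (1 : ℝ) ≤ β ^ (d - 1) := one_le_pow₀ h1.le
        nlinarith

/-- Volume of the unit ball, as a real number. -/
noncomputable def om (d : ℕ) : ℝ := ((volume : Measure (Sp d)) (Metric.ball (0 : Sp d) 1)).toReal

omit [NeZero d] in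
theorem om_eq : (volume : Measure (Sp d)) (Metric.ball (0 : Sp d) 1) = ENNReal.ofReal (om d) := by
  unfold om
  rw [ENNReal.ofReal_toReal]
  exact measure_ball_lt_top.ne

omit [NeZero d] in
theorem om_pos : 0 < om d := by
  unfold om
  apply ENNReal.toReal_pos
  · exact (Metric.measure_ball_pos _ _ one_pos).ne'
  · exact measure_ball_lt_top.ne

omit [NeZero d] in
theorem vol_closedBall (x : Sp d) {r : ℝ} (hr : 0 ≤ r) :
    (volume : Measure (Sp d)) (Metric.closedBall x r) = ENNReal.ofReal (r ^ d * om d) := by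
  rw [Measure.addHaar_closedBall _ _ hr, om_eq, ← ENNReal.ofReal_mul (by positivity)]
  simp

theorem vol_ball (x : Sp d) {r : ℝ} (hr : 0 ≤ r) :
    (volume : Measure (Sp d)) (Metric.ball x r) = ENNReal.ofReal (r ^ d * om d) := by
  rw [Measure.addHaar_ball _ _ hr, om_eq, ← ENNReal.ofReal_mul (by positivity)]
  simp

theorem pow_sub_pow_le' (A δ : ℝ) (hA : 0 ≤ A) (hδ : 0 ≤ δ) (n : ℕ) :
    (A + δ) ^ n - A ^ n ≤ n * δ * (A + δ) ^ (n - 1) := by
  induction n with
  | zero => simp
  | succ n ih =>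
    have h1 : (A + δ) ^ (n + 1) - A ^ (n + 1) = (A + δ) * ((A + δ) ^ n - A ^ n) + δ * A ^ n := by
      ring
    rw [h1]
    have h2 : A ^ n ≤ (A + δ) ^ n := by gcongr; linarith
    have h3 : (A + δ) * ((n : ℝ) * δ * (A + δ) ^ (n - 1)) = n * δ * (A + δ) ^ n := by
      rcases Nat.eq_zero_or_pos n with rfl | hn
      · simp
      · have : (A + δ) ^ n = (A + δ) ^ (n - 1) * (A + δ) := by
          rw [← pow_succ]; congr 1; omega
        rw [this]; ring
    calc (A + δ) * ((A + δ) ^ n - A ^ n) + δ * A ^ n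
        ≤ (A + δ) * (n * δ * (A + δ) ^ (n - 1)) + δ * (A + δ) ^ n := by gcongr
      _ = n * δ * (A + δ) ^ n + δ * (A + δ) ^ n := by rw [h3]
      _ = ((n + 1 : ℕ) : ℝ) * δ * (A + δ) ^ (n + 1 - 1) := by
          rw [Nat.add_sub_cancel]; push_cast; ring

/-- The intensity of a set whose slices at fixed direction are uniformly small. -/
theorem intensity_le_of_slices {s : Set (Met d)} (hs : MeasurableSet s) {A : Set (Dir d)}
    (hA : MeasurableSet A) {c : ℝ≥0∞} (hslice : ∀ w ∈ A, volume ((fun z => (z, w)) ⁻¹' s) ≤ c)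
    (hemp : ∀ w ∉ A, (fun z : Sp d => (z, w)) ⁻¹' s = ∅) :
    intensity d s ≤ unif d A * c := by
  unfold intensity
  rw [Measure.prod_apply_symm hs]
  calc ∫⁻ w, volume ((fun z => (z, w)) ⁻¹' s) ∂unif d
      ≤ ∫⁻ w, A.indicator (fun _ => c) w ∂unif d := by
        apply lintegral_mono
        intro w
        by_cases hw : w ∈ A
        · simp only [Set.indicator_of_mem hw]; exact hslice w hw
        · simp only [Set.indicator_of_notMem hw]; rw [hemp w hw]; simp
    _ = unif d A * c := by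
        rw [lintegral_indicator hA, lintegral_const, Measure.restrict_apply_univ, mul_comm]

/-- The constant of the contact-time bound. -/
noncomputable def C1 (ε : ℝ) (d : ℕ) : ℝ := om d * (2 * d * (2 * ε + 2) ^ (d - 1))

omit [NeZero d] in
theorem C1_nonneg {ε : ℝ} (hε : 0 ≤ ε) : 0 ≤ C1 ε d := by
  unfold C1
  have := om_pos (d := d)
  positivity

omit [NeZero d] in
theorem measurableSet_tau_Ioc (ε : ℝ) (x : Met d) (a b : ℝ≥0∞) :
    MeasurableSet {y | a < tau ε x y ∧ tau ε x y ≤ b} := by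
  have h : Measurable (fun y : Met d => tau ε x y) := measurable_tau_right ε x
  have h1 : MeasurableSet {y : Met d | a < tau ε x y} := measurableSet_lt measurable_const h
  have h2 : MeasurableSet {y : Met d | tau ε x y ≤ b} := measurableSet_le h measurable_const
  exact h1.inter h2

omit [NeZero d] in
theorem norm_diff_move (x y : Met d) (s a : ℝ) :
    ‖(pos x s - pos y s) - (pos x a - pos y a)‖ ≤ 2 * |s - a| := by
  have h1 : (pos x s - pos y s) - (pos x a - pos y a) =
      (pos x s - pos x a) - (pos y s - pos y a) := by abel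
  rw [h1]
  calc _ ≤ ‖pos x s - pos x a‖ + ‖pos y s - pos y a‖ := norm_sub_le _ _
    _ = 2 * |s - a| := by rw [norm_pos_sub_pos, norm_pos_sub_pos]; ring

theorem contact_bound_step {ε : ℝ} (hε : 0 < ε) (x : Met d) (a h : ℝ≥0) (hh : h ≤ 1) :
    intensity d {y | (a : ℝ≥0∞) < tau ε x y ∧ tau ε x y ≤ ((a + h : ℝ≥0) : ℝ≥0∞)} ≤
      ENNReal.ofReal (C1 ε d * h) := by
  have h1 : intensity d {y | (a : ℝ≥0∞) < tau ε x y ∧ tau ε x y ≤ ((a + h : ℝ≥0) : ℝ≥0∞)} ≤
      unif d univ * ENNReal.ofReal (C1 ε d * h) := by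
    apply intensity_le_of_slices (measurableSet_tau_Ioc _ _ _ _) MeasurableSet.univ
    · intro w _
      obtain ⟨c, hc⟩ : ∃ c : Sp d, c = x.1 + (a : ℝ) • ((x.2 : Sp d) - w) := ⟨_, rfl⟩
      have hsub : ((fun z : Sp d => (z, w)) ⁻¹'
          {y | (a : ℝ≥0∞) < tau ε x y ∧ tau ε x y ≤ ((a + h : ℝ≥0) : ℝ≥0∞)}) ⊆
          Metric.closedBall c (2 * ε + 2 * h) \ Metric.closedBall c (2 * ε) := by
        rintro z ⟨hz1, hz2⟩
        rw [tau_le_iff] at hz2
        obtain ⟨s, hs, hcs⟩ := hz2
        have hcz : pos x a - pos (z, w) a = c - z := by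
          rw [hc]; unfold pos; simp only [smul_sub]; abel
        have has : a ≤ s := by
          by_contra hlt
          push Not at hlt
          have : tau ε x (z, w) ≤ s := tau_le hcs
          exact absurd (lt_of_lt_of_le hz1 this) (not_lt.mpr (ENNReal.coe_le_coe.mpr hlt.le))
        constructor
        · rw [Metric.mem_closedBall, dist_comm, dist_eq_norm, ← hcz]
          have h2 := norm_diff_move x (z, w) (s : ℝ) (a : ℝ)
          have h3 : |(s : ℝ) - a| ≤ h := by
            have : (s : ℝ) ≤ a + h := by exact_mod_cast hs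
            have h4 : (a : ℝ) ≤ s := by exact_mod_cast has
            rw [abs_of_nonneg (by linarith)]; linarith
          have h4 : pos x a - pos (z, w) a = (pos x s - pos (z, w) s) -
              ((pos x s - pos (z, w) s) - (pos x a - pos (z, w) a)) := by abel
          rw [h4]
          calc _ ≤ ‖pos x s - pos (z, w) s‖ +
                ‖(pos x s - pos (z, w) s) - (pos x a - pos (z, w) a)‖ := norm_sub_le _ _
            _ ≤ 2 * ε + 2 * h := by linarith
        · intro hmem
          rw [Metric.mem_closedBall, dist_comm, dist_eq_norm, ← hcz] at hmem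
          exact absurd hz1 (not_lt.mpr (tau_le hmem))
      have hε2 : 0 ≤ 2 * ε := by positivity
      have hh0 : (0 : ℝ) ≤ h := h.2
      have hh1 : (h : ℝ) ≤ 1 := by exact_mod_cast hh
      calc volume _ ≤ volume (Metric.closedBall c (2 * ε + 2 * h) \ Metric.closedBall c (2 * ε)) :=
            measure_mono hsub
        _ = volume (Metric.closedBall c (2 * ε + 2 * h)) - volume (Metric.closedBall c (2 * ε)) := by
            apply measure_sdiff _ Metric.isClosed_closedBall.measurableSet.nullMeasurableSet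
            · exact measure_closedBall_lt_top.ne
            · apply Metric.closedBall_subset_closedBall; linarith
        _ = ENNReal.ofReal ((2 * ε + 2 * h) ^ d * om d - (2 * ε) ^ d * om d) := by
            rw [vol_closedBall _ (by positivity), vol_closedBall _ hε2, ENNReal.ofReal_sub]
            have := om_pos (d := d)
            positivity
        _ ≤ ENNReal.ofReal (C1 ε d * h) := by
            apply ENNReal.ofReal_le_ofReal
            unfold C1
            have h5 := pow_sub_pow_le' (2 * ε) (2 * h) hε2 (by positivity) d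
            have h6 : (2 * ε + 2 * h) ^ (d - 1) ≤ (2 * ε + 2) ^ (d - 1) := by
              gcongr; linarith
            have h7 := om_pos (d := d)
            calc (2 * ε + 2 * h) ^ d * om d - (2 * ε) ^ d * om d
                = om d * ((2 * ε + 2 * h) ^ d - (2 * ε) ^ d) := by ring
              _ ≤ om d * (d * (2 * h) * (2 * ε + 2 * h) ^ (d - 1)) := by gcongr
              _ ≤ om d * (d * (2 * h) * (2 * ε + 2) ^ (d - 1)) := by gcongr
              _ = om d * (2 * d * (2 * ε + 2) ^ (d - 1)) * h := by ring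
    · intro w hw; exact absurd (mem_univ w) hw
  rwa [measure_univ, one_mul] at h1

theorem contact_bound_nat {ε : ℝ} (hε : 0 < ε) (x : Met d) (a h : ℝ≥0) (hh : h ≤ 1) (n : ℕ) :
    intensity d {y | (a : ℝ≥0∞) < tau ε x y ∧ tau ε x y ≤ ((a + n * h : ℝ≥0) : ℝ≥0∞)} ≤
      ENNReal.ofReal (C1 ε d * (n * h)) := by
  induction n with
  | zero =>
    have : {y | (a : ℝ≥0∞) < tau ε x y ∧ tau ε x y ≤ ((a + ((0 : ℕ) : ℝ≥0) * h : ℝ≥0) : ℝ≥0∞)} =
        ∅ := by
      ext y
      simp only [mem_ofPred_eq, mem_empty_iff_false, iff_false, not_and, not_le]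
      intro h1
      simpa using h1
    rw [this]; simp
  | succ n ih =>
    have h1 : {y | (a : ℝ≥0∞) < tau ε x y ∧
        tau ε x y ≤ ((a + ((n + 1 : ℕ) : ℝ≥0) * h : ℝ≥0) : ℝ≥0∞)} ⊆
        {y | (a : ℝ≥0∞) < tau ε x y ∧ tau ε x y ≤ ((a + n * h : ℝ≥0) : ℝ≥0∞)} ∪
        {y | ((a + n * h : ℝ≥0) : ℝ≥0∞) < tau ε x y ∧
          tau ε x y ≤ (((a + n * h) + h : ℝ≥0) : ℝ≥0∞)} := by
      rintro y ⟨hy1, hy2⟩
      rcases le_or_gt (tau ε x y) ((a + n * h : ℝ≥0) : ℝ≥0∞) with h2 | h2
      · exact Or.inl ⟨hy1, h2⟩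
      · refine Or.inr ⟨h2, ?_⟩
        have : a + ((n + 1 : ℕ) : ℝ≥0) * h = (a + n * h) + h := by push_cast; ring
        rwa [this] at hy2
    calc intensity d _ ≤ _ := measure_mono h1
      _ ≤ _ := measure_union_le _ _
      _ ≤ ENNReal.ofReal (C1 ε d * (n * h)) + ENNReal.ofReal (C1 ε d * h) :=
          add_le_add ih (contact_bound_step hε x _ h hh)
      _ = ENNReal.ofReal (C1 ε d * (((n + 1 : ℕ) : ℝ) * h)) := by
          have := C1_nonneg (d := d) hε.le
          rw [← ENNReal.ofReal_add (by positivity) (by positivity)]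
          congr 1; push_cast; ring

/-- The intensity of the meteors touching `x` first at a time in `(a, b]`. -/
theorem contact_bound {ε : ℝ} (hε : 0 < ε) (x : Met d) {a b : ℝ≥0} (hab : a ≤ b) :
    intensity d {y | (a : ℝ≥0∞) < tau ε x y ∧ tau ε x y ≤ (b : ℝ≥0∞)} ≤
      ENNReal.ofReal (C1 ε d * (b - a)) := by
  rcases hab.eq_or_lt with rfl | hlt
  · have : {y | (a : ℝ≥0∞) < tau ε x y ∧ tau ε x y ≤ (a : ℝ≥0∞)} = ∅ := by
      ext y
      simp only [mem_ofPred_eq, mem_empty_iff_false, iff_false, not_and, not_le]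
      exact fun h => h
    rw [this]; simp
  · obtain ⟨n, hn⟩ : ∃ n : ℕ, n = ⌈(b - a : ℝ≥0)⌉₊ := ⟨_, rfl⟩
    have hpos : 0 < b - a := tsub_pos_of_lt hlt
    have hnpos : (0 : ℝ≥0) < n := by
      rw [hn]; exact_mod_cast Nat.ceil_pos.mpr hpos
    have hle : b - a ≤ n := by rw [hn]; exact Nat.le_ceil _
    have h1 := contact_bound_nat hε x a ((b - a) / n) (by
      rw [div_le_one hnpos]; exact hle) n
    have h2 : (n : ℝ≥0) * ((b - a) / n) = b - a := by
      rw [mul_div_cancel₀]; exact hnpos.ne'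
    have h3 : ((n : ℝ) * (((b - a) / n : ℝ≥0) : ℝ)) = b - a := by
      have := congrArg (fun z : ℝ≥0 => (z : ℝ)) h2
      simp only [NNReal.coe_mul, NNReal.coe_natCast] at this
      rw [this, NNReal.coe_sub hab]
    rw [h2, h3, add_tsub_cancel_of_le hab] at h1
    exact h1

omit [NeZero d] in
theorem tau_eq_zero_iff {ε : ℝ} {x y : Met d} : tau ε x y = 0 ↔ ‖x.1 - y.1‖ ≤ 2 * ε := by
  have h0 : ∀ z : Met d, pos z 0 = z.1 := fun z => by simp [pos]
  constructor
  · intro h
    have := contact_of_tau_eq (t := 0) (by simpa using h)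
    simpa [h0] using this
  · intro h
    have := tau_le (ε := ε) (x := x) (y := y) (t := 0) (by simpa [h0] using h)
    simpa using this

/-- The intensity of the meteors touching `x` at time `0`. -/
theorem contact_zero {ε : ℝ} (hε : 0 < ε) (x : Met d) :
    intensity d {y | tau ε x y = 0} = ENNReal.ofReal ((2 * ε) ^ d * om d) := by
  have h1 : {y : Met d | tau ε x y = 0} = Metric.closedBall x.1 (2 * ε) ×ˢ (univ : Set (Dir d)) := by
    ext y
    rw [mem_ofPred_eq, tau_eq_zero_iff, mem_prod, Metric.mem_closedBall, dist_comm, dist_eq_norm]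
    simp
  rw [h1]
  unfold intensity
  rw [Measure.prod_prod, measure_univ, mul_one, vol_closedBall _ (by positivity)]

/-- The constant of the tube bound. -/
noncomputable def C2 (ε : ℝ) (d : ℕ) : ℝ := 3 * 2 ^ d * (2 * ε + 2) ^ (2 * d) * om d

/-- The intensity of the meteors close to `x` touching `x` first after time `t`. -/
theorem near_bound {ε : ℝ} (hε : 0 < ε) (x : Met d) {r t : ℝ} (hr : 0 ≤ r) (ht : 0 < t) :
    intensity d {y | ENNReal.ofReal t ≤ tau ε x y ∧ tau ε x y < ∞ ∧ ‖y.1 - x.1‖ ≤ r} ≤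
      ENNReal.ofReal (C2 ε d * (r + 1) ^ d / t ^ (d - 1)) := by
  obtain ⟨c, hc⟩ : ∃ c : ℝ, c = 2 * ε + 2 := ⟨_, rfl⟩
  have hc0 : 0 < c := by rw [hc]; positivity
  have hmeas : MeasurableSet {y | ENNReal.ofReal t ≤ tau ε x y ∧ tau ε x y < ∞ ∧
      ‖y.1 - x.1‖ ≤ r} := by
    have h : Measurable (fun y : Met d => tau ε x y) := measurable_tau_right ε x
    have h1 : MeasurableSet {y : Met d | ENNReal.ofReal t ≤ tau ε x y} :=
      measurableSet_le measurable_const h
    have h2 : MeasurableSet {y : Met d | tau ε x y < ∞} := measurableSet_lt h measurable_const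
    have h3 : MeasurableSet {y : Met d | ‖y.1 - x.1‖ ≤ r} := by
      apply measurableSet_le _ measurable_const
      fun_prop
    exact h1.inter (h2.inter h3)
  have hA : MeasurableSet {w : Dir d | ‖(w : Sp d) - x.2‖ ≤ (r + 2 * ε) / t} := by
    apply (isClosed_le _ continuous_const).measurableSet
    fun_prop
  have key : intensity d {y | ENNReal.ofReal t ≤ tau ε x y ∧ tau ε x y < ∞ ∧
      ‖y.1 - x.1‖ ≤ r} ≤ unif d {w : Dir d | ‖(w : Sp d) - x.2‖ ≤ (r + 2 * ε) / t} *
      ENNReal.ofReal ((r + 2 * ε + 1) * ((2 * ε + 1) ^ d * om d)) := by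
    -- common consequence
    have hcom : ∀ (z : Sp d) (w : Dir d), (z, w) ∈ {y | ENNReal.ofReal t ≤ tau ε x y ∧
        tau ε x y < ∞ ∧ ‖y.1 - x.1‖ ≤ r} → ∃ s : ℝ, t ≤ s ∧
        ‖(x.1 + s • ((x.2 : Sp d) - w)) - z‖ ≤ 2 * ε ∧
        s * ‖(x.2 : Sp d) - w‖ ≤ r + 2 * ε := by
      rintro z w ⟨h1, h2, h3⟩
      obtain ⟨s, hs⟩ : ∃ s : ℝ≥0, tau ε x (z, w) = s :=
        ⟨(tau ε x (z, w)).toNNReal, (ENNReal.coe_toNNReal h2.ne).symm⟩
      have hts : t ≤ s := by
        rw [hs] at h1
        have := ENNReal.toReal_mono ENNReal.coe_ne_top h1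
        rwa [ENNReal.toReal_ofReal ht.le, ENNReal.coe_toReal] at this
      have h4 := contact_of_tau_eq hs
      have h5 : pos x s - pos (z, w) s = (x.1 + (s : ℝ) • ((x.2 : Sp d) - w)) - z := by
        unfold pos; simp only [smul_sub]; abel
      rw [h5] at h4
      refine ⟨s, hts, h4, ?_⟩
      have h6 : (s : ℝ) • ((x.2 : Sp d) - w) =
          ((x.1 + (s : ℝ) • ((x.2 : Sp d) - w)) - z) + (z - x.1) := by abel
      have h7 : ‖(s : ℝ) • ((x.2 : Sp d) - w)‖ = s * ‖(x.2 : Sp d) - w‖ := by
        rw [norm_smul, Real.norm_eq_abs, abs_of_nonneg (NNReal.coe_nonneg s)]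
      rw [← h7, h6]
      have h3' : ‖z - x.1‖ ≤ r := h3
      calc _ ≤ _ := norm_add_le _ _
        _ ≤ r + 2 * ε := by linarith
    apply intensity_le_of_slices hmeas hA
    · intro w _
      obtain ⟨u, hu⟩ : ∃ u : Sp d, u = (x.2 : Sp d) - w := ⟨_, rfl⟩
      obtain ⟨n, hn⟩ : ∃ n : ℕ, n = ⌊r + 2 * ε⌋₊ := ⟨_, rfl⟩
      have hn1 : (n : ℝ) ≤ r + 2 * ε := by rw [hn]; exact Nat.floor_le (by positivity)
      have hsub : ((fun z : Sp d => (z, w)) ⁻¹' {y | ENNReal.ofReal t ≤ tau ε x y ∧
          tau ε x y < ∞ ∧ ‖y.1 - x.1‖ ≤ r}) ⊆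
          ⋃ i ∈ Finset.range (n + 1),
            Metric.closedBall (x.1 + (i : ℝ) • (‖u‖⁻¹ • u)) (2 * ε + 1) := by
        intro z hz
        obtain ⟨s, hs1, hs2, hs3⟩ := hcom z w hz
        rw [← hu] at hs2 hs3
        simp only [mem_iUnion, Metric.mem_closedBall, dist_eq_norm]
        have hs0 : 0 ≤ s * ‖u‖ := mul_nonneg (ht.le.trans hs1) (norm_nonneg _)
        refine ⟨⌊s * ‖u‖⌋₊, ?_, ?_⟩
        · rw [Finset.mem_range]
          have := Nat.floor_le_floor hs3
          rw [← hn] at this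
          omega
        · obtain ⟨i, hi⟩ : ∃ i : ℕ, i = ⌊s * ‖u‖⌋₊ := ⟨_, rfl⟩
          rw [← hi]
          have h2 : (i : ℝ) ≤ s * ‖u‖ := by rw [hi]; exact Nat.floor_le hs0
          have h3 : s * ‖u‖ < i + 1 := by rw [hi]; exact Nat.lt_floor_add_one _
          have hsu : s • u = (s * ‖u‖) • (‖u‖⁻¹ • u) := by
            by_cases hu0 : u = 0
            · simp [hu0]
            · rw [smul_smul]
              congr 1
              field_simp [norm_ne_zero_iff.mpr hu0]
          have hnu : ‖‖u‖⁻¹ • u‖ ≤ 1 := by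
            by_cases hu0 : u = 0
            · simp [hu0]
            · rw [norm_smul, norm_inv, norm_norm, inv_mul_cancel₀ (norm_ne_zero_iff.mpr hu0)]
          have h4 : z - (x.1 + (i : ℝ) • (‖u‖⁻¹ • u)) = -((x.1 + s • u) - z) +
              (s * ‖u‖ - i) • (‖u‖⁻¹ • u) := by
            rw [hsu, sub_smul]; abel
          rw [h4]
          calc _ ≤ ‖-((x.1 + s • u) - z)‖ + ‖(s * ‖u‖ - i) • (‖u‖⁻¹ • u)‖ := norm_add_le _ _
            _ = ‖(x.1 + s • u) - z‖ + |s * ‖u‖ - i| * ‖‖u‖⁻¹ • u‖ := by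
                rw [norm_neg, norm_smul, Real.norm_eq_abs]
            _ ≤ 2 * ε + 1 * 1 := by
                have : |s * ‖u‖ - i| ≤ 1 := by rw [abs_of_nonneg (by linarith)]; linarith
                gcongr
            _ = 2 * ε + 1 := by ring
      calc volume _ ≤ volume (⋃ i ∈ Finset.range (n + 1),
            Metric.closedBall (x.1 + (i : ℝ) • (‖u‖⁻¹ • u)) (2 * ε + 1)) := measure_mono hsub
        _ ≤ ∑ i ∈ Finset.range (n + 1),
            volume (Metric.closedBall (x.1 + (i : ℝ) • (‖u‖⁻¹ • u)) (2 * ε + 1)) :=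
            measure_biUnion_finset_le _ _
        _ = ∑ _i ∈ Finset.range (n + 1), ENNReal.ofReal ((2 * ε + 1) ^ d * om d) := by
            apply Finset.sum_congr rfl
            intro i _
            rw [vol_closedBall _ (by positivity)]
        _ = ENNReal.ofReal ((n + 1) * ((2 * ε + 1) ^ d * om d)) := by
            rw [Finset.sum_const, Finset.card_range, nsmul_eq_mul,
              ENNReal.ofReal_mul (p := (n : ℝ) + 1) (by positivity)]
            congr 1
            rw [← ENNReal.ofReal_natCast]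
            push_cast
            rfl
        _ ≤ _ := by
            apply ENNReal.ofReal_le_ofReal
            have := om_pos (d := d)
            gcongr
    · intro w hw
      ext z
      simp only [mem_empty_iff_false, iff_false]
      intro hz
      obtain ⟨s, hs1, hs2, hs3⟩ := hcom z w hz
      apply hw
      rw [mem_ofPred_eq, norm_sub_rev, le_div_iff₀ ht]
      calc ‖(x.2 : Sp d) - w‖ * t ≤ ‖(x.2 : Sp d) - w‖ * s := by gcongr
        _ = s * ‖(x.2 : Sp d) - w‖ := by ring
        _ ≤ _ := hs3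
  refine key.trans ?_
  have hcap := cap_bound x.2 (β := (r + 2 * ε) / t) (by positivity)
  have hω := om_pos (d := d)
  calc unif d {w : Dir d | ‖(w : Sp d) - x.2‖ ≤ (r + 2 * ε) / t} *
        ENNReal.ofReal ((r + 2 * ε + 1) * ((2 * ε + 1) ^ d * om d))
      ≤ ENNReal.ofReal (3 * 2 ^ d * ((r + 2 * ε) / t) ^ (d - 1)) *
        ENNReal.ofReal ((r + 2 * ε + 1) * ((2 * ε + 1) ^ d * om d)) := by gcongr
    _ = ENNReal.ofReal (3 * 2 ^ d * ((r + 2 * ε) / t) ^ (d - 1) *
        ((r + 2 * ε + 1) * ((2 * ε + 1) ^ d * om d))) := by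
        rw [← ENNReal.ofReal_mul (by positivity)]
    _ ≤ ENNReal.ofReal (C2 ε d * (r + 1) ^ d / t ^ (d - 1)) := by
        apply ENNReal.ofReal_le_ofReal
        unfold C2
        rw [← hc]
        have h1 : r + 2 * ε ≤ c * (r + 1) := by rw [hc]; nlinarith
        have h2 : r + 2 * ε + 1 ≤ c * (r + 1) := by rw [hc]; nlinarith
        have h3 : 2 * ε + 1 ≤ c := by rw [hc]; linarith
        have hd1 : 1 ≤ d := NeZero.one_le
        rw [div_pow]
        calc 3 * 2 ^ d * ((r + 2 * ε) ^ (d - 1) / t ^ (d - 1)) *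
              ((r + 2 * ε + 1) * ((2 * ε + 1) ^ d * om d))
            ≤ 3 * 2 ^ d * ((c * (r + 1)) ^ (d - 1) / t ^ (d - 1)) *
              ((c * (r + 1)) * (c ^ d * om d)) := by gcongr
          _ = 3 * 2 ^ d * ((c * (r + 1)) ^ (d - 1) * (c * (r + 1))) * c ^ d * om d /
              t ^ (d - 1) := by ring
          _ = 3 * 2 ^ d * (c * (r + 1)) ^ d * c ^ d * om d / t ^ (d - 1) := by
              rw [← pow_succ]; congr 6; omega
          _ = 3 * 2 ^ d * c ^ (2 * d) * om d * (r + 1) ^ d / t ^ (d - 1) := by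
              rw [mul_pow, two_mul d, pow_add]; ring

end basics

end Pool.Agent.Meteor
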