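import Mathlib
import Pool.Agent.Lib_helper16.Meteor.Campbell
import Pool.Agent.Lib_helper16.Meteor.Geom

/-!
Probability bounds for chains.
-/

namespace Pool.Agent.Meteor

open MeasureTheory Filter ProbabilityTheory Set
open scoped ENNReal NNReal Topology

variable {d : ℕ}

/-- The exhaustion by balls. -/
def Kd (d : ℕ) : ℕ → Set (Met d) := fun m => {x | ‖x.1‖ ≤ m}

theorem measurableSet_Kd (m : ℕ) : MeasurableSet (Kd d m) := by
  unfold Kd
  apply measurableSet_le _ measurable_const
  fun_prop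

theorem Kd_mono : Monotone (Kd d) := by
  intro m n hmn x hx
  have h1 : ‖x.1‖ ≤ m := hx
  have h2 : (m : ℝ) ≤ n := by exact_mod_cast hmn
  exact h1.trans h2

theorem Kd_cov : ⋃ m, Kd d m = Set.univ := by
  ext x
  simp only [mem_iUnion, mem_univ, iff_true]
  obtain ⟨m, hm⟩ := exists_nat_ge ‖x.1‖
  exact ⟨m, hm⟩

theorem diag_met : MeasurableSet {p : Met d × Met d | p.1 = p.2} :=
  isClosed_diagonal.measurableSet

theorem intensity_ball_prod [NeZero d] (A : Set (Sp d)) :
    intensity d (A ×ˢ (univ : Set (Dir d))) = volume A := by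
  unfold intensity
  rw [Measure.prod_prod, measure_univ, mul_one]

theorem intensity_Kd [NeZero d] (m : ℕ) : intensity d (Kd d m) < ∞ := by
  have h1 : Kd d m = Metric.closedBall (0 : Sp d) m ×ˢ (univ : Set (Dir d)) := by
    ext x
    simp [Kd]
  rw [h1, intensity_ball_prod]
  exact measure_closedBall_lt_top

theorem intensity_singleton [NeZero d] (x : Met d) : intensity d {x} = 0 := by
  have h1 : ({x} : Set (Met d)) ⊆ ({x.1} : Set (Sp d)) ×ˢ (univ : Set (Dir d)) := by
    rintro y rfl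
    simp
  apply le_antisymm _ zero_le
  calc intensity d {x} ≤ _ := measure_mono h1
    _ = volume ({x.1} : Set (Sp d)) := intensity_ball_prod _
    _ = 0 := measure_singleton _

section prob

variable {Ω : Type*} [MeasurableSpace Ω] {P : Measure Ω} [IsProbabilityMeasure P]
  {ξ : Ω → Set (Met d)}

theorem PP.of_poisson [NeZero d] (H : IsPoissonSet P ξ (intensity d)) :
    PP P ξ (intensity d) (Kd d) :=
  ⟨H, measurableSet_Kd, Kd_mono, Kd_cov, intensity_Kd, intensity_singleton, diag_met⟩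

theorem finite_inBall {F : Set (Met d)} (hF : cnt F ∈ LF (Kd d)) (R : ℝ) :
    (inBall F R).Finite := by
  obtain ⟨m, hm⟩ := exists_nat_ge R
  have h1 := finite_of_cnt_lt_top (measurableSet_Kd m) (hF m)
  apply h1.subset
  rintro x ⟨hx, hxR⟩
  exact ⟨hx, hxR.trans hm⟩

/-- Measure versions for meteors. -/
abbrev SSe (d : ℕ) (ε : ℝ) (n : ℕ) : Set ((Measure (Met d) × Met d) × ℝ≥0∞) :=
  SSm measurableSet_Kd (tau ε) n

/-- Measure versions for meteors. -/
abbrev CCe (d : ℕ) (ε : ℝ) (n : ℕ) : Set ((Measure (Met d) × Met d) × ℝ≥0∞) :=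
  CCm measurableSet_Kd (tau ε) n

theorem measurableSet_SSe (ε : ℝ) (n : ℕ) : MeasurableSet (SSe d ε n) :=
  measurableSet_SSm measurableSet_Kd Kd_cov (measurable_tau ε) diag_met n

theorem measurableSet_CCe (ε : ℝ) (n : ℕ) : MeasurableSet (CCe d ε n) :=
  measurableSet_CCm measurableSet_Kd Kd_cov (measurable_tau ε) diag_met n

theorem mem_SSe {ε : ℝ} {n : ℕ} {F : Set (Met d)} (hF : cnt F ∈ LF (Kd d)) {x : Met d}
    {t : ℝ≥0∞} : ((cnt F, x), t) ∈ SSe d ε n ↔ SS (tau ε) n F x t :=
  mem_SSm_iff measurableSet_Kd Kd_cov (measurable_tau ε) diag_met n hF x t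

theorem mem_CCe {ε : ℝ} {n : ℕ} {F : Set (Met d)} (hF : cnt F ∈ LF (Kd d)) {x : Met d}
    {t : ℝ≥0∞} : ((cnt F, x), t) ∈ CCe d ε n ↔ CC (tau ε) n F x t :=
  mem_CCm_iff measurableSet_Kd Kd_cov (measurable_tau ε) diag_met n hF x t

/-- The exponential integral bound. -/
theorem exp_integral_bound [NeZero d] {ε : ℝ} (hε : 0 < ε) (x : Met d) (t : ℝ≥0) {h : ℝ≥0}
    (hh0 : 0 < h) :
    ∫⁻ y in {y | 0 < tau ε x y ∧ tau ε x y ≤ t}, ENNReal.ofReal (Real.exp ((tau ε x y).toReal / h))
      ∂(intensity d) ≤ ENNReal.ofReal (2 * C1 ε d * h * Real.exp (t / h)) := by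
  have hC := C1_nonneg (d := d) hε.le
  have hh0' : (0 : ℝ) < h := by exact_mod_cast hh0
  obtain ⟨A, hA⟩ : ∃ A : ℕ → Set (Met d), A = fun j : ℕ =>
    {y | ((t - ((j : ℝ≥0) + 1) * h : ℝ≥0) : ℝ≥0∞) < tau ε x y ∧
      tau ε x y ≤ ((t - (j : ℝ≥0) * h : ℝ≥0) : ℝ≥0∞)} := ⟨_, rfl⟩
  have hAm : ∀ j, MeasurableSet (A j) := by
    intro j; rw [hA]; exact measurableSet_tau_Ioc _ _ _ _
  have hAb : ∀ j, intensity d (A j) ≤ ENNReal.ofReal (C1 ε d * h) := by
    intro j
    rw [hA]
    have hle : t - ((j : ℝ≥0) + 1) * h ≤ t - j * h := by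
      apply tsub_le_tsub_left
      gcongr
      exact le_self_add
    refine (contact_bound hε x hle).trans ?_
    apply ENNReal.ofReal_le_ofReal
    apply mul_le_mul_of_nonneg_left _ hC
    rw [← NNReal.coe_sub hle]
    have : t - (j : ℝ≥0) * h - (t - ((j : ℝ≥0) + 1) * h) ≤ h := by
      rw [tsub_le_iff_left, ← tsub_le_iff_right]
      rw [tsub_le_iff_right]
      have h2 : t ≤ (t - ((j : ℝ≥0) + 1) * h) + ((j : ℝ≥0) + 1) * h := le_tsub_add
      calc t - (j : ℝ≥0) * h ≤ ((t - ((j : ℝ≥0) + 1) * h) + ((j : ℝ≥0) + 1) * h) - j * h :=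
            tsub_le_tsub_right h2 _
        _ = (t - ((j : ℝ≥0) + 1) * h) + h := by
            have : (t - ((j : ℝ≥0) + 1) * h) + ((j : ℝ≥0) + 1) * h =
              ((t - ((j : ℝ≥0) + 1) * h) + h) + j * h := by ring
            rw [this, add_tsub_cancel_right]
    exact_mod_cast this
  have hpt : ∀ y, ({y | 0 < tau ε x y ∧ tau ε x y ≤ t} : Set (Met d)).indicator
      (fun y => ENNReal.ofReal (Real.exp ((tau ε x y).toReal / h))) y ≤
      ∑' j : ℕ, (A j).indicator (fun _ => ENNReal.ofReal (Real.exp (t / h)) *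
        (ENNReal.ofReal (Real.exp (-1))) ^ j) y := by
    intro y
    by_cases hy : y ∈ {y | 0 < tau ε x y ∧ tau ε x y ≤ t}
    · rw [Set.indicator_of_mem hy]
      obtain ⟨hy1, hy2⟩ := hy
      obtain ⟨s, hs⟩ : ∃ s : ℝ≥0, tau ε x y = s :=
        ⟨(tau ε x y).toNNReal, (ENNReal.coe_toNNReal
          (lt_of_le_of_lt hy2 ENNReal.coe_lt_top).ne).symm⟩
      rw [hs] at hy1 hy2 ⊢
      have hst : s ≤ t := ENNReal.coe_le_coe.mp hy2
      have hs0 : 0 < s := by exact_mod_cast hy1
      obtain ⟨j, hj⟩ : ∃ j : ℕ, j = ⌊((t : ℝ) - s) / h⌋₊ := ⟨_, rfl⟩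
      have hst' : (s : ℝ) ≤ t := by exact_mod_cast hst
      have hs0' : (0 : ℝ) < s := by exact_mod_cast hs0
      have h1 : (j : ℝ) ≤ (t - s) / h := by
        rw [hj]; exact Nat.floor_le (div_nonneg (by linarith) hh0'.le)
      have h2 : ((t : ℝ) - s) / h < j + 1 := by rw [hj]; exact Nat.lt_floor_add_one _
      rw [le_div_iff₀ hh0'] at h1
      rw [div_lt_iff₀ hh0'] at h2
      have hyA : y ∈ A j := by
        rw [hA]
        simp only [mem_ofPred_eq, hs]
        constructor
        · rw [ENNReal.coe_lt_coe, ← NNReal.coe_lt_coe, NNReal.coe_sub_def]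
          apply max_lt _ hs0'
          push_cast; linarith
        · rw [ENNReal.coe_le_coe, ← NNReal.coe_le_coe, NNReal.coe_sub_def]
          apply le_max_of_le_left
          push_cast; linarith
      refine le_trans ?_ (ENNReal.le_tsum j)
      rw [Set.indicator_of_mem hyA, ← ENNReal.ofReal_pow (Real.exp_pos _).le,
        ← ENNReal.ofReal_mul (Real.exp_pos _).le]
      apply ENNReal.ofReal_le_ofReal
      rw [← Real.exp_nat_mul, ← Real.exp_add, ENNReal.coe_toReal]
      apply Real.exp_le_exp.mpr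
      rw [div_add' _ _ _ hh0'.ne']
      apply div_le_div_of_nonneg_right _ hh0'.le
      nlinarith
    · rw [Set.indicator_of_notMem hy]; exact zero_le
  have hmS : MeasurableSet {y | 0 < tau ε x y ∧ tau ε x y ≤ t} := measurableSet_tau_Ioc _ _ _ _
  rw [← lintegral_indicator hmS]
  calc ∫⁻ y, ({y | 0 < tau ε x y ∧ tau ε x y ≤ t} : Set (Met d)).indicator
          (fun y => ENNReal.ofReal (Real.exp ((tau ε x y).toReal / h))) y ∂(intensity d)
      ≤ ∫⁻ y, (∑' j : ℕ, (A j).indicator (fun _ => ENNReal.ofReal (Real.exp (t / h)) *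
        (ENNReal.ofReal (Real.exp (-1))) ^ j) y) ∂(intensity d) := lintegral_mono hpt
    _ = ∑' j : ℕ, (∫⁻ y, (A j).indicator (fun _ => ENNReal.ofReal (Real.exp (t / h)) *
        (ENNReal.ofReal (Real.exp (-1))) ^ j) y ∂(intensity d)) := by
        apply lintegral_tsum
        intro j
        exact (measurable_const.indicator (hAm j)).aemeasurable
    _ ≤ ∑' j : ℕ, (ENNReal.ofReal (C1 ε d * h) * ENNReal.ofReal (Real.exp (t / h))) *
        (ENNReal.ofReal (Real.exp (-1))) ^ j := by
        apply ENNReal.tsum_le_tsum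
        intro j
        rw [lintegral_indicator (hAm j), lintegral_const, Measure.restrict_apply_univ]
        calc _ ≤ ENNReal.ofReal (Real.exp (t / h)) * (ENNReal.ofReal (Real.exp (-1))) ^ j *
              ENNReal.ofReal (C1 ε d * h) := by gcongr; exact hAb j
          _ = _ := by ring
    _ = (ENNReal.ofReal (C1 ε d * h) * ENNReal.ofReal (Real.exp (t / h))) *
        (1 - ENNReal.ofReal (Real.exp (-1)))⁻¹ := by
        rw [ENNReal.tsum_mul_left, ENNReal.tsum_geometric]
    _ ≤ (ENNReal.ofReal (C1 ε d * h) * ENNReal.ofReal (Real.exp (t / h))) * 2 := by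
        gcongr
        rw [ENNReal.inv_le_iff_inv_le]
        have h1 : ENNReal.ofReal (Real.exp (-1)) ≤ 2⁻¹ := by
          have : (2 : ℝ≥0∞)⁻¹ = ENNReal.ofReal (1 / 2) := by
            rw [one_div, ENNReal.ofReal_inv_of_pos (by norm_num)]; simp
          rw [this]
          apply ENNReal.ofReal_le_ofReal
          rw [Real.exp_neg, one_div]
          apply inv_anti₀ (by norm_num)
          have := Real.add_one_le_exp (1 : ℝ)
          linarith
        apply ENNReal.le_sub_of_add_le_right ENNReal.ofReal_ne_top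
        calc (2 : ℝ≥0∞)⁻¹ + ENNReal.ofReal (Real.exp (-1)) ≤ 2⁻¹ + 2⁻¹ := by gcongr
          _ = 1 := ENNReal.inv_two_add_inv_two
    _ = ENNReal.ofReal (2 * C1 ε d * h * Real.exp (t / h)) := by
        rw [← ENNReal.ofReal_mul (by positivity)]
        have : (2 : ℝ≥0∞) = ENNReal.ofReal 2 := by simp
        rw [this, ← ENNReal.ofReal_mul (by positivity)]
        congr 1; ring

/-- The time scale of the chain bound. -/
noncomputable def hh (ε : ℝ) (d : ℕ) : ℝ := 1 / (4 * C1 ε d + 1)

/-- The volume of a ball of radius `2 ε`. -/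
noncomputable def V0 (ε : ℝ) (d : ℕ) : ℝ := (2 * ε) ^ d * om d

theorem V0_pos {ε : ℝ} (hε : 0 < ε) : 0 < V0 ε d := by
  unfold V0
  have := om_pos (d := d)
  positivity

theorem hh_pos {ε : ℝ} (hε : 0 < ε) : 0 < hh ε d := by
  unfold hh
  have := C1_nonneg (d := d) hε.le
  positivity

theorem contact_le_bound [NeZero d] {ε : ℝ} (hε : 0 < ε) (x : Met d) (t : ℝ≥0) :
    intensity d {y | tau ε x y ≤ t} ≤ ENNReal.ofReal (V0 ε d + C1 ε d * t) := by
  have h1 : {y : Met d | tau ε x y ≤ t} ⊆ {y | tau ε x y = 0} ∪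
      {y | ((0 : ℝ≥0) : ℝ≥0∞) < tau ε x y ∧ tau ε x y ≤ t} := by
    intro y hy
    rcases eq_or_ne (tau ε x y) 0 with h | h
    · exact Or.inl h
    · exact Or.inr ⟨by simpa using pos_iff_ne_zero.mpr h, hy⟩
  have hC := C1_nonneg (d := d) hε.le
  have hV := V0_pos (d := d) hε
  calc intensity d _ ≤ _ := measure_mono h1
    _ ≤ _ := measure_union_le _ _
    _ ≤ ENNReal.ofReal (V0 ε d) + ENNReal.ofReal (C1 ε d * t) := by
        apply add_le_add
        · rw [contact_zero hε x]; rfl
        · have := contact_bound hε x (zero_le (a := t))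
          simpa using this
    _ = _ := by rw [ENNReal.ofReal_add hV.le (by positivity)]

/-- Exponential bound for the existence of long chains. -/
theorem chain_bound [NeZero d] {ε : ℝ} (hε : 0 < ε) (H : PP P ξ (intensity d) (Kd d)) (n : ℕ) :
    ∀ (x : Met d) (t : ℝ≥0), P {ω | ((cnt (ξ ω), x), (t : ℝ≥0∞)) ∈ CCe d ε (n + 1)} ≤
      ENNReal.ofReal ((V0 ε d + 1) * (1 / 2) ^ n * Real.exp (t / hh ε d)) := by
  have hC := C1_nonneg (d := d) hε.le
  have hV := V0_pos (d := d) hε
  have hhp := hh_pos (d := d) hε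
  induction n with
  | zero =>
    intro x t
    have hS : MeasurableSet {p : Met d × Measure (Met d) | tau ε x p.1 < t} :=
      measurableSet_lt ((measurable_tau_right ε x).comp measurable_fst) measurable_const
    have h1 := H.prob_exists_le hS
    have h2 : P {ω | ((cnt (ξ ω), x), (t : ℝ≥0∞)) ∈ CCe d ε (0 + 1)} ≤
        P {ω | ∃ y ∈ ξ ω, (y, cnt (ξ ω \ {y})) ∈ {p : Met d × Measure (Met d) |
          tau ε x p.1 < t}} := by
      apply measure_mono_ae
      filter_upwards [H.ae_LF] with ω hω h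
      have h3 : CC (tau ε) (0 + 1) (ξ ω) x t := (mem_CCe hω).mp h
      obtain ⟨y, hy, hlt, _⟩ := h3
      exact ⟨y, hy, hlt⟩
    refine h2.trans (h1.trans ?_)
    have h3 : ∫⁻ y, P {ω | (y, cnt (ξ ω)) ∈ {p : Met d × Measure (Met d) | tau ε x p.1 < t}}
        ∂(intensity d) ≤ ∫⁻ y, ({y | tau ε x y ≤ t} : Set (Met d)).indicator 1 y
        ∂(intensity d) := by
      apply lintegral_mono
      intro y
      beta_reduce
      by_cases hy : tau ε x y ≤ t
      · rw [Set.indicator_of_mem (by exact hy)]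
        exact prob_le_one
      · have : {ω | (y, cnt (ξ ω)) ∈ {p : Met d × Measure (Met d) | tau ε x p.1 < t}} = ∅ := by
          ext ω
          simp only [mem_ofPred_eq, mem_empty_iff_false, iff_false, not_lt]
          exact (not_le.mp hy).le
        simp only [this, measure_empty]
        exact zero_le
    refine h3.trans ?_
    have hm : MeasurableSet {y : Met d | tau ε x y ≤ t} :=
      measurableSet_le (measurable_tau_right ε x) measurable_const
    rw [lintegral_indicator_one hm]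
    refine (contact_le_bound hε x t).trans ?_
    apply ENNReal.ofReal_le_ofReal
    have h4 : (t : ℝ) / hh ε d = t * (4 * C1 ε d + 1) := by unfold hh; field_simp
    have h5 := Real.add_one_le_exp ((t : ℝ) / hh ε d)
    have ht : (0 : ℝ) ≤ t := t.2
    rw [pow_zero, mul_one]
    calc V0 ε d + C1 ε d * t ≤ (V0 ε d + 1) * (t / hh ε d + 1) := by
          rw [h4]; nlinarith [mul_nonneg hC ht, mul_nonneg hV.le ht, mul_nonneg hV.le
            (mul_nonneg hC ht)]
      _ ≤ _ := by gcongr
  | succ n ih =>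
    intro x t
    have hS : MeasurableSet {p : Met d × Measure (Met d) | tau ε x p.1 < t ∧
        ((p.2, p.1), tau ε x p.1) ∈ CCe d ε (n + 1)} := by
      have h1 : MeasurableSet {p : Met d × Measure (Met d) | tau ε x p.1 < t} :=
        measurableSet_lt ((measurable_tau_right ε x).comp measurable_fst) measurable_const
      have h2 : Measurable (fun p : Met d × Measure (Met d) => ((p.2, p.1), tau ε x p.1)) :=
        (measurable_snd.prodMk measurable_fst).prodMk
          ((measurable_tau_right ε x).comp measurable_fst)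
      have h3 : MeasurableSet {p : Met d × Measure (Met d) |
        ((p.2, p.1), tau ε x p.1) ∈ CCe d ε (n + 1)} := h2 (measurableSet_CCe ε (n + 1))
      exact h1.inter h3
    have h1 := H.prob_exists_le hS
    have h2 : P {ω | ((cnt (ξ ω), x), (t : ℝ≥0∞)) ∈ CCe d ε (n + 1 + 1)} ≤
        P {ω | ∃ y ∈ ξ ω, (y, cnt (ξ ω \ {y})) ∈ {p : Met d × Measure (Met d) |
          tau ε x p.1 < t ∧ ((p.2, p.1), tau ε x p.1) ∈ CCe d ε (n + 1)}} := by
      apply measure_mono_ae
      filter_upwards [H.ae_LF] with ω hω h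
      have h3 : CC (tau ε) (n + 1 + 1) (ξ ω) x t := (mem_CCe hω).mp h
      obtain ⟨y, hy, hlt, hC⟩ := h3
      refine ⟨y, hy, hlt, ?_⟩
      exact (mem_CCe (LF_cnt_subset Set.sdiff_subset hω)).mpr hC
    refine h2.trans (h1.trans ?_)
    have h3 : ∫⁻ y, P {ω | (y, cnt (ξ ω)) ∈ {p : Met d × Measure (Met d) |
          tau ε x p.1 < t ∧ ((p.2, p.1), tau ε x p.1) ∈ CCe d ε (n + 1)}} ∂(intensity d) ≤
        ∫⁻ y, ENNReal.ofReal ((V0 ε d + 1) * (1 / 2) ^ n) *
          ({y | 0 < tau ε x y ∧ tau ε x y ≤ t} : Set (Met d)).indicator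
          (fun y => ENNReal.ofReal (Real.exp ((tau ε x y).toReal / hh ε d))) y
        ∂(intensity d) := by
      apply lintegral_mono
      intro y
      beta_reduce
      by_cases hy : 0 < tau ε x y ∧ tau ε x y ≤ t
      · rw [Set.indicator_of_mem (by exact hy), ← ENNReal.ofReal_mul (by positivity)]
        obtain ⟨s, hs⟩ : ∃ s : ℝ≥0, tau ε x y = s :=
          ⟨(tau ε x y).toNNReal, (ENNReal.coe_toNNReal
            (lt_of_le_of_lt hy.2 ENNReal.coe_lt_top).ne).symm⟩
        rw [hs, ENNReal.coe_toReal]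
        refine le_trans ?_ (ih y s)
        apply measure_mono
        rintro ω ⟨_, h⟩
        simp only [hs] at h
        exact h
      · rw [Set.indicator_of_notMem (by exact hy), mul_zero]
        apply le_of_eq
        have h4 : ∀ᵐ ω ∂P, ω ∉ {ω | (y, cnt (ξ ω)) ∈ {p : Met d × Measure (Met d) |
          tau ε x p.1 < t ∧ ((p.2, p.1), tau ε x p.1) ∈ CCe d ε (n + 1)}} := by
          filter_upwards [H.ae_LF] with ω hω
          rintro ⟨h5, h6⟩
          have h5' : tau ε x y < t := h5
          have h6' : ((cnt (ξ ω), y), tau ε x y) ∈ CCe d ε (n + 1) := h6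
          rw [mem_CCe hω] at h6'
          obtain ⟨z, _, hz, _⟩ := h6'
          exact hy ⟨lt_of_le_of_lt zero_le hz, h5'.le⟩
        rw [ae_iff] at h4
        simpa using h4
    refine h3.trans ?_
    have hm : MeasurableSet {y | 0 < tau ε x y ∧ tau ε x y ≤ t} := measurableSet_tau_Ioc _ _ _ _
    have hmf : Measurable (({y | 0 < tau ε x y ∧ tau ε x y ≤ t} : Set (Met d)).indicator
          (fun y => ENNReal.ofReal (Real.exp ((tau ε x y).toReal / hh ε d)))) := by
      apply Measurable.indicator _ hm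
      have := (measurable_tau_right ε x)
      fun_prop
    rw [lintegral_const_mul _ hmf, lintegral_indicator hm]
    obtain ⟨h', hh'⟩ : ∃ h' : ℝ≥0, (h' : ℝ) = hh ε d := ⟨⟨hh ε d, hhp.le⟩, rfl⟩
    have hh'0 : 0 < h' := by rw [← NNReal.coe_pos, hh']; exact hhp
    rw [← hh']
    calc _ ≤ ENNReal.ofReal ((V0 ε d + 1) * (1 / 2) ^ n) *
          ENNReal.ofReal (2 * C1 ε d * h' * Real.exp (t / h')) := by
          gcongr
          exact exp_integral_bound hε x t hh'0
      _ = ENNReal.ofReal ((V0 ε d + 1) * (1 / 2) ^ n * (2 * C1 ε d * h' * Real.exp (t / h'))) := by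
          rw [← ENNReal.ofReal_mul (by positivity)]
      _ ≤ _ := by
          apply ENNReal.ofReal_le_ofReal
          have h4 : 2 * C1 ε d * h' ≤ 1 / 2 := by
            rw [hh']; unfold hh
            rw [mul_one_div, div_le_iff₀ (by positivity)]
            linarith
          calc (V0 ε d + 1) * (1 / 2) ^ n * (2 * C1 ε d * h' * Real.exp (t / h'))
              ≤ (V0 ε d + 1) * (1 / 2) ^ n * (1 / 2 * Real.exp (t / h')) := by gcongr
            _ = _ := by rw [pow_succ]; ring

end prob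

end Pool.Agent.Meteor
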