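import Mathlib
import Pool.Agent.Lib_helper16.Meteor.Chain

/-!
Isometries acting on meteors and invariance of the law.
-/

namespace Pool.Agent.Meteor

open MeasureTheory Filter ProbabilityTheory Set
open scoped ENNReal NNReal Topology Pointwise

variable {d : ℕ}

/-- The action of a linear isometry on directions. -/
noncomputable def dirMap (L : Sp d ≃ₗᵢ[ℝ] Sp d) (w : Dir d) : Dir d :=
  ⟨L w, by simp⟩

@[simp] theorem dirMap_coe (L : Sp d ≃ₗᵢ[ℝ] Sp d) (w : Dir d) :
    ((dirMap L w : Dir d) : Sp d) = L w := rfl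

theorem continuous_dirMap (L : Sp d ≃ₗᵢ[ℝ] Sp d) : Continuous (dirMap L) := by
  unfold dirMap
  apply Continuous.subtype_mk
  exact L.continuous.comp continuous_subtype_val

/-- The action on directions as a measurable equivalence. -/
noncomputable def dirEquiv (L : Sp d ≃ₗᵢ[ℝ] Sp d) : Dir d ≃ᵐ Dir d where
  toFun := dirMap L
  invFun := dirMap L.symm
  left_inv w := by apply Subtype.ext; simp
  right_inv w := by apply Subtype.ext; simp
  measurable_toFun := (continuous_dirMap L).measurable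
  measurable_invFun := (continuous_dirMap L.symm).measurable

theorem measurePreserving_dirEquiv (L : Sp d ≃ₗᵢ[ℝ] Sp d) :
    MeasurePreserving (dirEquiv L) (unif d) (unif d) := by
  refine ⟨(dirEquiv L).measurable, ?_⟩
  ext s hs
  rw [Measure.map_apply (dirEquiv L).measurable hs]
  unfold unif
  rw [Measure.smul_apply, Measure.smul_apply]
  congr 1
  have hs' : MeasurableSet ((dirEquiv L) ⁻¹' s) := (dirEquiv L).measurable hs
  rw [Measure.toSphere_apply' _ hs', Measure.toSphere_apply' _ hs]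
  congr 1
  have h1 : (Ioo (0 : ℝ) 1 • ((↑) '' ((dirEquiv L) ⁻¹' s)) : Set (Sp d)) =
      L ⁻¹' (Ioo (0 : ℝ) 1 • ((↑) '' s)) := by
    ext z
    simp only [mem_preimage, Set.mem_smul, mem_image]
    constructor
    · rintro ⟨r, hr, _, ⟨w, hw, rfl⟩, rfl⟩
      refine ⟨r, hr, L w, ⟨dirEquiv L w, hw, rfl⟩, ?_⟩
      simp
    · rintro ⟨r, hr, _, ⟨w, hw, rfl⟩, hz⟩
      refine ⟨r, hr, L.symm w, ⟨(dirEquiv L).symm w, ?_, rfl⟩, ?_⟩
      · show dirEquiv L ((dirEquiv L).symm w) ∈ s
        rw [(dirEquiv L).apply_symm_apply]; exact hw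
      · apply L.injective
        rw [map_smul, L.apply_symm_apply, hz]
  rw [h1]
  exact L.measurePreserving.measure_preimage_equiv (f := L.toHomeomorph.toMeasurableEquiv) _

/-- The action of an isometry on meteors. -/
noncomputable def metEquiv (L : Sp d ≃ₗᵢ[ℝ] Sp d) (b : Sp d) : Met d ≃ᵐ Met d :=
  MeasurableEquiv.prodCongr
    (L.toHomeomorph.toMeasurableEquiv.trans (MeasurableEquiv.addRight b)) (dirEquiv L)

theorem metEquiv_fst (L : Sp d ≃ₗᵢ[ℝ] Sp d) (b : Sp d) (x : Met d) :
    (metEquiv L b x).1 = L x.1 + b := rfl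

theorem metEquiv_snd (L : Sp d ≃ₗᵢ[ℝ] Sp d) (b : Sp d) (x : Met d) :
    ((metEquiv L b x).2 : Sp d) = L x.2 := rfl

theorem pos_metEquiv (L : Sp d ≃ₗᵢ[ℝ] Sp d) (b : Sp d) (x : Met d) (t : ℝ) :
    pos (metEquiv L b x) t = L (pos x t) + b := by
  unfold pos
  rw [metEquiv_fst, metEquiv_snd, map_add, map_smul]
  abel

theorem tau_metEquiv (ε : ℝ) (L : Sp d ≃ₗᵢ[ℝ] Sp d) (b : Sp d) (x y : Met d) :
    tau ε (metEquiv L b x) (metEquiv L b y) = tau ε x y := by
  unfold tau
  have h : ∀ t : ℝ≥0, ‖pos (metEquiv L b x) t - pos (metEquiv L b y) t‖ = ‖pos x t - pos y t‖ := by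
    intro t
    rw [pos_metEquiv, pos_metEquiv, add_sub_add_right_eq_sub, ← map_sub, L.norm_map]
  simp only [h]

theorem measurePreserving_metEquiv [NeZero d] (L : Sp d ≃ₗᵢ[ℝ] Sp d) (b : Sp d) :
    MeasurePreserving (metEquiv L b) (intensity d) (intensity d) := by
  unfold intensity
  have h1 : MeasurePreserving
      (L.toHomeomorph.toMeasurableEquiv.trans (MeasurableEquiv.addRight b))
      (volume : Measure (Sp d)) volume := by
    have h2 : MeasurePreserving (MeasurableEquiv.addRight b) (volume : Measure (Sp d)) volume :=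
      measurePreserving_add_right volume b
    exact L.measurePreserving.trans h2
  exact h1.prod (measurePreserving_dirEquiv L)

/-- Some isometry maps a given meteor to another given one. -/
theorem exists_metEquiv (x y : Met d) : ∃ (L : Sp d ≃ₗᵢ[ℝ] Sp d) (b : Sp d), metEquiv L b x = y := by
  obtain ⟨L, hL⟩ : ∃ L : Sp d ≃ₗᵢ[ℝ] Sp d, L x.2 = y.2 :=
    ⟨_, Submodule.reflection_sub (v := (x.2 : Sp d)) (w := (y.2 : Sp d)) (by simp)⟩
  refine ⟨L, y.1 - L x.1, ?_⟩
  apply Prod.ext
  · rw [metEquiv_fst]; abel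
  · apply Subtype.ext
    rw [metEquiv_snd, hL]

section abstract_equiv

variable {X : Type*} {τ : X → X → ℝ≥0∞} (e : X ≃ X) (he : ∀ x y, τ (e x) (e y) = τ x y)

theorem image_sdiff_singleton_equiv (F : Set X) (y : X) : (e '' F) \ {e y} = e '' (F \ {y}) := by
  rw [Set.image_sdiff e.injective, Set.image_singleton]

include he

theorem SS_equiv (n : ℕ) : ∀ (F : Set X) (x : X) (t : ℝ≥0∞),
    SS τ n (e '' F) (e x) t ↔ SS τ n F x t := by
  induction n with
  | zero => intro F x t; exact Iff.rfl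
  | succ n ih =>
    intro F x t
    constructor
    · intro h y hy hlt hS
      have h1 := h (e y) (mem_image_of_mem e hy) (by rw [he]; exact hlt)
      rw [image_sdiff_singleton_equiv, he, ih] at h1
      exact h1 hS
    · rintro h _ ⟨y, hy, rfl⟩ hlt hS
      rw [he] at hlt hS
      rw [image_sdiff_singleton_equiv, ih] at hS
      exact h y hy hlt hS

theorem CC_equiv (n : ℕ) : ∀ (F : Set X) (x : X) (t : ℝ≥0∞),
    CC τ n (e '' F) (e x) t ↔ CC τ n F x t := by
  induction n with
  | zero => intro F x t; exact Iff.rfl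
  | succ n ih =>
    intro F x t
    constructor
    · rintro ⟨_, ⟨y, hy, rfl⟩, hlt, hC⟩
      rw [he] at hlt hC
      rw [image_sdiff_singleton_equiv, ih] at hC
      exact ⟨y, hy, hlt, hC⟩
    · rintro ⟨y, hy, hlt, hC⟩
      refine ⟨e y, mem_image_of_mem e hy, by rw [he]; exact hlt, ?_⟩
      rw [he, image_sdiff_singleton_equiv, ih]
      exact hC

end abstract_equiv

section law

variable {Ω : Type*} [MeasurableSpace Ω] {P : Measure Ω} [IsProbabilityMeasure P]
  {ξ : Ω → Set (Met d)}

/-- The image process is again Poisson. -/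
theorem PP.image [NeZero d] (H : PP P ξ (intensity d) (Kd d)) (L : Sp d ≃ₗᵢ[ℝ] Sp d) (b : Sp d) :
    PP P (fun ω => metEquiv L b '' ξ ω) (intensity d) (Kd d) :=
  PP.of_poisson (IsPoissonSet.image (metEquiv L b) (measurePreserving_metEquiv L b) H.poisson)

theorem PP.law_image [NeZero d] (H : PP P ξ (intensity d) (Kd d)) (L : Sp d ≃ₗᵢ[ℝ] Sp d)
    (b : Sp d) {B : Set (Measure (Met d))} (hB : MeasurableSet B) :
    P {ω | cnt (metEquiv L b '' ξ ω) ∈ B} = P {ω | cnt (ξ ω) ∈ B} := by
  have h1 := law_unique (H.image L b).poisson H.poisson H.meas H.mono H.cov H.fin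
  have h2 := congrArg (fun ν => ν B) h1
  rw [Measure.map_apply (H.image L b).measurable_N hB, Measure.map_apply H.measurable_N hB] at h2
  exact h2

end law

end Pool.Agent.Meteor
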