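import Mathlib
import Pool.Agent.Lib_helper16.Meteor.Inv

/-!
Survival probabilities, localisation and pair estimates.
-/

namespace Pool.Agent.Meteor

open MeasureTheory Filter ProbabilityTheory Set
open scoped ENNReal NNReal Topology Pointwise

section abs

variable {X : Type*} {τ : X → X → ℝ≥0∞}

theorem SS_two_step : ∀ (n : ℕ), (∀ {F : Set X} {x : X} {t : ℝ≥0∞},
    SS τ (2 * n + 2) F x t → SS τ (2 * n) F x t) ∧ (∀ {F : Set X} {x : X} {t : ℝ≥0∞},
    SS τ (2 * n + 1) F x t → SS τ (2 * n + 3) F x t) := by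
  intro n
  induction n with
  | zero =>
    refine ⟨fun _ => trivial, fun {F x t} h y hy hlt hS => ?_⟩
    exact h y hy hlt trivial
  | succ n ih =>
    have A : ∀ {F : Set X} {x : X} {t : ℝ≥0∞},
        SS τ (2 * (n + 1) + 2) F x t → SS τ (2 * (n + 1)) F x t := by
      intro F x t h y hy hlt hS
      exact h y hy hlt (ih.2 hS)
    refine ⟨A, fun {F x t} h y hy hlt hS => h y hy hlt (A hS)⟩

theorem SS_even_anti {m n : ℕ} (h : m ≤ n) {F : Set X} {x : X} {t : ℝ≥0∞}
    (hS : SS τ (2 * n) F x t) : SS τ (2 * m) F x t := by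
  induction n, h using Nat.le_induction with
  | base => exact hS
  | succ n _ ih => exact ih ((SS_two_step n).1 hS)

/-- Survival in the infinite system (intersection of the upper approximations). -/
def alive (τ : X → X → ℝ≥0∞) (F : Set X) (x : X) (t : ℝ≥0∞) : Prop := ∀ n, SS τ (2 * n) F x t

theorem alive_anti {F : Set X} {x : X} {t u : ℝ≥0∞} (htu : t ≤ u) (h : alive τ F x u) :
    alive τ F x t := fun n => SS_anti _ htu (h n)

theorem alive_iff_SS {F : Set X} {x : X} {t : ℝ≥0∞} {m k : ℕ} (h : ¬ CC τ (m + 1) F x t)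
    (hk : m ≤ k) : alive τ F x t ↔ SS τ k F x t := by
  constructor
  · intro ha
    have h1 := ha m
    rw [← SS_stable' (show m ≤ 2 * m by omega) h, SS_stable' hk h] at h1
    exact h1
  · intro hS n
    have h1 : SS τ (2 * (max m n)) F x t := by
      rw [← SS_stable' (show m ≤ 2 * max m n by omega) h, SS_stable' hk h]; exact hS
    exact SS_even_anti (le_max_right m n) h1

/-- Chains starting at `x` are finite. -/
def CF (τ : X → X → ℝ≥0∞) (F : Set X) (x : X) : Prop := ∀ t : ℝ≥0, ∃ m, ¬ CC τ m F x t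

theorem CC_insert {m : ℕ} {y : X} {t : ℝ≥0∞} : ∀ (n : ℕ) {F : Set X} {x : X} {s : ℝ≥0∞},
    ¬ CC τ m F y t → s ≤ t → CC τ (n + m) (insert y F) x s → CC τ n F x s := by
  intro n
  induction n with
  | zero => intro F x s _ _ _; trivial
  | succ n ih =>
    intro F x s hm hst hC
    rw [show n + 1 + m = (n + m) + 1 by omega] at hC
    obtain ⟨z, hz, hlt, hC'⟩ := hC
    have hle : τ x z ≤ t := hlt.le.trans hst
    by_cases hzy : z = y
    · subst hzy
      exfalso
      apply hm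
      have h1 : CC τ m (insert z F \ {z}) z (τ x z) := CC_antitone (by omega) hC'
      refine CC_mono m ?_ hle h1
      intro w hw
      rcases Set.mem_insert_iff.mp hw.1 with h | h
      · exact absurd h hw.2
      · exact h
    · have hzF : z ∈ F := (Set.mem_insert_iff.mp hz).resolve_left hzy
      refine ⟨z, hzF, hlt, ?_⟩
      apply ih (F := F \ {z}) (fun h => hm (CC_mono m Set.sdiff_subset le_rfl h)) hle
      refine CC_mono _ ?_ le_rfl hC'
      intro w hw
      rcases Set.mem_insert_iff.mp hw.1 with h | h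
      · exact Set.mem_insert_iff.mpr (Or.inl h)
      · exact Set.mem_insert_iff.mpr (Or.inr ⟨h, hw.2⟩)

theorem CF_insert {F : Set X} {x y : X} (hx : CF τ F x) (hy : CF τ F y) :
    CF τ (insert y F) x := by
  intro t
  obtain ⟨n, hn⟩ := hx t
  obtain ⟨m, hm⟩ := hy t
  exact ⟨n + m, fun h => hn (CC_insert n hm le_rfl h)⟩

theorem CF_mono {F G : Set X} (h : F ⊆ G) {x : X} (hG : CF τ G x) : CF τ F x := by
  intro t
  obtain ⟨m, hm⟩ := hG t
  exact ⟨m, fun hC => hm (CC_mono m h le_rfl hC)⟩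

theorem CF.exists_succ {F : Set X} {x : X} (h : CF τ F x) (t : ℝ≥0) :
    ∃ m, ¬ CC τ (m + 1) F x t := by
  obtain ⟨m, hm⟩ := h t
  exact ⟨m, fun hC => hm (CC_succ m hC)⟩

end abs

variable {d : ℕ}

/-- Eventually in `R`, survival in the `R`-dynamics is `alive`. -/
theorem eventually_alive_iff {ε : ℝ} (hε : 0 ≤ ε) {F : Set (Met d)}
    (hF : ∀ R, (inBall F R).Finite) {x : Met d} (hC : CF (tau ε) (F \ {x}) x) (t : ℝ≥0) :
    ∀ᶠ R : ℝ in atTop, (((t : ℝ≥0∞) ≤ life (tau ε) (inBall F R) x) ↔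
      alive (tau ε) (F \ {x}) x t) := by
  obtain ⟨m, hm⟩ := hC.exists_succ t
  filter_upwards [eventually_life_iff hε hF hm] with R hR
  rw [hR, alive_iff_SS hm le_rfl]

/-- The set-level version of `alive`. -/
def Al (d : ℕ) (ε : ℝ) : Set ((Measure (Met d) × Met d) × ℝ≥0∞) := ⋂ n : ℕ, SSe d ε (2 * n)

theorem measurableSet_Al (ε : ℝ) : MeasurableSet (Al d ε) :=
  MeasurableSet.iInter (fun n => measurableSet_SSe ε (2 * n))

theorem mem_Al {ε : ℝ} {F : Set (Met d)} (hF : cnt F ∈ LF (Kd d)) {x : Met d}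
    {t : ℝ≥0∞} : ((cnt F, x), t) ∈ Al d ε ↔ alive (tau ε) F x t := by
  unfold Al alive
  rw [mem_iInter]
  exact forall_congr' (fun n => mem_SSe hF)

/-- The number of steps used at time `t`. -/
noncomputable def mm (ε : ℝ) (d : ℕ) (t : ℝ≥0) : ℕ := ⌈2 * (1 / hh ε d + 1) * t⌉₊

/-- The localisation constant. -/
noncomputable def Kc (ε : ℝ) (d : ℕ) : ℝ := 2 + 4 * ε * (2 * (1 / hh ε d + 1) + 1)

theorem Kc_pos {ε : ℝ} (hε : 0 < ε) : 0 < Kc ε d := by
  unfold Kc
  have := hh_pos (d := d) hε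
  positivity

/-- The localisation ball. -/
def Bl (d : ℕ) (x : Met d) (r : ℝ) : Set (Met d) := {y | ‖y.1 - x.1‖ ≤ r}

theorem measurableSet_Bl (x : Met d) (r : ℝ) : MeasurableSet (Bl d x r) := by
  unfold Bl
  apply measurableSet_le _ measurable_const
  fun_prop

theorem reg_subset_Bl {ε : ℝ} (hε : 0 < ε) (x : Met d) (t : ℝ≥0) :
    reg ε (2 * mm ε d t) x t ⊆ Bl d x (Kc ε d * (t + 1)) := by
  intro y hy
  have h1 := reg_subset hy
  simp only [mem_ofPred_eq] at h1
  have hhp := hh_pos (d := d) hε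
  have ht : (0 : ℝ) ≤ t := t.2
  have h2 : (mm ε d t : ℝ) ≤ 2 * (1 / hh ε d + 1) * t + 1 := by
    unfold mm
    exact (Nat.ceil_lt_add_one (by positivity)).le
  refine h1.trans ?_
  unfold Kc
  push_cast
  have h3 : 2 * ε * (2 * (mm ε d t : ℝ)) ≤ 2 * ε * (2 * (2 * (1 / hh ε d + 1) * t + 1)) := by
    gcongr
  have h4 : (0 : ℝ) < 1 / hh ε d := by positivity
  nlinarith [mul_nonneg hε.le ht, mul_pos hε h4, mul_nonneg (mul_pos hε h4).le ht]

section prob

variable {Ω : Type*} [MeasurableSpace Ω] {P : Measure Ω} [IsProbabilityMeasure P]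
  {ξ : Ω → Set (Met d)} [NeZero d] {ε : ℝ} (hε : 0 < ε) (H : PP P ξ (intensity d) (Kd d))

include hε H

theorem chain_small (x : Met d) (t : ℝ≥0) :
    P {ω | ((cnt (ξ ω), x), (t : ℝ≥0∞)) ∈ CCe d ε (mm ε d t + 1)} ≤
      ENNReal.ofReal ((V0 ε d + 1) * Real.exp (-t)) := by
  refine (chain_bound hε H (mm ε d t) x t).trans ?_
  apply ENNReal.ofReal_le_ofReal
  have hV := V0_pos (d := d) hε
  have hhp := hh_pos (d := d) hε
  rw [mul_assoc]
  apply mul_le_mul_of_nonneg_left _ (by positivity)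
  have h1 : (1 / 2 : ℝ) ≤ Real.exp (-(1 / 2)) := by
    rw [Real.exp_neg, one_div]
    apply inv_anti₀ (Real.exp_pos _)
    have h2 : Real.exp (1 / 2) ^ 2 = Real.exp 1 := by
      rw [← Real.exp_nat_mul]; norm_num
    have h3 := Real.exp_one_lt_d9
    nlinarith [Real.exp_pos (1 / 2 : ℝ)]
  have h2 : 2 * (1 / hh ε d + 1) * t ≤ (mm ε d t : ℝ) := Nat.le_ceil _
  calc (1 / 2 : ℝ) ^ (mm ε d t) * Real.exp (t / hh ε d)
      ≤ (Real.exp (-(1 / 2))) ^ (mm ε d t) * Real.exp (t / hh ε d) := by gcongr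
    _ = Real.exp ((mm ε d t) * (-(1 / 2)) + t / hh ε d) := by
        rw [← Real.exp_nat_mul, Real.exp_add]
    _ ≤ Real.exp (-t) := by
        apply Real.exp_le_exp.mpr
        have : (t : ℝ) / hh ε d = 1 / hh ε d * t := by ring
        rw [this]
        linarith

theorem ae_CF (x : Met d) : ∀ᵐ ω ∂P, CF (tau ε) (ξ ω) x := by
  have h1 : ∀ k : ℕ, ∀ᵐ ω ∂P, ∃ m, ¬ CC (tau ε) m (ξ ω) x ((k : ℝ≥0) : ℝ≥0∞) := by
    intro k
    have h2 : ∀ n : ℕ, P {ω | ∀ m, ((cnt (ξ ω), x), ((k : ℝ≥0) : ℝ≥0∞)) ∈ CCe d ε m} ≤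
        ENNReal.ofReal ((V0 ε d + 1) * (1 / 2) ^ n * Real.exp ((k : ℝ≥0) / hh ε d)) := by
      intro n
      refine le_trans (measure_mono ?_) (chain_bound hε H n x k)
      intro ω hω
      exact hω (n + 1)
    have h3 : Tendsto (fun n : ℕ => ENNReal.ofReal ((V0 ε d + 1) * (1 / 2) ^ n *
        Real.exp ((k : ℝ≥0) / hh ε d))) atTop (𝓝 0) := by
      have h4 : Tendsto (fun n : ℕ => (V0 ε d + 1) * (1 / 2 : ℝ) ^ n *
          Real.exp ((k : ℝ≥0) / hh ε d)) atTop (𝓝 0) := by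
        have h5 := tendsto_pow_atTop_nhds_zero_of_lt_one (r := (1 / 2 : ℝ)) (by norm_num)
          (by norm_num)
        have h6 := (h5.const_mul (V0 ε d + 1)).mul_const (Real.exp ((k : ℝ≥0) / hh ε d))
        simpa using h6
      have := ENNReal.tendsto_ofReal h4
      simpa using this
    have h4 : P {ω | ∀ m, ((cnt (ξ ω), x), ((k : ℝ≥0) : ℝ≥0∞)) ∈ CCe d ε m} = 0 :=
      le_antisymm (ge_of_tendsto' h3 h2) zero_le
    have h5 : ∀ᵐ ω ∂P, ¬ ∀ m, ((cnt (ξ ω), x), ((k : ℝ≥0) : ℝ≥0∞)) ∈ CCe d ε m := by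
      rw [ae_iff]; simpa using h4
    filter_upwards [h5, H.ae_LF] with ω hω hLF
    push Not at hω
    obtain ⟨m, hm⟩ := hω
    exact ⟨m, fun h => hm ((mem_CCe hLF).mpr h)⟩
  rw [← ae_all_iff] at h1
  filter_upwards [h1] with ω hω t
  obtain ⟨k, hk⟩ := exists_nat_ge t
  obtain ⟨m, hm⟩ := hω k
  exact ⟨m, fun h => hm (CC_mono m subset_rfl (ENNReal.coe_le_coe.mpr hk) h)⟩

theorem ae_CF_mem : ∀ᵐ ω ∂P, ∀ y ∈ ξ ω, CF (tau ε) (ξ ω \ {y}) y := by
  have h1 : ∀ k : ℕ, ∀ᵐ ω ∂P, ∀ y ∈ ξ ω,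
      (y, cnt (ξ ω \ {y})) ∉ {p : Met d × Measure (Met d) |
        ∀ m, ((p.2, p.1), ((k : ℝ≥0) : ℝ≥0∞)) ∈ CCe d ε m} := by
    intro k
    apply H.ae_forall_mem
    · have h2 : {p : Met d × Measure (Met d) |
          ∀ m, ((p.2, p.1), ((k : ℝ≥0) : ℝ≥0∞)) ∈ CCe d ε m} =
          ⋂ m, {p : Met d × Measure (Met d) | ((p.2, p.1), ((k : ℝ≥0) : ℝ≥0∞)) ∈ CCe d ε m} := by
        ext p; simp
      rw [h2]
      apply MeasurableSet.iInter
      intro m
      have h3 : Measurable (fun p : Met d × Measure (Met d) =>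
          ((p.2, p.1), ((k : ℝ≥0) : ℝ≥0∞))) := by fun_prop
      exact h3 (measurableSet_CCe ε m)
    · refine Filter.Eventually.of_forall (fun y => ?_)
      filter_upwards [ae_CF hε H y, H.ae_LF] with ω hω hLF
      intro h
      obtain ⟨m, hm⟩ := hω k
      exact hm ((mem_CCe hLF).mp (h m))
  rw [← ae_all_iff] at h1
  filter_upwards [h1, H.ae_LF] with ω hω hLF y hy t
  obtain ⟨k, hk⟩ := exists_nat_ge t
  have h2 := hω k y hy
  simp only [mem_ofPred_eq, not_forall] at h2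
  obtain ⟨m, hm⟩ := h2
  refine ⟨m, fun h => hm ?_⟩
  rw [mem_CCe (LF_cnt_subset Set.sdiff_subset hLF)]
  exact CC_mono m subset_rfl (ENNReal.coe_le_coe.mpr hk) h

end prob

/-- A base direction. -/
noncomputable def dir0 (d : ℕ) [NeZero d] : Dir d :=
  ⟨EuclideanSpace.single (0 : Fin d) (1 : ℝ), by simp⟩

/-- A base meteor. -/
noncomputable def met0 (d : ℕ) [NeZero d] : Met d := (0, dir0 d)

section prob2

variable {Ω : Type*} [MeasurableSpace Ω]

/-- The survival probability. -/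
noncomputable def rho [NeZero d] (P : Measure Ω) (ξ : Ω → Set (Met d)) (ε : ℝ) (t : ℝ≥0) : ℝ :=
  (P {ω | ((cnt (ξ ω), met0 d), (t : ℝ≥0∞)) ∈ Al d ε}).toReal

/-- Upper bound for the localised survival probability. -/
noncomputable def rhoh [NeZero d] (P : Measure Ω) (ξ : Ω → Set (Met d)) (ε : ℝ) (t : ℝ≥0) : ℝ :=
  rho P ξ ε t + (V0 ε d + 1) * Real.exp (-t)

variable {P : Measure Ω} [IsProbabilityMeasure P]
  {ξ : Ω → Set (Met d)} [NeZero d] {ε : ℝ}

omit [IsProbabilityMeasure P] in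
theorem rho_nonneg (t : ℝ≥0) : 0 ≤ rho P ξ ε t := ENNReal.toReal_nonneg

theorem rho_le_one (t : ℝ≥0) : rho P ξ ε t ≤ 1 := by
  unfold rho
  have := prob_le_one (μ := P) (s := {ω | ((cnt (ξ ω), met0 d), (t : ℝ≥0∞)) ∈ Al d ε})
  have h2 := ENNReal.toReal_mono ENNReal.one_ne_top this
  simpa using h2

variable (H : PP P ξ (intensity d) (Kd d))
include H

theorem prob_alive (x : Met d) (t : ℝ≥0) :
    P {ω | ((cnt (ξ ω), x), (t : ℝ≥0∞)) ∈ Al d ε} = ENNReal.ofReal (rho P ξ ε t) := by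
  unfold rho
  rw [ENNReal.ofReal_toReal (measure_ne_top _ _)]
  obtain ⟨L, b, hx⟩ := exists_metEquiv (met0 d) x
  have hB : MeasurableSet {ν : Measure (Met d) | ((ν, x), (t : ℝ≥0∞)) ∈ Al d ε} := by
    have h1 : Measurable (fun ν : Measure (Met d) => ((ν, x), (t : ℝ≥0∞))) := by fun_prop
    exact h1 (measurableSet_Al ε)
  have h1 := H.law_image L b hB
  have h2 : P {ω | ((cnt (ξ ω), x), (t : ℝ≥0∞)) ∈ Al d ε} =
      P {ω | cnt (ξ ω) ∈ {ν : Measure (Met d) | ((ν, x), (t : ℝ≥0∞)) ∈ Al d ε}} := rfl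
  rw [h2, ← h1]
  apply measure_congr
  filter_upwards [H.ae_LF, (H.image L b).ae_LF] with ω h3 h4
  apply propext
  show ((cnt (metEquiv L b '' ξ ω), x), (t : ℝ≥0∞)) ∈ Al d ε ↔
    ((cnt (ξ ω), met0 d), (t : ℝ≥0∞)) ∈ Al d ε
  rw [mem_Al h4, mem_Al h3, ← hx]
  unfold alive
  exact forall_congr' (fun n => SS_equiv (metEquiv L b).toEquiv (tau_metEquiv ε L b) (2 * n) _ _ _)

theorem rho_anti {s t : ℝ≥0} (hst : s ≤ t) : rho P ξ ε t ≤ rho P ξ ε s := by
  unfold rho
  apply ENNReal.toReal_mono (measure_ne_top _ _)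
  apply measure_mono_ae
  filter_upwards [H.ae_LF] with ω hω h
  have h' : ((cnt (ξ ω), met0 d), (t : ℝ≥0∞)) ∈ Al d ε := h
  show ((cnt (ξ ω), met0 d), (s : ℝ≥0∞)) ∈ Al d ε
  rw [mem_Al hω] at h' ⊢
  exact alive_anti (ENNReal.coe_le_coe.mpr hst) h'

theorem prob_up (hε : 0 < ε) (x : Met d) (t : ℝ≥0) :
    P {ω | ((cnt (ξ ω), x), (t : ℝ≥0∞)) ∈ SSe d ε (2 * mm ε d t)} ≤
      ENNReal.ofReal (rhoh P ξ ε t) := by
  have h1 : P {ω | ((cnt (ξ ω), x), (t : ℝ≥0∞)) ∈ SSe d ε (2 * mm ε d t)} ≤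
      P ({ω | ((cnt (ξ ω), x), (t : ℝ≥0∞)) ∈ Al d ε} ∪
        {ω | ((cnt (ξ ω), x), (t : ℝ≥0∞)) ∈ CCe d ε (mm ε d t + 1)}) := by
    apply measure_mono_ae
    filter_upwards [H.ae_LF] with ω hω h
    have h' : ((cnt (ξ ω), x), (t : ℝ≥0∞)) ∈ SSe d ε (2 * mm ε d t) := h
    rw [mem_SSe hω] at h'
    by_cases hC : CC (tau ε) (mm ε d t + 1) (ξ ω) x t
    · right
      exact (mem_CCe hω).mpr hC
    · left
      show ((cnt (ξ ω), x), (t : ℝ≥0∞)) ∈ Al d ε
      rw [mem_Al hω, alive_iff_SS hC (show mm ε d t ≤ 2 * mm ε d t by omega)]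
      exact h'
  refine h1.trans ((measure_union_le _ _).trans ?_)
  unfold rhoh
  rw [ENNReal.ofReal_add (rho_nonneg t) (by have := V0_pos (d := d) hε; positivity)]
  exact add_le_add (prob_alive H x t).le (chain_small hε H x t)

/-- The localised upper event. -/
theorem up_restrict (hε : 0 < ε) (x : Met d) (t : ℝ≥0) :
    ∀ᵐ ω ∂P, (((cnt (ξ ω)).restrict (Bl d x (Kc ε d * (t + 1))), x), (t : ℝ≥0∞)) ∈
      SSe d ε (2 * mm ε d t) ↔ ((cnt (ξ ω), x), (t : ℝ≥0∞)) ∈ SSe d ε (2 * mm ε d t) := by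
  filter_upwards [H.ae_LF] with ω hω
  rw [cnt_restrict _ (measurableSet_Bl _ _), mem_SSe (LF_cnt_subset Set.inter_subset_left hω),
    mem_SSe hω]
  apply SS_local hε.le _ ENNReal.coe_ne_top
  rw [Set.inter_assoc, Set.inter_eq_right.mpr (reg_subset_Bl hε x t)]

end prob2

/-- The pair event: `x` survives until `s` and `y` until `t` in the configuration with both
of them added. -/
def JJ (d : ℕ) (ε : ℝ) (s t : ℝ≥0) : Set (Measure (Met d) × (Met d × Met d)) :=
  {p | ((p.1 + Measure.dirac p.2.2, p.2.1), (s : ℝ≥0∞)) ∈ Al d ε ∧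
    ((p.1 + Measure.dirac p.2.1, p.2.2), (t : ℝ≥0∞)) ∈ Al d ε}

theorem measurable_add_dirac' : Measurable (fun p : Measure (Met d) × Met d =>
    p.1 + Measure.dirac p.2) := by
  apply Measure.measurable_of_measurable_coe
  intro A hA
  simp only [Measure.add_apply]
  exact ((Measure.measurable_coe hA).comp measurable_fst).add
    ((Measure.measurable_coe hA).comp (Measure.measurable_dirac.comp measurable_snd))

theorem measurableSet_JJ (ε : ℝ) (s t : ℝ≥0) : MeasurableSet (JJ d ε s t) := by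
  have h1 : Measurable (fun p : Measure (Met d) × (Met d × Met d) =>
      p.1 + Measure.dirac p.2.2) := by
    have h : Measurable (fun p : Measure (Met d) × (Met d × Met d) => (p.1, p.2.2)) := by fun_prop
    have h' : Measurable ((fun p : Measure (Met d) × Met d => p.1 + Measure.dirac p.2) ∘
      (fun p : Measure (Met d) × (Met d × Met d) => (p.1, p.2.2))) :=
        measurable_add_dirac'.comp h
    exact h'
  have h2 : Measurable (fun p : Measure (Met d) × (Met d × Met d) =>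
      p.1 + Measure.dirac p.2.1) := by
    have h : Measurable (fun p : Measure (Met d) × (Met d × Met d) => (p.1, p.2.1)) := by fun_prop
    have h' : Measurable ((fun p : Measure (Met d) × Met d => p.1 + Measure.dirac p.2) ∘
      (fun p : Measure (Met d) × (Met d × Met d) => (p.1, p.2.1))) :=
        measurable_add_dirac'.comp h
    exact h'
  have h3 : Measurable (fun p : Measure (Met d) × (Met d × Met d) =>
      ((p.1 + Measure.dirac p.2.2, p.2.1), (s : ℝ≥0∞))) :=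
    (h1.prodMk (measurable_fst.comp measurable_snd)).prodMk measurable_const
  have h4 : Measurable (fun p : Measure (Met d) × (Met d × Met d) =>
      ((p.1 + Measure.dirac p.2.1, p.2.2), (t : ℝ≥0∞))) :=
    (h2.prodMk (measurable_snd.comp measurable_snd)).prodMk measurable_const
  have h5 : MeasurableSet {p : Measure (Met d) × (Met d × Met d) |
      ((p.1 + Measure.dirac p.2.2, p.2.1), (s : ℝ≥0∞)) ∈ Al d ε} := h3 (measurableSet_Al ε)
  have h6 : MeasurableSet {p : Measure (Met d) × (Met d × Met d) |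
      ((p.1 + Measure.dirac p.2.1, p.2.2), (t : ℝ≥0∞)) ∈ Al d ε} := h4 (measurableSet_Al ε)
  exact h5.inter h6

theorem LF_insert {F : Set (Met d)} (hF : cnt F ∈ LF (Kd d)) (x : Met d) :
    cnt (insert x F) ∈ LF (Kd d) := by
  by_cases hx : x ∈ F
  · rw [Set.insert_eq_of_mem hx]; exact hF
  · intro m
    rw [cnt_insert hx, Measure.add_apply]
    apply ENNReal.add_lt_top.mpr ⟨hF m, ?_⟩
    exact lt_of_le_of_lt prob_le_one ENNReal.one_lt_top

theorem mem_JJ {ε : ℝ} {F : Set (Met d)} (hF : cnt F ∈ LF (Kd d)) {x y : Met d} (hx : x ∉ F)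
    (hy : y ∉ F) {s t : ℝ≥0} : (cnt F, (x, y)) ∈ JJ d ε s t ↔
      alive (tau ε) (insert y F) x s ∧ alive (tau ε) (insert x F) y t := by
  unfold JJ
  rw [mem_ofPred_eq]
  simp only
  rw [← cnt_insert hx, ← cnt_insert hy, mem_Al (LF_insert hF y), mem_Al (LF_insert hF x)]

/-- If both survive until `s`, then `x` survives until `s` without `y`. -/
theorem alive_of_pair {ε : ℝ} (hε : 0 ≤ ε) {F : Set (Met d)} (hF : cnt F ∈ LF (Kd d))
    {x y : Met d} (hx : x ∉ F) (hy : y ∉ F) (hxy : x ≠ y) (hCx : CF (tau ε) F x)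
    (hCy : CF (tau ε) F y) {s : ℝ≥0} (h1 : alive (tau ε) (insert y F) x s)
    (h2 : alive (tau ε) (insert x F) y s) : alive (tau ε) F x s := by
  have e1 : (insert y F) \ {x} = insert y F := by
    rw [Set.sdiff_singleton_eq_self]
    simp [hx, hxy]
  have e2 : (insert x F) \ {y} = insert x F := by
    rw [Set.sdiff_singleton_eq_self]
    simp [hy, hxy.symm]
  have e3 : F \ {x} = F := Set.sdiff_singleton_eq_self hx
  have E1 := eventually_alive_iff hε (F := insert y F) (fun R => finite_inBall (LF_insert hF y) R)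
    (x := x) (by rw [e1]; exact CF_insert hCx hCy) s
  have E2 := eventually_alive_iff hε (F := insert x F) (fun R => finite_inBall (LF_insert hF x) R)
    (x := y) (by rw [e2]; exact CF_insert hCy hCx) s
  have E3 := eventually_alive_iff hε (F := F) (fun R => finite_inBall hF R)
    (x := x) (by rw [e3]; exact hCx) s
  rw [e1] at E1
  rw [e2] at E2
  rw [e3] at E3
  obtain ⟨R, ⟨R1, R2, R3⟩, hRx, hRy⟩ := ((E1.and (E2.and E3)).and
    ((eventually_ge_atTop ‖x.1‖).and (eventually_ge_atTop ‖y.1‖))).exists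
  rw [← R3]
  have i1 : inBall (insert y F) R = insert y (inBall F R) := by
    ext z
    simp only [inBall, mem_insert_iff, mem_ofPred_eq]
    constructor
    · rintro ⟨h | h, h'⟩
      · exact Or.inl h
      · exact Or.inr ⟨h, h'⟩
    · rintro (h | ⟨h, h'⟩)
      · rw [h]; exact ⟨Or.inl rfl, hRy⟩
      · exact ⟨Or.inr h, h'⟩
  have i2 : inBall (insert x F) R = insert x (inBall F R) := by
    ext z
    simp only [inBall, mem_insert_iff, mem_ofPred_eq]
    constructor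
    · rintro ⟨h | h, h'⟩
      · exact Or.inl h
      · exact Or.inr ⟨h, h'⟩
    · rintro (h | ⟨h, h'⟩)
      · rw [h]; exact ⟨Or.inl rfl, hRx⟩
      · exact ⟨Or.inr h, h'⟩
  rw [← R1, i1] at h1
  rw [← R2, i2] at h2
  have hG : (inBall F R).Finite := finite_inBall hF R
  have hyG : y ∉ insert x (inBall F R) := by
    simp only [mem_insert_iff, not_or]
    exact ⟨hxy.symm, fun h => hy h.1⟩
  have h3 := (le_life_insert_iff (tau_symm ε) (hG.insert x) hyG (Set.mem_insert x _) h2).mp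
    (by
      have : life (tau ε) (insert y (insert x (inBall F R))) x =
          life (tau ε) (insert y (inBall F R)) x := by
        apply life_congr
        ext z; simp only [mem_insert_iff]; tauto
      rw [this]; exact h1)
  rwa [life_insert] at h3

section prob3

variable {Ω : Type*} [MeasurableSpace Ω] {P : Measure Ω} [IsProbabilityMeasure P]
  {ξ : Ω → Set (Met d)} [NeZero d] {ε : ℝ} (H : PP P ξ (intensity d) (Kd d))

include H

theorem pair_near (hε : 0 < ε) {x y : Met d} (hxy : x ≠ y) (s : ℝ≥0) :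
    P {ω | (cnt (ξ ω), (x, y)) ∈ JJ d ε s s} ≤ ENNReal.ofReal (rho P ξ ε s) := by
  rw [← prob_alive H x s]
  apply measure_mono_ae
  filter_upwards [H.ae_LF, H.ae_not_mem x, H.ae_not_mem y, ae_CF hε H x, ae_CF hε H y] with
    ω hω hx hy hCx hCy h
  have h' : (cnt (ξ ω), (x, y)) ∈ JJ d ε s s := h
  rw [mem_JJ hω hx hy] at h'
  show ((cnt (ξ ω), x), (s : ℝ≥0∞)) ∈ Al d ε
  rw [mem_Al hω]
  exact alive_of_pair hε.le hω hx hy hxy hCx hCy h'.1 h'.2

omit H in
theorem alive_insert_far (hε : 0 < ε) {F : Set (Met d)} {x y : Met d} {s : ℝ≥0}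
    (hy : y ∉ Bl d x (Kc ε d * (s + 1))) (h : alive (tau ε) (insert y F) x s) :
    SS (tau ε) (2 * mm ε d s) F x s := by
  have h1 := h (mm ε d s)
  rw [SS_local hε.le _ ENNReal.coe_ne_top] at h1
  · exact h1
  · ext z
    simp only [mem_inter_iff, mem_insert_iff]
    constructor
    · rintro ⟨h2 | h2, h3⟩
      · exact absurd (reg_subset_Bl hε x s (h2 ▸ h3)) hy
      · exact ⟨h2, h3⟩
    · rintro ⟨h2, h3⟩; exact ⟨Or.inr h2, h3⟩

theorem pair_far (hε : 0 < ε) {x y : Met d} (s t : ℝ≥0)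
    (hfar : Kc ε d * (s + 1) + Kc ε d * (t + 1) < ‖x.1 - y.1‖) :
    P {ω | (cnt (ξ ω), (x, y)) ∈ JJ d ε s t} ≤
      ENNReal.ofReal (rhoh P ξ ε s * rhoh P ξ ε t) := by
  have hK := Kc_pos (d := d) hε
  have hs : (0 : ℝ) ≤ s := s.2
  have ht : (0 : ℝ) ≤ t := t.2
  have hdisj : Disjoint (Bl d x (Kc ε d * (s + 1))) (Bl d y (Kc ε d * (t + 1))) := by
    rw [Set.disjoint_left]
    intro z hz1 hz2
    have h1 : ‖z.1 - x.1‖ ≤ Kc ε d * (s + 1) := hz1
    have h2 : ‖z.1 - y.1‖ ≤ Kc ε d * (t + 1) := hz2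
    have h3 : ‖x.1 - y.1‖ ≤ ‖z.1 - x.1‖ + ‖z.1 - y.1‖ := by
      have : x.1 - y.1 = -(z.1 - x.1) + (z.1 - y.1) := by abel
      rw [this]
      calc _ ≤ _ := norm_add_le _ _
        _ = _ := by rw [norm_neg]
    linarith
  have hy : y ∉ Bl d x (Kc ε d * (s + 1)) := by
    intro h
    have h1 : ‖y.1 - x.1‖ ≤ Kc ε d * (s + 1) := h
    rw [norm_sub_rev] at h1
    nlinarith
  have hx : x ∉ Bl d y (Kc ε d * (t + 1)) := by
    intro h
    have h1 : ‖x.1 - y.1‖ ≤ Kc ε d * (t + 1) := h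
    nlinarith
  have hind := indep_restrict H.poisson H.meas H.mono H.cov H.fin
    (measurableSet_Bl x (Kc ε d * (s + 1))) (measurableSet_Bl y (Kc ε d * (t + 1))) hdisj
  have hm1 : MeasurableSet {ν : Measure (Met d) | ((ν, x), (s : ℝ≥0∞)) ∈ SSe d ε (2 * mm ε d s)} := by
    have h1 : Measurable (fun ν : Measure (Met d) => ((ν, x), (s : ℝ≥0∞))) := by fun_prop
    exact h1 (measurableSet_SSe ε _)
  have hm2 : MeasurableSet {ν : Measure (Met d) | ((ν, y), (t : ℝ≥0∞)) ∈ SSe d ε (2 * mm ε d t)} := by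
    have h1 : Measurable (fun ν : Measure (Met d) => ((ν, y), (t : ℝ≥0∞))) := by fun_prop
    exact h1 (measurableSet_SSe ε _)
  have h1 := hind.measure_inter_preimage_eq_mul _ _ hm1 hm2
  calc P {ω | (cnt (ξ ω), (x, y)) ∈ JJ d ε s t}
      ≤ P ((fun ω => (cnt (ξ ω)).restrict (Bl d x (Kc ε d * (s + 1)))) ⁻¹'
          {ν : Measure (Met d) | ((ν, x), (s : ℝ≥0∞)) ∈ SSe d ε (2 * mm ε d s)} ∩
        (fun ω => (cnt (ξ ω)).restrict (Bl d y (Kc ε d * (t + 1)))) ⁻¹'
          {ν : Measure (Met d) | ((ν, y), (t : ℝ≥0∞)) ∈ SSe d ε (2 * mm ε d t)}) := by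
        apply measure_mono_ae
        filter_upwards [H.ae_LF, H.ae_not_mem x, H.ae_not_mem y, up_restrict H hε x s,
          up_restrict H hε y t] with ω hω hxm hym hu1 hu2 h
        have h' : (cnt (ξ ω), (x, y)) ∈ JJ d ε s t := h
        rw [mem_JJ hω hxm hym] at h'
        constructor
        · show (((cnt (ξ ω)).restrict (Bl d x (Kc ε d * (s + 1))), x), (s : ℝ≥0∞)) ∈
            SSe d ε (2 * mm ε d s)
          rw [hu1, mem_SSe hω]
          exact alive_insert_far hε hy h'.1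
        · show (((cnt (ξ ω)).restrict (Bl d y (Kc ε d * (t + 1))), y), (t : ℝ≥0∞)) ∈
            SSe d ε (2 * mm ε d t)
          rw [hu2, mem_SSe hω]
          exact alive_insert_far hε hx h'.2
    _ = _ := h1
    _ = P {ω | ((cnt (ξ ω), x), (s : ℝ≥0∞)) ∈ SSe d ε (2 * mm ε d s)} *
        P {ω | ((cnt (ξ ω), y), (t : ℝ≥0∞)) ∈ SSe d ε (2 * mm ε d t)} := by
        congr 1
        · apply measure_congr
          filter_upwards [up_restrict H hε x s] with ω hω
          exact propext hω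
        · apply measure_congr
          filter_upwards [up_restrict H hε y t] with ω hω
          exact propext hω
    _ ≤ ENNReal.ofReal (rhoh P ξ ε s) * ENNReal.ofReal (rhoh P ξ ε t) :=
        mul_le_mul' (prob_up H hε x s) (prob_up H hε y t)
    _ = _ := by
        rw [ENNReal.ofReal_mul]
        unfold rhoh
        have := V0_pos (d := d) hε
        have := rho_nonneg (P := P) (ξ := ξ) (ε := ε) s
        positivity

end prob3

end Pool.Agent.Meteor
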