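import Mathlib
import Pool.Agent.Lib_helper16.Meteor.Rho

/-!
The loss of density between two times is bounded by pair events.
-/

namespace Pool.Agent.Meteor

open MeasureTheory Filter ProbabilityTheory Set
open scoped ENNReal NNReal Topology Pointwise

variable {d : ℕ}

theorem inBall_insert {F : Set (Met d)} {x : Met d} {R : ℝ} (hR : ‖x.1‖ ≤ R) :
    inBall (insert x F) R = insert x (inBall F R) := by
  ext z
  simp only [inBall, mem_insert_iff, mem_ofPred_eq]
  constructor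
  · rintro ⟨h | h, h'⟩
    · exact Or.inl h
    · exact Or.inr ⟨h, h'⟩
  · rintro (h | ⟨h, h'⟩)
    · rw [h]; exact ⟨Or.inl rfl, hR⟩
    · exact ⟨Or.inr h, h'⟩

/-- A test particle alive at time `s` but not at time `s'` has been killed by a particle. -/
theorem exists_killer_inf {ε : ℝ} (hε : 0 ≤ ε) {F : Set (Met d)} (hF : cnt F ∈ LF (Kd d))
    {x : Met d} (hx : x ∉ F) (hCx : CF (tau ε) F x) (hC : ∀ y ∈ F, CF (tau ε) (F \ {y}) y)
    {s s' : ℝ≥0} (h1 : alive (tau ε) F x s) (h2 : ¬ alive (tau ε) F x s') :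
    ∃ y ∈ F, (s : ℝ≥0∞) ≤ tau ε x y ∧ tau ε x y < s' ∧
      alive (tau ε) (insert x (F \ {y})) y s := by
  -- candidates
  have hfin : ({y ∈ F | tau ε x y < s'}).Finite := by
    apply (finite_inBall hF (‖x.1‖ + (2 * s' + 2 * ε * ((0 + 1 : ℕ) : ℝ)))).subset
    rintro y ⟨hy, hlt⟩
    refine ⟨hy, ?_⟩
    have h3 := reg_subset (mem_reg_of_tau_lt hε (n := 0) ENNReal.coe_ne_top hlt)
    have h3' : ‖y.1 - x.1‖ ≤ 2 * s' + 2 * ε * ((0 + 1 : ℕ) : ℝ) := h3
    have h5 : ‖y.1‖ ≤ ‖x.1‖ + ‖y.1 - x.1‖ := by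
      have := norm_add_le x.1 (y.1 - x.1)
      simpa using this
    linarith
  have e3 : F \ {x} = F := Set.sdiff_singleton_eq_self hx
  have E1 := eventually_alive_iff hε (F := F) (fun R => finite_inBall hF R)
    (x := x) (by rw [e3]; exact hCx) s
  have E2 := eventually_alive_iff hε (F := F) (fun R => finite_inBall hF R)
    (x := x) (by rw [e3]; exact hCx) s'
  rw [e3] at E1 E2
  have E3 : ∀ y ∈ {y ∈ F | tau ε x y < s'}, ∀ᶠ R : ℝ in atTop,
      (((s : ℝ≥0∞) ≤ life (tau ε) (inBall (insert x F) R) y) ↔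
      alive (tau ε) ((insert x F) \ {y}) y s) := by
    rintro y ⟨hy, _⟩
    apply eventually_alive_iff hε (fun R => finite_inBall (LF_insert hF x) R)
    have hxy : x ≠ y := fun h => hx (h ▸ hy)
    rw [Set.insert_sdiff_of_notMem _ (by simpa using hxy)]
    exact CF_insert (hC y hy) (CF_mono Set.sdiff_subset hCx)
  rw [← eventually_all_finite hfin] at E3
  obtain ⟨R, ⟨R1, R2, R3⟩, hRx⟩ := ((E1.and (E2.and E3)).and
    (eventually_ge_atTop ‖x.1‖)).exists
  rw [← R1] at h1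
  rw [← R2, not_le] at h2
  have hG : (inBall F R).Finite := finite_inBall hF R
  have hGx : (insert x (inBall F R)).Finite := hG.insert x
  obtain ⟨y, hy, hne, hk1, hk2⟩ := exists_killer (tau_symm ε) hGx (Set.mem_insert x _)
    (by rw [life_insert]; exact lt_of_lt_of_le h2 le_top)
  rw [life_insert] at hk2
  have hyF : y ∈ F := by
    rcases Set.mem_insert_iff.mp hy with h | h
    · exact absurd h hne
    · exact h.1
  have hlt : tau ε x y < s' := by rw [← hk2]; exact h2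
  refine ⟨y, hyF, by rw [← hk2]; exact h1, hlt, ?_⟩
  have h4 := R3 y ⟨hyF, hlt⟩
  rw [inBall_insert hRx, hk1, Set.insert_sdiff_of_notMem _ (by simpa using hne.symm)] at h4
  exact h4.mp (by rw [← hk2]; exact h1)

section prob

variable {Ω : Type*} [MeasurableSpace Ω] {P : Measure Ω} [IsProbabilityMeasure P]
  {ξ : Ω → Set (Met d)} [NeZero d] {ε : ℝ} (H : PP P ξ (intensity d) (Kd d))

include H

theorem prob_JJ_mono {x y : Met d} {s t s' t' : ℝ≥0} (hs : s ≤ s') (ht : t ≤ t') :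
    P {ω | (cnt (ξ ω), (x, y)) ∈ JJ d ε s' t'} ≤ P {ω | (cnt (ξ ω), (x, y)) ∈ JJ d ε s t} := by
  apply measure_mono_ae
  filter_upwards [H.ae_LF, H.ae_not_mem x, H.ae_not_mem y] with ω hω hx hy h
  have h' : (cnt (ξ ω), (x, y)) ∈ JJ d ε s' t' := h
  rw [mem_JJ hω hx hy] at h'
  show (cnt (ξ ω), (x, y)) ∈ JJ d ε s t
  rw [mem_JJ hω hx hy]
  exact ⟨alive_anti (ENNReal.coe_le_coe.mpr hs) h'.1, alive_anti (ENNReal.coe_le_coe.mpr ht) h'.2⟩

/-- Loss of survival probability between times `s` and `s'`. -/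
theorem rho_diff_le (hε : 0 < ε) (x : Met d) {s s' : ℝ≥0} (hss : s ≤ s') :
    ENNReal.ofReal (rho P ξ ε s - rho P ξ ε s') ≤
      ∫⁻ y in {y | (s : ℝ≥0∞) ≤ tau ε x y ∧ tau ε x y < s'},
        P {ω | (cnt (ξ ω), (x, y)) ∈ JJ d ε s s} ∂(intensity d) := by
  have hms : ∀ u : ℝ≥0, MeasurableSet {ω | ((cnt (ξ ω), x), (u : ℝ≥0∞)) ∈ Al d ε} := by
    intro u
    have h1 : Measurable (fun ω => ((cnt (ξ ω), x), (u : ℝ≥0∞))) :=
      (H.measurable_N.prodMk measurable_const).prodMk measurable_const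
    exact h1 (measurableSet_Al ε)
  have h1 : ENNReal.ofReal (rho P ξ ε s - rho P ξ ε s') ≤
      P ({ω | ((cnt (ξ ω), x), (s : ℝ≥0∞)) ∈ Al d ε} \
        {ω | ((cnt (ξ ω), x), (s' : ℝ≥0∞)) ∈ Al d ε}) := by
    rw [ENNReal.ofReal_sub _ (rho_nonneg s'), ← prob_alive H x s, ← prob_alive H x s']
    exact le_measure_sdiff
  have hS : MeasurableSet {p : Met d × Measure (Met d) | ((s : ℝ≥0∞) ≤ tau ε x p.1 ∧
      tau ε x p.1 < s') ∧ (p.2, (x, p.1)) ∈ JJ d ε s s} := by
    have hτ : Measurable (fun p : Met d × Measure (Met d) => tau ε x p.1) :=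
      (measurable_tau_right ε x).comp measurable_fst
    have m1 : MeasurableSet {p : Met d × Measure (Met d) | (s : ℝ≥0∞) ≤ tau ε x p.1} :=
      measurableSet_le measurable_const hτ
    have m2 : MeasurableSet {p : Met d × Measure (Met d) | tau ε x p.1 < s'} :=
      measurableSet_lt hτ measurable_const
    have hf : Measurable (fun p : Met d × Measure (Met d) => (p.2, (x, p.1))) := by fun_prop
    have m3 : MeasurableSet {p : Met d × Measure (Met d) | (p.2, (x, p.1)) ∈ JJ d ε s s} :=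
      hf (measurableSet_JJ ε s s)
    exact (m1.inter m2).inter m3
  have h2 := H.prob_exists_le hS
  refine h1.trans (le_trans ?_ (h2.trans ?_))
  · apply measure_mono_ae
    filter_upwards [H.ae_LF, H.ae_not_mem x, ae_CF hε H x, ae_CF_mem hε H] with ω hω hx hCx hC h
    obtain ⟨ha, hb⟩ := h
    have ha' : ((cnt (ξ ω), x), (s : ℝ≥0∞)) ∈ Al d ε := ha
    have hb' : ((cnt (ξ ω), x), (s' : ℝ≥0∞)) ∉ Al d ε := hb
    rw [mem_Al hω] at ha' hb'
    obtain ⟨y, hy, hy1, hy2, hy3⟩ := exists_killer_inf hε.le hω hx hCx hC ha' hb'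
    refine ⟨y, hy, ⟨hy1, hy2⟩, ?_⟩
    show (cnt (ξ ω \ {y}), (x, y)) ∈ JJ d ε s s
    have hxd : x ∉ ξ ω \ {y} := fun h => hx h.1
    have hyd : y ∉ ξ ω \ {y} := by simp
    rw [mem_JJ (LF_cnt_subset Set.sdiff_subset hω) hxd hyd]
    refine ⟨?_, hy3⟩
    have : insert y (ξ ω \ {y}) = ξ ω := by
      rw [Set.insert_sdiff_singleton, Set.insert_eq_of_mem hy]
    rw [this]
    exact ha'
  · have hmD : MeasurableSet {y | (s : ℝ≥0∞) ≤ tau ε x y ∧ tau ε x y < s'} := by
      have m1 : MeasurableSet {y : Met d | (s : ℝ≥0∞) ≤ tau ε x y} :=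
        measurableSet_le measurable_const (measurable_tau_right ε x)
      have m2 : MeasurableSet {y : Met d | tau ε x y < s'} :=
        measurableSet_lt (measurable_tau_right ε x) measurable_const
      exact m1.inter m2
    rw [← lintegral_indicator hmD]
    apply lintegral_mono
    intro y
    beta_reduce
    by_cases hy : y ∈ {y | (s : ℝ≥0∞) ≤ tau ε x y ∧ tau ε x y < s'}
    · rw [Set.indicator_of_mem hy]
      apply measure_mono
      rintro ω ⟨_, h⟩
      exact h
    · rw [Set.indicator_of_notMem hy]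
      have : {ω | (y, cnt (ξ ω)) ∈ {p : Met d × Measure (Met d) | ((s : ℝ≥0∞) ≤ tau ε x p.1 ∧
          tau ε x p.1 < s') ∧ (p.2, (x, p.1)) ∈ JJ d ε s s}} = ∅ := by
        ext ω
        simp only [mem_empty_iff_false, iff_false]
        rintro ⟨h, _⟩
        exact hy h
      rw [this, measure_empty]

end prob

end Pool.Agent.Meteor
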