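import Mathlib
import Pool.Agent.Lib_helper16.Meteor.Step
import Pool.Agent.Lib_helper16.Meteor.Seq

/-!
The dyadic decay inequality.
-/

namespace Pool.Agent.Meteor

open MeasureTheory Filter ProbabilityTheory Set
open scoped ENNReal NNReal Topology Pointwise

variable {d : ℕ}

theorem exists_cc (ε : ℝ) (d : ℕ) : ∃ c : ℕ, 4 * Kc ε d < 2 ^ c := by
  obtain ⟨c, hc⟩ := pow_unbounded_of_one_lt (4 * Kc ε d) (by norm_num : (1 : ℝ) < 2)
  exact ⟨c, hc⟩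

/-- The localisation exponent. -/
noncomputable def cc (ε : ℝ) (d : ℕ) : ℕ := (exists_cc ε d).choose

theorem cc_spec (ε : ℝ) (d : ℕ) : 4 * Kc ε d < 2 ^ (cc ε d) := (exists_cc ε d).choose_spec

theorem far_ok {ε : ℝ} (hε : 0 < ε) {j : ℕ} (hj : cc ε d ≤ j) :
    Kc ε d * (((2 : ℝ≥0) ^ (j - cc ε d) : ℝ≥0) + 1) + Kc ε d * (((2 : ℝ≥0) ^ (j - cc ε d) : ℝ≥0) + 1)
      < (2 : ℝ) ^ j := by
  have h1 := cc_spec ε d
  have hK := Kc_pos (d := d) hε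
  obtain ⟨i, hi⟩ : ∃ i, i = j - cc ε d := ⟨_, rfl⟩
  rw [← hi]
  have h2 : (2 : ℝ) ^ j = 2 ^ i * 2 ^ (cc ε d) := by
    rw [← pow_add]; congr 1; omega
  rw [h2]
  push_cast
  have h3 : (1 : ℝ) ≤ 2 ^ i := one_le_pow₀ (by norm_num)
  nlinarith

section prob

variable {Ω : Type*} [MeasurableSpace Ω] {P : Measure Ω} [IsProbabilityMeasure P]
  {ξ : Ω → Set (Met d)} [NeZero d] {ε : ℝ} (H : PP P ξ (intensity d) (Kd d))

omit [IsProbabilityMeasure P] in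
theorem rhoh_nonneg (hε : 0 < ε) (t : ℝ≥0) : 0 ≤ rhoh P ξ ε t := by
  unfold rhoh
  have := V0_pos (d := d) hε
  have := rho_nonneg (P := P) (ξ := ξ) (ε := ε) t
  positivity

include H

theorem JJ_bound (hε : 0 < ε) {x y : Met d} {j : ℕ} {s : ℝ≥0} (hj : cc ε d ≤ j)
    (hs : (2 : ℝ≥0) ^ (j - cc ε d) ≤ s) (hr : (2 : ℝ) ^ j ≤ ‖x.1 - y.1‖) {t : ℝ≥0}
    (ht : (2 : ℝ≥0) ^ (j - cc ε d) ≤ t) :
    P {ω | (cnt (ξ ω), (x, y)) ∈ JJ d ε s t} ≤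
      ENNReal.ofReal (rhoh P ξ ε (2 ^ (j - cc ε d)) ^ 2) := by
  refine (prob_JJ_mono H hs ht).trans ?_
  rw [sq]
  exact pair_far H hε _ _ (lt_of_lt_of_le (far_ok hε hj) hr)

theorem loss_bound (hε : 0 < ε) {k j0 : ℕ} (hc : cc ε d ≤ j0) (hj0 : j0 ≤ k) :
    rho P ξ ε (2 ^ k) - rho P ξ ε (2 ^ (k + 1)) ≤
      rho P ξ ε (2 ^ k) * (C2 ε d * ((2 : ℝ) ^ j0 + 1) ^ d / (2 ^ k) ^ (d - 1)) +
      ∑ j ∈ Finset.Ico j0 k, rhoh P ξ ε (2 ^ (j - cc ε d)) ^ 2 *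
        (C2 ε d * ((2 : ℝ) ^ (j + 1) + 1) ^ d / (2 ^ k) ^ (d - 1)) +
      rhoh P ξ ε (2 ^ (k - cc ε d)) ^ 2 * (C1 ε d * 2 ^ (k + 1)) := by
  obtain ⟨x, hx⟩ : ∃ x : Met d, x = met0 d := ⟨_, rfl⟩
  have hC1 := C1_nonneg (d := d) hε.le
  have hC2 : 0 ≤ C2 ε d := by
    unfold C2
    have := om_pos (d := d)
    positivity
  have hR0 : 0 ≤ rho P ξ ε (2 ^ k) * (C2 ε d * ((2 : ℝ) ^ j0 + 1) ^ d / (2 ^ k) ^ (d - 1)) := by
    have := rho_nonneg (P := P) (ξ := ξ) (ε := ε) (2 ^ k)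
    positivity
  have hR1 : ∀ j : ℕ, 0 ≤ rhoh P ξ ε (2 ^ (j - cc ε d)) ^ 2 *
        (C2 ε d * ((2 : ℝ) ^ (j + 1) + 1) ^ d / (2 ^ k) ^ (d - 1)) := by
    intro j; positivity
  have hR2 : 0 ≤ rhoh P ξ ε (2 ^ (k - cc ε d)) ^ 2 * (C1 ε d * 2 ^ (k + 1)) := by positivity
  have hRs : 0 ≤ ∑ j ∈ Finset.Ico j0 k, rhoh P ξ ε (2 ^ (j - cc ε d)) ^ 2 *
        (C2 ε d * ((2 : ℝ) ^ (j + 1) + 1) ^ d / (2 ^ k) ^ (d - 1)) :=
    Finset.sum_nonneg (fun j _ => hR1 j)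
  rw [← ENNReal.ofReal_le_ofReal_iff (add_nonneg (add_nonneg hR0 hRs) hR2)]
  have h1 := rho_diff_le H hε x (s := 2 ^ k) (s' := 2 ^ (k + 1))
    (pow_le_pow_right₀ (by norm_num) (by omega))
  refine h1.trans ?_
  -- the sets
  obtain ⟨D, hD⟩ : ∃ D : ℝ → Set (Met d), D = fun r => {y | ENNReal.ofReal ((2 : ℝ) ^ k) ≤
    tau ε x y ∧ tau ε x y < ∞ ∧ ‖y.1 - x.1‖ ≤ r} := ⟨_, rfl⟩
  obtain ⟨D', hD'⟩ : ∃ D' : Set (Met d), D' = {y | ((0 : ℝ≥0) : ℝ≥0∞) < tau ε x y ∧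
    tau ε x y ≤ ((2 ^ (k + 1) : ℝ≥0) : ℝ≥0∞)} := ⟨_, rfl⟩
  have hτ := measurable_tau_right ε x
  have hDm : ∀ r, MeasurableSet (D r) := by
    intro r
    rw [hD]
    have h1 : MeasurableSet {y : Met d | ENNReal.ofReal ((2 : ℝ) ^ k) ≤ tau ε x y} :=
      measurableSet_le measurable_const hτ
    have h2 : MeasurableSet {y : Met d | tau ε x y < ∞} := measurableSet_lt hτ measurable_const
    have h3 : MeasurableSet {y : Met d | ‖y.1 - x.1‖ ≤ r} := by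
      apply measurableSet_le _ measurable_const
      fun_prop
    exact h1.inter (h2.inter h3)
  have hD'm : MeasurableSet D' := by rw [hD']; exact measurableSet_tau_Ioc _ _ _ _
  have hDb : ∀ r, 0 ≤ r → intensity d (D r) ≤
      ENNReal.ofReal (C2 ε d * (r + 1) ^ d / (2 ^ k) ^ (d - 1)) := by
    intro r hr
    rw [hD]
    exact near_bound hε x hr (by positivity)
  have hD'b : intensity d D' ≤ ENNReal.ofReal (C1 ε d * 2 ^ (k + 1)) := by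
    rw [hD']
    have := contact_bound hε x (zero_le (a := (2 ^ (k + 1) : ℝ≥0)))
    simpa using this
  -- pointwise bound
  have hmS : MeasurableSet {y | ((2 ^ k : ℝ≥0) : ℝ≥0∞) ≤ tau ε x y ∧
      tau ε x y < ((2 ^ (k + 1) : ℝ≥0) : ℝ≥0∞)} := by
    have m1 : MeasurableSet {y : Met d | ((2 ^ k : ℝ≥0) : ℝ≥0∞) ≤ tau ε x y} :=
      measurableSet_le measurable_const hτ
    have m2 : MeasurableSet {y : Met d | tau ε x y < ((2 ^ (k + 1) : ℝ≥0) : ℝ≥0∞)} :=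
      measurableSet_lt hτ measurable_const
    exact m1.inter m2
  rw [← lintegral_indicator hmS]
  have hpt : ∀ y, ({y | ((2 ^ k : ℝ≥0) : ℝ≥0∞) ≤ tau ε x y ∧
      tau ε x y < ((2 ^ (k + 1) : ℝ≥0) : ℝ≥0∞)} : Set (Met d)).indicator
      (fun y => P {ω | (cnt (ξ ω), (x, y)) ∈ JJ d ε (2 ^ k) (2 ^ k)}) y ≤
      (D (2 ^ j0)).indicator (fun _ => ENNReal.ofReal (rho P ξ ε (2 ^ k))) y +
      ∑ j ∈ Finset.Ico j0 k, (D (2 ^ (j + 1))).indicator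
        (fun _ => ENNReal.ofReal (rhoh P ξ ε (2 ^ (j - cc ε d)) ^ 2)) y +
      D'.indicator (fun _ => ENNReal.ofReal (rhoh P ξ ε (2 ^ (k - cc ε d)) ^ 2)) y := by
    intro y
    by_cases hy : y ∈ {y | ((2 ^ k : ℝ≥0) : ℝ≥0∞) ≤ tau ε x y ∧
      tau ε x y < ((2 ^ (k + 1) : ℝ≥0) : ℝ≥0∞)}
    · rw [Set.indicator_of_mem hy]
      obtain ⟨hy1, hy2⟩ := hy
      have hτtop : tau ε x y < ∞ := hy2.trans ENNReal.coe_lt_top
      have hy1' : ENNReal.ofReal ((2 : ℝ) ^ k) ≤ tau ε x y := by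
        refine le_trans (le_of_eq ?_) hy1
        rw [ENNReal.ofReal, Real.toNNReal_pow (by norm_num)]
        simp
      have hτ0 : 0 < tau ε x y := lt_of_lt_of_le (by rw [ENNReal.coe_pos]; positivity) hy1
      have hxy : x ≠ y := by
        rintro rfl
        have : tau ε x x = 0 := by
          rw [tau_eq_zero_iff]; simp; exact hε.le
        rw [this] at hτ0
        exact absurd hτ0 (lt_irrefl _)
      have memD : ∀ r, ‖y.1 - x.1‖ ≤ r → y ∈ D r := by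
        intro r hr
        rw [hD]
        exact ⟨hy1', hτtop, hr⟩
      rcases le_or_gt ‖y.1 - x.1‖ ((2 : ℝ) ^ j0) with hA | hA
      · -- near
        rw [Set.indicator_of_mem (memD _ hA), add_assoc]
        exact (pair_near H hε hxy _).trans le_self_add
      · rcases le_or_gt ‖y.1 - x.1‖ ((2 : ℝ) ^ k) with hB | hB
        · -- intermediate
          obtain ⟨j, hj1, hj2, hj3, hj4⟩ : ∃ j, j0 ≤ j ∧ j < k ∧ (2 : ℝ) ^ j ≤ ‖y.1 - x.1‖ ∧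
              ‖y.1 - x.1‖ ≤ (2 : ℝ) ^ (j + 1) := by
            have hex : ∃ n, ‖y.1 - x.1‖ ≤ (2 : ℝ) ^ n := ⟨k, hB⟩
            classical
            obtain ⟨n, hn⟩ : ∃ n, n = Nat.find hex := ⟨_, rfl⟩
            have hn1 : ‖y.1 - x.1‖ ≤ (2 : ℝ) ^ n := by rw [hn]; exact Nat.find_spec hex
            have hn2 : n ≤ k := by rw [hn]; exact Nat.find_min' hex hB
            have hn3 : j0 < n := by
              by_contra hle
              push Not at hle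
              have : (2 : ℝ) ^ n ≤ 2 ^ j0 := pow_le_pow_right₀ (by norm_num) hle
              linarith
            have hn4 : ¬ ‖y.1 - x.1‖ ≤ (2 : ℝ) ^ (n - 1) :=
              Nat.find_min hex (by omega)
            push Not at hn4
            exact ⟨n - 1, by omega, by omega, hn4.le, by rwa [show n - 1 + 1 = n by omega]⟩
          have h5 : P {ω | (cnt (ξ ω), (x, y)) ∈ JJ d ε (2 ^ k) (2 ^ k)} ≤
              ENNReal.ofReal (rhoh P ξ ε (2 ^ (j - cc ε d)) ^ 2) := by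
            apply JJ_bound H hε (hc.trans hj1)
            · exact pow_le_pow_right₀ (by norm_num) (by omega)
            · rw [norm_sub_rev]; exact hj3
            · exact pow_le_pow_right₀ (by norm_num) (by omega)
          refine h5.trans ?_
          have h6 : ENNReal.ofReal (rhoh P ξ ε (2 ^ (j - cc ε d)) ^ 2) ≤
              ∑ j ∈ Finset.Ico j0 k, (D (2 ^ (j + 1))).indicator
                (fun _ => ENNReal.ofReal (rhoh P ξ ε (2 ^ (j - cc ε d)) ^ 2)) y := by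
            refine le_trans ?_ (Finset.single_le_sum (fun i _ => zero_le)
              (Finset.mem_Ico.mpr ⟨hj1, hj2⟩))
            rw [Set.indicator_of_mem (memD _ hj4)]
          refine h6.trans ?_
          exact le_add_self.trans le_self_add
        · -- far
          have hyD' : y ∈ D' := by
            rw [hD']
            exact ⟨by simpa using hτ0, hy2.le⟩
          rw [Set.indicator_of_mem hyD']
          refine le_trans ?_ le_add_self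
          apply JJ_bound H hε (hc.trans hj0)
          · exact pow_le_pow_right₀ (by norm_num) (by omega)
          · rw [norm_sub_rev]; exact hB.le
          · exact pow_le_pow_right₀ (by norm_num) (by omega)
    · rw [Set.indicator_of_notMem hy]; exact zero_le
  refine (lintegral_mono hpt).trans ?_
  rw [lintegral_add_right _ (measurable_const.indicator hD'm),
    lintegral_add_right _ (Finset.measurable_fun_sum _ (fun j _ =>
      measurable_const.indicator (hDm _))),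
    lintegral_finsetSum _ (fun j _ => measurable_const.indicator (hDm _))]
  simp only [lintegral_indicator (hDm _), lintegral_indicator hD'm, lintegral_const,
    Measure.restrict_apply_univ]
  rw [ENNReal.ofReal_add (add_nonneg hR0 hRs) hR2, ENNReal.ofReal_add hR0 hRs,
    ENNReal.ofReal_sum_of_nonneg (fun j _ => hR1 j)]
  refine add_le_add (add_le_add ?_ (Finset.sum_le_sum (fun j _ => ?_))) ?_
  · rw [ENNReal.ofReal_mul (rho_nonneg _)]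
    exact mul_le_mul' le_rfl (hDb _ (by positivity))
  · rw [ENNReal.ofReal_mul (by positivity)]
    exact mul_le_mul' le_rfl (hDb _ (by positivity))
  · rw [ENNReal.ofReal_mul (by positivity)]
    exact mul_le_mul' le_rfl hD'b

end prob

/-! ### Sequences -/

/-- The dyadic densities. -/
noncomputable def aa {Ω : Type*} [MeasurableSpace Ω] [NeZero d] (P : Measure Ω)
    (ξ : Ω → Set (Met d)) (ε : ℝ) (k : ℕ) : ℝ := 2 ^ k * rho P ξ ε (2 ^ k)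

/-- The error sequence. -/
noncomputable def ee (ε : ℝ) (d : ℕ) (k : ℕ) : ℝ := 2 ^ k * ((V0 ε d + 1) * Real.exp (-2 ^ k))

theorem ee_nonneg {ε : ℝ} (hε : 0 < ε) (k : ℕ) : 0 ≤ ee ε d k := by
  unfold ee
  have := V0_pos (d := d) hε
  positivity

theorem ee_le {ε : ℝ} (hε : 0 < ε) (k : ℕ) : (k : ℝ) ^ 2 * ee ε d k ^ 2 ≤
    36 * (V0 ε d + 1) ^ 2 * (1 / 4) ^ k := by
  have hV := V0_pos (d := d) hε
  have h1 : (2 : ℝ) ^ k * Real.exp (-2 ^ k) ≤ 6 * (1 / 4) ^ k := by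
    have h2 : ((2 : ℝ) ^ k) ^ 3 / 6 ≤ Real.exp (2 ^ k) := by
      have := Real.pow_div_factorial_le_exp ((2 : ℝ) ^ k) (by positivity) 3
      simpa [Nat.factorial] using this
    rw [Real.exp_neg, ← div_eq_mul_inv, div_le_iff₀ (Real.exp_pos _)]
    calc (2 : ℝ) ^ k = 6 * (1 / 4) ^ k * (((2 : ℝ) ^ k) ^ 3 / 6) := by
          have : (1 / 4 : ℝ) ^ k * ((2 : ℝ) ^ k) ^ 2 = 1 := by
            rw [← pow_mul, mul_comm k 2, pow_mul, ← mul_pow]; norm_num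
          calc (2 : ℝ) ^ k = (1 / 4 : ℝ) ^ k * ((2 : ℝ) ^ k) ^ 2 * 2 ^ k := by rw [this, one_mul]
            _ = _ := by ring
      _ ≤ _ := by gcongr
  have h3 : ee ε d k ≤ 6 * (V0 ε d + 1) * (1 / 4) ^ k := by
    unfold ee
    calc (2 : ℝ) ^ k * ((V0 ε d + 1) * Real.exp (-2 ^ k)) =
          (V0 ε d + 1) * (2 ^ k * Real.exp (-2 ^ k)) := by ring
      _ ≤ (V0 ε d + 1) * (6 * (1 / 4) ^ k) := by gcongr
      _ = _ := by ring
  have h4 : (k : ℝ) ^ 2 ≤ 4 ^ k := by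
    have h5 : (k : ℝ) ≤ 2 ^ k := by exact_mod_cast Nat.lt_two_pow_self.le
    calc (k : ℝ) ^ 2 ≤ (2 ^ k) ^ 2 := by gcongr
      _ = 4 ^ k := by rw [← pow_mul, mul_comm k 2, pow_mul]; norm_num
  have h5 := ee_nonneg (d := d) hε k
  calc (k : ℝ) ^ 2 * ee ε d k ^ 2 ≤ 4 ^ k * (6 * (V0 ε d + 1) * (1 / 4) ^ k) ^ 2 := by gcongr
    _ = 36 * (V0 ε d + 1) ^ 2 * ((4 ^ k * (1 / 4) ^ k) * (1 / 4) ^ k) := by ring
    _ = _ := by rw [← mul_pow]; norm_num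

theorem sum_ee_le {ε : ℝ} (hε : 0 < ε) (n : ℕ) :
    ∑ k ∈ Finset.range n, (k : ℝ) ^ 2 * ee ε d k ^ 2 ≤ 48 * (V0 ε d + 1) ^ 2 := by
  have hV := V0_pos (d := d) hε
  calc ∑ k ∈ Finset.range n, (k : ℝ) ^ 2 * ee ε d k ^ 2
      ≤ ∑ k ∈ Finset.range n, 36 * (V0 ε d + 1) ^ 2 * (1 / 4) ^ k :=
        Finset.sum_le_sum (fun k _ => ee_le hε k)
    _ = 36 * (V0 ε d + 1) ^ 2 * ∑ k ∈ Finset.range n, (1 / 4 : ℝ) ^ k := by
        rw [Finset.mul_sum]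
    _ ≤ 36 * (V0 ε d + 1) ^ 2 * (4 / 3) := by
        gcongr
        have h1 : ∑ k ∈ Finset.range n, (1 / 4 : ℝ) ^ k ≤ ∑' k : ℕ, (1 / 4 : ℝ) ^ k :=
          (summable_geometric_of_lt_one (by norm_num) (by norm_num)).sum_le_tsum _
            (fun i _ => by positivity)
        rw [tsum_geometric_of_lt_one (by norm_num) (by norm_num)] at h1
        norm_num at h1 ⊢
        exact h1
    _ = _ := by ring

/-- The window sums are controlled by `WW`. -/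
theorem window_bound {ε : ℝ} (hε : 0 < ε) (a : ℕ → ℝ) {k lo : ℕ} (hk : 1 ≤ k)
    (hlo : k ≤ 4 * lo) :
    ∑ i ∈ Finset.Ico lo (k + 1), (a i + ee ε d i) ^ 2 ≤
      32 * (1 + 48 * (V0 ε d + 1) ^ 2) * WW a k := by
  have hV := V0_pos (d := d) hε
  have hkpos : (0 : ℝ) < k := by exact_mod_cast hk
  have h1 : ∀ i ∈ Finset.Ico lo (k + 1), (a i + ee ε d i) ^ 2 ≤
      32 / (k : ℝ) ^ 2 * ((i : ℝ) ^ 2 * a i ^ 2 + (i : ℝ) ^ 2 * ee ε d i ^ 2) := by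
    intro i hi
    have hi' := (Finset.mem_Ico.mp hi).1
    have h2 : (k : ℝ) ≤ 4 * i := by
      have : k ≤ 4 * i := by omega
      exact_mod_cast this
    have h3 : (a i + ee ε d i) ^ 2 ≤ 2 * (a i ^ 2 + ee ε d i ^ 2) := by
      nlinarith [sq_nonneg (a i - ee ε d i)]
    refine h3.trans ?_
    rw [div_mul_eq_mul_div, le_div_iff₀ (by positivity)]
    have h4 : (k : ℝ) ^ 2 ≤ 16 * (i : ℝ) ^ 2 := by nlinarith
    have h5 : 0 ≤ a i ^ 2 + ee ε d i ^ 2 := by positivity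
    nlinarith
  refine (Finset.sum_le_sum h1).trans ?_
  rw [← Finset.mul_sum]
  have h2 : ∑ i ∈ Finset.Ico lo (k + 1), ((i : ℝ) ^ 2 * a i ^ 2 + (i : ℝ) ^ 2 * ee ε d i ^ 2) ≤
      ∑ i ∈ Finset.range (k + 1), ((i : ℝ) ^ 2 * a i ^ 2 + (i : ℝ) ^ 2 * ee ε d i ^ 2) := by
    apply Finset.sum_le_sum_of_subset_of_nonneg
    · intro i hi
      rw [Finset.mem_range]; exact (Finset.mem_Ico.mp hi).2
    · intro i _ _; positivity
  rw [Finset.sum_add_distrib (s := Finset.range (k + 1))] at h2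
  have h3 := sum_ee_le (d := d) hε (k + 1)
  have h4 : 1 + ∑ i ∈ Finset.range (k + 1), (i : ℝ) ^ 2 * a i ^ 2 = QQ a k := rfl
  have h5 := one_le_QQ a k
  unfold WW
  rw [div_mul_eq_mul_div, mul_div_assoc', div_le_div_iff_of_pos_right (by positivity)]
  have h6 : 0 ≤ 48 * (V0 ε d + 1) ^ 2 := by positivity
  nlinarith

section decay

variable {Ω : Type*} [MeasurableSpace Ω] {P : Measure Ω} [IsProbabilityMeasure P]
  {ξ : Ω → Set (Met d)} [NeZero d] {ε : ℝ}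

omit [IsProbabilityMeasure P] in
theorem aa_nonneg (k : ℕ) : 0 ≤ aa P ξ ε k := by
  unfold aa
  have := rho_nonneg (P := P) (ξ := ξ) (ε := ε) (2 ^ k)
  positivity

omit [IsProbabilityMeasure P] in
theorem gg_eq {j : ℕ} (hj : cc ε d ≤ j) : (2 : ℝ) ^ j * rhoh P ξ ε (2 ^ (j - cc ε d)) =
    2 ^ (cc ε d) * (aa P ξ ε (j - cc ε d) + ee ε d (j - cc ε d)) := by
  have h2 : (2 : ℝ) ^ j = 2 ^ (cc ε d) * 2 ^ (j - cc ε d) := by
    rw [← pow_add]; congr 1; omega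
  rw [h2]
  unfold rhoh aa ee
  push_cast
  ring

variable (H : PP P ξ (intensity d) (Kd d))
include H

theorem aa_succ_le (k : ℕ) : aa P ξ ε (k + 1) ≤ 2 * aa P ξ ε k := by
  unfold aa
  have h1 := rho_anti H (ε := ε) (s := 2 ^ k) (t := 2 ^ (k + 1))
    (pow_le_pow_right₀ (by norm_num) (by omega))
  rw [pow_succ]
  have : (0 : ℝ) < 2 ^ k := by positivity
  nlinarith

omit H [NeZero d] in
theorem dyadic_geom (hd : 2 ≤ d) {j k : ℕ} (hjk : j ≤ k) :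
    ((2 : ℝ) ^ j) ^ d / (2 ^ k) ^ (d - 1) ≤ (2 ^ j) ^ 2 / 2 ^ k := by
  obtain ⟨m, rfl⟩ : ∃ m, d = m + 2 := ⟨d - 2, by omega⟩
  rw [show m + 2 - 1 = m + 1 by omega, div_le_div_iff₀ (by positivity) (by positivity)]
  have h1 : ((2 : ℝ) ^ j) ^ m ≤ (2 ^ k) ^ m := by
    gcongr
    · norm_num
  calc ((2 : ℝ) ^ j) ^ (m + 2) * 2 ^ k = ((2 : ℝ) ^ j) ^ 2 * 2 ^ k * ((2 : ℝ) ^ j) ^ m := by ring
    _ ≤ ((2 : ℝ) ^ j) ^ 2 * 2 ^ k * (2 ^ k) ^ m := by gcongr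
    _ = _ := by ring

theorem decay (hε : 0 < ε) (hd : 2 ≤ d) : ∃ (C : ℝ) (k0 : ℕ), 0 ≤ C ∧ ∀ k, k0 ≤ k →
    3 / 2 * aa P ξ ε k - C * WW (aa P ξ ε) k ≤ aa P ξ ε (k + 1) := by
  have hC1 := C1_nonneg (d := d) hε.le
  have hC2 : 0 ≤ C2 ε d := by
    unfold C2
    have := om_pos (d := d)
    positivity
  have hV := V0_pos (d := d) hε
  obtain ⟨c, hc⟩ : ∃ c, c = cc ε d := ⟨_, rfl⟩
  obtain ⟨c2, hc2⟩ : ∃ c2 : ℕ, 4 * C2 ε d * 2 ^ d ≤ (4 : ℝ) ^ c2 := by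
    obtain ⟨c2, hc2⟩ := pow_unbounded_of_one_lt (4 * C2 ε d * 2 ^ d) (by norm_num : (1 : ℝ) < 4)
    exact ⟨c2, hc2.le⟩
  obtain ⟨C, hC⟩ : ∃ C : ℝ, C = (2 * C2 ε d * 4 ^ d + 4 * C1 ε d) * (4 : ℝ) ^ c := ⟨_, rfl⟩
  have hC0 : 0 ≤ C := by rw [hC]; positivity
  refine ⟨C * (32 * (1 + 48 * (V0 ε d + 1) ^ 2)), 4 * (c + c2 + 1) + 1, by positivity, ?_⟩
  intro k hk
  obtain ⟨j0, hj0⟩ : ∃ j0, j0 = k / 2 - c2 := ⟨_, rfl⟩
  have hj0c : c ≤ j0 := by omega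
  have hj0k : j0 ≤ k := by omega
  have hL := loss_bound H hε (k := k) (j0 := j0) (by rw [← hc]; exact hj0c) hj0k
  rw [← hc] at hL
  have hk2 : (0 : ℝ) < 2 ^ (k + 1) := by positivity
  have hρ := rho_nonneg (P := P) (ξ := ξ) (ε := ε) (2 ^ k)
  -- the near term
  have hT0 : (2 : ℝ) ^ (k + 1) * (rho P ξ ε (2 ^ k) *
      (C2 ε d * ((2 : ℝ) ^ j0 + 1) ^ d / (2 ^ k) ^ (d - 1))) ≤ 1 / 2 * aa P ξ ε k := by
    have h1 : ((2 : ℝ) ^ j0 + 1) ^ d ≤ 2 ^ d * ((2 : ℝ) ^ j0) ^ d := by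
      rw [← mul_pow]
      have : (1 : ℝ) ≤ 2 ^ j0 := one_le_pow₀ (by norm_num)
      gcongr; linarith
    have h2 : C2 ε d * ((2 : ℝ) ^ j0 + 1) ^ d / (2 ^ k) ^ (d - 1) ≤
        C2 ε d * 2 ^ d * ((2 ^ j0) ^ 2 / 2 ^ k) := by
      calc C2 ε d * ((2 : ℝ) ^ j0 + 1) ^ d / (2 ^ k) ^ (d - 1)
          ≤ C2 ε d * (2 ^ d * ((2 : ℝ) ^ j0) ^ d) / (2 ^ k) ^ (d - 1) := by gcongr
        _ = C2 ε d * 2 ^ d * (((2 : ℝ) ^ j0) ^ d / (2 ^ k) ^ (d - 1)) := by ring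
        _ ≤ _ := mul_le_mul_of_nonneg_left (dyadic_geom hd hj0k) (by positivity)
    have h3 : ((2 : ℝ) ^ j0) ^ 2 * 4 ^ c2 ≤ 2 ^ k := by
      rw [← pow_mul, show (4 : ℝ) = 2 ^ 2 by norm_num, ← pow_mul, ← pow_add]
      apply pow_le_pow_right₀ (by norm_num)
      omega
    have h4 : C2 ε d * 2 ^ d * ((2 ^ j0) ^ 2 / 2 ^ k) ≤ 1 / 4 := by
      rw [mul_div_assoc', div_le_iff₀ (by positivity)]
      have h5 : (0 : ℝ) ≤ (2 ^ j0) ^ 2 := by positivity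
      nlinarith
    unfold aa
    rw [pow_succ]
    calc (2 : ℝ) ^ k * 2 * (rho P ξ ε (2 ^ k) *
          (C2 ε d * ((2 : ℝ) ^ j0 + 1) ^ d / (2 ^ k) ^ (d - 1)))
        ≤ (2 : ℝ) ^ k * 2 * (rho P ξ ε (2 ^ k) * (1 / 4)) :=
          mul_le_mul_of_nonneg_left (mul_le_mul_of_nonneg_left (h2.trans h4) hρ) (by positivity)
      _ = _ := by ring
  -- the intermediate terms
  have hT1 : ∀ j ∈ Finset.Ico j0 k, (2 : ℝ) ^ (k + 1) * (rhoh P ξ ε (2 ^ (j - c)) ^ 2 *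
        (C2 ε d * ((2 : ℝ) ^ (j + 1) + 1) ^ d / (2 ^ k) ^ (d - 1))) ≤
      C * (aa P ξ ε (j - c) + ee ε d (j - c)) ^ 2 := by
    intro j hj
    obtain ⟨hj1, hj2⟩ := Finset.mem_Ico.mp hj
    have hcj : cc ε d ≤ j := by omega
    have h1 : ((2 : ℝ) ^ (j + 1) + 1) ^ d ≤ 4 ^ d * ((2 : ℝ) ^ j) ^ d := by
      rw [← mul_pow]
      have : (1 : ℝ) ≤ 2 ^ j := one_le_pow₀ (by norm_num)
      gcongr
      rw [pow_succ]; linarith
    have h2 : C2 ε d * ((2 : ℝ) ^ (j + 1) + 1) ^ d / (2 ^ k) ^ (d - 1) ≤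
        C2 ε d * 4 ^ d * ((2 ^ j) ^ 2 / 2 ^ k) := by
      calc C2 ε d * ((2 : ℝ) ^ (j + 1) + 1) ^ d / (2 ^ k) ^ (d - 1)
          ≤ C2 ε d * (4 ^ d * ((2 : ℝ) ^ j) ^ d) / (2 ^ k) ^ (d - 1) := by gcongr
        _ = C2 ε d * 4 ^ d * (((2 : ℝ) ^ j) ^ d / (2 ^ k) ^ (d - 1)) := by ring
        _ ≤ _ := mul_le_mul_of_nonneg_left (dyadic_geom hd hj2.le) (by positivity)
    have h3 := gg_eq (P := P) (ξ := ξ) (ε := ε) hcj
    rw [← hc] at h3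
    calc (2 : ℝ) ^ (k + 1) * (rhoh P ξ ε (2 ^ (j - c)) ^ 2 *
        (C2 ε d * ((2 : ℝ) ^ (j + 1) + 1) ^ d / (2 ^ k) ^ (d - 1)))
        ≤ (2 : ℝ) ^ (k + 1) * (rhoh P ξ ε (2 ^ (j - c)) ^ 2 *
          (C2 ε d * 4 ^ d * ((2 ^ j) ^ 2 / 2 ^ k))) := by gcongr
      _ = 2 * C2 ε d * 4 ^ d * ((2 : ℝ) ^ j * rhoh P ξ ε (2 ^ (j - c))) ^ 2 := by
          rw [pow_succ]; field_simp
      _ = 2 * C2 ε d * 4 ^ d * ((2 : ℝ) ^ c * (aa P ξ ε (j - c) + ee ε d (j - c))) ^ 2 := by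
          rw [h3]
      _ = 2 * C2 ε d * 4 ^ d * ((2 : ℝ) ^ c) ^ 2 * (aa P ξ ε (j - c) + ee ε d (j - c)) ^ 2 := by
          ring
      _ = 2 * C2 ε d * 4 ^ d * (4 : ℝ) ^ c * (aa P ξ ε (j - c) + ee ε d (j - c)) ^ 2 := by
          rw [← pow_mul, mul_comm c 2, pow_mul]; norm_num
      _ ≤ _ := by
          rw [hC]
          gcongr
          linarith
  -- the far term
  have hT2 : (2 : ℝ) ^ (k + 1) * (rhoh P ξ ε (2 ^ (k - c)) ^ 2 * (C1 ε d * 2 ^ (k + 1))) ≤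
      C * (aa P ξ ε (k - c) + ee ε d (k - c)) ^ 2 := by
    have hcj : cc ε d ≤ k := by omega
    have h3 := gg_eq (P := P) (ξ := ξ) (ε := ε) hcj
    rw [← hc] at h3
    calc (2 : ℝ) ^ (k + 1) * (rhoh P ξ ε (2 ^ (k - c)) ^ 2 * (C1 ε d * 2 ^ (k + 1)))
        = 4 * C1 ε d * ((2 : ℝ) ^ k * rhoh P ξ ε (2 ^ (k - c))) ^ 2 := by
          rw [pow_succ]; ring
      _ = 4 * C1 ε d * ((2 : ℝ) ^ c * (aa P ξ ε (k - c) + ee ε d (k - c))) ^ 2 := by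
          rw [h3]
      _ = 4 * C1 ε d * ((2 : ℝ) ^ c) ^ 2 * (aa P ξ ε (k - c) + ee ε d (k - c)) ^ 2 := by
          ring
      _ = 4 * C1 ε d * (4 : ℝ) ^ c * (aa P ξ ε (k - c) + ee ε d (k - c)) ^ 2 := by
          rw [← pow_mul, mul_comm c 2, pow_mul]; norm_num
      _ ≤ _ := by
          rw [hC]
          gcongr
          have : 0 ≤ 2 * C2 ε d * 4 ^ d := by positivity
          linarith
  -- sum up
  have hS : ∑ j ∈ Finset.Ico j0 (k + 1), (aa P ξ ε (j - c) + ee ε d (j - c)) ^ 2 ≤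
      ∑ i ∈ Finset.Ico (j0 - c) (k + 1), (aa P ξ ε i + ee ε d i) ^ 2 := by
    have h1 : ∑ j ∈ Finset.Ico j0 (k + 1), (aa P ξ ε (j - c) + ee ε d (j - c)) ^ 2 =
        ∑ i ∈ Finset.Ico (j0 - c) (k + 1 - c), (aa P ξ ε i + ee ε d i) ^ 2 := by
      have h2 := Finset.sum_Ico_add' (fun j => (aa P ξ ε (j - c) + ee ε d (j - c)) ^ 2)
        (j0 - c) (k + 1 - c) c
      rw [show j0 - c + c = j0 by omega, show k + 1 - c + c = k + 1 by omega] at h2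
      rw [← h2]
      apply Finset.sum_congr rfl
      intro i _
      simp
    rw [h1]
    apply Finset.sum_le_sum_of_subset_of_nonneg
    · intro i hi
      rw [Finset.mem_Ico] at hi ⊢
      omega
    · intro i _ _; positivity
  have hW := window_bound (d := d) hε (aa P ξ ε) (k := k) (lo := j0 - c) (by omega) (by omega)
  have hsum : ∑ j ∈ Finset.Ico j0 (k + 1), (aa P ξ ε (j - c) + ee ε d (j - c)) ^ 2 =
      ∑ j ∈ Finset.Ico j0 k, (aa P ξ ε (j - c) + ee ε d (j - c)) ^ 2 +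
      (aa P ξ ε (k - c) + ee ε d (k - c)) ^ 2 := by
    rw [Finset.sum_Ico_succ_top hj0k]
  have hfin : 2 * aa P ξ ε k - aa P ξ ε (k + 1) ≤ 1 / 2 * aa P ξ ε k +
      C * ∑ j ∈ Finset.Ico j0 (k + 1), (aa P ξ ε (j - c) + ee ε d (j - c)) ^ 2 := by
    have h1 : 2 * aa P ξ ε k - aa P ξ ε (k + 1) =
        2 ^ (k + 1) * (rho P ξ ε (2 ^ k) - rho P ξ ε (2 ^ (k + 1))) := by
      unfold aa; rw [pow_succ]; ring
    rw [h1, hsum, mul_add, Finset.mul_sum]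
    have h2 := mul_le_mul_of_nonneg_left hL hk2.le
    rw [mul_add, mul_add, Finset.mul_sum] at h2
    have h3 := Finset.sum_le_sum hT1
    linarith
  have h1 : C * ∑ j ∈ Finset.Ico j0 (k + 1), (aa P ξ ε (j - c) + ee ε d (j - c)) ^ 2 ≤
      C * (32 * (1 + 48 * (V0 ε d + 1) ^ 2) * WW (aa P ξ ε) k) :=
    mul_le_mul_of_nonneg_left (hS.trans hW) hC0
  linarith

end decay

end Pool.Agent.Meteor
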