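import Mathlib
import Pool.Agent.Lib_helper16.Meteor.Decay

/-!
Second moment formulas.
-/

namespace Pool.Agent.Meteor

open MeasureTheory Filter ProbabilityTheory Set
open scoped ENNReal NNReal Topology Pointwise

variable {d : ℕ}

/-- Number of points in `D` surviving until `t`. -/
noncomputable def Cf (ε : ℝ) (D : Set (Met d)) (t : ℝ≥0) (ν : Measure (Met d)) : ℝ≥0∞ :=
  goodK (Kd d) measurableSet_Kd ν {y | y ∈ D ∧ ((del measurableSet_Kd ν y, y), (t : ℝ≥0∞)) ∈ Al d ε}

theorem measurableSet_Cf_inner (ε : ℝ) {D : Set (Met d)} (hD : MeasurableSet D) (t : ℝ≥0) :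
    MeasurableSet {p : Measure (Met d) × Met d | p.2 ∈ D ∧
      ((del measurableSet_Kd p.1 p.2, p.2), (t : ℝ≥0∞)) ∈ Al d ε} := by
  have m1 : MeasurableSet {p : Measure (Met d) × Met d | p.2 ∈ D} := measurable_snd hD
  have h1 : Measurable (fun p : Measure (Met d) × Met d => del measurableSet_Kd p.1 p.2) :=
    measurable_del measurableSet_Kd Kd_cov diag_met
  have h2 : Measurable (fun p : Measure (Met d) × Met d =>
      ((del measurableSet_Kd p.1 p.2, p.2), (t : ℝ≥0∞))) :=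
    (h1.prodMk measurable_snd).prodMk measurable_const
  have m2 : MeasurableSet {p : Measure (Met d) × Met d |
      ((del measurableSet_Kd p.1 p.2, p.2), (t : ℝ≥0∞)) ∈ Al d ε} := h2 (measurableSet_Al ε)
  exact m1.inter m2

theorem measurable_Cf (ε : ℝ) {D : Set (Met d)} (hD : MeasurableSet D) (t : ℝ≥0) :
    Measurable (Cf ε D t) :=
  measurable_goodK_left measurableSet_Kd Kd_cov measurable_id (measurableSet_Cf_inner ε hD t)

/-- The set of points of `D` surviving until `t`. -/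
def Sf (ε : ℝ) (D : Set (Met d)) (t : ℝ≥0) (F : Set (Met d)) : Set (Met d) :=
  {y | y ∈ D ∧ alive (tau ε) (F \ {y}) y t}

theorem Cf_cnt {ε : ℝ} {D : Set (Met d)} {t : ℝ≥0} {F : Set (Met d)}
    (hF : cnt F ∈ LF (Kd d)) : Cf ε D t (cnt F) = cnt F (Sf ε D t F) := by
  unfold Cf Sf
  rw [goodK_apply measurableSet_Kd hF]
  congr 1
  ext y
  show (y ∈ D ∧ ((del measurableSet_Kd (cnt F) y, y), (t : ℝ≥0∞)) ∈ Al d ε) ↔
    (y ∈ D ∧ alive (tau ε) (F \ {y}) y t)
  rw [del_cnt measurableSet_Kd hF, mem_Al (LF_cnt_subset Set.sdiff_subset hF)]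

theorem measurableSet_Sf {ε : ℝ} {D : Set (Met d)} (hD : MeasurableSet D) {t : ℝ≥0}
    {F : Set (Met d)} (hF : cnt F ∈ LF (Kd d)) : MeasurableSet (Sf ε D t F) := by
  have h1 := measurable_prodMk_left (x := cnt F) (measurableSet_Cf_inner ε hD t)
  have h2 : Sf ε D t F = Prod.mk (cnt F) ⁻¹' {p : Measure (Met d) × Met d | p.2 ∈ D ∧
      ((del measurableSet_Kd p.1 p.2, p.2), (t : ℝ≥0∞)) ∈ Al d ε} := by
    ext y
    show (y ∈ D ∧ alive (tau ε) (F \ {y}) y t) ↔
      (y ∈ D ∧ ((del measurableSet_Kd (cnt F) y, y), (t : ℝ≥0∞)) ∈ Al d ε)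
    rw [del_cnt measurableSet_Kd hF, mem_Al (LF_cnt_subset Set.sdiff_subset hF)]
  rw [h2]
  exact h1

section prob

variable {Ω : Type*} [MeasurableSpace Ω] {P : Measure Ω} [IsProbabilityMeasure P]
  {ξ : Ω → Set (Met d)} [NeZero d] {ε : ℝ} (H : PP P ξ (intensity d) (Kd d))

include H

/-- First moment. -/
theorem expect_Cf {D : Set (Met d)} (hD : MeasurableSet D) (t : ℝ≥0) :
    ∫⁻ ω, Cf ε D t (cnt (ξ ω)) ∂P = intensity d D * ENNReal.ofReal (rho P ξ ε t) := by
  have hS : MeasurableSet {p : Met d × Measure (Met d) | p.1 ∈ D ∧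
      ((p.2, p.1), (t : ℝ≥0∞)) ∈ Al d ε} := by
    have m1 : MeasurableSet {p : Met d × Measure (Met d) | p.1 ∈ D} := measurable_fst hD
    have h2 : Measurable (fun p : Met d × Measure (Met d) => ((p.2, p.1), (t : ℝ≥0∞))) := by
      fun_prop
    have m2 : MeasurableSet {p : Met d × Measure (Met d) |
      ((p.2, p.1), (t : ℝ≥0∞)) ∈ Al d ε} := h2 (measurableSet_Al ε)
    exact m1.inter m2
  have h1 := H.expect_count hS
  have h2 : ∫⁻ ω, Cf ε D t (cnt (ξ ω)) ∂P = ∫⁻ ω, cnt (ξ ω) {y | (y, cnt (ξ ω \ {y})) ∈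
      {p : Met d × Measure (Met d) | p.1 ∈ D ∧ ((p.2, p.1), (t : ℝ≥0∞)) ∈ Al d ε}} ∂P := by
    apply lintegral_congr_ae
    filter_upwards [H.ae_LF] with ω hω
    rw [Cf_cnt hω]
    congr 1
    ext y
    show (y ∈ D ∧ alive (tau ε) (ξ ω \ {y}) y t) ↔
      (y ∈ D ∧ ((cnt (ξ ω \ {y}), y), (t : ℝ≥0∞)) ∈ Al d ε)
    rw [mem_Al (LF_cnt_subset Set.sdiff_subset hω)]
  rw [h2, h1]
  have h3 : ∀ y, P {ω | (y, cnt (ξ ω)) ∈ {p : Met d × Measure (Met d) | p.1 ∈ D ∧
      ((p.2, p.1), (t : ℝ≥0∞)) ∈ Al d ε}} =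
      D.indicator (fun _ => ENNReal.ofReal (rho P ξ ε t)) y := by
    intro y
    by_cases hy : y ∈ D
    · rw [Set.indicator_of_mem hy, ← prob_alive H y]
      congr 1
      ext ω
      exact and_iff_right hy
    · rw [Set.indicator_of_notMem hy]
      have : {ω | (y, cnt (ξ ω)) ∈ {p : Met d × Measure (Met d) | p.1 ∈ D ∧
          ((p.2, p.1), (t : ℝ≥0∞)) ∈ Al d ε}} = ∅ := by
        ext ω
        simp only [mem_empty_iff_false, iff_false]
        rintro ⟨h, _⟩
        exact hy h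
      rw [this, measure_empty]
  simp only [h3]
  rw [lintegral_indicator hD, lintegral_const, Measure.restrict_apply_univ, mul_comm]

/-- The conditional second factor. -/
theorem expect_pair (x : Met d) (s : ℝ≥0) {D' : Set (Met d)} (hD' : MeasurableSet D') (t : ℝ≥0) :
    ∫⁻ ω, ({ω | ((cnt (ξ ω), x), (s : ℝ≥0∞)) ∈ Al d ε} : Set Ω).indicator
      (fun ω => cnt (ξ ω) {y | y ∈ D' ∧ alive (tau ε) (insert x (ξ ω \ {y})) y t}) ω ∂P =
      ∫⁻ y in D', P {ω | (cnt (ξ ω), (x, y)) ∈ JJ d ε s t} ∂(intensity d) := by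
  have hS : MeasurableSet {p : Met d × Measure (Met d) | p.1 ∈ D' ∧
      (p.2, (x, p.1)) ∈ JJ d ε s t} := by
    have m1 : MeasurableSet {p : Met d × Measure (Met d) | p.1 ∈ D'} := measurable_fst hD'
    have h2 : Measurable (fun p : Met d × Measure (Met d) => (p.2, (x, p.1))) := by
      fun_prop
    have m2 : MeasurableSet {p : Met d × Measure (Met d) |
      (p.2, (x, p.1)) ∈ JJ d ε s t} := h2 (measurableSet_JJ ε s t)
    exact m1.inter m2
  have h1 := H.expect_count hS
  have h3 : ∀ y, P {ω | (y, cnt (ξ ω)) ∈ {p : Met d × Measure (Met d) | p.1 ∈ D' ∧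
      (p.2, (x, p.1)) ∈ JJ d ε s t}} =
      D'.indicator (fun y => P {ω | (cnt (ξ ω), (x, y)) ∈ JJ d ε s t}) y := by
    intro y
    by_cases hy : y ∈ D'
    · rw [Set.indicator_of_mem hy]
      congr 1
      ext ω
      exact and_iff_right hy
    · rw [Set.indicator_of_notMem hy]
      have : {ω | (y, cnt (ξ ω)) ∈ {p : Met d × Measure (Met d) | p.1 ∈ D' ∧
          (p.2, (x, p.1)) ∈ JJ d ε s t}} = ∅ := by
        ext ω
        simp only [mem_empty_iff_false, iff_false]
        rintro ⟨h, _⟩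
        exact hy h
      rw [this, measure_empty]
  simp only [h3] at h1
  rw [lintegral_indicator hD'] at h1
  rw [← h1]
  apply lintegral_congr_ae
  filter_upwards [H.ae_LF, H.ae_not_mem x] with ω hω hx
  -- compare the two counts on the points of `ξ ω`
  have key : ∀ A B : Set (Met d), MeasurableSet (ξ ω ∩ A) → (∀ y ∈ ξ ω, (y ∈ A ↔ y ∈ B)) →
      cnt (ξ ω) A ≤ cnt (ξ ω) B := by
    intro A B _ hAB
    have hle : cnt (ξ ω) A ≤ cnt (ξ ω) (ξ ω ∩ A) := by
      have hz : cnt (ξ ω) (ξ ω)ᶜ = 0 := by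
        unfold cnt
        rw [Measure.restrict_apply']
        · simp
        · have : ξ ω = ⋃ m : ℕ, (ξ ω ∩ Kd d m) := by
            rw [← Set.inter_iUnion, Kd_cov, Set.inter_univ]
          rw [this]
          exact MeasurableSet.iUnion (fun m =>
            (finite_of_cnt_lt_top (measurableSet_Kd m) (hω m)).measurableSet)
      calc cnt (ξ ω) A ≤ cnt (ξ ω) ((ξ ω ∩ A) ∪ (ξ ω)ᶜ) := by
            apply measure_mono
            intro z hz
            by_cases h : z ∈ ξ ω
            · exact Or.inl ⟨h, hz⟩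
            · exact Or.inr h
        _ ≤ cnt (ξ ω) (ξ ω ∩ A) + cnt (ξ ω) (ξ ω)ᶜ := measure_union_le _ _
        _ = _ := by rw [hz, add_zero]
    refine hle.trans (measure_mono ?_)
    rintro y ⟨hy, hyA⟩
    exact (hAB y hy).mp hyA
  have hms : ∀ A : Set (Met d), MeasurableSet (ξ ω ∩ A) := by
    intro A
    have : ξ ω ∩ A = ⋃ m : ℕ, (ξ ω ∩ A ∩ Kd d m) := by
      rw [← Set.inter_iUnion, Kd_cov, Set.inter_univ]
    rw [this]
    exact MeasurableSet.iUnion (fun m =>
      ((finite_of_cnt_lt_top (measurableSet_Kd m) (hω m)).subset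
        (fun y hy => ⟨hy.1.1, hy.2⟩)).measurableSet)
  have hiff : ∀ y ∈ ξ ω, ((y, cnt (ξ ω \ {y})) ∈ {p : Met d × Measure (Met d) | p.1 ∈ D' ∧
      (p.2, (x, p.1)) ∈ JJ d ε s t} ↔ y ∈ D' ∧ alive (tau ε) (ξ ω) x s ∧
        alive (tau ε) (insert x (ξ ω \ {y})) y t) := by
    intro y hy
    show (y ∈ D' ∧ (cnt (ξ ω \ {y}), (x, y)) ∈ JJ d ε s t) ↔ _
    rw [mem_JJ (LF_cnt_subset Set.sdiff_subset hω) (fun h => hx h.1) (by simp)]
    have : insert y (ξ ω \ {y}) = ξ ω := by
      rw [Set.insert_sdiff_singleton, Set.insert_eq_of_mem hy]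
    rw [this]
  by_cases hA : ((cnt (ξ ω), x), (s : ℝ≥0∞)) ∈ Al d ε
  · rw [Set.indicator_of_mem (by exact hA)]
    rw [mem_Al hω] at hA
    apply le_antisymm
    · apply key _ _ (hms _)
      intro y hy
      show (y ∈ D' ∧ alive (tau ε) (insert x (ξ ω \ {y})) y t) ↔
        (y, cnt (ξ ω \ {y})) ∈ {p : Met d × Measure (Met d) | p.1 ∈ D' ∧
          (p.2, (x, p.1)) ∈ JJ d ε s t}
      rw [hiff y hy]
      exact ⟨fun h => ⟨h.1, hA, h.2⟩, fun h => ⟨h.1, h.2.2⟩⟩
    · apply key _ _ (hms _)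
      intro y hy
      show (y, cnt (ξ ω \ {y})) ∈ {p : Met d × Measure (Met d) | p.1 ∈ D' ∧
          (p.2, (x, p.1)) ∈ JJ d ε s t} ↔
        (y ∈ D' ∧ alive (tau ε) (insert x (ξ ω \ {y})) y t)
      rw [hiff y hy]
      exact ⟨fun h => ⟨h.1, h.2.2⟩, fun h => ⟨h.1, hA, h.2⟩⟩
  · rw [Set.indicator_of_notMem (by exact hA)]
    rw [mem_Al hω] at hA
    symm
    apply le_antisymm _ zero_le
    have := key {y | (y, cnt (ξ ω \ {y})) ∈ {p : Met d × Measure (Met d) | p.1 ∈ D' ∧
          (p.2, (x, p.1)) ∈ JJ d ε s t}} ∅ (hms _) (by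
      intro y hy
      show (y, cnt (ξ ω \ {y})) ∈ {p : Met d × Measure (Met d) | p.1 ∈ D' ∧
          (p.2, (x, p.1)) ∈ JJ d ε s t} ↔ y ∈ (∅ : Set (Met d))
      rw [hiff y hy]
      simp only [mem_empty_iff_false, iff_false]
      intro h
      exact hA h.2.1)
    simpa using this

/-- Second moment bound. -/
theorem expect_Cf_mul {D D' : Set (Met d)} (hD : MeasurableSet D) (hD' : MeasurableSet D')
    (s t : ℝ≥0) :
    ∫⁻ ω, Cf ε D s (cnt (ξ ω)) * Cf ε D' t (cnt (ξ ω)) ∂P ≤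
      ∫⁻ x in D, (D'.indicator (fun _ => ENNReal.ofReal (rho P ξ ε s)) x +
        ∫⁻ y in D', P {ω | (cnt (ξ ω), (x, y)) ∈ JJ d ε s t} ∂(intensity d)) ∂(intensity d) := by
  -- the functional for Mecke
  obtain ⟨S, hSd⟩ : ∃ S : Set (Met d × Measure (Met d)), S = {p | p.1 ∈ D ∧
      ((p.2, p.1), (s : ℝ≥0∞)) ∈ Al d ε} := ⟨_, rfl⟩
  have hS : MeasurableSet S := by
    rw [hSd]
    have m1 : MeasurableSet {p : Met d × Measure (Met d) | p.1 ∈ D} := measurable_fst hD
    have h2 : Measurable (fun p : Met d × Measure (Met d) => ((p.2, p.1), (s : ℝ≥0∞))) := by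
      fun_prop
    have m2 : MeasurableSet {p : Met d × Measure (Met d) |
      ((p.2, p.1), (s : ℝ≥0∞)) ∈ Al d ε} := h2 (measurableSet_Al ε)
    exact m1.inter m2
  have hf : Measurable (S.indicator (fun p : Met d × Measure (Met d) =>
      Cf ε D' t (p.2 + Measure.dirac p.1))) := by
    apply Measurable.indicator _ hS
    apply (measurable_Cf ε hD' t).comp
    have h : Measurable (fun p : Met d × Measure (Met d) => (p.2, p.1)) := by fun_prop
    exact measurable_add_dirac'.comp h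
  have h1 := H.mecke_del hf
  have h2 : ∫⁻ ω, Cf ε D s (cnt (ξ ω)) * Cf ε D' t (cnt (ξ ω)) ∂P =
      ∫⁻ ω, ∫⁻ y, S.indicator (fun p : Met d × Measure (Met d) =>
        Cf ε D' t (p.2 + Measure.dirac p.1)) (y, cnt (ξ ω \ {y})) ∂(cnt (ξ ω)) ∂P := by
    apply lintegral_congr_ae
    filter_upwards [H.ae_LF] with ω hω
    have hmξ : MeasurableSet (ξ ω) := by
      have : ξ ω = ⋃ m : ℕ, (ξ ω ∩ Kd d m) := by
        rw [← Set.inter_iUnion, Kd_cov, Set.inter_univ]
      rw [this]
      exact MeasurableSet.iUnion (fun m =>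
        (finite_of_cnt_lt_top (measurableSet_Kd m) (hω m)).measurableSet)
    have h3 : ∫⁻ y, S.indicator (fun p : Met d × Measure (Met d) =>
        Cf ε D' t (p.2 + Measure.dirac p.1)) (y, cnt (ξ ω \ {y})) ∂(cnt (ξ ω)) =
        ∫⁻ y, (Sf ε D s (ξ ω)).indicator (fun _ => Cf ε D' t (cnt (ξ ω))) y ∂(cnt (ξ ω)) := by
      apply lintegral_congr_ae
      unfold cnt
      filter_upwards [ae_restrict_mem hmξ] with y hy
      have e1 : cnt (ξ ω \ {y}) + Measure.dirac y = cnt (ξ ω) := by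
        rw [← cnt_insert (by simp), Set.insert_sdiff_singleton, Set.insert_eq_of_mem hy]
      have e2 : (y, cnt (ξ ω \ {y})) ∈ S ↔ y ∈ Sf ε D s (ξ ω) := by
        rw [hSd]
        show (y ∈ D ∧ ((cnt (ξ ω \ {y}), y), (s : ℝ≥0∞)) ∈ Al d ε) ↔
          (y ∈ D ∧ alive (tau ε) (ξ ω \ {y}) y s)
        rw [mem_Al (LF_cnt_subset Set.sdiff_subset hω)]
      have e3 : S.indicator (fun p : Met d × Measure (Met d) =>
          Cf ε D' t (p.2 + Measure.dirac p.1)) (y, cnt (ξ ω \ {y})) =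
          (Sf ε D s (ξ ω)).indicator (fun _ => Cf ε D' t (cnt (ξ ω))) y := by
        by_cases h : y ∈ Sf ε D s (ξ ω)
        · rw [Set.indicator_of_mem h, Set.indicator_of_mem (e2.mpr h)]
          show Cf ε D' t (cnt (ξ ω \ {y}) + Measure.dirac y) = _
          rw [e1]
        · rw [Set.indicator_of_notMem h, Set.indicator_of_notMem (fun h' => h (e2.mp h'))]
      exact e3
    rw [h3, lintegral_indicator (measurableSet_Sf hD hω), lintegral_const,
      Measure.restrict_apply_univ, Cf_cnt hω (D := D), mul_comm]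
  rw [h2, h1]
  rw [← lintegral_indicator hD]
  apply lintegral_mono
  intro x
  beta_reduce
  by_cases hx : x ∈ D
  · rw [Set.indicator_of_mem hx]
    have h4 : ∫⁻ ω, S.indicator (fun p : Met d × Measure (Met d) =>
        Cf ε D' t (p.2 + Measure.dirac p.1)) (x, cnt (ξ ω)) ∂P ≤
        ∫⁻ ω, (({ω | ((cnt (ξ ω), x), (s : ℝ≥0∞)) ∈ Al d ε} : Set Ω).indicator
          (fun _ => D'.indicator (fun _ => (1 : ℝ≥0∞)) x) ω +
          ({ω | ((cnt (ξ ω), x), (s : ℝ≥0∞)) ∈ Al d ε} : Set Ω).indicator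
          (fun ω => cnt (ξ ω) {y | y ∈ D' ∧ alive (tau ε) (insert x (ξ ω \ {y})) y t}) ω) ∂P := by
      apply lintegral_mono_ae
      filter_upwards [H.ae_LF, H.ae_not_mem x] with ω hω hxn
      by_cases hA : ((cnt (ξ ω), x), (s : ℝ≥0∞)) ∈ Al d ε
      · have hmem : (x, cnt (ξ ω)) ∈ S := by rw [hSd]; exact ⟨hx, hA⟩
        have i1 : ({ω | ((cnt (ξ ω), x), (s : ℝ≥0∞)) ∈ Al d ε} : Set Ω).indicator
          (fun _ => D'.indicator (fun _ => (1 : ℝ≥0∞)) x) ω =
            D'.indicator (fun _ => (1 : ℝ≥0∞)) x := Set.indicator_of_mem (by exact hA) _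
        have i2 : ({ω | ((cnt (ξ ω), x), (s : ℝ≥0∞)) ∈ Al d ε} : Set Ω).indicator
          (fun ω => cnt (ξ ω) {y | y ∈ D' ∧ alive (tau ε) (insert x (ξ ω \ {y})) y t}) ω =
            cnt (ξ ω) {y | y ∈ D' ∧ alive (tau ε) (insert x (ξ ω \ {y})) y t} :=
          Set.indicator_of_mem (by exact hA) _
        rw [Set.indicator_of_mem hmem, i1, i2]
        show Cf ε D' t (cnt (ξ ω) + Measure.dirac x) ≤ _
        rw [← cnt_insert hxn, Cf_cnt (LF_insert hω x), cnt_insert hxn, Measure.add_apply,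
          add_comm]
        have hmS := measurableSet_Sf hD' (t := t) (ε := ε) (LF_insert hω x)
        apply add_le_add
        · rw [Measure.dirac_apply' _ hmS]
          by_cases hxS : x ∈ Sf ε D' t (insert x (ξ ω))
          · have j1 : (Sf ε D' t (insert x (ξ ω))).indicator (1 : Met d → ℝ≥0∞) x = 1 :=
              Set.indicator_of_mem hxS _
            have j2 : D'.indicator (fun _ => (1 : ℝ≥0∞)) x = 1 :=
              Set.indicator_of_mem hxS.1 _
            rw [j1, j2]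
          · have j1 : (Sf ε D' t (insert x (ξ ω))).indicator (1 : Met d → ℝ≥0∞) x = 0 :=
              Set.indicator_of_notMem hxS _
            rw [j1]
            exact zero_le
        · -- compare on the points of `ξ ω`
          have hmξ : MeasurableSet (ξ ω) := by
            have : ξ ω = ⋃ m : ℕ, (ξ ω ∩ Kd d m) := by
              rw [← Set.inter_iUnion, Kd_cov, Set.inter_univ]
            rw [this]
            exact MeasurableSet.iUnion (fun m =>
              (finite_of_cnt_lt_top (measurableSet_Kd m) (hω m)).measurableSet)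
          have hz : cnt (ξ ω) (ξ ω)ᶜ = 0 := by
            unfold cnt
            rw [Measure.restrict_apply' hmξ]
            simp
          calc cnt (ξ ω) (Sf ε D' t (insert x (ξ ω)))
              ≤ cnt (ξ ω) ({y | y ∈ D' ∧ alive (tau ε) (insert x (ξ ω \ {y})) y t} ∪ (ξ ω)ᶜ) := by
                apply measure_mono
                rintro z ⟨hz1, hz2⟩
                by_cases h : z ∈ ξ ω
                · left
                  refine ⟨hz1, ?_⟩
                  have hne : x ≠ z := fun h' => hxn (h' ▸ h)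
                  rwa [Set.insert_sdiff_of_notMem _ (by simpa using hne)] at hz2
                · exact Or.inr h
            _ ≤ _ + cnt (ξ ω) (ξ ω)ᶜ := measure_union_le _ _
            _ = _ := by rw [hz, add_zero]
      · have hmem : (x, cnt (ξ ω)) ∉ S := by rw [hSd]; exact fun h => hA h.2
        rw [Set.indicator_of_notMem hmem]
        exact zero_le
    refine h4.trans ?_
    have hmA : MeasurableSet {ω | ((cnt (ξ ω), x), (s : ℝ≥0∞)) ∈ Al d ε} := by
      have h1 : Measurable (fun ω => ((cnt (ξ ω), x), (s : ℝ≥0∞))) :=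
        (H.measurable_N.prodMk measurable_const).prodMk measurable_const
      exact h1 (measurableSet_Al ε)
    rw [lintegral_add_left (measurable_const.indicator hmA), expect_pair H x s hD' t]
    gcongr
    rw [lintegral_indicator hmA, lintegral_const, Measure.restrict_apply_univ, prob_alive H x s]
    by_cases hx' : x ∈ D'
    · rw [Set.indicator_of_mem hx', Set.indicator_of_mem hx', one_mul]
    · rw [Set.indicator_of_notMem hx', Set.indicator_of_notMem hx', zero_mul]
  · rw [Set.indicator_of_notMem hx]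
    have : ∀ ω, S.indicator (fun p : Met d × Measure (Met d) =>
        Cf ε D' t (p.2 + Measure.dirac p.1)) (x, cnt (ξ ω)) = 0 := by
      intro ω
      apply Set.indicator_of_notMem
      rw [hSd]
      exact fun h => hx h.1
    simp only [this, lintegral_zero]
    exact le_rfl

end prob

end Pool.Agent.Meteor
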