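import Mathlib
import Pool.Agent.Lib_helper16.Meteor.Second

/-!
Visits close to the origin: the pair bounds inside dyadic blocks of times.
-/

namespace Pool.Agent.Meteor

open MeasureTheory Filter ProbabilityTheory Set
open scoped ENNReal NNReal Topology Pointwise

variable {d : ℕ}

/-- The meteors with direction in `W` passing close to the origin at time `m * ε`. -/
def Dm (ε : ℝ) (W : Set (Dir d)) (m : ℕ) : Set (Met d) :=
  {x | x.2 ∈ W ∧ ‖pos x (m * ε)‖ < ε / 2}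

/-- The sampling times. -/
noncomputable def tm (ε : ℝ) (m : ℕ) : ℝ≥0 := m * ε.toNNReal

theorem tm_coe {ε : ℝ} (hε : 0 ≤ ε) (m : ℕ) : (tm ε m : ℝ) = m * ε := by
  unfold tm
  push_cast
  rw [Real.coe_toNNReal _ hε]

theorem measurable_pos (t : ℝ) : Measurable (fun x : Met d => pos x t) := by
  unfold pos
  have h1 : Measurable (fun x : Met d => ((x.2 : Dir d) : Sp d)) :=
    measurable_subtype_coe.comp measurable_snd
  exact measurable_fst.add (h1.const_smul t)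

theorem measurableSet_Dm (ε : ℝ) {W : Set (Dir d)} (hW : MeasurableSet W) (m : ℕ) :
    MeasurableSet (Dm ε W m) := by
  have m1 : MeasurableSet {x : Met d | x.2 ∈ W} := measurable_snd hW
  have m2 : MeasurableSet {x : Met d | ‖pos x (m * ε)‖ < ε / 2} :=
    measurableSet_lt (measurable_pos _).norm measurable_const
  exact m1.inter m2

theorem slice_Dm (ε : ℝ) (W : Set (Dir d)) (m : ℕ) (w : Dir d) (hw : w ∈ W) :
    (fun z : Sp d => (z, w)) ⁻¹' (Dm ε W m) =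
      Metric.ball (-((m * ε) • (w : Sp d))) (ε / 2) := by
  ext z
  simp only [mem_preimage, Dm, mem_ofPred_eq, pos, Metric.mem_ball, dist_eq_norm, sub_neg_eq_add]
  exact and_iff_right hw

theorem slice_Dm_empty (ε : ℝ) (W : Set (Dir d)) (m : ℕ) (w : Dir d) (hw : w ∉ W) :
    (fun z : Sp d => (z, w)) ⁻¹' (Dm ε W m) = ∅ := by
  ext z
  simp only [mem_preimage, Dm, mem_ofPred_eq, mem_empty_iff_false, iff_false]
  exact fun h => hw h.1

/-- The volume of the test ball. -/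
noncomputable def v0 (ε : ℝ) (d : ℕ) : ℝ := (ε / 2) ^ d * om d

theorem v0_pos {ε : ℝ} (hε : 0 < ε) : 0 < v0 ε d := by
  unfold v0
  have := om_pos (d := d)
  positivity

theorem intensity_Dm [NeZero d] {ε : ℝ} (hε : 0 < ε) {W : Set (Dir d)} (hW : MeasurableSet W)
    (m : ℕ) : intensity d (Dm ε W m) = ENNReal.ofReal ((unif d W).toReal * v0 ε d) := by
  unfold intensity
  rw [Measure.prod_apply_symm (measurableSet_Dm ε hW m)]
  have h1 : ∀ w, volume ((fun z : Sp d => (z, w)) ⁻¹' (Dm ε W m)) =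
      W.indicator (fun _ => ENNReal.ofReal (v0 ε d)) w := by
    intro w
    by_cases hw : w ∈ W
    · rw [Set.indicator_of_mem hw, slice_Dm ε W m w hw, vol_ball _ (by positivity)]
      rfl
    · rw [Set.indicator_of_notMem hw, slice_Dm_empty ε W m w hw, measure_empty]
  simp only [h1]
  rw [lintegral_indicator hW, lintegral_const, Measure.restrict_apply_univ,
    ENNReal.ofReal_mul ENNReal.toReal_nonneg, ENNReal.ofReal_toReal (measure_ne_top _ _), mul_comm]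

theorem Dm_dist {ε : ℝ} (hε : 0 < ε) {W : Set (Dir d)} {m m' : ℕ} {x y : Met d}
    (hx : x ∈ Dm ε W m) (hy : y ∈ Dm ε W m') {r : ℝ} (hr : ‖y.1 - x.1‖ ≤ r) :
    |(m' : ℝ) - m| * ε ≤ r + ε ∧ (m * ε) * ‖(y.2 : Sp d) - x.2‖ ≤ 2 * (r + ε) := by
  have h1 : ‖x.1 + (m * ε) • (x.2 : Sp d)‖ < ε / 2 := hx.2
  have h2 : ‖y.1 + (m' * ε) • (y.2 : Sp d)‖ < ε / 2 := hy.2
  have hnx : ‖(x.2 : Sp d)‖ = 1 := by simp
  have hny : ‖(y.2 : Sp d)‖ = 1 := by simp
  have h3 : ‖(m' * ε) • (y.2 : Sp d) - (m * ε) • (x.2 : Sp d)‖ ≤ r + ε := by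
    have h4 : (m' * ε) • (y.2 : Sp d) - (m * ε) • (x.2 : Sp d) =
        (y.1 + (m' * ε) • (y.2 : Sp d)) - (x.1 + (m * ε) • (x.2 : Sp d)) - (y.1 - x.1) := by
      abel
    rw [h4]
    calc _ ≤ ‖(y.1 + (m' * ε) • (y.2 : Sp d)) - (x.1 + (m * ε) • (x.2 : Sp d))‖ +
          ‖y.1 - x.1‖ := norm_sub_le _ _
      _ ≤ (‖y.1 + (m' * ε) • (y.2 : Sp d)‖ + ‖x.1 + (m * ε) • (x.2 : Sp d)‖) +
          ‖y.1 - x.1‖ := by gcongr; exact norm_sub_le _ _
      _ ≤ _ := by linarith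
  have e1 : ‖(m' * ε) • (y.2 : Sp d)‖ = m' * ε := by
    rw [norm_smul, hny, mul_one, Real.norm_eq_abs, abs_of_nonneg (by positivity)]
  have e2 : ‖(m * ε) • (x.2 : Sp d)‖ = m * ε := by
    rw [norm_smul, hnx, mul_one, Real.norm_eq_abs, abs_of_nonneg (by positivity)]
  have h5 : |(m' : ℝ) - m| * ε ≤ r + ε := by
    have h6 := abs_norm_sub_norm_le ((m' * ε) • (y.2 : Sp d)) ((m * ε) • (x.2 : Sp d))
    rw [e1, e2, ← sub_mul, abs_mul, abs_of_pos hε] at h6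
    linarith
  refine ⟨h5, ?_⟩
  have h7 : (m * ε) * ‖(y.2 : Sp d) - x.2‖ = ‖(m * ε) • (y.2 : Sp d) - (m * ε) • (x.2 : Sp d)‖ := by
    rw [← smul_sub, norm_smul, Real.norm_eq_abs, abs_of_nonneg (by positivity)]
  rw [h7]
  have h8 : (m * ε) • (y.2 : Sp d) - (m * ε) • (x.2 : Sp d) =
      -((((m' : ℝ) - m) * ε) • (y.2 : Sp d)) +
        ((m' * ε) • (y.2 : Sp d) - (m * ε) • (x.2 : Sp d)) := by
    rw [sub_mul, sub_smul]; abel
  rw [h8]
  calc _ ≤ ‖-((((m' : ℝ) - m) * ε) • (y.2 : Sp d))‖ +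
        ‖(m' * ε) • (y.2 : Sp d) - (m * ε) • (x.2 : Sp d)‖ := norm_add_le _ _
    _ ≤ (r + ε) + (r + ε) := by
        gcongr
        rw [norm_neg, norm_smul, hny, mul_one, Real.norm_eq_abs, abs_mul, abs_of_pos hε]
        exact h5
    _ = _ := by ring

theorem Dm_disj {ε : ℝ} (hε : 0 < ε) {W : Set (Dir d)} {m m' : ℕ} (h : m ≠ m') {x : Met d}
    (hx : x ∈ Dm ε W m) : x ∉ Dm ε W m' := by
  intro hx'
  have h1 : ‖x.1 + (m * ε) • (x.2 : Sp d)‖ < ε / 2 := hx.2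
  have h2 : ‖x.1 + (m' * ε) • (x.2 : Sp d)‖ < ε / 2 := hx'.2
  have h3 : ‖(((m' : ℝ) - m) * ε) • (x.2 : Sp d)‖ < ε := by
    have h4 : (((m' : ℝ) - m) * ε) • (x.2 : Sp d) =
        (x.1 + (m' * ε) • (x.2 : Sp d)) - (x.1 + (m * ε) • (x.2 : Sp d)) := by
      rw [sub_mul, sub_smul]; abel
    rw [h4]
    calc _ ≤ ‖x.1 + (m' * ε) • (x.2 : Sp d)‖ + ‖x.1 + (m * ε) • (x.2 : Sp d)‖ :=
          norm_sub_le _ _
      _ < _ := by linarith
  rw [norm_smul, Real.norm_eq_abs, abs_mul, abs_of_pos hε] at h3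
  have h5 : ‖(x.2 : Sp d)‖ = 1 := by simp
  rw [h5, mul_one] at h3
  have h6 : |(m' : ℝ) - m| < 1 := by
    by_contra hge
    push Not at hge
    nlinarith
  have h7 : |((m' : ℤ) - m)| < 1 := by exact_mod_cast h6
  rw [Int.abs_lt_one_iff] at h7
  omega

/-- The constant of the near estimate. -/
noncomputable def C3 (ε : ℝ) (d : ℕ) : ℝ := 3 / ε * (v0 ε d * (3 * 2 ^ d * 2 ^ (d - 1)))

theorem C3_nonneg {ε : ℝ} (hε : 0 < ε) : 0 ≤ C3 ε d := by
  unfold C3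
  have := v0_pos (d := d) hε
  positivity

theorem near_Dm [NeZero d] {ε : ℝ} (hε : 0 < ε) {W : Set (Dir d)} (hW : MeasurableSet W)
    {m m' : ℕ} {x : Met d} (hx : x ∈ Dm ε W m) {s r : ℝ} (hs : 0 < s) (hsm : s ≤ m * ε)
    (hr : 0 ≤ r) :
    intensity d {y | y ∈ Dm ε W m' ∧ ‖y.1 - x.1‖ ≤ r} ≤
      ENNReal.ofReal (v0 ε d * (3 * 2 ^ d * (2 * (r + ε) / s) ^ (d - 1))) := by
  have hms : MeasurableSet {y : Met d | y ∈ Dm ε W m' ∧ ‖y.1 - x.1‖ ≤ r} := by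
    have m1 : MeasurableSet {y : Met d | y ∈ Dm ε W m'} := measurableSet_Dm ε hW m'
    have m2 : MeasurableSet {y : Met d | ‖y.1 - x.1‖ ≤ r} := by
      apply measurableSet_le _ measurable_const
      fun_prop
    exact m1.inter m2
  have hA : MeasurableSet {w : Dir d | ‖(w : Sp d) - x.2‖ ≤ 2 * (r + ε) / s} := by
    apply measurableSet_le _ measurable_const
    fun_prop
  have h1 := intensity_le_of_slices hms hA (c := ENNReal.ofReal (v0 ε d))
    (by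
      intro w _
      by_cases hw : w ∈ W
      · refine (measure_mono (t := (fun z : Sp d => (z, w)) ⁻¹' (Dm ε W m')) ?_).trans ?_
        · intro z hz
          exact hz.1
        · rw [slice_Dm ε W m' w hw, vol_ball _ (by positivity)]
          exact le_rfl
      · refine (measure_mono (t := (fun z : Sp d => (z, w)) ⁻¹' (Dm ε W m')) ?_).trans ?_
        · intro z hz
          exact hz.1
        · rw [slice_Dm_empty ε W m' w hw, measure_empty]
          exact zero_le)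
    (by
      intro w hw
      ext z
      simp only [mem_preimage, mem_ofPred_eq, mem_empty_iff_false, iff_false]
      rintro ⟨hz1, hz2⟩
      apply hw
      have h2 := (Dm_dist hε hx hz1 hz2).2
      show ‖(w : Sp d) - x.2‖ ≤ 2 * (r + ε) / s
      rw [le_div_iff₀ hs]
      have h3 : 0 ≤ ‖(w : Sp d) - x.2‖ := norm_nonneg _
      calc ‖(w : Sp d) - x.2‖ * s ≤ ‖(w : Sp d) - x.2‖ * (m * ε) := by gcongr
        _ ≤ _ := by rw [mul_comm]; exact h2)
  refine h1.trans ?_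
  have h2 := cap_bound x.2 (β := 2 * (r + ε) / s) (by positivity)
  calc unif d {w : Dir d | ‖(w : Sp d) - x.2‖ ≤ 2 * (r + ε) / s} * ENNReal.ofReal (v0 ε d)
      ≤ ENNReal.ofReal (3 * 2 ^ d * (2 * (r + ε) / s) ^ (d - 1)) * ENNReal.ofReal (v0 ε d) := by
        gcongr
    _ = _ := by
        rw [← ENNReal.ofReal_mul (by positivity), mul_comm]

theorem sum_near_Dm [NeZero d] {ε : ℝ} (hε : 0 < ε) {W : Set (Dir d)} (hW : MeasurableSet W)
    {m : ℕ} {x : Met d} (hx : x ∈ Dm ε W m) {s r : ℝ} (hs : 0 < s) (hsm : s ≤ m * ε)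
    (hr : 0 ≤ r) (M : Finset ℕ) :
    ∑ m' ∈ M, intensity d {y | y ∈ Dm ε W m' ∧ ‖y.1 - x.1‖ ≤ r} ≤
      ENNReal.ofReal (C3 ε d * (r + ε) ^ d / s ^ (d - 1)) := by
  classical
  have hdpos : 1 ≤ d := NeZero.one_le
  have hv := v0_pos (d := d) hε
  obtain ⟨n, hn⟩ : ∃ n : ℕ, n = ⌊(r + ε) / ε⌋₊ := ⟨_, rfl⟩
  have hn1 : (n : ℝ) ≤ (r + ε) / ε := by rw [hn]; exact Nat.floor_le (by positivity)
  obtain ⟨c, hc⟩ : ∃ c : ℝ, c = v0 ε d * (3 * 2 ^ d * (2 * (r + ε) / s) ^ (d - 1)) := ⟨_, rfl⟩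
  have hc0 : 0 ≤ c := by rw [hc]; positivity
  have h1 : ∀ m' ∈ M, intensity d {y | y ∈ Dm ε W m' ∧ ‖y.1 - x.1‖ ≤ r} ≤
      if m' ∈ Finset.Icc (m - n) (m + n) then ENNReal.ofReal c else 0 := by
    intro m' _
    split_ifs with h
    · rw [hc]; exact near_Dm hε hW hx hs hsm hr
    · have : {y | y ∈ Dm ε W m' ∧ ‖y.1 - x.1‖ ≤ r} = ∅ := by
        ext y
        simp only [mem_ofPred_eq, mem_empty_iff_false, iff_false]
        rintro ⟨hy1, hy2⟩
        apply h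
        have h2 := (Dm_dist hε hx hy1 hy2).1
        rw [← le_div_iff₀ hε] at h2
        have h3 : ((|((m' : ℤ) - m)| : ℤ) : ℝ) ≤ (r + ε) / ε := by push_cast; exact h2
        have h4 : (|((m' : ℤ) - m)|).toNat ≤ n := by
          rw [hn]
          apply Nat.le_floor
          have : ((|((m' : ℤ) - m)|).toNat : ℝ) = ((|((m' : ℤ) - m)| : ℤ) : ℝ) := by
            have h5 : (((|((m' : ℤ) - m)|).toNat : ℤ)) = |((m' : ℤ) - m)| :=
              Int.toNat_of_nonneg (abs_nonneg _)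
            exact_mod_cast h5
          rw [this]; exact h3
        have h5 : |((m' : ℤ) - m)| ≤ n := by omega
        rw [abs_le] at h5
        rw [Finset.mem_Icc]
        omega
      rw [this, measure_empty]
  refine (Finset.sum_le_sum h1).trans ?_
  rw [← Finset.sum_filter, Finset.sum_const, nsmul_eq_mul]
  have h2 : (M.filter (fun m' => m' ∈ Finset.Icc (m - n) (m + n))).card ≤ 2 * n + 1 := by
    calc _ ≤ (Finset.Icc (m - n) (m + n)).card := by
          apply Finset.card_le_card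
          intro i hi
          exact (Finset.mem_filter.mp hi).2
      _ ≤ _ := by rw [Nat.card_Icc]; omega
  have h3 : ((M.filter (fun m' => m' ∈ Finset.Icc (m - n) (m + n))).card : ℝ) ≤
      3 * ((r + ε) / ε) := by
    have h4 : ((M.filter (fun m' => m' ∈ Finset.Icc (m - n) (m + n))).card : ℝ) ≤
        2 * n + 1 := by exact_mod_cast h2
    have h5 : 1 ≤ (r + ε) / ε := by rw [le_div_iff₀ hε]; linarith
    linarith
  have h4 : ((M.filter (fun m' => m' ∈ Finset.Icc (m - n) (m + n))).card : ℝ≥0∞) =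
      ENNReal.ofReal ((M.filter (fun m' => m' ∈ Finset.Icc (m - n) (m + n))).card : ℝ) := by
    simp
  rw [h4, ← ENNReal.ofReal_mul (by positivity)]
  apply ENNReal.ofReal_le_ofReal
  calc _ ≤ 3 * ((r + ε) / ε) * c := by gcongr
    _ = _ := by
      rw [hc]
      unfold C3
      obtain ⟨e, rfl⟩ : ∃ e, d = e + 1 := ⟨d - 1, by omega⟩
      rw [show e + 1 - 1 = e by omega, div_pow, mul_pow]
      field_simp
      ring

theorem dyadic_between {r : ℝ} {j0 k : ℕ} (h1 : (2 : ℝ) ^ j0 < r) (h2 : r ≤ 2 ^ k) :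
    ∃ j, j0 ≤ j ∧ j < k ∧ (2 : ℝ) ^ j ≤ r ∧ r ≤ (2 : ℝ) ^ (j + 1) := by
  have hex : ∃ n, r ≤ (2 : ℝ) ^ n := ⟨k, h2⟩
  classical
  obtain ⟨n, hn⟩ : ∃ n, n = Nat.find hex := ⟨_, rfl⟩
  have hn1 : r ≤ (2 : ℝ) ^ n := by rw [hn]; exact Nat.find_spec hex
  have hn2 : n ≤ k := by rw [hn]; exact Nat.find_min' hex h2
  have hn3 : j0 < n := by
    by_contra hle
    push Not at hle
    have : (2 : ℝ) ^ n ≤ 2 ^ j0 := pow_le_pow_right₀ (by norm_num) hle
    linarith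
  have hn4 : ¬ r ≤ (2 : ℝ) ^ (n - 1) := Nat.find_min hex (by omega)
  push Not at hn4
  exact ⟨n - 1, by omega, by omega, hn4.le, by rwa [show n - 1 + 1 = n by omega]⟩

section prob

variable {Ω : Type*} [MeasurableSpace Ω] {P : Measure Ω} [IsProbabilityMeasure P]
  {ξ : Ω → Set (Met d)} [NeZero d] {ε : ℝ} (H : PP P ξ (intensity d) (Kd d))

include H

theorem JJ_block (hε : 0 < ε) {W : Set (Dir d)} {x y : Met d} (hxy : x ≠ y) {m m' k l j0 : ℕ}
    (hx : x ∈ Dm ε W m) (hy : y ∈ Dm ε W m') (hk : (2 : ℝ) ^ k ≤ m * ε)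
    (hk' : m * ε ≤ (2 : ℝ) ^ (k + 1)) (hl : (2 : ℝ) ^ l ≤ m' * ε)
    (hl' : m' * ε ≤ (2 : ℝ) ^ (l + 1)) (hck : cc ε d + 2 ≤ k) (hcl : cc ε d + 2 ≤ l)
    (hεk : ε ≤ 2 ^ (k - 2)) (hεl : ε ≤ 2 ^ (l - 2)) (hj0 : cc ε d ≤ j0) :
    P {ω | (cnt (ξ ω), (x, y)) ∈ JJ d ε (tm ε m) (tm ε m')} ≤
      ENNReal.ofReal (rhoh P ξ ε (2 ^ (k - (cc ε d + 2))) * rhoh P ξ ε (2 ^ (l - (cc ε d + 2)))) +
      (if k ≤ l + 1 ∧ l ≤ k + 1 then
        ({y | ‖y.1 - x.1‖ ≤ 2 ^ j0} : Set (Met d)).indicator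
          (fun _ => ENNReal.ofReal (rho P ξ ε (2 ^ (k - 1)))) y +
        ∑ j ∈ Finset.Ico j0 (k - 1), ({y | ‖y.1 - x.1‖ ≤ 2 ^ (j + 1)} : Set (Met d)).indicator
          (fun _ => ENNReal.ofReal (rhoh P ξ ε (2 ^ (j - cc ε d)) ^ 2)) y
      else 0) := by
  obtain ⟨c, hc⟩ : ∃ c, c = cc ε d := ⟨_, rfl⟩
  have htm : (2 : ℝ≥0) ^ k ≤ tm ε m := by
    rw [← NNReal.coe_le_coe, tm_coe hε.le]; push_cast; exact hk
  have htm' : (2 : ℝ≥0) ^ l ≤ tm ε m' := by
    rw [← NNReal.coe_le_coe, tm_coe hε.le]; push_cast; exact hl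
  have hpm : ∀ {a b : ℕ}, a ≤ b → (2 : ℝ≥0) ^ a ≤ 2 ^ b := fun h =>
    pow_le_pow_right₀ (by norm_num) h
  have hpr : ∀ {a b : ℕ}, a ≤ b → (2 : ℝ) ^ a ≤ 2 ^ b := fun h =>
    pow_le_pow_right₀ (by norm_num) h
  have hK := Kc_pos (d := d) hε
  obtain ⟨n, hn⟩ : ∃ n, n = max k l := ⟨_, rfl⟩
  -- the far case
  have hfar : (2 : ℝ) ^ (n - 2) ≤ ‖x.1 - y.1‖ →
      P {ω | (cnt (ξ ω), (x, y)) ∈ JJ d ε (tm ε m) (tm ε m')} ≤
      ENNReal.ofReal (rhoh P ξ ε (2 ^ (k - (cc ε d + 2))) *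
        rhoh P ξ ε (2 ^ (l - (cc ε d + 2)))) := by
    intro hr
    refine (prob_JJ_mono H (s := 2 ^ (k - (cc ε d + 2))) (t := 2 ^ (l - (cc ε d + 2)))
      ((hpm (by omega)).trans htm) ((hpm (by omega)).trans htm')).trans ?_
    apply pair_far H hε
    refine lt_of_lt_of_le ?_ hr
    have h1 := far_ok (d := d) hε (j := n - 2) (by omega)
    refine lt_of_le_of_lt ?_ h1
    have h2 : (((2 : ℝ≥0) ^ (k - (cc ε d + 2)) : ℝ≥0) : ℝ) ≤
        (((2 : ℝ≥0) ^ (n - 2 - cc ε d) : ℝ≥0) : ℝ) := by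
      push_cast; exact hpr (by omega)
    have h3 : (((2 : ℝ≥0) ^ (l - (cc ε d + 2)) : ℝ≥0) : ℝ) ≤
        (((2 : ℝ≥0) ^ (n - 2 - cc ε d) : ℝ≥0) : ℝ) := by
      push_cast; exact hpr (by omega)
    nlinarith
  by_cases hfar' : (2 : ℝ) ^ (n - 2) ≤ ‖x.1 - y.1‖
  · exact (hfar hfar').trans le_self_add
  push Not at hfar'
  -- norms
  have hnorm : ∀ (z : Met d) (i : ℕ), z ∈ Dm ε W i → i * ε - ε / 2 ≤ ‖z.1‖ ∧
      ‖z.1‖ ≤ i * ε + ε / 2 := by
    intro z i hz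
    have h1 : ‖z.1 + (i * ε) • (z.2 : Sp d)‖ < ε / 2 := hz.2
    have h2 : ‖(i * ε) • (z.2 : Sp d)‖ = i * ε := by
      have h3 : ‖(z.2 : Sp d)‖ = 1 := by simp
      rw [norm_smul, h3, mul_one, Real.norm_eq_abs, abs_of_nonneg (by positivity)]
    have h3 := norm_sub_norm_le ((i * ε) • (z.2 : Sp d)) (-z.1)
    rw [sub_neg_eq_add, norm_neg, h2, add_comm] at h3
    have h4 := norm_sub_norm_le (-z.1) ((i * ε) • (z.2 : Sp d))
    rw [norm_neg, h2, ← norm_neg (-z.1 - (i * ε) • (z.2 : Sp d))] at h4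
    have h5 : -(-z.1 - (i * ε) • (z.2 : Sp d)) = z.1 + (i * ε) • (z.2 : Sp d) := by abel
    rw [h5] at h4
    constructor <;> linarith
  have hnx := hnorm x m hx
  have hny := hnorm y m' hy
  have hnear : k ≤ l + 1 ∧ l ≤ k + 1 := by
    constructor
    · by_contra hlt
      push Not at hlt
      have h1 : n = k := by omega
      rw [h1] at hfar'
      have h2 := norm_sub_norm_le x.1 y.1
      have h3 : (2 : ℝ) ^ (l + 1) ≤ 2 ^ (k - 1) := hpr (by omega)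
      have h4 : (2 : ℝ) ^ k = 2 * 2 ^ (k - 1) := by
        rw [← pow_succ']; congr 1; omega
      have h5 : (2 : ℝ) ^ (k - 1) = 2 * 2 ^ (k - 2) := by
        rw [← pow_succ']; congr 1; omega
      linarith [hnx.1, hny.2]
    · by_contra hlt
      push Not at hlt
      have h1 : n = l := by omega
      rw [h1] at hfar'
      have h2 := norm_sub_norm_le y.1 x.1
      rw [norm_sub_rev] at h2
      have h3 : (2 : ℝ) ^ (k + 1) ≤ 2 ^ (l - 1) := hpr (by omega)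
      have h4 : (2 : ℝ) ^ l = 2 * 2 ^ (l - 1) := by
        rw [← pow_succ']; congr 1; omega
      have h5 : (2 : ℝ) ^ (l - 1) = 2 * 2 ^ (l - 2) := by
        rw [← pow_succ']; congr 1; omega
      linarith [hnx.2, hny.1]
  rw [if_pos hnear]
  have hr1 : ‖y.1 - x.1‖ ≤ 2 ^ (k - 1) := by
    rw [norm_sub_rev]
    exact hfar'.le.trans (hpr (by omega))
  refine le_trans ?_ le_add_self
  rcases le_or_gt ‖y.1 - x.1‖ ((2 : ℝ) ^ j0) with hA | hA
  · refine le_trans ?_ le_self_add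
    rw [Set.indicator_of_mem (by exact hA)]
    refine (prob_JJ_mono H (s := 2 ^ (k - 1)) (t := 2 ^ (k - 1))
      ((hpm (by omega)).trans htm) ((hpm (by omega)).trans htm')).trans ?_
    exact pair_near H hε hxy _
  · obtain ⟨j, hj1, hj2, hj3, hj4⟩ := dyadic_between hA hr1
    refine le_trans ?_ le_add_self
    refine le_trans ?_ (Finset.single_le_sum (fun i _ => zero_le)
              (Finset.mem_Ico.mpr ⟨hj1, hj2⟩))
    rw [Set.indicator_of_mem (by exact hj4)]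
    apply JJ_bound H hε (hj0.trans hj1)
    · exact (hpm (by omega)).trans htm
    · rw [norm_sub_rev]; exact hj3
    · exact (hpm (by omega)).trans htm'

end prob

end Pool.Agent.Meteor
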