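import Mathlib
import Pool.Agent.Lib_helper16.Meteor.Block

/-!
Second moments of the numbers of visits in dyadic blocks of times.
-/

namespace Pool.Agent.Meteor

open MeasureTheory Filter ProbabilityTheory Set
open scoped ENNReal NNReal Topology Pointwise

variable {d : ℕ}

/-- The blocks of sampling times. -/
noncomputable def Mk (ε : ℝ) (k : ℕ) : Finset ℕ := Finset.Ico ⌈(2 : ℝ) ^ k / ε⌉₊ ⌈(2 : ℝ) ^ (k + 1) / ε⌉₊

theorem mem_Mk {ε : ℝ} (hε : 0 < ε) {k m : ℕ} (h : m ∈ Mk ε k) :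
    (2 : ℝ) ^ k ≤ m * ε ∧ m * ε < (2 : ℝ) ^ (k + 1) := by
  unfold Mk at h
  rw [Finset.mem_Ico] at h
  obtain ⟨h1, h2⟩ := h
  constructor
  · have h3 := Nat.ceil_le.mp h1
    rwa [div_le_iff₀ hε] at h3
  · have h3 := Nat.lt_ceil.mp h2
    rwa [lt_div_iff₀ hε] at h3

theorem Mk_unique {ε : ℝ} (hε : 0 < ε) {k l m : ℕ} (h : m ∈ Mk ε k) (h' : m ∈ Mk ε l) :
    k = l := by
  obtain ⟨h1, h2⟩ := mem_Mk hε h
  obtain ⟨h3, h4⟩ := mem_Mk hε h'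
  have h5 : (2 : ℝ) ^ k < 2 ^ (l + 1) := lt_of_le_of_lt h1 h4
  have h6 : (2 : ℝ) ^ l < 2 ^ (k + 1) := lt_of_le_of_lt h3 h2
  have h7 := (pow_lt_pow_iff_right₀ (by norm_num : (1 : ℝ) < 2)).mp h5
  have h8 := (pow_lt_pow_iff_right₀ (by norm_num : (1 : ℝ) < 2)).mp h6
  omega

theorem card_Mk_le {ε : ℝ} (hε : 0 < ε) {k : ℕ} (h : ε ≤ 2 ^ k) :
    ((Mk ε k).card : ℝ) ≤ 2 * (2 ^ k / ε) := by
  unfold Mk
  rw [Nat.card_Ico]
  have h0 : ⌈(2 : ℝ) ^ k / ε⌉₊ ≤ ⌈(2 : ℝ) ^ (k + 1) / ε⌉₊ := by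
    apply Nat.ceil_mono
    have : (2 : ℝ) ^ k ≤ 2 ^ (k + 1) := pow_le_pow_right₀ (by norm_num) (by omega)
    gcongr
  rw [Nat.cast_sub h0]
  have h1 : (⌈(2 : ℝ) ^ (k + 1) / ε⌉₊ : ℝ) < (2 : ℝ) ^ (k + 1) / ε + 1 :=
    Nat.ceil_lt_add_one (by positivity)
  have h2 : (2 : ℝ) ^ k / ε ≤ ⌈(2 : ℝ) ^ k / ε⌉₊ := Nat.le_ceil _
  have h3 : (2 : ℝ) ^ (k + 1) / ε = 2 * (2 ^ k / ε) := by rw [pow_succ]; ring
  have h4 : 1 ≤ (2 : ℝ) ^ k / ε := by rw [le_div_iff₀ hε]; linarith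
  linarith

theorem le_card_Mk {ε : ℝ} (hε : 0 < ε) {k : ℕ} (h : 2 * ε ≤ 2 ^ k) :
    1 / 2 * (2 ^ k / ε) ≤ ((Mk ε k).card : ℝ) := by
  unfold Mk
  rw [Nat.card_Ico]
  have h0 : ⌈(2 : ℝ) ^ k / ε⌉₊ ≤ ⌈(2 : ℝ) ^ (k + 1) / ε⌉₊ := by
    apply Nat.ceil_mono
    have : (2 : ℝ) ^ k ≤ 2 ^ (k + 1) := pow_le_pow_right₀ (by norm_num) (by omega)
    gcongr
  rw [Nat.cast_sub h0]
  have h1 : (⌈(2 : ℝ) ^ k / ε⌉₊ : ℝ) < (2 : ℝ) ^ k / ε + 1 :=
    Nat.ceil_lt_add_one (by positivity)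
  have h2 : (2 : ℝ) ^ (k + 1) / ε ≤ ⌈(2 : ℝ) ^ (k + 1) / ε⌉₊ := Nat.le_ceil _
  have h3 : (2 : ℝ) ^ (k + 1) / ε = 2 * (2 ^ k / ε) := by rw [pow_succ]; ring
  have h4 : 2 ≤ (2 : ℝ) ^ k / ε := by rw [le_div_iff₀ hε]; linarith
  linarith

theorem sum_lintegral_le {X ι : Type*} [MeasurableSpace X] (μ : Measure X) (s : Finset ι)
    (f : ι → X → ℝ≥0∞) : ∑ i ∈ s, ∫⁻ x, f i x ∂μ ≤ ∫⁻ x, ∑ i ∈ s, f i x ∂μ := by
  classical
  induction s using Finset.induction_on with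
  | empty => simp
  | insert a s ha ih =>
    simp only [Finset.sum_insert ha]
    exact (add_le_add le_rfl ih).trans (le_lintegral_add _ _)

theorem lint_ind {X : Type*} [MeasurableSpace X] (μ : Measure X) {D B : Set X}
    (hB : MeasurableSet B) (c : ℝ≥0∞) :
    ∫⁻ y in D, B.indicator (fun _ => c) y ∂μ = c * μ {y | y ∈ D ∧ y ∈ B} := by
  rw [lintegral_indicator hB, lintegral_const, Measure.restrict_apply_univ,
    Measure.restrict_apply hB, Set.inter_comm]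
  rfl

section prob

variable {Ω : Type*} [MeasurableSpace Ω] {P : Measure Ω} [IsProbabilityMeasure P]
  {ξ : Ω → Set (Met d)} [NeZero d] {ε : ℝ} (H : PP P ξ (intensity d) (Kd d))

/-- The combined sequence. -/
noncomputable def GG (P : Measure Ω) (ξ : Ω → Set (Met d)) (ε : ℝ) (k : ℕ) : ℝ :=
  aa P ξ ε (k - (cc ε d + 2)) + ee ε d (k - (cc ε d + 2))

omit [IsProbabilityMeasure P] in
theorem gg_eq' {k : ℕ} (hk : cc ε d + 2 ≤ k) : (2 : ℝ) ^ k * rhoh P ξ ε (2 ^ (k - (cc ε d + 2))) =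
    2 ^ (cc ε d + 2) * GG P ξ ε k := by
  have h2 : (2 : ℝ) ^ k = 2 ^ (cc ε d + 2) * 2 ^ (k - (cc ε d + 2)) := by
    rw [← pow_add]; congr 1; omega
  rw [h2]
  unfold GG rhoh aa ee
  push_cast
  ring

omit [IsProbabilityMeasure P] in
theorem GG_nonneg (hε : 0 < ε) (k : ℕ) : 0 ≤ GG P ξ ε k := by
  unfold GG
  have h1 := aa_nonneg (P := P) (ξ := ξ) (ε := ε) (k - (cc ε d + 2))
  have h2 := ee_nonneg (d := d) hε (k - (cc ε d + 2))
  positivity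

include H

/-- Inner sum, for a fixed first meteor. -/
theorem inner_bound (hε : 0 < ε) {W : Set (Dir d)} (hW : MeasurableSet W) {x : Met d}
    {m k l j0 : ℕ} (hx : x ∈ Dm ε W m) (hm : m ∈ Mk ε k)
    (hck : cc ε d + 2 ≤ k) (hcl : cc ε d + 2 ≤ l)
    (hεk : ε ≤ 2 ^ (k - 2)) (hεl : ε ≤ 2 ^ (l - 2)) (hj0 : cc ε d ≤ j0) :
    ∑ m' ∈ Mk ε l, ∫⁻ y in Dm ε W m', P {ω | (cnt (ξ ω), (x, y)) ∈ JJ d ε (tm ε m) (tm ε m')}
      ∂(intensity d) ≤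
      ENNReal.ofReal (((Mk ε l).card : ℝ) * ((unif d W).toReal * v0 ε d) *
        (rhoh P ξ ε (2 ^ (k - (cc ε d + 2))) * rhoh P ξ ε (2 ^ (l - (cc ε d + 2)))) +
        (if k ≤ l + 1 ∧ l ≤ k + 1 then
          rho P ξ ε (2 ^ (k - 1)) * (C3 ε d * ((2 : ℝ) ^ j0 + ε) ^ d / (2 ^ k) ^ (d - 1)) +
          ∑ j ∈ Finset.Ico j0 (k - 1), rhoh P ξ ε (2 ^ (j - cc ε d)) ^ 2 *
            (C3 ε d * ((2 : ℝ) ^ (j + 1) + ε) ^ d / (2 ^ k) ^ (d - 1)) else 0)) := by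
  obtain ⟨hm1, hm2⟩ := mem_Mk hε hm
  have hv := v0_pos (d := d) hε
  have hC3 := C3_nonneg (d := d) hε
  have hσ : 0 ≤ (unif d W).toReal := ENNReal.toReal_nonneg
  have hg : 0 ≤ rhoh P ξ ε (2 ^ (k - (cc ε d + 2))) * rhoh P ξ ε (2 ^ (l - (cc ε d + 2))) :=
    mul_nonneg (rhoh_nonneg hε _) (rhoh_nonneg hε _)
  have hBm : ∀ r : ℝ, MeasurableSet ({y | ‖y.1 - x.1‖ ≤ r} : Set (Met d)) := by
    intro r
    apply measurableSet_le _ measurable_const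
    fun_prop
  have hne : ∀ᵐ y ∂(intensity d), x ≠ y := by
    rw [ae_iff]
    have : {a : Met d | ¬ x ≠ a} = {x} := by
      ext a
      simp [eq_comm]
    rw [this]
    exact H.noatom x
  have h1 : ∀ m' ∈ Mk ε l, ∫⁻ y in Dm ε W m',
      P {ω | (cnt (ξ ω), (x, y)) ∈ JJ d ε (tm ε m) (tm ε m')} ∂(intensity d) ≤
      ∫⁻ y in Dm ε W m', (ENNReal.ofReal (rhoh P ξ ε (2 ^ (k - (cc ε d + 2))) *
        rhoh P ξ ε (2 ^ (l - (cc ε d + 2)))) +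
      (if k ≤ l + 1 ∧ l ≤ k + 1 then
        ({y | ‖y.1 - x.1‖ ≤ 2 ^ j0} : Set (Met d)).indicator
          (fun _ => ENNReal.ofReal (rho P ξ ε (2 ^ (k - 1)))) y +
        ∑ j ∈ Finset.Ico j0 (k - 1), ({y | ‖y.1 - x.1‖ ≤ 2 ^ (j + 1)} : Set (Met d)).indicator
          (fun _ => ENNReal.ofReal (rhoh P ξ ε (2 ^ (j - cc ε d)) ^ 2)) y
      else 0)) ∂(intensity d) := by
    intro m' hm'
    obtain ⟨hm1', hm2'⟩ := mem_Mk hε hm'
    apply lintegral_mono_ae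
    filter_upwards [ae_restrict_mem (measurableSet_Dm ε hW m'), ae_restrict_of_ae hne] with y hy hxy
    exact JJ_block H hε hxy hx hy hm1 hm2.le hm1' hm2'.le hck hcl hεk hεl hj0
  refine (Finset.sum_le_sum h1).trans ?_
  have h2 : ∀ m' : ℕ, ∫⁻ _y in Dm ε W m', ENNReal.ofReal (rhoh P ξ ε (2 ^ (k - (cc ε d + 2))) *
        rhoh P ξ ε (2 ^ (l - (cc ε d + 2)))) ∂(intensity d) =
      ENNReal.ofReal ((unif d W).toReal * v0 ε d * (rhoh P ξ ε (2 ^ (k - (cc ε d + 2))) *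
        rhoh P ξ ε (2 ^ (l - (cc ε d + 2))))) := by
    intro m'
    rw [lintegral_const, Measure.restrict_apply_univ, intensity_Dm hε hW,
      ← ENNReal.ofReal_mul hg, mul_comm]
  by_cases hnear : k ≤ l + 1 ∧ l ≤ k + 1
  · simp only [if_pos hnear]
    have hR0 : 0 ≤ rho P ξ ε (2 ^ (k - 1)) * (C3 ε d * ((2 : ℝ) ^ j0 + ε) ^ d /
        (2 ^ k) ^ (d - 1)) := by
      have := rho_nonneg (P := P) (ξ := ξ) (ε := ε) (2 ^ (k - 1))
      positivity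
    have hR1 : ∀ j : ℕ, 0 ≤ rhoh P ξ ε (2 ^ (j - cc ε d)) ^ 2 *
            (C3 ε d * ((2 : ℝ) ^ (j + 1) + ε) ^ d / (2 ^ k) ^ (d - 1)) := by
      intro j; positivity
    have h3 : ∀ m' : ℕ, ∫⁻ y in Dm ε W m', (ENNReal.ofReal (rhoh P ξ ε (2 ^ (k - (cc ε d + 2))) *
        rhoh P ξ ε (2 ^ (l - (cc ε d + 2)))) +
        (({y | ‖y.1 - x.1‖ ≤ 2 ^ j0} : Set (Met d)).indicator
          (fun _ => ENNReal.ofReal (rho P ξ ε (2 ^ (k - 1)))) y +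
        ∑ j ∈ Finset.Ico j0 (k - 1), ({y | ‖y.1 - x.1‖ ≤ 2 ^ (j + 1)} : Set (Met d)).indicator
          (fun _ => ENNReal.ofReal (rhoh P ξ ε (2 ^ (j - cc ε d)) ^ 2)) y)) ∂(intensity d) =
        ENNReal.ofReal ((unif d W).toReal * v0 ε d * (rhoh P ξ ε (2 ^ (k - (cc ε d + 2))) *
        rhoh P ξ ε (2 ^ (l - (cc ε d + 2))))) +
        (ENNReal.ofReal (rho P ξ ε (2 ^ (k - 1))) *
          intensity d {y | y ∈ Dm ε W m' ∧ ‖y.1 - x.1‖ ≤ 2 ^ j0} +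
        ∑ j ∈ Finset.Ico j0 (k - 1), ENNReal.ofReal (rhoh P ξ ε (2 ^ (j - cc ε d)) ^ 2) *
          intensity d {y | y ∈ Dm ε W m' ∧ ‖y.1 - x.1‖ ≤ 2 ^ (j + 1)}) := by
      intro m'
      rw [lintegral_add_left measurable_const, h2 m', lintegral_add_left
        (measurable_const.indicator (hBm _)), lint_ind _ (hBm _), lintegral_finsetSum _
        (fun j _ => measurable_const.indicator (hBm _))]
      congr 2
      apply Finset.sum_congr rfl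
      intro j _
      rw [lint_ind _ (hBm _)]
      rfl
    simp only [h3]
    rw [Finset.sum_add_distrib, Finset.sum_const, Finset.sum_add_distrib, ← Finset.mul_sum,
      Finset.sum_comm, nsmul_eq_mul]
    simp only [← Finset.mul_sum]
    rw [ENNReal.ofReal_add (by positivity)
      (add_nonneg hR0 (Finset.sum_nonneg (fun j _ => hR1 j))),
      ENNReal.ofReal_add hR0 (Finset.sum_nonneg (fun j _ => hR1 j)),
      ENNReal.ofReal_sum_of_nonneg (fun j _ => hR1 j)]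
    refine add_le_add ?_ (add_le_add ?_ (Finset.sum_le_sum (fun j _ => ?_)))
    · have h4 : ((Mk ε l).card : ℝ≥0∞) = ENNReal.ofReal ((Mk ε l).card : ℝ) := by simp
      rw [h4, ← ENNReal.ofReal_mul (by positivity)]
      apply ENNReal.ofReal_le_ofReal
      apply le_of_eq; ring
    · rw [ENNReal.ofReal_mul (rho_nonneg _)]
      exact mul_le_mul' le_rfl (sum_near_Dm hε hW hx (by positivity) hm1 (by positivity) _)
    · rw [ENNReal.ofReal_mul (by positivity)]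
      exact mul_le_mul' le_rfl (sum_near_Dm hε hW hx (by positivity) hm1 (by positivity) _)
  · simp only [if_neg hnear, add_zero]
    simp only [h2]
    rw [Finset.sum_const, nsmul_eq_mul]
    have h4 : ((Mk ε l).card : ℝ≥0∞) = ENNReal.ofReal ((Mk ε l).card : ℝ) := by simp
    rw [h4, ← ENNReal.ofReal_mul (by positivity)]
    apply ENNReal.ofReal_le_ofReal
    apply le_of_eq; ring

/-- First moment in a block. -/
theorem block_first (hε : 0 < ε) {W : Set (Dir d)} (hW : MeasurableSet W) {k : ℕ}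
    (hk : 2 * ε ≤ 2 ^ k) :
    ENNReal.ofReal ((unif d W).toReal * v0 ε d * (1 / (4 * ε)) * aa P ξ ε (k + 1)) ≤
      ∑ m ∈ Mk ε k, ∫⁻ ω, Cf ε (Dm ε W m) (tm ε m) (cnt (ξ ω)) ∂P := by
  have hv := v0_pos (d := d) hε
  have hσ : 0 ≤ (unif d W).toReal := ENNReal.toReal_nonneg
  have hρ := rho_nonneg (P := P) (ξ := ξ) (ε := ε) (2 ^ (k + 1))
  have h1 : ∀ m ∈ Mk ε k, ENNReal.ofReal ((unif d W).toReal * v0 ε d * rho P ξ ε (2 ^ (k + 1))) ≤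
      ∫⁻ ω, Cf ε (Dm ε W m) (tm ε m) (cnt (ξ ω)) ∂P := by
    intro m hm
    obtain ⟨hm1, hm2⟩ := mem_Mk hε hm
    rw [expect_Cf H (measurableSet_Dm ε hW m), intensity_Dm hε hW, ← ENNReal.ofReal_mul
      (by positivity)]
    apply ENNReal.ofReal_le_ofReal
    have h2 : rho P ξ ε (2 ^ (k + 1)) ≤ rho P ξ ε (tm ε m) := by
      apply rho_anti H
      rw [← NNReal.coe_le_coe, tm_coe hε.le]
      push_cast
      exact hm2.le
    gcongr
  refine le_trans ?_ (Finset.sum_le_sum h1)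
  rw [Finset.sum_const, nsmul_eq_mul]
  have h4 : ((Mk ε k).card : ℝ≥0∞) = ENNReal.ofReal ((Mk ε k).card : ℝ) := by simp
  rw [h4, ← ENNReal.ofReal_mul (by positivity)]
  apply ENNReal.ofReal_le_ofReal
  have h5 := le_card_Mk hε hk
  calc (unif d W).toReal * v0 ε d * (1 / (4 * ε)) * aa P ξ ε (k + 1) =
        1 / 2 * (2 ^ k / ε) * ((unif d W).toReal * v0 ε d * rho P ξ ε (2 ^ (k + 1))) := by
        unfold aa
        rw [pow_succ]
        field_simp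
        ring
    _ ≤ _ := by gcongr

end prob

end Pool.Agent.Meteor
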