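import Mathlib
import Pool.Agent.Lib_helper16.Meteor.BlockInt

/-!
Second moments of the numbers of visits in dyadic blocks of times: final form.
-/

namespace Pool.Agent.Meteor

open MeasureTheory Filter ProbabilityTheory Set
open scoped ENNReal NNReal Topology Pointwise

variable {d : ℕ}

section prob

variable {Ω : Type*} [MeasurableSpace Ω] {P : Measure Ω} [IsProbabilityMeasure P]
  {ξ : Ω → Set (Met d)} [NeZero d] {ε : ℝ} (H : PP P ξ (intensity d) (Kd d))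

omit [IsProbabilityMeasure P] in
theorem near_real (hε : 0 < ε) (hd : 2 ≤ d) : ∃ (C : ℝ) (K0 : ℕ), 0 ≤ C ∧ ∀ k, K0 ≤ k →
    2 * (2 ^ k / ε) * (rho P ξ ε (2 ^ (k - 1)) *
      (C3 ε d * ((2 : ℝ) ^ (k / 2) + ε) ^ d / (2 ^ k) ^ (d - 1)) +
          ∑ j ∈ Finset.Ico (k / 2) (k - 1), rhoh P ξ ε (2 ^ (j - cc ε d)) ^ 2 *
            (C3 ε d * ((2 : ℝ) ^ (j + 1) + ε) ^ d / (2 ^ k) ^ (d - 1))) ≤
      C * (aa P ξ ε (k - 1) + WW (aa P ξ ε) k) := by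
  have hC3 := C3_nonneg (d := d) hε
  have hV := V0_pos (d := d) hε
  obtain ⟨c, hc⟩ : ∃ c, c = cc ε d := ⟨_, rfl⟩
  obtain ⟨n, hn⟩ : ∃ n : ℕ, ε ≤ (2 : ℝ) ^ n := by
    obtain ⟨n, hn⟩ := pow_unbounded_of_one_lt ε (by norm_num : (1 : ℝ) < 2)
    exact ⟨n, hn.le⟩
  obtain ⟨C, hC⟩ : ∃ C : ℝ, C = 2 / ε * C3 ε d * 2 ^ d * 2 + 2 / ε * C3 ε d * 4 ^ d * 4 ^ c *
    (32 * (1 + 48 * (V0 ε d + 1) ^ 2)) := ⟨_, rfl⟩
  have hC0 : 0 ≤ C := by rw [hC]; positivity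
  refine ⟨C, 2 * n + 8 * c + 8, hC0, ?_⟩
  intro k hk
  obtain ⟨j0, hj0⟩ : ∃ j0, j0 = k / 2 := ⟨_, rfl⟩
  rw [← hj0]
  have hεj0 : ε ≤ (2 : ℝ) ^ j0 := hn.trans (pow_le_pow_right₀ (by norm_num) (by omega))
  have hρ := rho_nonneg (P := P) (ξ := ξ) (ε := ε) (2 ^ (k - 1))
  have ha := aa_nonneg (P := P) (ξ := ξ) (ε := ε) (k - 1)
  have hWW := WW_nonneg (aa P ξ ε) k
  -- near term
  have hT0 : 2 * (2 ^ k / ε) * (rho P ξ ε (2 ^ (k - 1)) *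
      (C3 ε d * ((2 : ℝ) ^ j0 + ε) ^ d / (2 ^ k) ^ (d - 1))) ≤
      2 / ε * C3 ε d * 2 ^ d * 2 * aa P ξ ε (k - 1) := by
    have h1 : ((2 : ℝ) ^ j0 + ε) ^ d ≤ 2 ^ d * ((2 : ℝ) ^ j0) ^ d := by
      rw [← mul_pow]
      gcongr; linarith
    have h2 : C3 ε d * ((2 : ℝ) ^ j0 + ε) ^ d / (2 ^ k) ^ (d - 1) ≤
        C3 ε d * 2 ^ d * ((2 ^ j0) ^ 2 / 2 ^ k) := by
      calc C3 ε d * ((2 : ℝ) ^ j0 + ε) ^ d / (2 ^ k) ^ (d - 1)
          ≤ C3 ε d * (2 ^ d * ((2 : ℝ) ^ j0) ^ d) / (2 ^ k) ^ (d - 1) := by gcongr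
        _ = C3 ε d * 2 ^ d * (((2 : ℝ) ^ j0) ^ d / (2 ^ k) ^ (d - 1)) := by ring
        _ ≤ _ := mul_le_mul_of_nonneg_left (dyadic_geom hd (by omega)) (by positivity)
    have h3 : ((2 : ℝ) ^ j0) ^ 2 ≤ 2 ^ k := by
      rw [← pow_mul]
      apply pow_le_pow_right₀ (by norm_num)
      omega
    have h4 : (2 : ℝ) ^ k = 2 * 2 ^ (k - 1) := by
      rw [← pow_succ']; congr 1; omega
    unfold aa
    calc 2 * ((2 : ℝ) ^ k / ε) * (rho P ξ ε (2 ^ (k - 1)) *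
          (C3 ε d * ((2 : ℝ) ^ j0 + ε) ^ d / (2 ^ k) ^ (d - 1)))
        ≤ 2 * ((2 : ℝ) ^ k / ε) * (rho P ξ ε (2 ^ (k - 1)) *
          (C3 ε d * 2 ^ d * ((2 ^ j0) ^ 2 / 2 ^ k))) :=
          mul_le_mul_of_nonneg_left (mul_le_mul_of_nonneg_left h2 hρ) (by positivity)
      _ = 2 / ε * C3 ε d * 2 ^ d * rho P ξ ε (2 ^ (k - 1)) * ((2 : ℝ) ^ j0) ^ 2 := by
          field_simp
      _ ≤ 2 / ε * C3 ε d * 2 ^ d * rho P ξ ε (2 ^ (k - 1)) * 2 ^ k :=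
          mul_le_mul_of_nonneg_left h3 (by positivity)
      _ = _ := by rw [h4]; ring
  -- intermediate terms
  have hT1 : ∀ j ∈ Finset.Ico j0 (k - 1), 2 * ((2 : ℝ) ^ k / ε) *
      (rhoh P ξ ε (2 ^ (j - c)) ^ 2 *
        (C3 ε d * ((2 : ℝ) ^ (j + 1) + ε) ^ d / (2 ^ k) ^ (d - 1))) ≤
      2 / ε * C3 ε d * 4 ^ d * 4 ^ c * (aa P ξ ε (j - c) + ee ε d (j - c)) ^ 2 := by
    intro j hj
    obtain ⟨hj1, hj2⟩ := Finset.mem_Ico.mp hj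
    have hcj : cc ε d ≤ j := by omega
    have hεj : ε ≤ (2 : ℝ) ^ j := hεj0.trans (pow_le_pow_right₀ (by norm_num) hj1)
    have h1 : ((2 : ℝ) ^ (j + 1) + ε) ^ d ≤ 4 ^ d * ((2 : ℝ) ^ j) ^ d := by
      rw [← mul_pow]
      gcongr
      rw [pow_succ]; linarith
    have h2 : C3 ε d * ((2 : ℝ) ^ (j + 1) + ε) ^ d / (2 ^ k) ^ (d - 1) ≤
        C3 ε d * 4 ^ d * ((2 ^ j) ^ 2 / 2 ^ k) := by
      calc C3 ε d * ((2 : ℝ) ^ (j + 1) + ε) ^ d / (2 ^ k) ^ (d - 1)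
          ≤ C3 ε d * (4 ^ d * ((2 : ℝ) ^ j) ^ d) / (2 ^ k) ^ (d - 1) := by gcongr
        _ = C3 ε d * 4 ^ d * (((2 : ℝ) ^ j) ^ d / (2 ^ k) ^ (d - 1)) := by ring
        _ ≤ _ := mul_le_mul_of_nonneg_left (dyadic_geom hd (by omega)) (by positivity)
    have h3 := gg_eq (P := P) (ξ := ξ) (ε := ε) hcj
    rw [← hc] at h3
    calc 2 * ((2 : ℝ) ^ k / ε) * (rhoh P ξ ε (2 ^ (j - c)) ^ 2 *
        (C3 ε d * ((2 : ℝ) ^ (j + 1) + ε) ^ d / (2 ^ k) ^ (d - 1)))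
        ≤ 2 * ((2 : ℝ) ^ k / ε) * (rhoh P ξ ε (2 ^ (j - c)) ^ 2 *
          (C3 ε d * 4 ^ d * ((2 ^ j) ^ 2 / 2 ^ k))) := by gcongr
      _ = 2 / ε * C3 ε d * 4 ^ d * ((2 : ℝ) ^ j * rhoh P ξ ε (2 ^ (j - c))) ^ 2 := by
          field_simp
      _ = 2 / ε * C3 ε d * 4 ^ d * ((2 : ℝ) ^ c * (aa P ξ ε (j - c) + ee ε d (j - c))) ^ 2 := by
          rw [h3]
      _ = 2 / ε * C3 ε d * 4 ^ d * ((2 : ℝ) ^ c) ^ 2 *
          (aa P ξ ε (j - c) + ee ε d (j - c)) ^ 2 := by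
          ring
      _ = _ := by
          rw [← pow_mul, mul_comm c 2, pow_mul]; norm_num
  -- sum up
  have hS : ∑ j ∈ Finset.Ico j0 (k - 1), (aa P ξ ε (j - c) + ee ε d (j - c)) ^ 2 ≤
      ∑ i ∈ Finset.Ico (j0 - c) (k + 1), (aa P ξ ε i + ee ε d i) ^ 2 := by
    have h1 : ∑ j ∈ Finset.Ico j0 (k - 1), (aa P ξ ε (j - c) + ee ε d (j - c)) ^ 2 =
        ∑ i ∈ Finset.Ico (j0 - c) (k - 1 - c), (aa P ξ ε i + ee ε d i) ^ 2 := by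
      have h2 := Finset.sum_Ico_add' (fun j => (aa P ξ ε (j - c) + ee ε d (j - c)) ^ 2)
        (j0 - c) (k - 1 - c) c
      rw [show j0 - c + c = j0 by omega, show k - 1 - c + c = k - 1 by omega] at h2
      rw [← h2]
      apply Finset.sum_congr rfl
      intro i _
      simp
    rw [h1]
    apply Finset.sum_le_sum_of_subset_of_nonneg
    · intro i hi
      rw [Finset.mem_Ico] at hi ⊢
      omega
    · intro i _ _; positivity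
  have hW := window_bound (d := d) hε (aa P ξ ε) (k := k) (lo := j0 - c) (by omega) (by omega)
  rw [mul_add, Finset.mul_sum, ← hc]
  have h1 : ∑ j ∈ Finset.Ico j0 (k - 1), 2 * ((2 : ℝ) ^ k / ε) *
      (rhoh P ξ ε (2 ^ (j - c)) ^ 2 *
        (C3 ε d * ((2 : ℝ) ^ (j + 1) + ε) ^ d / (2 ^ k) ^ (d - 1))) ≤
      2 / ε * C3 ε d * 4 ^ d * 4 ^ c *
        ∑ j ∈ Finset.Ico j0 (k - 1), (aa P ξ ε (j - c) + ee ε d (j - c)) ^ 2 := by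
    rw [Finset.mul_sum]
    exact Finset.sum_le_sum hT1
  have h2 : 2 / ε * C3 ε d * 4 ^ d * 4 ^ c *
      ∑ j ∈ Finset.Ico j0 (k - 1), (aa P ξ ε (j - c) + ee ε d (j - c)) ^ 2 ≤
      2 / ε * C3 ε d * 4 ^ d * 4 ^ c * (32 * (1 + 48 * (V0 ε d + 1) ^ 2) * WW (aa P ξ ε) k) :=
    mul_le_mul_of_nonneg_left (hS.trans hW) (by positivity)
  refine (add_le_add hT0 (h1.trans h2)).trans ?_
  have h3 : 0 ≤ 2 / ε * C3 ε d * 2 ^ d * 2 * WW (aa P ξ ε) k := by positivity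
  have h4 : 0 ≤ 2 / ε * C3 ε d * 4 ^ d * 4 ^ c *
    (32 * (1 + 48 * (V0 ε d + 1) ^ 2)) * aa P ξ ε (k - 1) := by positivity
  rw [hC]
  generalize 2 / ε * C3 ε d * 4 ^ d * 4 ^ c = q1 at h4 ⊢
  generalize 2 / ε * C3 ε d * 2 ^ d * 2 = q2 at h3 ⊢
  generalize 32 * (1 + 48 * (V0 ε d + 1) ^ 2) = q3 at h4 ⊢
  linarith

theorem ite_nn {near : Prop} [Decidable near] {a : ℝ} (h : 0 ≤ a) :
    0 ≤ (if near then a else 0) := by
  split_ifs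
  exacts [h, le_rfl]

theorem real_block {ε μ0 C ck cl pk pl r1 r2 G1 G2 a w N q : ℝ} (hε : 0 < ε) (hμ0 : 0 ≤ μ0)
    (hC : 0 ≤ C) (hck : 0 ≤ ck) (hcl : 0 ≤ cl) (h1 : ck ≤ 2 * (pk / ε)) (h2 : cl ≤ 2 * (pl / ε))
    (hr1 : 0 ≤ r1) (hr2 : 0 ≤ r2) (hg1 : pk * r1 = q * G1) (hg2 : pl * r2 = q * G2)
    (hG1 : 0 ≤ G1) (hG2 : 0 ≤ G2) (ha : 0 ≤ a) (hw : 0 ≤ w) (hN : 0 ≤ N)
    (hNle : 2 * (pk / ε) * N ≤ C * (a + w)) (near : Prop) [Decidable near] :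
    (if near then 4 / ε * (μ0 * a) else 0) + ck * (μ0 * (cl * μ0 * (r1 * r2) +
      (if near then N else 0))) ≤ (4 / ε ^ 2 * q ^ 2 + C + 4 / ε) *
        (μ0 ^ 2 * (G1 * G2) + (if near then μ0 * (a + w) else 0)) := by
  have hpk : 0 ≤ 2 * (pk / ε) := hck.trans h1
  have hpl : 0 ≤ 2 * (pl / ε) := hcl.trans h2
  have hfar : ck * (μ0 * (cl * μ0 * (r1 * r2))) ≤ 4 / ε ^ 2 * q ^ 2 * (μ0 ^ 2 * (G1 * G2)) := by
    calc ck * (μ0 * (cl * μ0 * (r1 * r2)))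
        ≤ (2 * (pk / ε)) * (μ0 * ((2 * (pl / ε)) * μ0 * (r1 * r2))) := by gcongr
      _ = 4 / ε ^ 2 * μ0 ^ 2 * ((pk * r1) * (pl * r2)) := by ring
      _ = _ := by rw [hg1, hg2]; ring
  have n0 : 0 ≤ μ0 ^ 2 * (G1 * G2) := by positivity
  have n3 : 0 ≤ 4 / ε ^ 2 * q ^ 2 := by positivity
  have n4 : 0 ≤ 4 / ε := by positivity
  have n5 : 0 ≤ C * (μ0 ^ 2 * (G1 * G2)) := by positivity
  have n6 : 0 ≤ 4 / ε * (μ0 ^ 2 * (G1 * G2)) := by positivity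
  by_cases hnear : near
  · simp only [if_pos hnear]
    have h7 : ck * (μ0 * N) ≤ C * (μ0 * (a + w)) := by
      calc ck * (μ0 * N) ≤ 2 * (pk / ε) * (μ0 * N) := by gcongr
        _ = μ0 * (2 * (pk / ε) * N) := by ring
        _ ≤ μ0 * (C * (a + w)) := by gcongr
        _ = _ := by ring
    have n1 : 0 ≤ 4 / ε ^ 2 * q ^ 2 * (μ0 * (a + w)) := by positivity
    have n2 : 0 ≤ 4 / ε * (μ0 * w) := by positivity
    have e1 : ck * (μ0 * (cl * μ0 * (r1 * r2) + N)) = ck * (μ0 * (cl * μ0 * (r1 * r2))) +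
      ck * (μ0 * N) := by ring
    have e2 : (4 / ε ^ 2 * q ^ 2 + C + 4 / ε) * (μ0 ^ 2 * (G1 * G2) + μ0 * (a + w)) =
      4 / ε ^ 2 * q ^ 2 * (μ0 ^ 2 * (G1 * G2)) + C * (μ0 ^ 2 * (G1 * G2)) +
      4 / ε * (μ0 ^ 2 * (G1 * G2)) + 4 / ε ^ 2 * q ^ 2 * (μ0 * (a + w)) + C * (μ0 * (a + w)) +
      4 / ε * (μ0 * a) + 4 / ε * (μ0 * w) := by ring
    rw [e1, e2]
    linarith
  · simp only [if_neg hnear, add_zero, zero_add]
    have e2 : (4 / ε ^ 2 * q ^ 2 + C + 4 / ε) * (μ0 ^ 2 * (G1 * G2)) =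
      4 / ε ^ 2 * q ^ 2 * (μ0 ^ 2 * (G1 * G2)) + C * (μ0 ^ 2 * (G1 * G2)) +
      4 / ε * (μ0 ^ 2 * (G1 * G2)) := by ring
    rw [e2]
    linarith

include H

theorem block_second (hε : 0 < ε) (hd : 2 ≤ d) : ∃ (C : ℝ) (K0 : ℕ), 0 ≤ C ∧
    ∀ W : Set (Dir d), MeasurableSet W → ∀ k l, K0 ≤ k → K0 ≤ l →
    ∑ m ∈ Mk ε k, ∑ m' ∈ Mk ε l, ∫⁻ ω, Cf ε (Dm ε W m) (tm ε m) (cnt (ξ ω)) *
      Cf ε (Dm ε W m') (tm ε m') (cnt (ξ ω)) ∂P ≤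
      ENNReal.ofReal (C * (((unif d W).toReal * v0 ε d) ^ 2 * (GG P ξ ε k * GG P ξ ε l) +
        (if k ≤ l + 1 ∧ l ≤ k + 1 then
          (unif d W).toReal * v0 ε d * (aa P ξ ε (k - 1) + WW (aa P ξ ε) k) else 0))) := by
  obtain ⟨C, K1, hC, hK1⟩ := near_real (P := P) (ξ := ξ) hε hd
  obtain ⟨n, hn⟩ : ∃ n : ℕ, ε ≤ (2 : ℝ) ^ n := by
    obtain ⟨n, hn⟩ := pow_unbounded_of_one_lt ε (by norm_num : (1 : ℝ) < 2)
    exact ⟨n, hn.le⟩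
  have hv := v0_pos (d := d) hε
  have hC3 := C3_nonneg (d := d) hε
  obtain ⟨c', hc'⟩ : ∃ c', c' = cc ε d + 2 := ⟨_, rfl⟩
  obtain ⟨D, hD⟩ : ∃ D : ℝ, D = 4 / ε ^ 2 * (2 ^ c') ^ 2 + C + 4 / ε := ⟨_, rfl⟩
  have hD0 : 0 ≤ D := by rw [hD]; positivity
  refine ⟨D, K1 + 2 * c' + n + 2, hD0, ?_⟩
  intro W hW k l hk hl
  have hσ : 0 ≤ (unif d W).toReal := ENNReal.toReal_nonneg
  obtain ⟨μ0, hμ0⟩ : ∃ μ0, μ0 = (unif d W).toReal * v0 ε d := ⟨_, rfl⟩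
  have hμ0' : 0 ≤ μ0 := by rw [hμ0]; positivity
  rw [← hμ0]
  have hεk : ∀ i, K1 + 2 * c' + n + 2 ≤ i → ε ≤ (2 : ℝ) ^ (i - 2) := fun i hi =>
    hn.trans (pow_le_pow_right₀ (by norm_num) (by omega))
  have hεk' : ∀ i, K1 + 2 * c' + n + 2 ≤ i → ε ≤ (2 : ℝ) ^ i := fun i hi =>
    hn.trans (pow_le_pow_right₀ (by norm_num) (by omega))
  have hcardk := card_Mk_le hε (hεk' k hk)
  have hcardl := card_Mk_le hε (hεk' l hl)
  have hck : ((Mk ε k).card : ℝ≥0∞) = ENNReal.ofReal ((Mk ε k).card : ℝ) := by simp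
  have ha := aa_nonneg (P := P) (ξ := ξ) (ε := ε) (k - 1)
  have hWW := WW_nonneg (aa P ξ ε) k
  have hG := GG_nonneg (P := P) (ξ := ξ) hε k
  have hG' := GG_nonneg (P := P) (ξ := ξ) hε l
  -- split
  have h1 : ∑ m ∈ Mk ε k, ∑ m' ∈ Mk ε l, ∫⁻ ω, Cf ε (Dm ε W m) (tm ε m) (cnt (ξ ω)) *
      Cf ε (Dm ε W m') (tm ε m') (cnt (ξ ω)) ∂P ≤
      ∑ m ∈ Mk ε k, ∑ m' ∈ Mk ε l, ∫⁻ x in Dm ε W m,
        ((Dm ε W m').indicator (fun _ => ENNReal.ofReal (rho P ξ ε (tm ε m))) x +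
        ∫⁻ y in Dm ε W m', P {ω | (cnt (ξ ω), (x, y)) ∈ JJ d ε (tm ε m) (tm ε m')}
          ∂(intensity d)) ∂(intensity d) :=
    Finset.sum_le_sum (fun m _ => Finset.sum_le_sum (fun m' _ =>
      expect_Cf_mul H (measurableSet_Dm ε hW m) (measurableSet_Dm ε hW m') _ _))
  refine h1.trans ?_
  have h2 : ∀ m m' : ℕ, ∫⁻ x in Dm ε W m,
        ((Dm ε W m').indicator (fun _ => ENNReal.ofReal (rho P ξ ε (tm ε m))) x +
        ∫⁻ y in Dm ε W m', P {ω | (cnt (ξ ω), (x, y)) ∈ JJ d ε (tm ε m) (tm ε m')}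
          ∂(intensity d)) ∂(intensity d) =
      (if m = m' then ENNReal.ofReal (μ0 * rho P ξ ε (tm ε m)) else 0) +
      ∫⁻ x in Dm ε W m, ∫⁻ y in Dm ε W m',
        P {ω | (cnt (ξ ω), (x, y)) ∈ JJ d ε (tm ε m) (tm ε m')} ∂(intensity d) ∂(intensity d) := by
    intro m m'
    rw [lintegral_add_left (measurable_const.indicator (measurableSet_Dm ε hW m')),
      lint_ind _ (measurableSet_Dm ε hW m')]
    congr 1
    split_ifs with h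
    · rw [← h]
      have : {y | y ∈ Dm ε W m ∧ y ∈ Dm ε W m} = Dm ε W m := by ext y; simp
      rw [this, intensity_Dm hε hW, ← hμ0, ← ENNReal.ofReal_mul (rho_nonneg _), mul_comm]
    · have : {y | y ∈ Dm ε W m ∧ y ∈ Dm ε W m'} = ∅ := by
        ext y
        simp only [mem_ofPred_eq, mem_empty_iff_false, iff_false]
        rintro ⟨hy1, hy2⟩
        exact Dm_disj hε h hy1 hy2
      rw [this, measure_empty, mul_zero]
  simp only [h2, Finset.sum_add_distrib]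
  -- diagonal part
  have h3 : ∑ m ∈ Mk ε k, ∑ m' ∈ Mk ε l,
      (if m = m' then ENNReal.ofReal (μ0 * rho P ξ ε (tm ε m)) else 0) ≤
      ENNReal.ofReal (if k ≤ l + 1 ∧ l ≤ k + 1 then 4 / ε * (μ0 * aa P ξ ε (k - 1)) else 0) := by
    by_cases hkl : k = l
    · rw [if_pos (by omega)]
      have h4 : ∀ m ∈ Mk ε k, ∑ m' ∈ Mk ε l,
          (if m = m' then ENNReal.ofReal (μ0 * rho P ξ ε (tm ε m)) else 0) ≤
          ENNReal.ofReal (μ0 * rho P ξ ε (2 ^ (k - 1))) := by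
        intro m hm
        rw [Finset.sum_ite_eq]
        split_ifs
        · apply ENNReal.ofReal_le_ofReal
          have : rho P ξ ε (tm ε m) ≤ rho P ξ ε (2 ^ (k - 1)) := by
            apply rho_anti H
            rw [← NNReal.coe_le_coe, tm_coe hε.le]
            push_cast
            exact (pow_le_pow_right₀ (by norm_num) (by omega)).trans (mem_Mk hε hm).1
          gcongr
        · exact zero_le
      refine (Finset.sum_le_sum h4).trans ?_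
      rw [Finset.sum_const, nsmul_eq_mul, hck, ← ENNReal.ofReal_mul (by positivity)]
      apply ENNReal.ofReal_le_ofReal
      have h5 : (2 : ℝ) ^ k = 2 * 2 ^ (k - 1) := by
        rw [← pow_succ']; congr 1; omega
      have h6 := rho_nonneg (P := P) (ξ := ξ) (ε := ε) (2 ^ (k - 1))
      calc ((Mk ε k).card : ℝ) * (μ0 * rho P ξ ε (2 ^ (k - 1)))
          ≤ 2 * (2 ^ k / ε) * (μ0 * rho P ξ ε (2 ^ (k - 1))) := by gcongr
        _ = _ := by unfold aa; rw [h5]; ring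
    · have h4 : ∀ m ∈ Mk ε k, ∑ m' ∈ Mk ε l,
          (if m = m' then ENNReal.ofReal (μ0 * rho P ξ ε (tm ε m)) else 0) = 0 := by
        intro m hm
        apply Finset.sum_eq_zero
        intro m' hm'
        rw [if_neg]
        rintro rfl
        exact hkl (Mk_unique hε hm hm')
      rw [Finset.sum_eq_zero h4]
      exact zero_le
  -- off-diagonal part
  obtain ⟨B, hB⟩ : ∃ B : ℝ, B = ((Mk ε l).card : ℝ) * μ0 *
        (rhoh P ξ ε (2 ^ (k - (cc ε d + 2))) * rhoh P ξ ε (2 ^ (l - (cc ε d + 2)))) +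
        (if k ≤ l + 1 ∧ l ≤ k + 1 then
          rho P ξ ε (2 ^ (k - 1)) * (C3 ε d * ((2 : ℝ) ^ (k / 2) + ε) ^ d / (2 ^ k) ^ (d - 1)) +
          ∑ j ∈ Finset.Ico (k / 2) (k - 1), rhoh P ξ ε (2 ^ (j - cc ε d)) ^ 2 *
            (C3 ε d * ((2 : ℝ) ^ (j + 1) + ε) ^ d / (2 ^ k) ^ (d - 1)) else 0) := ⟨_, rfl⟩
  have h4 : ∑ m ∈ Mk ε k, ∑ m' ∈ Mk ε l, ∫⁻ x in Dm ε W m, ∫⁻ y in Dm ε W m',
        P {ω | (cnt (ξ ω), (x, y)) ∈ JJ d ε (tm ε m) (tm ε m')} ∂(intensity d) ∂(intensity d) ≤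
      ENNReal.ofReal (((Mk ε k).card : ℝ) * (μ0 * B)) := by
    have h5 : ∀ m ∈ Mk ε k, ∑ m' ∈ Mk ε l, ∫⁻ x in Dm ε W m, ∫⁻ y in Dm ε W m',
        P {ω | (cnt (ξ ω), (x, y)) ∈ JJ d ε (tm ε m) (tm ε m')} ∂(intensity d) ∂(intensity d) ≤
        ENNReal.ofReal (μ0 * B) := by
      intro m hm
      refine (sum_lintegral_le _ _ _).trans ?_
      calc ∫⁻ x in Dm ε W m, ∑ m' ∈ Mk ε l, ∫⁻ y in Dm ε W m',
            P {ω | (cnt (ξ ω), (x, y)) ∈ JJ d ε (tm ε m) (tm ε m')} ∂(intensity d) ∂(intensity d)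
          ≤ ∫⁻ x in Dm ε W m, ENNReal.ofReal B ∂(intensity d) := by
            apply setLIntegral_mono measurable_const
            intro x hx
            rw [hB, hμ0]
            exact inner_bound H hε hW hx hm (by omega) (by omega) (hεk k hk) (hεk l hl) (by omega)
        _ = _ := by
            rw [lintegral_const, Measure.restrict_apply_univ, intensity_Dm hε hW, ← hμ0,
              mul_comm, ← ENNReal.ofReal_mul hμ0']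
    refine (Finset.sum_le_sum h5).trans ?_
    rw [Finset.sum_const, nsmul_eq_mul, hck, ← ENNReal.ofReal_mul (by positivity)]
  refine (add_le_add h3 h4).trans ?_
  obtain ⟨N, hN⟩ : ∃ N : ℝ, N = rho P ξ ε (2 ^ (k - 1)) *
      (C3 ε d * ((2 : ℝ) ^ (k / 2) + ε) ^ d / (2 ^ k) ^ (d - 1)) +
          ∑ j ∈ Finset.Ico (k / 2) (k - 1), rhoh P ξ ε (2 ^ (j - cc ε d)) ^ 2 *
            (C3 ε d * ((2 : ℝ) ^ (j + 1) + ε) ^ d / (2 ^ k) ^ (d - 1)) := ⟨_, rfl⟩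
  have hN0 : 0 ≤ N := by
    rw [hN]
    have h6 := rho_nonneg (P := P) (ξ := ξ) (ε := ε) (2 ^ (k - 1))
    have h7 : 0 ≤ ∑ j ∈ Finset.Ico (k / 2) (k - 1), rhoh P ξ ε (2 ^ (j - cc ε d)) ^ 2 *
          (C3 ε d * ((2 : ℝ) ^ (j + 1) + ε) ^ d / (2 ^ k) ^ (d - 1)) :=
      Finset.sum_nonneg (fun j _ => by positivity)
    positivity
  have h6 := hK1 k (by omega)
  rw [← hN] at h6 hB
  have hgk := gg_eq' (P := P) (ξ := ξ) (ε := ε) (k := k) (by omega)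
  have hgl := gg_eq' (P := P) (ξ := ξ) (ε := ε) (k := l) (by omega)
  have hg1 := rhoh_nonneg (P := P) (ξ := ξ) hε (2 ^ (k - (cc ε d + 2)))
  have hg2 := rhoh_nonneg (P := P) (ξ := ξ) hε (2 ^ (l - (cc ε d + 2)))
  rw [← hc'] at hgk hgl hg1 hg2 hB
  have hfin := real_block (ck := ((Mk ε k).card : ℝ)) (cl := ((Mk ε l).card : ℝ)) (μ0 := μ0) hε
    hμ0' hC (by positivity) (by positivity) hcardk hcardl hg1 hg2 hgk hgl hG hG' ha hWW hN0 h6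
    (k ≤ l + 1 ∧ l ≤ k + 1)
  rw [← hB, ← hD] at hfin
  have hB0 : 0 ≤ B := by
    rw [hB]
    exact add_nonneg (by positivity) (ite_nn hN0)
  have t1 : 0 ≤ 4 / ε * (μ0 * aa P ξ ε (k - 1)) :=
    mul_nonneg (div_nonneg (by norm_num) hε.le) (mul_nonneg hμ0' ha)
  have t2 : 0 ≤ ((Mk ε k).card : ℝ) * (μ0 * B) :=
    mul_nonneg (Nat.cast_nonneg _) (mul_nonneg hμ0' hB0)
  rw [← ENNReal.ofReal_add (ite_nn t1) t2]
  exact ENNReal.ofReal_le_ofReal hfin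

end prob

end Pool.Agent.Meteor
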