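import Mathlib
import Pool.Agent.Lib_helper16.Meteor.Rho

/-!
Configurations of meteors that never touch.
-/

namespace Pool.Agent.Meteor

open MeasureTheory Filter ProbabilityTheory Set
open scoped ENNReal NNReal Topology Pointwise RealInnerProductSpace

variable {d : ℕ}

theorem tau_self {ε : ℝ} (hε : 0 ≤ ε) (x : Met d) : tau ε x x = 0 := by
  rw [tau_eq_zero_iff]; simp; exact hε

/-- A criterion for two meteors never touching. -/
theorem tau_top_of_inner {ε : ℝ} (hε : 0 ≤ ε) {x y : Met d} (h1 : 2 * ε < ‖x.1 - y.1‖)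
    (h2 : 0 ≤ ⟪x.1 - y.1, (x.2 : Sp d) - y.2⟫) : tau ε x y = ∞ := by
  unfold tau
  rw [iInf₂_eq_top]
  intro t ht
  exfalso
  have e1 : pos x t - pos y t = (x.1 - y.1) + (t : ℝ) • ((x.2 : Sp d) - y.2) := by
    unfold pos; rw [smul_sub]; abel
  rw [e1] at ht
  have h3 : ‖(x.1 - y.1) + (t : ℝ) • ((x.2 : Sp d) - y.2)‖ ^ 2 =
      ‖x.1 - y.1‖ ^ 2 + 2 * ((t : ℝ) * ⟪x.1 - y.1, (x.2 : Sp d) - y.2⟫) +
      ‖(t : ℝ) • ((x.2 : Sp d) - y.2)‖ ^ 2 := by
    rw [norm_add_sq_real, inner_smul_right]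
  have h4 : 0 ≤ (t : ℝ) * ⟪x.1 - y.1, (x.2 : Sp d) - y.2⟫ := mul_nonneg t.2 h2
  have h5 : ‖x.1 - y.1‖ ^ 2 ≤ ‖(x.1 - y.1) + (t : ℝ) • ((x.2 : Sp d) - y.2)‖ ^ 2 := by
    rw [h3]; nlinarith [sq_nonneg ‖(t : ℝ) • ((x.2 : Sp d) - y.2)‖]
  have h6 : ‖x.1 - y.1‖ ≤ ‖(x.1 - y.1) + (t : ℝ) • ((x.2 : Sp d) - y.2)‖ :=
    le_of_sq_le_sq h5 (norm_nonneg _)
  linarith

/-- The direction of a nonzero vector. -/
noncomputable def dirOf {x : Sp d} (hx : x ≠ 0) : Dir d :=
  ⟨‖x‖⁻¹ • x, by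
    simp only [mem_sphere_iff_norm, sub_zero]
    rw [norm_smul, norm_inv, norm_norm, inv_mul_cancel₀ (norm_ne_zero_iff.mpr hx)]⟩

theorem inner_dirOf_pos {x y : Sp d} (hx : x ≠ 0) (hy : y ≠ 0)
    (hne : ‖x‖⁻¹ • x ≠ ‖y‖⁻¹ • y) :
    0 < ⟪x - y, ((dirOf hx : Dir d) : Sp d) - (dirOf hy : Dir d)⟫ := by
  have hx' : 0 < ‖x‖ := norm_pos_iff.mpr hx
  have hy' : 0 < ‖y‖ := norm_pos_iff.mpr hy
  obtain ⟨u, hu⟩ : ∃ u : Sp d, u = ‖x‖⁻¹ • x := ⟨_, rfl⟩
  obtain ⟨v, hv⟩ : ∃ v : Sp d, v = ‖y‖⁻¹ • y := ⟨_, rfl⟩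
  have e1 : ((dirOf hx : Dir d) : Sp d) = u := hu.symm
  have e2 : ((dirOf hy : Dir d) : Sp d) = v := hv.symm
  rw [e1, e2]
  have hxu : x = ‖x‖ • u := by rw [hu, smul_smul, mul_inv_cancel₀ hx'.ne', one_smul]
  have hyv : y = ‖y‖ • v := by rw [hv, smul_smul, mul_inv_cancel₀ hy'.ne', one_smul]
  have hun : ‖u‖ = 1 := by
    rw [hu, norm_smul, norm_inv, norm_norm, inv_mul_cancel₀ hx'.ne']
  have hvn : ‖v‖ = 1 := by
    rw [hv, norm_smul, norm_inv, norm_norm, inv_mul_cancel₀ hy'.ne']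
  have huv : ⟪u, v⟫ < 1 := by
    rw [← hu, ← hv] at hne
    exact (inner_lt_one_iff_real_of_norm_eq_one hun hvn).mpr hne
  obtain ⟨a, ha⟩ : ∃ a, a = ‖x‖ := ⟨_, rfl⟩
  obtain ⟨b, hb⟩ : ∃ b, b = ‖y‖ := ⟨_, rfl⟩
  rw [← ha] at hxu hx'
  rw [← hb] at hyv hy'
  rw [hxu, hyv]
  have huu : ⟪u, u⟫ = (1 : ℝ) := by rw [real_inner_self_eq_norm_sq, hun]; norm_num
  have hvv : ⟪v, v⟫ = (1 : ℝ) := by rw [real_inner_self_eq_norm_sq, hvn]; norm_num
  have hvu : ⟪v, u⟫ = ⟪u, v⟫ := real_inner_comm _ _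
  rw [inner_sub_left, inner_sub_right, inner_sub_right, real_inner_smul_left, real_inner_smul_left,
    real_inner_smul_left, real_inner_smul_left, huu, hvv, hvu]
  nlinarith

theorem exists_config (hd : 2 ≤ d) {s r : ℝ} (hs : 0 < s) (hr : 0 < r) :
    ∀ m : ℕ, ((m : ℝ) - 1) * s ^ d < r ^ d → ∃ x : Fin m → Sp d, (∀ i, ‖x i‖ ≤ r ∧ x i ≠ 0) ∧
      ∀ i j, i ≠ j → s < ‖x i - x j‖ ∧ ‖x i‖⁻¹ • x i ≠ ‖x j‖⁻¹ • x j := by
  have : NeZero d := ⟨by omega⟩
  have hω := om_pos (d := d)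
  intro m
  induction m with
  | zero => intro _; exact ⟨fun i => i.elim0, fun i => i.elim0, fun i => i.elim0⟩
  | succ m ih =>
    intro hm
    push_cast at hm
    have hsd : 0 < s ^ d := by positivity
    obtain ⟨x, hx1, hx2⟩ := ih (by nlinarith)
    -- the bad set
    have hvol : volume ((⋃ i, Metric.closedBall (x i) s) ∪ ((⋃ i, ((ℝ ∙ x i : Submodule ℝ (Sp d)) :
        Set (Sp d))) ∪ {0})) < volume (Metric.closedBall (0 : Sp d) r) := by
      have h1 : volume (⋃ i, Metric.closedBall (x i) s) ≤ ENNReal.ofReal (m * (s ^ d * om d)) := by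
        calc volume (⋃ i, Metric.closedBall (x i) s) ≤ ∑' i, volume (Metric.closedBall (x i) s) :=
              measure_iUnion_le _
          _ = ∑ i : Fin m, volume (Metric.closedBall (x i) s) := tsum_fintype _
          _ = ∑ _i : Fin m, ENNReal.ofReal (s ^ d * om d) := by
              apply Finset.sum_congr rfl
              intro i _
              rw [vol_closedBall _ hs.le]
          _ = _ := by
              rw [Finset.sum_const, Finset.card_univ, Fintype.card_fin, nsmul_eq_mul,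
                ENNReal.ofReal_mul (p := (m : ℝ)) (by positivity), ENNReal.ofReal_natCast]
      have h2 : volume ((⋃ i, ((ℝ ∙ x i : Submodule ℝ (Sp d)) : Set (Sp d))) ∪ {0}) = 0 := by
        apply measure_union_null
        · rw [measure_iUnion_null_iff]
          intro i
          apply Measure.addHaar_submodule
          intro htop
          have h3 : Module.finrank ℝ (ℝ ∙ x i : Submodule ℝ (Sp d)) = 1 :=
            finrank_span_singleton (hx1 i).2
          rw [htop, finrank_top] at h3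
          simp at h3
          omega
        · exact measure_singleton _
      calc volume _ ≤ volume (⋃ i, Metric.closedBall (x i) s) +
            volume ((⋃ i, ((ℝ ∙ x i : Submodule ℝ (Sp d)) : Set (Sp d))) ∪ {0}) :=
            measure_union_le _ _
        _ ≤ ENNReal.ofReal (m * (s ^ d * om d)) := by rw [h2, add_zero]; exact h1
        _ < ENNReal.ofReal (r ^ d * om d) := by
            apply ENNReal.ofReal_lt_ofReal_iff (by positivity) |>.mpr
            nlinarith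
        _ = _ := by rw [vol_closedBall _ hr.le]
    obtain ⟨y, hy1, hy2⟩ : ∃ y ∈ Metric.closedBall (0 : Sp d) r,
        y ∉ ((⋃ i, Metric.closedBall (x i) s) ∪ ((⋃ i, ((ℝ ∙ x i : Submodule ℝ (Sp d)) :
        Set (Sp d))) ∪ {0})) := by
      by_contra hcon
      push Not at hcon
      exact absurd (measure_mono hcon) (not_le.mpr hvol)
    simp only [mem_union, mem_iUnion, not_or, not_exists, mem_singleton_iff] at hy2
    obtain ⟨hy2, hy3, hy4⟩ := hy2
    refine ⟨Fin.snoc x y, ?_, ?_⟩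
    · intro i
      refine Fin.lastCases ?_ (fun i => ?_) i
      · simp only [Fin.snoc_last]
        exact ⟨by simpa using hy1, hy4⟩
      · simp only [Fin.snoc_castSucc]
        exact hx1 i
    · have key : ∀ i : Fin m, s < ‖x i - y‖ ∧ ‖x i‖⁻¹ • x i ≠ ‖y‖⁻¹ • y := by
        intro i
        constructor
        · have := hy2 i
          rw [Metric.mem_closedBall, not_le, dist_eq_norm, norm_sub_rev] at this
          exact this
        · intro he
          apply hy3 i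
          have hyn : 0 < ‖y‖ := norm_pos_iff.mpr hy4
          have : y = (‖y‖ * ‖x i‖⁻¹) • x i := by
            rw [← smul_smul, he, smul_smul, mul_inv_cancel₀ hyn.ne', one_smul]
          rw [this]
          exact Submodule.smul_mem _ _ (Submodule.mem_span_singleton_self _)
      intro i j
      refine Fin.lastCases ?_ (fun i => ?_) i <;> refine Fin.lastCases ?_ (fun j => ?_) j
      · intro h; exact absurd rfl h
      · intro _
        simp only [Fin.snoc_last, Fin.snoc_castSucc]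
        rw [norm_sub_rev]
        exact ⟨(key j).1, (key j).2.symm⟩
      · intro _
        simp only [Fin.snoc_last, Fin.snoc_castSucc]
        exact key i
      · intro h
        simp only [Fin.snoc_castSucc]
        exact hx2 i j (fun he => h (by rw [he]))

/-- Cells of meteors that never touch each other. -/
theorem exists_cells (hd : 2 ≤ d) {ε s r : ℝ} (hε : 0 < ε) (hs : 2 * ε ≤ s) (hr : 0 < r) {m : ℕ}
    (hm : ((m : ℝ) - 1) * s ^ d < r ^ d) :
    ∃ (q : Fin m → Met d) (δ : ℝ), 0 < δ ∧ δ ≤ 1 ∧ (∀ i, ‖(q i).1‖ ≤ r) ∧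
      ∀ i j, i ≠ j → ∀ c ∈ Metric.ball (q i) δ, ∀ c' ∈ Metric.ball (q j) δ, tau ε c c' = ∞ := by
  obtain ⟨x, hx1, hx2⟩ := exists_config hd (by linarith : 0 < s) hr m hm
  obtain ⟨q, hq⟩ : ∃ q : Fin m → Met d, q = fun i => (x i, dirOf (hx1 i).2) := ⟨_, rfl⟩
  have key : ∀ i j, i ≠ j → ∀ᶠ δ in 𝓝[>] (0 : ℝ), ∀ c ∈ Metric.ball (q i) δ,
      ∀ c' ∈ Metric.ball (q j) δ, tau ε c c' = ∞ := by
    intro i j hij
    have hopen : IsOpen {p : Met d × Met d | 2 * ε < ‖p.1.1 - p.2.1‖ ∧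
        0 < ⟪p.1.1 - p.2.1, (p.1.2 : Sp d) - p.2.2⟫} := by
      have o1 : IsOpen {p : Met d × Met d | 2 * ε < ‖p.1.1 - p.2.1‖} := by
        apply isOpen_lt continuous_const
        fun_prop
      have o2 : IsOpen {p : Met d × Met d |
          0 < ⟪p.1.1 - p.2.1, (p.1.2 : Sp d) - p.2.2⟫} := by
        apply isOpen_lt continuous_const
        apply Continuous.inner <;> fun_prop
      exact o1.inter o2
    have hmem : (q i, q j) ∈ {p : Met d × Met d | 2 * ε < ‖p.1.1 - p.2.1‖ ∧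
        0 < ⟪p.1.1 - p.2.1, (p.1.2 : Sp d) - p.2.2⟫} := by
      rw [hq]
      exact ⟨lt_of_le_of_lt hs (hx2 i j hij).1,
        inner_dirOf_pos (hx1 i).2 (hx1 j).2 (hx2 i j hij).2⟩
    obtain ⟨δ, hδ, hsub⟩ := Metric.isOpen_iff.mp hopen _ hmem
    rw [← ball_prod_same] at hsub
    have hev : ∀ᶠ δ' in 𝓝[>] (0 : ℝ), δ' < δ := by
      apply mem_nhdsWithin_of_mem_nhds
      exact Iio_mem_nhds hδ
    filter_upwards [hev] with δ' hδ' c hc c' hc'
    have h1 : (c, c') ∈ {p : Met d × Met d | 2 * ε < ‖p.1.1 - p.2.1‖ ∧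
        0 < ⟪p.1.1 - p.2.1, (p.1.2 : Sp d) - p.2.2⟫} := by
      apply hsub
      exact ⟨Metric.ball_subset_ball hδ'.le hc, Metric.ball_subset_ball hδ'.le hc'⟩
    exact tau_top_of_inner hε.le h1.1 h1.2.le
  have key2 : ∀ᶠ δ in 𝓝[>] (0 : ℝ), ∀ i j, i ≠ j → ∀ c ∈ Metric.ball (q i) δ,
      ∀ c' ∈ Metric.ball (q j) δ, tau ε c c' = ∞ := by
    rw [eventually_all]
    intro i
    rw [eventually_all]
    intro j
    by_cases hij : i = j
    · exact Filter.Eventually.of_forall (fun δ h => absurd hij h)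
    · filter_upwards [key i j hij] with δ hδ _
      exact hδ
  have key3 : ∀ᶠ δ in 𝓝[>] (0 : ℝ), δ ≤ 1 := by
    apply mem_nhdsWithin_of_mem_nhds
    exact Iic_mem_nhds one_pos
  have key4 : ∀ᶠ δ in 𝓝[>] (0 : ℝ), 0 < δ := eventually_mem_nhdsWithin
  obtain ⟨δ, h2, h3, h4⟩ := (key2.and (key3.and key4)).exists
  exact ⟨q, δ, h4, h3, fun i => by rw [hq]; exact (hx1 i).1, h2⟩

section measure

variable [NeZero d]

theorem intensity_ball_pos (q : Met d) {δ : ℝ} (hδ : 0 < δ) :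
    0 < intensity d (Metric.ball q δ) := by
  have h1 : Metric.ball q δ = Metric.ball q.1 δ ×ˢ Metric.ball q.2 δ := by
    rw [ball_prod_same]
  rw [h1]
  unfold intensity
  rw [Measure.prod_prod]
  apply ENNReal.mul_pos
  · exact (Metric.measure_ball_pos _ _ hδ).ne'
  · unfold unif
    rw [Measure.smul_apply, smul_eq_mul]
    apply mul_ne_zero
    · exact ENNReal.inv_ne_zero.mpr toSphere_univ_lt_top.ne
    · exact (Metric.measure_ball_pos _ _ hδ).ne'

theorem intensity_bounded_lt_top {A : Set (Met d)} {R : ℝ} (h : ∀ x ∈ A, ‖x.1‖ ≤ R) :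
    intensity d A < ∞ := by
  obtain ⟨m, hm⟩ := exists_nat_ge R
  apply lt_of_le_of_lt (measure_mono (t := Kd d m) _) (intensity_Kd m)
  intro x hx
  exact (h x hx).trans hm

end measure

section prob

variable {Ω : Type*} [MeasurableSpace Ω] {P : Measure Ω} [IsProbabilityMeasure P]
  {ξ : Ω → Set (Met d)} [NeZero d] (H : PP P ξ (intensity d) (Kd d))
include H

/-- With positive probability there is exactly one point in each cell and no other point in
the window. -/
theorem prob_config_pos {m : ℕ} {C : Fin m → Set (Met d)} (hC : ∀ i, MeasurableSet (C i))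
    (hdisj : ∀ i j, i ≠ j → Disjoint (C i) (C j)) (hpos : ∀ i, 0 < intensity d (C i))
    {B : Set (Met d)} (hB : MeasurableSet B) (hfin : intensity d B < ∞) (hCB : ∀ i, C i ⊆ B) :
    0 < P {ω | (∀ i, (ξ ω ∩ C i).encard = 1) ∧ (ξ ω ∩ (B \ ⋃ i, C i)).encard = 0} := by
  have hU : MeasurableSet (⋃ i, C i) := MeasurableSet.iUnion hC
  obtain ⟨A, hA⟩ : ∃ A : Fin (m + 1) → Set (Met d), A = Fin.cons (B \ ⋃ i, C i) C := ⟨_, rfl⟩
  obtain ⟨k, hk⟩ : ∃ k : Fin (m + 1) → ℕ, k = Fin.cons 0 (fun _ => 1) := ⟨_, rfl⟩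
  have h1 := H.poisson.prob (m + 1) A (by
    intro i
    rw [hA]
    refine Fin.cases ?_ (fun i => ?_) i
    · exact hB.diff hU
    · exact hC i) (by
    intro i j
    rw [hA]
    refine Fin.cases ?_ (fun i => ?_) i <;> refine Fin.cases ?_ (fun j => ?_) j
    · intro h; exact absurd rfl h
    · intro _
      simp only [Fin.cons_zero, Fin.cons_succ]
      rw [Set.disjoint_left]
      intro x hx hx'
      exact hx.2 (mem_iUnion.mpr ⟨j, hx'⟩)
    · intro _
      simp only [Fin.cons_zero, Fin.cons_succ]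
      rw [Set.disjoint_left]
      intro x hx hx'
      exact hx'.2 (mem_iUnion.mpr ⟨i, hx⟩)
    · intro h
      simp only [Fin.cons_succ]
      exact hdisj i j (fun he => h (by rw [he]))) (by
    intro i
    rw [hA]
    refine Fin.cases ?_ (fun i => ?_) i
    · exact (lt_of_le_of_lt (measure_mono Set.sdiff_subset) hfin).ne
    · exact (lt_of_le_of_lt (measure_mono (hCB i)) hfin).ne) k
  have h2 : {ω | ∀ i, (ξ ω ∩ A i).encard = k i} =
      {ω | (∀ i, (ξ ω ∩ C i).encard = 1) ∧ (ξ ω ∩ (B \ ⋃ i, C i)).encard = 0} := by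
    ext ω
    simp only [mem_ofPred_eq]
    rw [Fin.forall_fin_succ, hA, hk]
    simp only [Fin.cons_zero, Fin.cons_succ, Nat.cast_zero, Nat.cast_one]
    exact and_comm
  rw [h2] at h1
  rw [h1]
  rw [pos_iff_ne_zero, Finset.prod_ne_zero_iff]
  intro i _
  rw [← pos_iff_ne_zero, ENNReal.ofReal_pos]
  rw [hA, hk]
  refine Fin.cases ?_ (fun i => ?_) i
  · simp only [Fin.cons_zero, pow_zero, Nat.factorial_zero]
    positivity
  · simp only [Fin.cons_succ, pow_one, Nat.factorial_one]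
    have : 0 < (intensity d (C i)).toReal := ENNReal.toReal_pos (hpos i).ne'
      (lt_of_le_of_lt (measure_mono (hCB i)) hfin).ne
    positivity

end prob

end Pool.Agent.Meteor
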