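import Mathlib
import Pool.Agent.Lib_helper16.Meteor.Dyn

/-!
The counting lemma comparing two finite annihilation systems.
-/

namespace Pool.Agent.Meteor

open Set
open scoped ENNReal NNReal

variable {X : Type*} {τ : X → X → ℝ≥0∞}

/-- No two distinct particles are touched by a third one for the first time simultaneously. -/
def NoTie (τ : X → X → ℝ≥0∞) (F : Set X) : Prop :=
  ∀ x ∈ F, ∀ y ∈ F, ∀ z ∈ F, y ≠ x → z ≠ x → y ≠ z → τ x y = τ x z → τ x y = ∞

theorem exists_partner (hsym : ∀ x y, τ x y = τ y x) {F : Set X} (hF : F.Finite) :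
    ∃ π : X → X, ∀ y ∈ F, life τ F y < ∞ →
      π y ∈ F ∧ π y ≠ y ∧ life τ F (π y) = τ y (π y) ∧ life τ F y = τ y (π y) := by
  classical
  refine ⟨fun y => if h : y ∈ F ∧ life τ F y < ∞ then (exists_killer hsym hF h.1 h.2).choose
    else y, ?_⟩
  intro y hy hlt
  have h : y ∈ F ∧ life τ F y < ∞ := ⟨hy, hlt⟩
  simp only [dif_pos h]
  exact (exists_killer hsym hF h.1 h.2).choose_spec

theorem partner_unique (hsym : ∀ x y, τ x y = τ y x) {F : Set X} (tie : NoTie τ F)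
    {z y1 y2 : X} (hz : z ∈ F) (h1 : y1 ∈ F) (h2 : y2 ∈ F) (hn1 : y1 ≠ z) (hn2 : y2 ≠ z)
    (e1 : life τ F z = τ z y1) (e2 : life τ F z = τ z y2) (hfin : life τ F z < ∞) : y1 = y2 := by
  by_contra hne
  have := tie z hz y1 h1 y2 h2 hn1 hn2 hne (by rw [← e1, ← e2])
  rw [← e1] at this
  rw [this] at hfin
  exact absurd hfin (lt_irrefl _)

theorem counting (hsym : ∀ x y, τ x y = τ y x) {F F' Γ : Set X} (hF : F.Finite) (hF' : F'.Finite)
    (tie : NoTie τ F) (tie' : NoTie τ F')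
    (hΓ : Γ ⊆ F') (hΓF : ∀ c ∈ Γ, c ∉ F) (hnt : ∀ c ∈ Γ, ∀ c' ∈ Γ, c ≠ c' → τ c c' = ∞)
    (hdead : ∀ c ∈ Γ, life τ F' c < ∞) :
    Γ.ncard ≤ (F \ F').ncard + ((F' \ F) \ Γ).ncard +
      2 * ({c ∈ Γ | ∃ y ∈ F ∩ F', y ≠ c ∧ life τ F' c = τ c y ∧ life τ F' y = τ c y ∧
        τ c y ≤ life τ F y}).ncard := by
  obtain ⟨π, hπ⟩ := exists_partner hsym hF
  obtain ⟨π', hπ'⟩ := exists_partner hsym hF'
  -- injectivity
  have inj : ∀ y1 ∈ F, ∀ y2 ∈ F, life τ F y1 < ∞ → life τ F y2 < ∞ → π y1 = π y2 → y1 = y2 := by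
    intro y1 h1 y2 h2 l1 l2 he
    obtain ⟨a1, a2, a3, a4⟩ := hπ y1 h1 l1
    obtain ⟨b1, b2, b3, b4⟩ := hπ y2 h2 l2
    rw [← he] at b1 b2 b3 b4
    apply partner_unique hsym tie a1 h1 h2 a2.symm b2.symm
    · rw [a3, hsym]
    · rw [b3, hsym]
    · rw [a3, ← a4]; exact l1
  have inj' : ∀ y1 ∈ F', ∀ y2 ∈ F', life τ F' y1 < ∞ → life τ F' y2 < ∞ → π' y1 = π' y2 →
      y1 = y2 := by
    intro y1 h1 y2 h2 l1 l2 he
    obtain ⟨a1, a2, a3, a4⟩ := hπ' y1 h1 l1
    obtain ⟨b1, b2, b3, b4⟩ := hπ' y2 h2 l2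
    rw [← he] at b1 b2 b3 b4
    apply partner_unique hsym tie' a1 h1 h2 a2.symm b2.symm
    · rw [a3, hsym]
    · rw [b3, hsym]
    · rw [a3, ← a4]; exact l1
  -- the sets
  let Am : Set X := {y | y ∈ F ∩ F' ∧ life τ F y < life τ F' y}
  let Ap : Set X := {y | y ∈ F ∩ F' ∧ life τ F' y < life τ F y}
  let E : Set X := (F' \ F) \ Γ
  let Γii : Set X := {c ∈ Γ | ∃ y ∈ F ∩ F', y ≠ c ∧ life τ F' c = τ c y ∧ life τ F' y = τ c y ∧
        τ c y ≤ life τ F y}
  let ΓE : Set X := {c ∈ Γ | π' c ∈ E}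
  let Γi : Set X := {c ∈ Γ | π' c ∈ Am}
  let A1 : Set X := {y ∈ Ap | π' y ∈ Am}
  let A2 : Set X := {y ∈ Ap | π' y ∈ E}
  let A3 : Set X := {y ∈ Ap | π' y ∈ Γ}
  have finAm : Am.Finite := hF.subset (fun y hy => hy.1.1)
  have finAp : Ap.Finite := hF.subset (fun y hy => hy.1.1)
  have finE : E.Finite := hF'.subset (fun y hy => hy.1.1)
  have finΓ : Γ.Finite := hF'.subset hΓ
  have finΓii : Γii.Finite := finΓ.subset (fun c hc => hc.1)
  have finΓE : ΓE.Finite := finΓ.subset (fun c hc => hc.1)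
  have finΓi : Γi.Finite := finΓ.subset (fun c hc => hc.1)
  have finA1 : A1.Finite := finAp.subset (fun c hc => hc.1)
  have finA2 : A2.Finite := finAp.subset (fun c hc => hc.1)
  have finA3 : A3.Finite := finAp.subset (fun c hc => hc.1)
  have finD : (F \ F').Finite := hF.subset Set.sdiff_subset
  have lifeAm : ∀ y ∈ Am, life τ F y < ∞ := fun y hy => lt_of_lt_of_le hy.2 le_top
  have lifeAp : ∀ y ∈ Ap, life τ F' y < ∞ := fun y hy => lt_of_lt_of_le hy.2 le_top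
  -- (1) partners of Am in F
  have f1 : ∀ y ∈ Am, π y ∈ (F \ F') ∪ Ap := by
    intro y hy
    obtain ⟨a1, a2, a3, a4⟩ := hπ y hy.1.1 (lifeAm y hy)
    by_cases h : π y ∈ F'
    · right
      refine ⟨⟨a1, h⟩, ?_⟩
      by_contra hge
      push Not at hge
      have h1 : life τ F' y ≤ τ y (π y) :=
        life_le hsym hF' hy.1.2 h a2 (by rw [← a3]; exact hge)
      rw [← a4] at h1
      exact absurd hy.2 (not_lt.mpr h1)
    · left; exact ⟨a1, h⟩
  -- (3) partners of Ap in F'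
  have f3 : ∀ y ∈ Ap, π' y ∈ Am ∨ π' y ∈ E ∨ π' y ∈ Γ := by
    intro y hy
    obtain ⟨a1, a2, a3, a4⟩ := hπ' y hy.1.2 (lifeAp y hy)
    by_cases h : π' y ∈ F
    · left
      refine ⟨⟨h, a1⟩, ?_⟩
      by_contra hge
      push Not at hge
      have h1 : life τ F y ≤ τ y (π' y) :=
        life_le hsym hF hy.1.1 h a2 (by rw [← a3]; exact hge)
      rw [← a4] at h1
      exact absurd hy.2 (not_lt.mpr h1)
    · right
      by_cases hg : π' y ∈ Γ
      · right; exact hg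
      · left; exact ⟨⟨a1, h⟩, hg⟩
  -- (4) partners of Γ
  have f4 : Γ ⊆ (ΓE ∪ Γi) ∪ Γii := by
    intro c hc
    obtain ⟨a1, a2, a3, a4⟩ := hπ' c (hΓ hc) (hdead c hc)
    have hnΓ : π' c ∉ Γ := by
      intro h
      have h1 := hnt c hc (π' c) h a2.symm
      have h2 := hdead c hc
      rw [a4, h1] at h2
      exact absurd h2 (lt_irrefl _)
    by_cases h : π' c ∈ F
    · by_cases hlt : life τ F (π' c) < life τ F' (π' c)
      · left; right
        exact ⟨hc, ⟨h, a1⟩, hlt⟩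
      · right
        push Not at hlt
        exact ⟨hc, π' c, ⟨h, a1⟩, a2, a4, a3, by rw [← a3]; exact hlt⟩
    · left; left
      exact ⟨hc, ⟨a1, h⟩, hnΓ⟩
  -- cardinal inequalities
  have c1 : Am.ncard ≤ ((F \ F') ∪ Ap).ncard := by
    apply Set.ncard_le_ncard_of_injOn π f1 _ (finD.union finAp)
    intro y1 h1 y2 h2 he
    exact inj y1 h1.1.1 y2 h2.1.1 (lifeAm _ h1) (lifeAm _ h2) he
  have c1' : ((F \ F') ∪ Ap).ncard ≤ (F \ F').ncard + Ap.ncard := Set.ncard_union_le _ _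
  have mem' : ∀ y, y ∈ Γ ∨ y ∈ Ap → y ∈ F' ∧ life τ F' y < ∞ := by
    rintro y (h | h)
    · exact ⟨hΓ h, hdead y h⟩
    · exact ⟨h.1.2, lifeAp y h⟩
  have dj : ∀ y, y ∈ Γ → y ∈ Ap → False := fun y h1 h2 => hΓF y h1 h2.1.1
  have c2 : Γi.ncard + A1.ncard ≤ Am.ncard := by
    rw [← Set.ncard_union_eq (Set.disjoint_left.mpr (fun y h1 h2 => dj y h1.1 h2.1)) finΓi finA1]
    apply Set.ncard_le_ncard_of_injOn π' _ _ finAm
    · rintro y (h | h)
      · exact h.2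
      · exact h.2
    · intro y1 h1 y2 h2 he
      have m1 := mem' y1 (h1.imp (fun h => h.1) (fun h => h.1))
      have m2 := mem' y2 (h2.imp (fun h => h.1) (fun h => h.1))
      exact inj' y1 m1.1 y2 m2.1 m1.2 m2.2 he
  have c3 : ΓE.ncard + A2.ncard ≤ E.ncard := by
    rw [← Set.ncard_union_eq (Set.disjoint_left.mpr (fun y h1 h2 => dj y h1.1 h2.1)) finΓE finA2]
    apply Set.ncard_le_ncard_of_injOn π' _ _ finE
    · rintro y (h | h)
      · exact h.2
      · exact h.2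
    · intro y1 h1 y2 h2 he
      have m1 := mem' y1 (h1.imp (fun h => h.1) (fun h => h.1))
      have m2 := mem' y2 (h2.imp (fun h => h.1) (fun h => h.1))
      exact inj' y1 m1.1 y2 m2.1 m1.2 m2.2 he
  have c4 : A3.ncard ≤ Γii.ncard := by
    apply Set.ncard_le_ncard_of_injOn π' _ _ finΓii
    · intro y hy
      have hyA : y ∈ Ap := hy.1
      have hyG : π' y ∈ Γ := hy.2
      obtain ⟨a1, a2, a3, a4⟩ := hπ' y hyA.1.2 (lifeAp y hyA)
      refine ⟨hyG, y, hyA.1, a2.symm, ?_, ?_, ?_⟩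
      · rw [a3, hsym]
      · rw [a4, hsym]
      · rw [hsym, ← a4]; exact hyA.2.le
    · intro y1 h1 y2 h2 he
      have m1 := mem' y1 (Or.inr h1.1)
      have m2 := mem' y2 (Or.inr h2.1)
      exact inj' y1 m1.1 y2 m2.1 m1.2 m2.2 he
  have c5 : Ap.ncard ≤ A1.ncard + A2.ncard + A3.ncard := by
    have hsub : Ap ⊆ (A1 ∪ A2) ∪ A3 := by
      intro y hy
      rcases f3 y hy with h | h | h
      · left; left; exact ⟨hy, h⟩
      · left; right; exact ⟨hy, h⟩
      · right; exact ⟨hy, h⟩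
    calc Ap.ncard ≤ ((A1 ∪ A2) ∪ A3).ncard :=
          Set.ncard_le_ncard hsub ((finA1.union finA2).union finA3)
      _ ≤ (A1 ∪ A2).ncard + A3.ncard := Set.ncard_union_le _ _
      _ ≤ _ := by gcongr; exact Set.ncard_union_le _ _
  have c6 : Γ.ncard ≤ ΓE.ncard + Γi.ncard + Γii.ncard := by
    calc Γ.ncard ≤ ((ΓE ∪ Γi) ∪ Γii).ncard :=
          Set.ncard_le_ncard f4 ((finΓE.union finΓi).union finΓii)
      _ ≤ (ΓE ∪ Γi).ncard + Γii.ncard := Set.ncard_union_le _ _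
      _ ≤ _ := by gcongr; exact Set.ncard_union_le _ _
  show Γ.ncard ≤ (F \ F').ncard + E.ncard + 2 * Γii.ncard
  omega

/-- The isolated particles. -/
def iso (τ : X → X → ℝ≥0∞) (F : Set X) : Set X := {x ∈ F | ∀ y ∈ F, y ≠ x → 0 < τ x y}

theorem iso_subset (F : Set X) : iso τ F ⊆ F := fun _ hx => hx.1

theorem life_not_iso (hsym : ∀ x y, τ x y = τ y x) {F : Set X} (hF : F.Finite) {x : X}
    (hx : x ∈ F) (h : x ∉ iso τ F) : life τ F x = 0 := by
  have h1 : ∃ y ∈ F, y ≠ x ∧ τ x y = 0 := by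
    by_contra hcon
    push Not at hcon
    apply h
    exact ⟨hx, fun y hy hne => pos_iff_ne_zero.mpr (hcon y hy hne)⟩
  obtain ⟨y, hy, hne, h0⟩ := h1
  have := life_le hsym hF hx hy hne (by rw [h0]; exact zero_le)
  rw [h0] at this
  exact le_antisymm this zero_le

/-- Only the isolated particles matter. -/
theorem life_iso (hsym : ∀ x y, τ x y = τ y x) {F : Set X} (hF : F.Finite) {x : X}
    (hx : x ∈ iso τ F) : life τ (iso τ F) x = life τ F x := by
  have h1 : DynUp τ (iso τ F) ∞ (life τ F) := by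
    constructor
    · intro a ha b hb hne hle
      exact life_le hsym hF ha.1 hb.1 hne hle
    · intro a ha hlt
      obtain ⟨b, hb, hne, h1, h2⟩ := exists_killer hsym hF ha.1 hlt
      have hb' : b ∈ iso τ F := by
        by_contra hnb
        have := life_not_iso hsym hF hb hnb
        rw [h1] at this
        exact absurd (ha.2 b hb hne) (by rw [this]; exact lt_irrefl _)
      exact ⟨b, hb', hne, by rw [h1], h2⟩
  exact (h1.eq_life hsym (hF.subset (iso_subset F)) hx).symm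

end Pool.Agent.Meteor
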