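import Mathlib
import Pool.Agent.Lib_helper16.Meteor.Step
import Pool.Agent.Lib_helper16.Meteor.Count

/-!
Resampling in a window; absence of ties; everybody dies if the density vanishes.
-/

namespace Pool.Agent.Meteor

open MeasureTheory Filter ProbabilityTheory Set
open scoped ENNReal NNReal Topology Pointwise

section general

variable {Ω X : Type*} [MeasurableSpace Ω] [MeasurableSpace X] [MeasurableSingletonClass X]
  {P : Measure Ω} [IsProbabilityMeasure P] {ξ : Ω → Set X} {μ : Measure X}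
  {K : ℕ → Set X} (H : PP P ξ μ K)

/-- The resampled random set. -/
def resamp (ξ : Ω → Set X) (B : Set X) (p : Ω × Ω) : Set X := (ξ p.1 \ B) ∪ (ξ p.2 ∩ B)

theorem cnt_resamp (ξ : Ω → Set X) {B : Set X} (hB : MeasurableSet B) (p : Ω × Ω) {A : Set X}
    (hA : MeasurableSet A) :
    cnt (resamp ξ B p) A = cnt (ξ p.1) (A \ B) + cnt (ξ p.2) (A ∩ B) := by
  rw [cnt_apply _ hA, cnt_apply _ (hA.diff hB), cnt_apply _ (hA.inter hB)]
  have h1 : resamp ξ B p ∩ A = (ξ p.1 ∩ (A \ B)) ∪ (ξ p.2 ∩ (A ∩ B)) := by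
    ext x
    simp only [resamp, mem_inter_iff, mem_union, Set.mem_sdiff]
    tauto
  rw [h1, Set.encard_union_eq]
  · push_cast; rfl
  · rw [Set.disjoint_left]
    rintro x ⟨_, hx⟩ ⟨_, hx'⟩
    exact hx.2 hx'.2

theorem encard_eq_iff_cnt (F : Set X) {A : Set X} (hA : MeasurableSet A) (k : ℕ) :
    (F ∩ A).encard = k ↔ cnt F A = (k : ℝ≥0∞) := by
  rw [cnt_apply F hA]
  constructor
  · intro h; rw [h]; simp
  · intro h
    have : ((F ∩ A).encard : ℝ≥0∞) = ((k : ℕ∞) : ℝ≥0∞) := by rw [h]; simp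
    exact ENat.toENNReal_inj.mp this

include H

theorem PP.measurable_resamp {B : Set X} (hB : MeasurableSet B) :
    Measurable (fun p : Ω × Ω => cnt (resamp ξ B p)) := by
  apply Measure.measurable_of_measurable_coe
  intro A hA
  simp only [cnt_resamp ξ hB _ hA]
  exact ((Measure.measurable_coe (hA.diff hB)).comp (H.measurable_N.comp measurable_fst)).add
    ((Measure.measurable_coe (hA.inter hB)).comp (H.measurable_N.comp measurable_snd))

theorem PP.law_resamp {B : Set X} (hB : MeasurableSet B) {G : Set (Measure X)}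
    (hG : MeasurableSet G) :
    (P.prod P) {p | cnt (resamp ξ B p) ∈ G} = P {ω | cnt (ξ ω) ∈ G} := by
  have h1 := law_resample H.poisson H.meas H.mono H.cov H.fin hB
  have h2 := congrArg (fun ν => ν G) h1
  have h3 : Measurable (fun p : Ω × Ω => cnt ((ξ p.1 \ B) ∪ (ξ p.2 ∩ B))) :=
    H.measurable_resamp hB
  rw [Measure.map_apply h3 hG, Measure.map_apply H.measurable_N hG] at h2
  exact h2

/-- The resampled process is again a Poisson process. -/
theorem PP.resample {B : Set X} (hB : MeasurableSet B) :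
    PP (P.prod P) (resamp ξ B) μ K := by
  refine ⟨⟨?_, ?_⟩, H.meas, H.mono, H.cov, H.fin, H.noatom, H.diag⟩
  · intro A hA k
    have h1 : {p : Ω × Ω | (resamp ξ B p ∩ A).encard = k} =
        (fun p => cnt (resamp ξ B p) A) ⁻¹' {(k : ℝ≥0∞)} := by
      ext p
      simp only [mem_ofPred_eq, mem_preimage, mem_singleton_iff]
      exact encard_eq_iff_cnt _ hA k
    rw [h1]
    exact ((Measure.measurable_coe hA).comp (H.measurable_resamp hB)) (measurableSet_singleton _)
  · intro n A hA hdisj hfin k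
    have hG : MeasurableSet {ν : Measure X | ∀ i, ν (A i) = (k i : ℝ≥0∞)} := by
      have : {ν : Measure X | ∀ i, ν (A i) = (k i : ℝ≥0∞)} =
          ⋂ i, (fun ν : Measure X => ν (A i)) ⁻¹' {(k i : ℝ≥0∞)} := by
        ext ν; simp
      rw [this]
      exact MeasurableSet.iInter (fun i => Measure.measurable_coe (hA i)
        (measurableSet_singleton _))
    have h1 := H.law_resamp hB hG
    have h2 : {p : Ω × Ω | ∀ i, (resamp ξ B p ∩ A i).encard = k i} =
        {p | cnt (resamp ξ B p) ∈ {ν : Measure X | ∀ i, ν (A i) = (k i : ℝ≥0∞)}} := by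
      ext p
      simp only [mem_ofPred_eq]
      exact forall_congr' (fun i => encard_eq_iff_cnt _ (hA i) _)
    have h3 : {ω : Ω | ∀ i, (ξ ω ∩ A i).encard = k i} =
        {ω | cnt (ξ ω) ∈ {ν : Measure X | ∀ i, ν (A i) = (k i : ℝ≥0∞)}} := by
      ext p
      simp only [mem_ofPred_eq]
      exact forall_congr' (fun i => encard_eq_iff_cnt _ (hA i) _)
    rw [h2, h1, ← h3]
    exact H.poisson.prob n A hA hdisj hfin k

/-- A property of triples that fails for almost every third point fails for all triples. -/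
theorem PP.ae_forall_three {T : Set ((X × X) × X)} (hT : MeasurableSet T)
    (hnull : ∀ x y, μ {z | ((x, y), z) ∈ T} = 0) :
    ∀ᵐ ω ∂P, ∀ x ∈ ξ ω, ∀ y ∈ ξ ω, ∀ z ∈ ξ ω, y ≠ x → z ≠ x → z ≠ y → ((x, y), z) ∉ T := by
  -- level 1
  have A : ∀ x y, ∀ᵐ ω ∂P, ∀ z ∈ ξ ω, ((x, y), z) ∉ T := by
    intro x y
    have hS : MeasurableSet {p : X × Measure X | ((x, y), p.1) ∈ T} := by
      have : Measurable (fun p : X × Measure X => ((x, y), p.1)) := by fun_prop
      exact this hT
    have h1 := H.ae_forall_mem hS (by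
      have h2 : ∀ᵐ z ∂μ, z ∉ {z | ((x, y), z) ∈ T} := by
        rw [ae_iff]
        simpa using hnull x y
      filter_upwards [h2] with z hz
      exact Filter.Eventually.of_forall (fun ω h => hz h))
    filter_upwards [h1] with ω hω z hz hzT
    exact hω z hz hzT
  -- level 2
  have B : ∀ x, ∀ᵐ ω ∂P, ∀ y ∈ ξ ω, ∀ z ∈ ξ ω, z ≠ y → ((x, y), z) ∉ T := by
    intro x
    have hm : ∀ y, MeasurableSet {z | ((x, y), z) ∈ T} := by
      intro y
      have : Measurable (fun z : X => ((x, y), z)) := by fun_prop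
      exact this hT
    have hS : MeasurableSet {p : X × Measure X |
        goodK K H.meas p.2 {z | ((x, p.1), z) ∈ T} ≠ 0} := by
      have h1 : MeasurableSet {q : (X × Measure X) × X | ((x, q.1.1), q.2) ∈ T} := by
        have : Measurable (fun q : (X × Measure X) × X => ((x, q.1.1), q.2)) := by fun_prop
        exact this hT
      have h2 := measurable_goodK_left H.meas H.cov (g := fun p : X × Measure X => p.2)
        measurable_snd h1
      exact (h2 (measurableSet_singleton 0)).compl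
    have h1 := H.ae_forall_mem hS (by
      refine Filter.Eventually.of_forall (fun y => ?_)
      filter_upwards [A x y, H.ae_LF] with ω hω hLF
      show ¬ (goodK K H.meas (cnt (ξ ω)) {z | ((x, y), z) ∈ T} ≠ 0)
      rw [not_not, goodK_apply H.meas hLF, cnt_eq_zero_iff _ (hm y)]
      exact hω)
    filter_upwards [h1, H.ae_LF] with ω hω hLF y hy z hz hne hzT
    apply hω y hy
    show goodK K H.meas (cnt (ξ ω \ {y})) {z | ((x, y), z) ∈ T} ≠ 0
    rw [goodK_apply H.meas (LF_cnt_subset Set.sdiff_subset hLF), Ne, cnt_eq_zero_iff _ (hm y)]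
    push Not
    exact ⟨z, ⟨hz, hne⟩, hzT⟩
  -- level 3
  have hm : ∀ x y, MeasurableSet {z | ((x, y), z) ∈ T} := by
    intro x y
    have : Measurable (fun z : X => ((x, y), z)) := by fun_prop
    exact this hT
  have hin : Measurable (fun q : (X × Measure X) × X =>
      goodK K H.meas (del H.meas q.1.2 q.2) {z | ((q.1.1, q.2), z) ∈ T}) := by
    have h1 : MeasurableSet {q : ((X × Measure X) × X) × X |
        ((q.1.1.1, q.1.2), q.2) ∈ T} := by
      have : Measurable (fun q : ((X × Measure X) × X) × X => ((q.1.1.1, q.1.2), q.2)) := by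
        fun_prop
      exact this hT
    have h3 : Measurable (fun q : (X × Measure X) × X => del H.meas q.1.2 q.2) := by
      have h4 : Measurable (fun q : (X × Measure X) × X => (q.1.2, q.2)) := by fun_prop
      exact (measurable_del H.meas H.cov H.diag).comp h4
    exact measurable_goodK_left H.meas H.cov h3 h1
  have hD : MeasurableSet {q : (X × Measure X) × X |
      goodK K H.meas (del H.meas q.1.2 q.2) {z | ((q.1.1, q.2), z) ∈ T} ≠ 0} :=
    (hin (measurableSet_singleton 0)).compl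
  have hS : MeasurableSet {p : X × Measure X | goodK K H.meas p.2
      {y | goodK K H.meas (del H.meas p.2 y) {z | ((p.1, y), z) ∈ T} ≠ 0} ≠ 0} := by
    have h2 := measurable_goodK_left H.meas H.cov (g := fun p : X × Measure X => p.2)
      measurable_snd hD
    exact (h2 (measurableSet_singleton 0)).compl
  have hSec : ∀ (x : X) (ν : Measure X), MeasurableSet
      {y | goodK K H.meas (del H.meas ν y) {z | ((x, y), z) ∈ T} ≠ 0} := by
    intro x ν
    have : Measurable (fun y : X => ((x, ν), y)) := by fun_prop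
    exact this hD
  have h1 := H.ae_forall_mem hS (by
    refine Filter.Eventually.of_forall (fun x => ?_)
    filter_upwards [B x, H.ae_LF] with ω hω hLF
    show ¬ (goodK K H.meas (cnt (ξ ω))
      {y | goodK K H.meas (del H.meas (cnt (ξ ω)) y) {z | ((x, y), z) ∈ T} ≠ 0} ≠ 0)
    rw [not_not, goodK_apply H.meas hLF, cnt_eq_zero_iff _ (hSec x _)]
    intro y hy
    show ¬ (goodK K H.meas (del H.meas (cnt (ξ ω)) y) {z | ((x, y), z) ∈ T} ≠ 0)
    rw [not_not, del_cnt H.meas hLF, goodK_apply H.meas (LF_cnt_subset Set.sdiff_subset hLF),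
      cnt_eq_zero_iff _ (hm x y)]
    intro z hz
    exact hω y hy z hz.1 hz.2)
  filter_upwards [h1, H.ae_LF] with ω hω hLF x hx y hy z hz hyx hzx hzy hT'
  apply hω x hx
  have hLF' : cnt (ξ ω \ {x}) ∈ LF K := LF_cnt_subset Set.sdiff_subset hLF
  show goodK K H.meas (cnt (ξ ω \ {x}))
      {y | goodK K H.meas (del H.meas (cnt (ξ ω \ {x})) y) {z | ((x, y), z) ∈ T} ≠ 0} ≠ 0
  rw [goodK_apply H.meas hLF', Ne, cnt_eq_zero_iff _ (hSec x _)]
  push Not
  refine ⟨y, ⟨hy, hyx⟩, ?_⟩
  show goodK K H.meas (del H.meas (cnt (ξ ω \ {x})) y) {z | ((x, y), z) ∈ T} ≠ 0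
  rw [del_cnt H.meas hLF', goodK_apply H.meas (LF_cnt_subset Set.sdiff_subset hLF'), Ne,
    cnt_eq_zero_iff _ (hm x y)]
  push Not
  exact ⟨z, ⟨⟨hz, hzx⟩, hzy⟩, hT'⟩

end general

variable {d : ℕ}

/-- A contact time in `(0, ∞)` is taken only on a null set. -/
theorem intensity_tau_eq [NeZero d] {ε : ℝ} (hε : 0 < ε) (x : Met d) {s : ℝ≥0} (hs : 0 < s) :
    intensity d {z | tau ε x z = s} = 0 := by
  have h1 : ∀ n : ℕ, intensity d {z | tau ε x z = s} ≤
      ENNReal.ofReal (C1 ε d * (1 / ((n : ℝ) + 1))) := by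
    intro n
    obtain ⟨h, hh⟩ : ∃ h : ℝ≥0, h = 1 / ((n : ℝ≥0) + 1) := ⟨_, rfl⟩
    have hpos : 0 < h := by rw [hh]; positivity
    have hle : s - h ≤ s := tsub_le_self
    have h2 := contact_bound hε x hle
    refine le_trans (measure_mono ?_) (h2.trans ?_)
    · intro z hz
      have hz' : tau ε x z = s := hz
      refine ⟨?_, hz'.le⟩
      rw [hz', ENNReal.coe_lt_coe]
      exact tsub_lt_self hs hpos
    · apply ENNReal.ofReal_le_ofReal
      apply mul_le_mul_of_nonneg_left _ (C1_nonneg hε.le)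
      rw [← NNReal.coe_sub hle]
      have h3 : s - (s - h) ≤ h := by
        rw [tsub_le_iff_left]; exact le_tsub_add
      have h4 : ((s - (s - h) : ℝ≥0) : ℝ) ≤ h := by exact_mod_cast h3
      refine h4.trans (le_of_eq ?_)
      rw [hh]; push_cast; rfl
  have h2 : Tendsto (fun n : ℕ => ENNReal.ofReal (C1 ε d * (1 / ((n : ℝ) + 1)))) atTop (𝓝 0) := by
    have h3 := (tendsto_one_div_add_atTop_nhds_zero_nat (𝕜 := ℝ)).const_mul (C1 ε d)
    have := ENNReal.tendsto_ofReal h3
    simpa using this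
  exact le_antisymm (ge_of_tendsto' h2 h1) zero_le

section met

variable {Ω : Type*} [MeasurableSpace Ω] {P : Measure Ω} [IsProbabilityMeasure P]
  {ξ : Ω → Set (Met d)} [NeZero d] {ε : ℝ} (H : PP P ξ (intensity d) (Kd d))
include H

/-- Almost surely there are no ties at positive times. -/
theorem ae_noTie (hε : 0 < ε) : ∀ᵐ ω ∂P, ∀ x ∈ ξ ω, ∀ y ∈ ξ ω, ∀ z ∈ ξ ω, y ≠ x → z ≠ x →
    z ≠ y → tau ε x y = tau ε x z → tau ε x y = 0 ∨ tau ε x y = ∞ := by
  obtain ⟨T, hTd⟩ : ∃ T : Set ((Met d × Met d) × Met d), T =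
    {q | tau ε q.1.1 q.1.2 = tau ε q.1.1 q.2 ∧ 0 < tau ε q.1.1 q.1.2 ∧ tau ε q.1.1 q.1.2 < ∞} :=
    ⟨_, rfl⟩
  have hT : MeasurableSet T := by
    have h1 : Measurable (fun q : (Met d × Met d) × Met d => tau ε q.1.1 q.1.2) := by
      have h : Measurable (fun q : (Met d × Met d) × Met d => q.1) := measurable_fst
      have h' : Measurable ((fun p : Met d × Met d => tau ε p.1 p.2) ∘
        (fun q : (Met d × Met d) × Met d => q.1)) := (measurable_tau ε).comp h
      exact h'
    have h2 : Measurable (fun q : (Met d × Met d) × Met d => tau ε q.1.1 q.2) := by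
      have h : Measurable (fun q : (Met d × Met d) × Met d => (q.1.1, q.2)) := by fun_prop
      have h' : Measurable ((fun p : Met d × Met d => tau ε p.1 p.2) ∘
        (fun q : (Met d × Met d) × Met d => (q.1.1, q.2))) := (measurable_tau ε).comp h
      exact h'
    rw [hTd]
    have m1 : MeasurableSet {q : (Met d × Met d) × Met d |
      tau ε q.1.1 q.1.2 = tau ε q.1.1 q.2} := measurableSet_eq_fun h1 h2
    have m2 : MeasurableSet {q : (Met d × Met d) × Met d | 0 < tau ε q.1.1 q.1.2} :=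
      measurableSet_lt measurable_const h1
    have m3 : MeasurableSet {q : (Met d × Met d) × Met d | tau ε q.1.1 q.1.2 < ∞} :=
      measurableSet_lt h1 measurable_const
    exact m1.inter (m2.inter m3)
  have hnull : ∀ x y, intensity d {z | ((x, y), z) ∈ T} = 0 := by
    intro x y
    rw [hTd]
    by_cases h : 0 < tau ε x y ∧ tau ε x y < ∞
    · obtain ⟨s, hs⟩ : ∃ s : ℝ≥0, tau ε x y = s :=
        ⟨(tau ε x y).toNNReal, (ENNReal.coe_toNNReal h.2.ne).symm⟩
      have hs0 : 0 < s := by rw [hs] at h; exact_mod_cast h.1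
      apply le_antisymm _ zero_le
      rw [← intensity_tau_eq hε x hs0]
      apply measure_mono
      rintro z ⟨hz, _⟩
      have hz' : tau ε x y = tau ε x z := hz
      rw [hs] at hz'
      exact hz'.symm
    · have : {z : Met d | ((x, y), z) ∈ {q : (Met d × Met d) × Met d |
          tau ε q.1.1 q.1.2 = tau ε q.1.1 q.2 ∧ 0 < tau ε q.1.1 q.1.2 ∧
          tau ε q.1.1 q.1.2 < ∞}} = ∅ := by
        ext z
        simp only [mem_empty_iff_false, iff_false]
        rintro ⟨_, h2⟩
        exact h h2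
      rw [this, measure_empty]
  filter_upwards [H.ae_forall_three hT hnull] with ω hω x hx y hy z hz hyx hzx hzy he
  have h1 := hω x hx y hy z hz hyx hzx hzy
  rw [hTd] at h1
  by_contra hcon
  push Not at hcon
  exact h1 ⟨he, pos_iff_ne_zero.mpr hcon.1, lt_top_iff_ne_top.mpr hcon.2⟩

/-- If the density tends to zero, everybody dies. -/
theorem ae_all_die (h0 : Tendsto (fun k : ℕ => rho P ξ ε (k : ℝ≥0)) atTop (𝓝 0)) :
    ∀ᵐ ω ∂P, ∀ y ∈ ξ ω, ∃ k : ℕ, ¬ alive (tau ε) (ξ ω \ {y}) y ((k : ℝ≥0) : ℝ≥0∞) := by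
  have hS : MeasurableSet {p : Met d × Measure (Met d) |
      ∀ k : ℕ, ((p.2, p.1), ((k : ℝ≥0) : ℝ≥0∞)) ∈ Al d ε} := by
    have h2 : {p : Met d × Measure (Met d) |
        ∀ k : ℕ, ((p.2, p.1), ((k : ℝ≥0) : ℝ≥0∞)) ∈ Al d ε} =
        ⋂ k : ℕ, {p : Met d × Measure (Met d) | ((p.2, p.1), ((k : ℝ≥0) : ℝ≥0∞)) ∈ Al d ε} := by
      ext p; simp
    rw [h2]
    apply MeasurableSet.iInter
    intro k
    have h3 : Measurable (fun p : Met d × Measure (Met d) =>
        ((p.2, p.1), ((k : ℝ≥0) : ℝ≥0∞))) := by fun_prop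
    exact h3 (measurableSet_Al ε)
  have h1 := H.ae_forall_mem hS (by
    refine Filter.Eventually.of_forall (fun y => ?_)
    have h2 : ∀ k : ℕ, P {ω | ∀ k : ℕ, ((cnt (ξ ω), y), ((k : ℝ≥0) : ℝ≥0∞)) ∈ Al d ε} ≤
        ENNReal.ofReal (rho P ξ ε (k : ℝ≥0)) := by
      intro k
      rw [← prob_alive H y]
      exact measure_mono (fun ω hω => hω k)
    have h3 : Tendsto (fun k : ℕ => ENNReal.ofReal (rho P ξ ε (k : ℝ≥0))) atTop (𝓝 0) := by
      have := ENNReal.tendsto_ofReal h0
      simpa using this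
    have h4 : P {ω | ∀ k : ℕ, ((cnt (ξ ω), y), ((k : ℝ≥0) : ℝ≥0∞)) ∈ Al d ε} = 0 :=
      le_antisymm (ge_of_tendsto' h3 h2) zero_le
    rw [ae_iff]
    simpa using h4)
  filter_upwards [h1, H.ae_LF] with ω hω hLF y hy
  have h2 := hω y hy
  by_contra hcon
  push Not at hcon
  apply h2
  intro k
  exact (mem_Al (LF_cnt_subset Set.sdiff_subset hLF)).mpr (hcon k)

/-- The survival probabilities of the resampled process are the same. -/
theorem rho_resamp {B : Set (Met d)} (hB : MeasurableSet B) (t : ℝ≥0) :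
    rho (P.prod P) (resamp ξ B) ε t = rho P ξ ε t := by
  unfold rho
  congr 1
  have hG : MeasurableSet {ν : Measure (Met d) | ((ν, met0 d), (t : ℝ≥0∞)) ∈ Al d ε} := by
    have h1 : Measurable (fun ν : Measure (Met d) => ((ν, met0 d), (t : ℝ≥0∞))) := by fun_prop
    exact h1 (measurableSet_Al ε)
  exact H.law_resamp hB hG

end met

end Pool.Agent.Meteor
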