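import Mathlib
import Pool.Agent.Lib_helper16.Meteor.Resample
import Pool.Agent.Lib_helper16.Meteor.Config

/-!
The deterministic counting inequality for a window.
-/

namespace Pool.Agent.Meteor

open MeasureTheory Filter ProbabilityTheory Set
open scoped ENNReal NNReal Topology Pointwise

variable {d : ℕ}

/-- The window. -/
def Bw (d : ℕ) (a : ℝ) : Set (Met d) := {x | ‖x.1‖ ≤ a}

/-- Contact times of meteors at distance more than `2 ε` are positive. -/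
theorem tau_pos_of_dist {ε : ℝ} {x y : Met d} (h : 2 * ε < ‖x.1 - y.1‖) : 0 < tau ε x y := by
  rw [pos_iff_ne_zero]
  intro h0
  rw [tau_eq_zero_iff] at h0
  linarith

theorem dist_le_of_tau_le {ε : ℝ} {x y : Met d} {t : ℝ≥0} (h : tau ε x y ≤ t) :
    ‖x.1 - y.1‖ ≤ 2 * ε + 2 * t := by
  obtain ⟨s, hs, hc⟩ := tau_le_iff.mp h
  have h1 := norm_diff_move x y (0 : ℝ) (s : ℝ)
  have h2 : |(0 : ℝ) - s| = s := by simp
  rw [h2] at h1
  have h3 : pos x 0 - pos y 0 = x.1 - y.1 := by simp [pos]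
  rw [h3] at h1
  have h4 : x.1 - y.1 = ((x.1 - y.1) - (pos x s - pos y s)) + (pos x s - pos y s) := by abel
  have h5 : (s : ℝ) ≤ t := by exact_mod_cast hs
  calc ‖x.1 - y.1‖ = ‖((x.1 - y.1) - (pos x s - pos y s)) + (pos x s - pos y s)‖ := by
        rw [← h4]
    _ ≤ _ := norm_add_le _ _
    _ ≤ _ := by linarith

theorem noTie_iso {ε : ℝ} {F0 : Set (Met d)} (tie : ∀ x ∈ F0, ∀ y ∈ F0, ∀ z ∈ F0, y ≠ x → z ≠ x →
    z ≠ y → tau ε x y = tau ε x z → tau ε x y = 0 ∨ tau ε x y = ∞) (R : ℝ) :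
    NoTie (tau ε) (iso (tau ε) (inBall F0 R)) := by
  intro x hx y hy z hz hyx hzx hyz he
  rcases tie x hx.1.1 y hy.1.1 z hz.1.1 hyx hzx hyz.symm he with h | h
  · exact absurd (hx.2 y hy.1 hyx) (by rw [h]; exact lt_irrefl _)
  · exact h

theorem det_count {ε : ℝ} (hε : 0 < ε) {F0 F0' : Set (Met d)} (hLF : cnt F0 ∈ LF (Kd d))
    (hLF' : cnt F0' ∈ LF (Kd d)) (hCF : ∀ y ∈ F0, CF (tau ε) (F0 \ {y}) y)
    (hCF' : ∀ y ∈ F0', CF (tau ε) (F0' \ {y}) y)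
    (tie : ∀ x ∈ F0, ∀ y ∈ F0, ∀ z ∈ F0, y ≠ x → z ≠ x →
      z ≠ y → tau ε x y = tau ε x z → tau ε x y = 0 ∨ tau ε x y = ∞)
    (tie' : ∀ x ∈ F0', ∀ y ∈ F0', ∀ z ∈ F0', y ≠ x → z ≠ x →
      z ≠ y → tau ε x y = tau ε x z → tau ε x y = 0 ∨ tau ε x y = ∞)
    {r : ℝ} (hr : 0 ≤ r) (t1 : ℝ≥0) {m : ℕ} (c : Fin m → Met d) (hinj : Function.Injective c)
    (hcr : ∀ i, ‖(c i).1‖ ≤ r + 1) (hnt : ∀ i j, i ≠ j → tau ε (c i) (c j) = ∞)
    (hB : F0' ∩ Bw d (r + 1 + 2 * ε) = range c)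
    (hout : F0' \ Bw d (r + 1 + 2 * ε) = F0 \ Bw d (r + 1 + 2 * ε))
    (hnot : ∀ i, c i ∉ F0)
    (hdie : ∀ i, ∃ k : ℕ, ¬ alive (tau ε) (F0' \ {c i}) (c i) ((k : ℝ≥0) : ℝ≥0∞)) :
    m ≤ ({y ∈ F0 | y ∈ Bw d (r + 1 + 2 * ε) ∧ ∀ z ∈ F0, z ≠ y → 0 < tau ε y z}).ncard +
      ({y ∈ F0 | r + 1 + 2 * ε < ‖y.1‖ ∧ ‖y.1‖ ≤ r + 1 + 4 * ε}).ncard +
      2 * (({y ∈ F0 | r + 1 + 2 * ε < ‖y.1‖ ∧ ‖y.1‖ ≤ r + 1 + 2 * t1 + 2 * ε}).ncard +
        ({i : Fin m | ∃ y ∈ F0, (t1 : ℝ≥0∞) < tau ε (c i) y ∧ tau ε (c i) y < ∞ ∧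
          alive (tau ε) (F0 \ {y}) y (tau ε (c i) y)}).ncard) := by
  classical
  have hFin : ∀ (a : ℝ) (S : Set (Met d)), (∀ y ∈ S, y ∈ F0 ∧ ‖y.1‖ ≤ a) → S.Finite := by
    intro a S hS
    exact (finite_inBall hLF a).subset (fun y hy => ⟨(hS y hy).1, (hS y hy).2⟩)
  have hcF' : ∀ i, c i ∈ F0' := fun i => (hB ▸ mem_range_self i : c i ∈ F0' ∩ _).1
  choose k hk using hdie
  -- eventual conditions
  have E1 : ∀ i, ∀ᶠ R : ℝ in atTop, life (tau ε) (inBall F0' R) (c i) < (k i : ℝ≥0) := by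
    intro i
    filter_upwards [eventually_alive_iff hε.le (fun R => finite_inBall hLF' R)
      (hCF' _ (hcF' i)) (k i : ℝ≥0)] with R hR
    rw [← not_le, hR]
    exact hk i
  have E2 : ∀ i, ∀ᶠ R : ℝ in atTop, ∀ y ∈ {y ∈ F0 | tau ε (c i) y < (k i : ℝ≥0)},
      (tau ε (c i) y ≤ life (tau ε) (inBall F0 R) y ↔
        alive (tau ε) (F0 \ {y}) y (tau ε (c i) y)) := by
    intro i
    have hfin : ({y ∈ F0 | tau ε (c i) y < (k i : ℝ≥0)}).Finite := by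
      apply hFin (‖(c i).1‖ + (2 * ε + 2 * (k i : ℝ≥0)))
      rintro y ⟨hy, hlt⟩
      refine ⟨hy, ?_⟩
      have h1 := dist_le_of_tau_le hlt.le
      have h2 : ‖y.1‖ ≤ ‖(c i).1‖ + ‖(c i).1 - y.1‖ := by
        have : y.1 = (c i).1 - ((c i).1 - y.1) := by abel
        calc ‖y.1‖ = ‖(c i).1 - ((c i).1 - y.1)‖ := by rw [← this]
          _ ≤ _ := norm_sub_le _ _
      linarith
    rw [eventually_all_finite hfin]
    rintro y ⟨hy, hlt⟩
    obtain ⟨s, hs⟩ : ∃ s : ℝ≥0, tau ε (c i) y = s :=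
      ⟨(tau ε (c i) y).toNNReal, (ENNReal.coe_toNNReal (hlt.trans ENNReal.coe_lt_top).ne).symm⟩
    rw [hs]
    exact eventually_alive_iff hε.le (fun R => finite_inBall hLF R) (hCF y hy) s
  rw [← eventually_all] at E1 E2
  obtain ⟨R, ⟨R1, R2⟩, hR⟩ := ((E1.and E2).and
    (eventually_ge_atTop (r + 1 + 2 * t1 + 8 * ε))).exists
  have ht1 : (0 : ℝ) ≤ t1 := t1.2
  -- the finite systems
  obtain ⟨G, hG⟩ : ∃ G, G = inBall F0 R := ⟨_, rfl⟩
  obtain ⟨G', hG'⟩ : ∃ G', G' = inBall F0' R := ⟨_, rfl⟩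
  have hGfin : G.Finite := by rw [hG]; exact finite_inBall hLF R
  have hGfin' : G'.Finite := by rw [hG']; exact finite_inBall hLF' R
  have memG : ∀ y, y ∈ G ↔ y ∈ F0 ∧ ‖y.1‖ ≤ R := fun y => by rw [hG]; rfl
  have memG' : ∀ y, y ∈ G' ↔ y ∈ F0' ∧ ‖y.1‖ ≤ R := fun y => by rw [hG']; rfl
  have outIff : ∀ y, y ∉ Bw d (r + 1 + 2 * ε) → (y ∈ F0 ↔ y ∈ F0') := by
    intro y hy
    constructor
    · intro h
      have : y ∈ F0 \ Bw d (r + 1 + 2 * ε) := ⟨h, hy⟩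
      rw [← hout] at this
      exact this.1
    · intro h
      have : y ∈ F0' \ Bw d (r + 1 + 2 * ε) := ⟨h, hy⟩
      rw [hout] at this
      exact this.1
  have farOut : ∀ i y, y ∉ Bw d (r + 1 + 2 * ε) → 2 * ε < ‖(c i).1 - y.1‖ := by
    intro i y hy
    have h1 : r + 1 + 2 * ε < ‖y.1‖ := not_le.mp hy
    have h2 : ‖y.1‖ ≤ ‖(c i).1‖ + ‖(c i).1 - y.1‖ := by
      have : y.1 = (c i).1 - ((c i).1 - y.1) := by abel
      calc ‖y.1‖ = ‖(c i).1 - ((c i).1 - y.1)‖ := by rw [← this]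
        _ ≤ _ := norm_sub_le _ _
    linarith [hcr i]
  have inB : ∀ y, y ∈ F0' → y ∈ Bw d (r + 1 + 2 * ε) → ∃ i, c i = y := by
    intro y h1 h2
    have : y ∈ F0' ∩ Bw d (r + 1 + 2 * ε) := ⟨h1, h2⟩
    rw [hB] at this
    exact this
  have hcG' : ∀ i, c i ∈ G' := by
    intro i
    rw [memG']
    exact ⟨hcF' i, by linarith [hcr i]⟩
  have hciso : ∀ i, c i ∈ iso (tau ε) G' := by
    intro i
    refine ⟨hcG' i, ?_⟩
    intro y hy hne
    by_cases hyB : y ∈ Bw d (r + 1 + 2 * ε)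
    · obtain ⟨j, rfl⟩ := inB y ((memG' y).mp hy).1 hyB
      rw [hnt i j (fun h => hne (by rw [h]))]
      exact ENNReal.zero_lt_top
    · exact tau_pos_of_dist (farOut i y hyB)
  have hI : (iso (tau ε) G).Finite := hGfin.subset (iso_subset G)
  have hI' : (iso (tau ε) G').Finite := hGfin'.subset (iso_subset G')
  have tG : NoTie (tau ε) (iso (tau ε) G) := by rw [hG]; exact noTie_iso tie R
  have tG' : NoTie (tau ε) (iso (tau ε) G') := by rw [hG']; exact noTie_iso tie' R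
  have hcount := counting (tau_symm ε) hI hI' tG tG' (Γ := range c)
    (by rintro _ ⟨i, rfl⟩; exact hciso i)
    (by rintro _ ⟨i, rfl⟩ h; exact hnot i ((memG _).mp h.1).1)
    (by
      rintro _ ⟨i, rfl⟩ _ ⟨j, rfl⟩ hne
      exact hnt i j (fun h => hne (by rw [h])))
    (by
      rintro _ ⟨i, rfl⟩
      rw [life_iso (tau_symm ε) hGfin' (hciso i), hG']
      exact (R1 i).trans ENNReal.coe_lt_top)
  have hcard : (range c).ncard = m := by
    rw [← Set.image_univ, Set.ncard_image_of_injective _ hinj, Set.ncard_univ, Nat.card_fin]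
  rw [hcard] at hcount
  refine hcount.trans ?_
  -- (a)
  have ha : (iso (tau ε) G \ iso (tau ε) G').ncard ≤
      ({y ∈ F0 | y ∈ Bw d (r + 1 + 2 * ε) ∧ ∀ z ∈ F0, z ≠ y → 0 < tau ε y z}).ncard := by
    apply Set.ncard_le_ncard
    · rintro y ⟨hy1, hy2⟩
      obtain ⟨hyF, hyR⟩ := (memG y).mp hy1.1
      have hyB : y ∈ Bw d (r + 1 + 2 * ε) := by
        by_contra hyB
        apply hy2
        refine ⟨(memG' y).mpr ⟨(outIff y hyB).mp hyF, hyR⟩, ?_⟩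
        intro z hz hne
        by_cases hzB : z ∈ Bw d (r + 1 + 2 * ε)
        · obtain ⟨j, rfl⟩ := inB z ((memG' z).mp hz).1 hzB
          rw [tau_symm]
          exact tau_pos_of_dist (farOut j y hyB)
        · obtain ⟨hz1, hz2⟩ := (memG' z).mp hz
          exact hy1.2 z ((memG z).mpr ⟨(outIff z hzB).mpr hz1, hz2⟩) hne
      refine ⟨hyF, hyB, ?_⟩
      intro z hz hne
      by_cases hzR : ‖z.1‖ ≤ R
      · exact hy1.2 z ((memG z).mpr ⟨hz, hzR⟩) hne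
      · apply tau_pos_of_dist
        have h1 : ‖y.1‖ ≤ r + 1 + 2 * ε := hyB
        have h2 : ‖z.1‖ ≤ ‖y.1‖ + ‖y.1 - z.1‖ := by
          have : z.1 = y.1 - (y.1 - z.1) := by abel
          calc ‖z.1‖ = ‖y.1 - (y.1 - z.1)‖ := by rw [← this]
            _ ≤ _ := norm_sub_le _ _
        push Not at hzR
        linarith
    · exact hFin (r + 1 + 2 * ε) _ (fun y hy => ⟨hy.1, hy.2.1⟩)
  -- (b)
  have hb : ((iso (tau ε) G' \ iso (tau ε) G) \ range c).ncard ≤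
      ({y ∈ F0 | r + 1 + 2 * ε < ‖y.1‖ ∧ ‖y.1‖ ≤ r + 1 + 4 * ε}).ncard := by
    apply Set.ncard_le_ncard
    · rintro y ⟨⟨hy1, hy2⟩, hy3⟩
      obtain ⟨hyF', hyR⟩ := (memG' y).mp hy1.1
      have hyB : y ∉ Bw d (r + 1 + 2 * ε) := fun h => hy3 (inB y hyF' h)
      have hyF : y ∈ F0 := (outIff y hyB).mpr hyF'
      obtain ⟨z, hz, hzy, hz0⟩ : ∃ z ∈ G, z ≠ y ∧ tau ε y z = 0 := by
        by_contra hcon
        push Not at hcon
        exact hy2 ⟨(memG y).mpr ⟨hyF, hyR⟩, fun z hz hne => pos_iff_ne_zero.mpr (hcon z hz hne)⟩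
      obtain ⟨hzF, hzR⟩ := (memG z).mp hz
      have hzB : z ∈ Bw d (r + 1 + 2 * ε) := by
        by_contra hzB
        have := hy1.2 z ((memG' z).mpr ⟨(outIff z hzB).mp hzF, hzR⟩) hzy
        rw [hz0] at this
        exact absurd this (lt_irrefl _)
      refine ⟨hyF, not_le.mp hyB, ?_⟩
      rw [tau_eq_zero_iff] at hz0
      have h1 : ‖z.1‖ ≤ r + 1 + 2 * ε := hzB
      have h2 : ‖y.1‖ ≤ ‖z.1‖ + ‖y.1 - z.1‖ := by
        have := norm_add_le z.1 (y.1 - z.1)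
        simpa using this
      linarith
    · exact hFin (r + 1 + 4 * ε) _ (fun y hy => ⟨hy.1, hy.2.2⟩)
  -- (c)
  obtain ⟨Γii, hΓii⟩ : ∃ S : Set (Met d), S = {c_1 ∈ range c | ∃ y ∈ iso (tau ε) G ∩ iso (tau ε) G',
      y ≠ c_1 ∧ life (tau ε) (iso (tau ε) G') c_1 = tau ε c_1 y ∧
      life (tau ε) (iso (tau ε) G') y = tau ε c_1 y ∧
      tau ε c_1 y ≤ life (tau ε) (iso (tau ε) G) y} := ⟨_, rfl⟩
  rw [← hΓii]
  have hc : Γii.ncard ≤
      ({y ∈ F0 | r + 1 + 2 * ε < ‖y.1‖ ∧ ‖y.1‖ ≤ r + 1 + 2 * t1 + 2 * ε}).ncard +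
        ({i : Fin m | ∃ y ∈ F0, (t1 : ℝ≥0∞) < tau ε (c i) y ∧ tau ε (c i) y < ∞ ∧
          alive (tau ε) (F0 \ {y}) y (tau ε (c i) y)}).ncard := by
    -- choose partners
    have hpart : ∀ x : Met d, ∃ y : Met d, x ∈ Γii → (y ∈ iso (tau ε) G ∩ iso (tau ε) G' ∧
        y ≠ x ∧ life (tau ε) (iso (tau ε) G') x = tau ε x y ∧
        life (tau ε) (iso (tau ε) G') y = tau ε x y ∧
        tau ε x y ≤ life (tau ε) (iso (tau ε) G) y) := by
      intro x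
      by_cases hx : x ∈ Γii
      · have hx' := hx
        rw [hΓii] at hx'
        obtain ⟨_, y, hy⟩ := hx'
        exact ⟨y, fun _ => hy⟩
      · exact ⟨x, fun h => absurd h hx⟩
    choose p hp using hpart
    have hΓr : ∀ x ∈ Γii, x ∈ range c := by
      intro x hx; rw [hΓii] at hx; exact hx.1
    have hΓfin : Γii.Finite := (Set.finite_range c).subset hΓr
    let G1 : Set (Met d) := {x ∈ Γii | tau ε x (p x) ≤ t1}
    let G2 : Set (Met d) := {x ∈ Γii | (t1 : ℝ≥0∞) < tau ε x (p x)}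
    have hsplit : Γii ⊆ G1 ∪ G2 := by
      intro x hx
      rcases le_or_gt (tau ε x (p x)) t1 with h | h
      · exact Or.inl ⟨hx, h⟩
      · exact Or.inr ⟨hx, h⟩
    have hG1fin : G1.Finite := hΓfin.subset (fun x hx => hx.1)
    have hG2fin : G2.Finite := hΓfin.subset (fun x hx => hx.1)
    have hG1 : G1.ncard ≤
        ({y ∈ F0 | r + 1 + 2 * ε < ‖y.1‖ ∧ ‖y.1‖ ≤ r + 1 + 2 * t1 + 2 * ε}).ncard := by
      refine Set.ncard_le_ncard_of_injOn p ?_ ?_ ?_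
      · intro x hx
        obtain ⟨⟨hy1, hy2⟩, hne, _, _, _⟩ := hp x hx.1
        obtain ⟨i, rfl⟩ := hΓr x hx.1
        obtain ⟨hyF, hyR⟩ := (memG _).mp hy1.1
        obtain ⟨hyF', _⟩ := (memG' _).mp hy2.1
        have hyB : p (c i) ∉ Bw d (r + 1 + 2 * ε) := by
          intro h
          obtain ⟨j, hj⟩ := inB _ hyF' h
          exact hnot j (hj ▸ hyF)
        refine ⟨hyF, not_le.mp hyB, ?_⟩
        have h1 := dist_le_of_tau_le (t := t1) hx.2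
        have h2 : ‖(p (c i)).1‖ ≤ ‖(c i).1‖ + ‖(c i).1 - (p (c i)).1‖ := by
          have : (p (c i)).1 = (c i).1 - ((c i).1 - (p (c i)).1) := by abel
          calc ‖(p (c i)).1‖ = ‖(c i).1 - ((c i).1 - (p (c i)).1)‖ := by rw [← this]
            _ ≤ _ := norm_sub_le _ _
        linarith [hcr i]
      · intro x1 h1 x2 h2 he
        obtain ⟨⟨_, a2⟩, a3, a4, a5, _⟩ := hp x1 h1.1
        obtain ⟨⟨_, _⟩, b3, b4, b5, _⟩ := hp x2 h2.1
        obtain ⟨i, hi⟩ := hΓr x1 h1.1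
        obtain ⟨j, hj⟩ := hΓr x2 h2.1
        rw [← he] at b3 b4 b5
        have m1 : x1 ∈ iso (tau ε) G' := hi ▸ hciso i
        have m2 : x2 ∈ iso (tau ε) G' := hj ▸ hciso j
        apply partner_unique (tau_symm ε) tG' a2 m1 m2 a3.symm b3.symm
        · rw [a5, tau_symm]
        · rw [b5, tau_symm]
        · rw [a5]; exact lt_of_le_of_lt h1.2 ENNReal.coe_lt_top
      · exact hFin (r + 1 + 2 * t1 + 2 * ε) _ (fun y hy => ⟨hy.1, hy.2.2⟩)
    have hG2 : G2.ncard ≤ ({i : Fin m | ∃ y ∈ F0, (t1 : ℝ≥0∞) < tau ε (c i) y ∧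
        tau ε (c i) y < ∞ ∧ alive (tau ε) (F0 \ {y}) y (tau ε (c i) y)}).ncard := by
      have hsub : G2 ⊆ c '' {i : Fin m | ∃ y ∈ F0, (t1 : ℝ≥0∞) < tau ε (c i) y ∧
          tau ε (c i) y < ∞ ∧ alive (tau ε) (F0 \ {y}) y (tau ε (c i) y)} := by
        intro x hx
        obtain ⟨⟨hy1, hy2⟩, hne, h3, h4, h5⟩ := hp x hx.1
        obtain ⟨i, rfl⟩ := hΓr x hx.1
        obtain ⟨hyF, _⟩ := (memG _).mp hy1.1
        have hlt : tau ε (c i) (p (c i)) < (k i : ℝ≥0) := by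
          rw [← h3, life_iso (tau_symm ε) hGfin' (hciso i), hG']
          exact R1 i
        refine ⟨i, ⟨p (c i), hyF, hx.2, hlt.trans ENNReal.coe_lt_top, ?_⟩, rfl⟩
        rw [← R2 i (p (c i)) ⟨hyF, hlt⟩]
        rw [life_iso (tau_symm ε) hGfin hy1, hG] at h5
        exact h5
      calc G2.ncard ≤ (c '' _).ncard := Set.ncard_le_ncard hsub (Set.toFinite _)
        _ ≤ _ := Set.ncard_image_le (Set.toFinite _)
    calc Γii.ncard ≤ (G1 ∪ G2).ncard := Set.ncard_le_ncard hsplit (hG1fin.union hG2fin)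
      _ ≤ G1.ncard + G2.ncard := Set.ncard_union_le _ _
      _ ≤ _ := add_le_add hG1 hG2
  omega

end Pool.Agent.Meteor
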