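import Mathlib
import Pool.Agent.Lib_helper16.Meteor.DetCount
import Pool.Agent.Lib_helper16.Meteor.Decay

/-!
The expected number of visits is infinite: the dyadic densities are not summable.
-/

namespace Pool.Agent.Meteor

open MeasureTheory Filter ProbabilityTheory Set
open scoped ENNReal NNReal Topology Pointwise

variable {d : ℕ}

theorem ncard_le_sum_indicator {Ω : Type*} {m : ℕ} (Q : Fin m → Prop) (U : Fin m → Set Ω) (ω : Ω)
    (h : ∀ i, Q i → ω ∈ U i) :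
    (({i | Q i}).ncard : ℝ≥0∞) ≤ ∑ i, (U i).indicator 1 ω := by
  classical
  rw [Set.ncard_eq_toFinset_card', Set.toFinset_ofPred, Finset.card_filter]
  push_cast
  apply Finset.sum_le_sum
  intro i _
  by_cases hi : Q i
  · rw [Set.indicator_of_mem (h i hi), if_pos hi]; rfl
  · rw [if_neg hi]; exact zero_le

section prob

variable {Ω : Type*} [MeasurableSpace Ω] {P : Measure Ω} [IsProbabilityMeasure P]
  {ξ : Ω → Set (Met d)} [NeZero d] {ε : ℝ} (H : PP P ξ (intensity d) (Kd d))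
include H

/-- Probability that a moving test ball is touched by a living meteor at a late time. -/
theorem prob_touch_le (hε : 0 < ε) (hsum : Summable (aa P ξ ε)) (c : Met d) (k1 : ℕ) :
    P {ω | ∃ y ∈ ξ ω, ((2 ^ k1 : ℝ≥0) : ℝ≥0∞) < tau ε c y ∧ tau ε c y < ∞ ∧
      alive (tau ε) (ξ ω \ {y}) y (tau ε c y)} ≤
      ENNReal.ofReal (C1 ε d * ∑' j, aa P ξ ε (k1 + j)) := by
  have hτ := measurable_tau_right ε c
  have hC1 := C1_nonneg (d := d) hε.le
  have hS : MeasurableSet {p : Met d × Measure (Met d) | (((2 ^ k1 : ℝ≥0) : ℝ≥0∞) < tau ε c p.1 ∧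
      tau ε c p.1 < ∞) ∧ ((p.2, p.1), tau ε c p.1) ∈ Al d ε} := by
    have hτ' : Measurable (fun p : Met d × Measure (Met d) => tau ε c p.1) :=
      hτ.comp measurable_fst
    have m1 : MeasurableSet {p : Met d × Measure (Met d) |
      ((2 ^ k1 : ℝ≥0) : ℝ≥0∞) < tau ε c p.1} := measurableSet_lt measurable_const hτ'
    have m2 : MeasurableSet {p : Met d × Measure (Met d) | tau ε c p.1 < ∞} :=
      measurableSet_lt hτ' measurable_const
    have hf : Measurable (fun p : Met d × Measure (Met d) => ((p.2, p.1), tau ε c p.1)) :=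
      (measurable_snd.prodMk measurable_fst).prodMk hτ'
    have m3 : MeasurableSet {p : Met d × Measure (Met d) |
      ((p.2, p.1), tau ε c p.1) ∈ Al d ε} := hf (measurableSet_Al ε)
    exact (m1.inter m2).inter m3
  have h1 := H.prob_exists_le hS
  have h2 : P {ω | ∃ y ∈ ξ ω, ((2 ^ k1 : ℝ≥0) : ℝ≥0∞) < tau ε c y ∧ tau ε c y < ∞ ∧
      alive (tau ε) (ξ ω \ {y}) y (tau ε c y)} ≤
      P {ω | ∃ y ∈ ξ ω, (y, cnt (ξ ω \ {y})) ∈ {p : Met d × Measure (Met d) |
      (((2 ^ k1 : ℝ≥0) : ℝ≥0∞) < tau ε c p.1 ∧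
      tau ε c p.1 < ∞) ∧ ((p.2, p.1), tau ε c p.1) ∈ Al d ε}} := by
    apply measure_mono_ae
    filter_upwards [H.ae_LF] with ω hω h
    obtain ⟨y, hy, h1, h2, h3⟩ := h
    exact ⟨y, hy, ⟨h1, h2⟩, (mem_Al (LF_cnt_subset Set.sdiff_subset hω)).mpr h3⟩
  refine h2.trans (h1.trans ?_)
  obtain ⟨A, hA⟩ : ∃ A : ℕ → Set (Met d), A = fun j : ℕ =>
    {y | ((2 ^ (k1 + j) : ℝ≥0) : ℝ≥0∞) < tau ε c y ∧
      tau ε c y ≤ ((2 ^ (k1 + j + 1) : ℝ≥0) : ℝ≥0∞)} := ⟨_, rfl⟩
  have hAm : ∀ j, MeasurableSet (A j) := by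
    intro j; rw [hA]; exact measurableSet_tau_Ioc _ _ _ _
  have hAb : ∀ j, intensity d (A j) ≤ ENNReal.ofReal (C1 ε d * 2 ^ (k1 + j)) := by
    intro j
    rw [hA]
    have hle : (2 : ℝ≥0) ^ (k1 + j) ≤ 2 ^ (k1 + j + 1) :=
      pow_le_pow_right₀ (by norm_num) (by omega)
    refine (contact_bound hε c hle).trans ?_
    apply ENNReal.ofReal_le_ofReal
    push_cast
    rw [pow_succ]
    apply le_of_eq; ring
  have hpt : ∀ y, P {ω | (y, cnt (ξ ω)) ∈ {p : Met d × Measure (Met d) |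
      (((2 ^ k1 : ℝ≥0) : ℝ≥0∞) < tau ε c p.1 ∧
      tau ε c p.1 < ∞) ∧ ((p.2, p.1), tau ε c p.1) ∈ Al d ε}} ≤
      ∑' j : ℕ, (A j).indicator (fun _ => ENNReal.ofReal (rho P ξ ε (2 ^ (k1 + j)))) y := by
    intro y
    by_cases hy : ((2 ^ k1 : ℝ≥0) : ℝ≥0∞) < tau ε c y ∧ tau ε c y < ∞
    · obtain ⟨s, hs⟩ : ∃ s : ℝ≥0, tau ε c y = s :=
        ⟨(tau ε c y).toNNReal, (ENNReal.coe_toNNReal hy.2.ne).symm⟩
      have hy1 : (2 : ℝ≥0) ^ k1 < s := by
        have := hy.1; rw [hs] at this; exact ENNReal.coe_lt_coe.mp this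
      obtain ⟨j, hj1, hj2⟩ : ∃ j : ℕ, (2 : ℝ≥0) ^ (k1 + j) < s ∧ s ≤ 2 ^ (k1 + j + 1) := by
        have hex : ∃ n : ℕ, s ≤ (2 : ℝ≥0) ^ n := by
          obtain ⟨n, hn⟩ := pow_unbounded_of_one_lt s (by norm_num : (1 : ℝ≥0) < 2)
          exact ⟨n, hn.le⟩
        classical
        obtain ⟨n, hn⟩ : ∃ n, n = Nat.find hex := ⟨_, rfl⟩
        have hn1 : s ≤ (2 : ℝ≥0) ^ n := by rw [hn]; exact Nat.find_spec hex
        have hn3 : k1 < n := by
          by_contra hle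
          push Not at hle
          have : (2 : ℝ≥0) ^ n ≤ 2 ^ k1 := pow_le_pow_right₀ (by norm_num) hle
          exact absurd hy1 (not_lt.mpr (hn1.trans this))
        have hn4 : ¬ s ≤ (2 : ℝ≥0) ^ (n - 1) := Nat.find_min hex (by omega)
        push Not at hn4
        refine ⟨n - 1 - k1, ?_, ?_⟩
        · rwa [show k1 + (n - 1 - k1) = n - 1 by omega]
        · rwa [show k1 + (n - 1 - k1) + 1 = n by omega]
      have hyA : y ∈ A j := by
        rw [hA]
        simp only [mem_ofPred_eq, hs]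
        exact ⟨ENNReal.coe_lt_coe.mpr hj1, ENNReal.coe_le_coe.mpr hj2⟩
      refine le_trans ?_ (ENNReal.le_tsum j)
      rw [Set.indicator_of_mem hyA, ← prob_alive H y]
      apply measure_mono_ae
      filter_upwards [H.ae_LF] with ω hω h
      obtain ⟨_, h3⟩ := h
      have h3' : ((cnt (ξ ω), y), tau ε c y) ∈ Al d ε := h3
      show ((cnt (ξ ω), y), ((2 ^ (k1 + j) : ℝ≥0) : ℝ≥0∞)) ∈ Al d ε
      rw [mem_Al hω] at h3' ⊢
      rw [hs] at h3'
      exact alive_anti (ENNReal.coe_le_coe.mpr hj1.le) h3'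
    · have : {ω | (y, cnt (ξ ω)) ∈ {p : Met d × Measure (Met d) |
          (((2 ^ k1 : ℝ≥0) : ℝ≥0∞) < tau ε c p.1 ∧
          tau ε c p.1 < ∞) ∧ ((p.2, p.1), tau ε c p.1) ∈ Al d ε}} = ∅ := by
        ext ω
        simp only [mem_empty_iff_false, iff_false]
        rintro ⟨h, _⟩
        exact hy h
      rw [this, measure_empty]
      exact zero_le
  refine (lintegral_mono hpt).trans ?_
  rw [lintegral_tsum (fun j => (measurable_const.indicator (hAm j)).aemeasurable)]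
  have hs' : Summable (fun j => aa P ξ ε (k1 + j)) := by
    have := (summable_nat_add_iff k1).mpr hsum
    simpa [add_comm] using this
  rw [← tsum_mul_left, ENNReal.ofReal_tsum_of_nonneg
    (fun j => mul_nonneg hC1 (aa_nonneg _)) (hs'.mul_left _)]
  apply ENNReal.tsum_le_tsum
  intro j
  rw [lintegral_indicator (hAm j), lintegral_const, Measure.restrict_apply_univ]
  calc ENNReal.ofReal (rho P ξ ε (2 ^ (k1 + j))) * intensity d (A j)
      ≤ ENNReal.ofReal (rho P ξ ε (2 ^ (k1 + j))) * ENNReal.ofReal (C1 ε d * 2 ^ (k1 + j)) := by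
        gcongr; exact hAb j
    _ = ENNReal.ofReal (C1 ε d * aa P ξ ε (k1 + j)) := by
        rw [← ENNReal.ofReal_mul (rho_nonneg _)]
        congr 1
        unfold aa
        ring

/-- Expected number of isolated points in a window. -/
theorem expect_iso (hε : 0 < ε) (a : ℝ) :
    ∫⁻ ω, cnt (ξ ω) {y | y ∈ Bw d a ∧ ∀ z ∈ ξ ω, z ≠ y → 0 < tau ε y z} ∂P ≤
      intensity d (Bw d a) * ENNReal.ofReal (Real.exp (-V0 ε d)) := by
  have hBm : MeasurableSet (Bw d a) := by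
    unfold Bw
    apply measurableSet_le _ measurable_const
    fun_prop
  have hz : ∀ y : Met d, MeasurableSet {z | tau ε y z = 0} := by
    intro y
    exact measurableSet_eq_fun (measurable_tau_right ε y) measurable_const
  have hS : MeasurableSet {p : Met d × Measure (Met d) | p.1 ∈ Bw d a ∧
      goodK (Kd d) H.meas p.2 {z | tau ε p.1 z = 0} = 0} := by
    have m1 : MeasurableSet {p : Met d × Measure (Met d) | p.1 ∈ Bw d a} := measurable_fst hBm
    have hT : MeasurableSet {q : (Met d × Measure (Met d)) × Met d | tau ε q.1.1 q.2 = 0} := by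
      have h : Measurable (fun q : (Met d × Measure (Met d)) × Met d => (q.1.1, q.2)) := by
        fun_prop
      have h' : Measurable ((fun p : Met d × Met d => tau ε p.1 p.2) ∘
        (fun q : (Met d × Measure (Met d)) × Met d => (q.1.1, q.2))) := (measurable_tau ε).comp h
      exact h' (measurableSet_singleton 0)
    have h2 := measurable_goodK_left H.meas H.cov (g := fun p : Met d × Measure (Met d) => p.2)
        measurable_snd hT
    have m2 : MeasurableSet {p : Met d × Measure (Met d) |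
      goodK (Kd d) H.meas p.2 {z | tau ε p.1 z = 0} = 0} := h2 (measurableSet_singleton 0)
    exact m1.inter m2
  have h1 := H.expect_count hS
  have h2 : ∫⁻ ω, cnt (ξ ω) {y | y ∈ Bw d a ∧ ∀ z ∈ ξ ω, z ≠ y → 0 < tau ε y z} ∂P =
      ∫⁻ ω, cnt (ξ ω) {y | (y, cnt (ξ ω \ {y})) ∈ {p : Met d × Measure (Met d) | p.1 ∈ Bw d a ∧
      goodK (Kd d) H.meas p.2 {z | tau ε p.1 z = 0} = 0}} ∂P := by
    apply lintegral_congr_ae
    filter_upwards [H.ae_LF] with ω hω
    congr 1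
    ext y
    show (y ∈ Bw d a ∧ ∀ z ∈ ξ ω, z ≠ y → 0 < tau ε y z) ↔
      (y ∈ Bw d a ∧ goodK (Kd d) H.meas (cnt (ξ ω \ {y})) {z | tau ε y z = 0} = 0)
    rw [goodK_apply H.meas (LF_cnt_subset Set.sdiff_subset hω), cnt_eq_zero_iff _ (hz y)]
    constructor
    · rintro ⟨h3, h4⟩
      exact ⟨h3, fun z hz hz0 => (h4 z hz.1 hz.2).ne' hz0⟩
    · rintro ⟨h3, h4⟩
      exact ⟨h3, fun z hz hne => pos_iff_ne_zero.mpr (fun h0 => h4 z ⟨hz, hne⟩ h0)⟩
  rw [h2, h1]
  calc ∫⁻ y, P {ω | (y, cnt (ξ ω)) ∈ {p : Met d × Measure (Met d) | p.1 ∈ Bw d a ∧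
        goodK (Kd d) H.meas p.2 {z | tau ε p.1 z = 0} = 0}} ∂(intensity d)
      ≤ ∫⁻ y, (Bw d a).indicator (fun _ => ENNReal.ofReal (Real.exp (-V0 ε d))) y
        ∂(intensity d) := by
        apply lintegral_mono
        intro y
        beta_reduce
        by_cases hy : y ∈ Bw d a
        · rw [Set.indicator_of_mem hy]
          have h3 := H.poisson.prob_zero (hz y) (by
            rw [contact_zero hε y]; exact ENNReal.ofReal_ne_top)
          rw [contact_zero hε y, show (2 * ε) ^ d * om d = V0 ε d from rfl,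
            ENNReal.toReal_ofReal (V0_pos (d := d) hε).le] at h3
          rw [← h3]
          apply measure_mono_ae
          filter_upwards [H.ae_LF] with ω hω h
          obtain ⟨_, h4⟩ := h
          have h4' : goodK (Kd d) H.meas (cnt (ξ ω)) {z | tau ε y z = 0} = 0 := h4
          rw [goodK_apply H.meas hω, cnt_apply _ (hz y)] at h4'
          show (ξ ω ∩ {z | tau ε y z = 0}).encard = 0
          simpa using h4'
        · rw [Set.indicator_of_notMem hy]
          have : {ω | (y, cnt (ξ ω)) ∈ {p : Met d × Measure (Met d) | p.1 ∈ Bw d a ∧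
              goodK (Kd d) H.meas p.2 {z | tau ε p.1 z = 0} = 0}} = ∅ := by
            ext ω
            simp only [mem_empty_iff_false, iff_false]
            rintro ⟨h, _⟩
            exact hy h
          rw [this, measure_empty]
    _ = _ := by
        rw [lintegral_indicator hBm, lintegral_const, Measure.restrict_apply_univ, mul_comm]

/-- The volume of the shell. -/
theorem intensity_shell_le {r q : ℝ} (hr : 0 ≤ r) (hq : 0 ≤ q) {A : Set (Met d)}
    (hA : ∀ x ∈ A, r < ‖x.1‖ ∧ ‖x.1‖ ≤ r + q) :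
    intensity d A ≤ ENNReal.ofReal (om d * ((r + q) ^ d - r ^ d)) := by
  have h1 : A ⊆ (Metric.closedBall (0 : Sp d) (r + q) \ Metric.closedBall 0 r) ×ˢ
      (univ : Set (Dir d)) := by
    intro x hx
    obtain ⟨h1, h2⟩ := hA x hx
    refine ⟨⟨?_, ?_⟩, mem_univ _⟩
    · simpa using h2
    · simpa using h1
  refine (measure_mono h1).trans ?_
  rw [intensity_ball_prod, measure_sdiff _
    Metric.isClosed_closedBall.measurableSet.nullMeasurableSet measure_closedBall_lt_top.ne,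
    vol_closedBall _ (by positivity), vol_closedBall _ hr, ← ENNReal.ofReal_sub]
  · apply ENNReal.ofReal_le_ofReal
    apply le_of_eq; ring
  · have := om_pos (d := d)
    positivity
  · apply Metric.closedBall_subset_closedBall; linarith

theorem main_ineq (hε : 0 < ε) (hd : 2 ≤ d) (hsum : Summable (aa P ξ ε)) {s : ℝ}
    (hs : 2 * ε ≤ s) {k1 : ℕ} {η : ℝ} (hη : C1 ε d * ∑' j, aa P ξ ε (k1 + j) ≤ η) {r : ℝ}
    (hr : 0 < r) {m : ℕ} (hm : ((m : ℝ) - 1) * s ^ d < r ^ d) :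
    (m : ℝ) ≤ om d * Real.exp (-V0 ε d) * (r + (1 + 2 * 2 ^ k1 + 4 * ε)) ^ d +
      3 * (om d * ((r + (1 + 2 * 2 ^ k1 + 4 * ε)) ^ d - r ^ d)) + 2 * (m * η) := by
  obtain ⟨q, δ, hδ, hδ1, hqr, hcell⟩ := exists_cells hd hε hs hr hm
  have hω := om_pos (d := d)
  have hη0 : 0 ≤ η := le_trans (mul_nonneg (C1_nonneg hε.le)
    (tsum_nonneg (fun j => aa_nonneg _))) hη
  obtain ⟨a, ha⟩ : ∃ a : ℝ, a = r + 1 + 2 * ε := ⟨_, rfl⟩
  have hBm : MeasurableSet (Bw d a) := by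
    unfold Bw
    apply measurableSet_le _ measurable_const
    fun_prop
  have hBfin : intensity d (Bw d a) < ∞ := intensity_bounded_lt_top (R := a) (fun x hx => hx)
  -- the cells
  have hCm : ∀ i, MeasurableSet (Metric.ball (q i) δ) := fun i => Metric.isOpen_ball.measurableSet
  have hCd : ∀ i j, i ≠ j → Disjoint (Metric.ball (q i) δ) (Metric.ball (q j) δ) := by
    intro i j hij
    rw [Set.disjoint_left]
    intro c hc hc'
    have h1 := hcell i j hij c hc c hc'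
    rw [tau_self hε.le] at h1
    exact absurd h1 (by simp)
  have hCr : ∀ i, ∀ c ∈ Metric.ball (q i) δ, ‖c.1‖ ≤ r + 1 := by
    intro i c hc
    have h1 : dist c.1 (q i).1 ≤ dist c (q i) := le_max_left _ _
    have h2 : dist c (q i) < δ := hc
    rw [dist_eq_norm] at h1
    have h3 : ‖c.1‖ ≤ ‖(q i).1‖ + ‖c.1 - (q i).1‖ := by
      have := norm_add_le (q i).1 (c.1 - (q i).1)
      simpa using this
    linarith [hqr i]
  have hCB : ∀ i, Metric.ball (q i) δ ⊆ Bw d a := by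
    intro i c hc
    show ‖c.1‖ ≤ a
    rw [ha]
    linarith [hCr i c hc]
  have hpos := prob_config_pos H hCm hCd (fun i => intensity_ball_pos (q i) hδ) hBm hBfin hCB
  -- good pairs
  have H' := H.resample hBm
  have hrho0 : Tendsto (fun k : ℕ => rho (P.prod P) (resamp ξ (Bw d a)) ε (k : ℝ≥0)) atTop
      (𝓝 0) := by
    have h1 : Tendsto (aa P ξ ε) atTop (𝓝 0) := hsum.tendsto_atTop_zero
    have h2 : Tendsto (fun k : ℕ => rho P ξ ε (k : ℝ≥0)) atTop (𝓝 0) := by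
      rw [Metric.tendsto_atTop] at h1 ⊢
      intro e he
      obtain ⟨N, hN⟩ := h1 e he
      refine ⟨2 ^ N, fun n hn => ?_⟩
      have h3 := hN N le_rfl
      rw [Real.dist_eq, sub_zero] at h3 ⊢
      rw [abs_of_nonneg (aa_nonneg _)] at h3
      rw [abs_of_nonneg (rho_nonneg _)]
      have h4 : rho P ξ ε (n : ℝ≥0) ≤ rho P ξ ε (2 ^ N) := rho_anti H (by exact_mod_cast hn)
      have h5 : rho P ξ ε (2 ^ N) ≤ aa P ξ ε N := by
        unfold aa
        have h6 : (1 : ℝ) ≤ 2 ^ N := one_le_pow₀ (by norm_num)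
        have h7 := rho_nonneg (P := P) (ξ := ξ) (ε := ε) (2 ^ N)
        nlinarith
      linarith
    refine h2.congr (fun k => ?_)
    rw [rho_resamp H hBm]
  have G1 : ∀ᵐ p ∂(P.prod P), cnt (ξ p.1) ∈ LF (Kd d) ∧
      (∀ y ∈ ξ p.1, CF (tau ε) (ξ p.1 \ {y}) y) ∧
      (∀ x ∈ ξ p.1, ∀ y ∈ ξ p.1, ∀ z ∈ ξ p.1, y ≠ x → z ≠ x →
        z ≠ y → tau ε x y = tau ε x z → tau ε x y = 0 ∨ tau ε x y = ∞) := by
    have h1 : ∀ᵐ ω ∂P, cnt (ξ ω) ∈ LF (Kd d) ∧
      (∀ y ∈ ξ ω, CF (tau ε) (ξ ω \ {y}) y) ∧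
      (∀ x ∈ ξ ω, ∀ y ∈ ξ ω, ∀ z ∈ ξ ω, y ≠ x → z ≠ x →
        z ≠ y → tau ε x y = tau ε x z → tau ε x y = 0 ∨ tau ε x y = ∞) := by
      filter_upwards [H.ae_LF, ae_CF_mem hε H, ae_noTie H hε] with ω h1 h2 h3
      exact ⟨h1, h2, h3⟩
    exact Measure.quasiMeasurePreserving_fst.ae h1
  have G2 := H'.ae_LF
  have G3 := ae_CF_mem hε H'
  have G4 := ae_noTie H' hε
  have G5 := ae_all_die H' hrho0
  have G6 := G1.and (G2.and (G3.and (G4.and G5)))
  have G7 := (Measure.measurePreserving_swap (μ := P) (ν := P)).quasiMeasurePreserving.ae G6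
  have G8 := Measure.ae_ae_of_ae_prod G7
  obtain ⟨ω', hω', hgood⟩ := Measure.exists_mem_of_measure_ne_zero_of_ae hpos.ne'
    (ae_restrict_of_ae G8)
  -- the points in the window
  obtain ⟨hω1, hω2⟩ := hω'
  have hc : ∀ i, ∃ c, ξ ω' ∩ Metric.ball (q i) δ = {c} := fun i => Set.encard_eq_one.mp (hω1 i)
  choose c hc using hc
  have hcm : ∀ i, c i ∈ ξ ω' ∧ c i ∈ Metric.ball (q i) δ := by
    intro i
    have : c i ∈ ξ ω' ∩ Metric.ball (q i) δ := by rw [hc i]; rfl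
    exact this
  have hinj : Function.Injective c := by
    intro i j hij
    by_contra hne
    exact Set.disjoint_left.mp (hCd i j hne) (hcm i).2 (hij ▸ (hcm j).2)
  have hwin : ξ ω' ∩ Bw d a = range c := by
    ext x
    constructor
    · rintro ⟨hx1, hx2⟩
      by_cases hx3 : x ∈ ⋃ i, Metric.ball (q i) δ
      · obtain ⟨i, hi⟩ := mem_iUnion.mp hx3
        have : x ∈ ξ ω' ∩ Metric.ball (q i) δ := ⟨hx1, hi⟩
        rw [hc i] at this
        exact ⟨i, this.symm⟩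
      · exfalso
        rw [Set.encard_eq_zero] at hω2
        have : x ∈ ξ ω' ∩ (Bw d a \ ⋃ i, Metric.ball (q i) δ) := ⟨hx1, hx2, hx3⟩
        rw [hω2] at this
        exact this
    · rintro ⟨i, rfl⟩
      exact ⟨(hcm i).1, hCB i (hcm i).2⟩
  -- the measurable majorants of the touch events
  obtain ⟨U, hU⟩ : ∃ U : Fin m → Set Ω, U = fun i => toMeasurable P {ω | ∃ y ∈ ξ ω,
      ((2 ^ k1 : ℝ≥0) : ℝ≥0∞) < tau ε (c i) y ∧ tau ε (c i) y < ∞ ∧
      alive (tau ε) (ξ ω \ {y}) y (tau ε (c i) y)} := ⟨_, rfl⟩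
  have hUm : ∀ i, MeasurableSet (U i) := fun i => by rw [hU]; exact measurableSet_toMeasurable _ _
  have hUp : ∀ i, P (U i) ≤ ENNReal.ofReal η := by
    intro i
    rw [hU]
    simp only [measure_toMeasurable]
    exact (prob_touch_le H hε hsum (c i) k1).trans (ENNReal.ofReal_le_ofReal hη)
  -- the shells
  obtain ⟨S1, hS1⟩ : ∃ S1 : Set (Met d), S1 = {y | r + 1 + 2 * ε < ‖y.1‖ ∧
    ‖y.1‖ ≤ r + 1 + 4 * ε} := ⟨_, rfl⟩
  obtain ⟨S2, hS2⟩ : ∃ S2 : Set (Met d), S2 = {y | r + 1 + 2 * ε < ‖y.1‖ ∧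
    ‖y.1‖ ≤ r + 1 + 2 * ((2 ^ k1 : ℝ≥0) : ℝ) + 2 * ε} := ⟨_, rfl⟩
  have hSm : ∀ u v : ℝ, MeasurableSet {y : Met d | u < ‖y.1‖ ∧ ‖y.1‖ ≤ v} := by
    intro u v
    have h1 : Measurable (fun y : Met d => ‖y.1‖) := by fun_prop
    have m1 : MeasurableSet {y : Met d | u < ‖y.1‖} := measurableSet_lt measurable_const h1
    have m2 : MeasurableSet {y : Met d | ‖y.1‖ ≤ v} := measurableSet_le h1 measurable_const
    exact m1.inter m2
  have hS1m : MeasurableSet S1 := by rw [hS1]; exact hSm _ _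
  have hS2m : MeasurableSet S2 := by rw [hS2]; exact hSm _ _
  have hk1 : (0 : ℝ) < 2 ^ k1 := by positivity
  have hSh1 : intensity d S1 ≤ ENNReal.ofReal (om d * ((r + (1 + 2 * 2 ^ k1 + 4 * ε)) ^ d -
      r ^ d)) := by
    apply intensity_shell_le H hr.le (by positivity)
    rw [hS1]
    rintro x ⟨h1, h2⟩
    constructor <;> linarith
  have hSh2 : intensity d S2 ≤ ENNReal.ofReal (om d * ((r + (1 + 2 * 2 ^ k1 + 4 * ε)) ^ d -
      r ^ d)) := by
    apply intensity_shell_le H hr.le (by positivity)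
    rw [hS2]
    rintro x ⟨h1, h2⟩
    push_cast at h2
    constructor <;> linarith
  -- pathwise inequality
  have hnot : ∀ᵐ ω ∂P, ∀ i, c i ∉ ξ ω := by
    rw [ae_all_iff]
    intro i
    exact H.ae_not_mem (c i)
  have hpath : ∀ᵐ ω ∂P, (m : ℝ≥0∞) ≤
      cnt (ξ ω) {y | y ∈ Bw d a ∧ ∀ z ∈ ξ ω, z ≠ y → 0 < tau ε y z} +
      (cnt (ξ ω) S1 + (2 * cnt (ξ ω) S2 + 2 * ∑ i, (U i).indicator 1 ω)) := by
    filter_upwards [hgood, hnot] with ω hg hnω
    obtain ⟨⟨g1, g2, g3⟩, g4, g5, g6, g7⟩ := hg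
    simp only [Prod.swap_prod_mk, Prod.fst_swap, Prod.snd_swap] at g1 g2 g3 g4 g5 g6 g7
    have e1 : resamp ξ (Bw d a) (ω, ω') ∩ Bw d a = range c := by
      rw [← hwin]
      ext x
      simp only [resamp, mem_inter_iff, mem_union, Set.mem_sdiff]
      tauto
    have e2 : resamp ξ (Bw d a) (ω, ω') \ Bw d a = ξ ω \ Bw d a := by
      ext x
      simp only [resamp, mem_inter_iff, mem_union, Set.mem_sdiff]
      tauto
    have hcin : ∀ i, c i ∈ resamp ξ (Bw d a) (ω, ω') := by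
      intro i
      have : c i ∈ resamp ξ (Bw d a) (ω, ω') ∩ Bw d a := by rw [e1]; exact mem_range_self i
      exact this.1
    rw [ha] at e1 e2
    have hdc := det_count hε g1 (by rw [ha] at g4; exact g4) g2 (by rw [ha] at g5; exact g5) g3
      (by rw [ha] at g6; exact g6) hr.le (2 ^ k1) c hinj (fun i => hCr i _ (hcm i).2)
      (fun i j hij => hcell i j hij _ (hcm i).2 _ (hcm j).2) e1 e2 hnω (fun i => by
        have := g7 (c i) (hcin i)
        rw [ha] at this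
        exact this)
    have hfinS : ∀ (b : ℝ) (S : Set (Met d)), (∀ y ∈ S, ‖y.1‖ ≤ b) → (ξ ω ∩ S).Finite := by
      intro b S hS
      exact (finite_inBall g1 b).subset (fun y hy => ⟨hy.1, hS y hy.2⟩)
    have hdc' : (m : ℝ≥0∞) ≤ ((ξ ω ∩ {y | y ∈ Bw d a ∧ ∀ z ∈ ξ ω, z ≠ y →
        0 < tau ε y z}).ncard : ℝ≥0∞) + ((ξ ω ∩ S1).ncard : ℝ≥0∞) +
        2 * (((ξ ω ∩ S2).ncard : ℝ≥0∞) + (({i : Fin m | ∃ y ∈ ξ ω,
          ((2 ^ k1 : ℝ≥0) : ℝ≥0∞) < tau ε (c i) y ∧ tau ε (c i) y < ∞ ∧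
          alive (tau ε) (ξ ω \ {y}) y (tau ε (c i) y)}).ncard : ℝ≥0∞)) := by
      rw [hS1, hS2, ha]
      exact_mod_cast hdc
    refine hdc'.trans ?_
    have n1 : ((ξ ω ∩ {y | y ∈ Bw d a ∧ ∀ z ∈ ξ ω, z ≠ y → 0 < tau ε y z}).ncard : ℝ≥0∞) ≤
        cnt (ξ ω) {y | y ∈ Bw d a ∧ ∀ z ∈ ξ ω, z ≠ y → 0 < tau ε y z} := by
      have hf := hfinS a {y | y ∈ Bw d a ∧ ∀ z ∈ ξ ω, z ≠ y → 0 < tau ε y z}
        (fun y hy => hy.1)
      have hmS : MeasurableSet (ξ ω ∩ {y | y ∈ Bw d a ∧ ∀ z ∈ ξ ω, z ≠ y → 0 < tau ε y z}) :=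
        hf.measurableSet
      calc ((ξ ω ∩ {y | y ∈ Bw d a ∧ ∀ z ∈ ξ ω, z ≠ y → 0 < tau ε y z}).ncard : ℝ≥0∞)
          = cnt (ξ ω) (ξ ω ∩ {y | y ∈ Bw d a ∧ ∀ z ∈ ξ ω, z ≠ y → 0 < tau ε y z}) := by
            rw [cnt_apply _ hmS, ← Set.inter_assoc, Set.inter_self, ← hf.cast_ncard_eq]
            simp
        _ ≤ _ := measure_mono Set.inter_subset_right
    have n2 : ∀ S : Set (Met d), MeasurableSet S → (ξ ω ∩ S).Finite →
        ((ξ ω ∩ S).ncard : ℝ≥0∞) = cnt (ξ ω) S := by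
      intro S hS hf
      rw [cnt_apply _ hS, ← hf.cast_ncard_eq]
      simp
    have n3 : (({i : Fin m | ∃ y ∈ ξ ω,
          ((2 ^ k1 : ℝ≥0) : ℝ≥0∞) < tau ε (c i) y ∧ tau ε (c i) y < ∞ ∧
          alive (tau ε) (ξ ω \ {y}) y (tau ε (c i) y)}).ncard : ℝ≥0∞) ≤
        ∑ i, (U i).indicator 1 ω := by
      apply ncard_le_sum_indicator
      intro i hi
      rw [hU]
      exact subset_toMeasurable P _ hi
    rw [n2 S1 hS1m (hfinS _ S1 (fun y hy => by rw [hS1] at hy; exact hy.2)),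
      n2 S2 hS2m (hfinS _ S2 (fun y hy => by rw [hS2] at hy; exact hy.2)), mul_add, add_assoc]
    gcongr
  -- integrate
  have hint := lintegral_mono_ae hpath
  rw [lintegral_const, measure_univ, mul_one] at hint
  have hmN : ∀ S : Set (Met d), MeasurableSet S → Measurable (fun ω => cnt (ξ ω) S) :=
    fun S hS => (Measure.measurable_coe hS).comp H.measurable_N
  have hmU : Measurable (fun ω => ∑ i, (U i).indicator (1 : Ω → ℝ≥0∞) ω) :=
    Finset.measurable_fun_sum _ (fun i _ => measurable_one.indicator (hUm i))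
  have hmg : Measurable (fun ω => cnt (ξ ω) S1 + (2 * cnt (ξ ω) S2 +
      2 * ∑ i, (U i).indicator (1 : Ω → ℝ≥0∞) ω)) :=
    (hmN S1 hS1m).add (((hmN S2 hS2m).const_mul 2).add (hmU.const_mul 2))
  rw [lintegral_add_right _ hmg, lintegral_add_left (hmN S1 hS1m), lintegral_add_left
    ((hmN S2 hS2m).const_mul 2), lintegral_const_mul _ (hmN S2 hS2m),
    lintegral_const_mul _ hmU, lintegral_finsetSum _
    (fun i _ => measurable_one.indicator (hUm i))] at hint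
  simp only [lintegral_indicator_one (hUm _)] at hint
  have hfin1 : intensity d S1 ≠ ∞ := (lt_of_le_of_lt hSh1 ENNReal.ofReal_lt_top).ne
  have hfin2 : intensity d S2 ≠ ∞ := (lt_of_le_of_lt hSh2 ENNReal.ofReal_lt_top).ne
  rw [H.poisson.lintegral_cnt hS1m hfin1, H.poisson.lintegral_cnt hS2m hfin2] at hint
  have hball : intensity d (Bw d a) ≤ ENNReal.ofReal (om d *
      (r + (1 + 2 * 2 ^ k1 + 4 * ε)) ^ d) := by
    have h1 : Bw d a = Metric.closedBall (0 : Sp d) a ×ˢ (univ : Set (Dir d)) := by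
      ext x
      simp [Bw]
    have ha0 : 0 ≤ a := by rw [ha]; positivity
    rw [h1, intensity_ball_prod, vol_closedBall _ ha0]
    apply ENNReal.ofReal_le_ofReal
    rw [mul_comm]
    gcongr
    rw [ha]; linarith
  have hgr : r ^ d ≤ (r + (1 + 2 * 2 ^ k1 + 4 * ε)) ^ d := by
    gcongr
    have : 0 ≤ 1 + 2 * 2 ^ k1 + 4 * ε := by positivity
    linarith
  have hsh0 : 0 ≤ om d * ((r + (1 + 2 * 2 ^ k1 + 4 * ε)) ^ d - r ^ d) :=
    mul_nonneg hω.le (by linarith)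
  have hfinal : (m : ℝ≥0∞) ≤ ENNReal.ofReal (om d * Real.exp (-V0 ε d) *
      (r + (1 + 2 * 2 ^ k1 + 4 * ε)) ^ d +
      3 * (om d * ((r + (1 + 2 * 2 ^ k1 + 4 * ε)) ^ d - r ^ d)) + 2 * (m * η)) := by
    refine hint.trans ?_
    calc _ ≤ ENNReal.ofReal (om d * (r + (1 + 2 * 2 ^ k1 + 4 * ε)) ^ d) *
          ENNReal.ofReal (Real.exp (-V0 ε d)) +
          (ENNReal.ofReal (om d * ((r + (1 + 2 * 2 ^ k1 + 4 * ε)) ^ d - r ^ d)) +
          (2 * ENNReal.ofReal (om d * ((r + (1 + 2 * 2 ^ k1 + 4 * ε)) ^ d - r ^ d)) +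
          2 * ∑ _i : Fin m, ENNReal.ofReal η)) := by
          refine add_le_add ((expect_iso H hε a).trans ?_) (add_le_add hSh1 (add_le_add ?_ ?_))
          · gcongr
          · gcongr
          · gcongr with i _
            exact hUp i
      _ = _ := by
          rw [Finset.sum_const, Finset.card_univ, Fintype.card_fin, nsmul_eq_mul]
          have h2 : (2 : ℝ≥0∞) = ENNReal.ofReal 2 := by simp
          have h3 : (m : ℝ≥0∞) = ENNReal.ofReal (m : ℝ) := by simp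
          rw [h2, h3, ← ENNReal.ofReal_mul (by positivity), ← ENNReal.ofReal_mul (by positivity),
            ← ENNReal.ofReal_mul (by positivity), ← ENNReal.ofReal_mul (by positivity),
            ← ENNReal.ofReal_add (by positivity) (by positivity),
            ← ENNReal.ofReal_add (by positivity) (by positivity),
            ← ENNReal.ofReal_add (by positivity) (by positivity)]
          congr 1
          ring
  have h3 : (m : ℝ≥0∞) = ENNReal.ofReal (m : ℝ) := by simp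
  rw [h3] at hfinal
  rwa [ENNReal.ofReal_le_ofReal_iff (by positivity)] at hfinal

/-- The dyadic densities are not summable. -/
theorem not_summable_aa (hε : 0 < ε) (hd : 2 ≤ d) : ¬ Summable (aa P ξ ε) := by
  intro hsum
  have hω := om_pos (d := d)
  have hV := V0_pos (d := d) hε
  have hC1 := C1_nonneg (d := d) hε.le
  -- choice of k1
  obtain ⟨k1, hk1⟩ : ∃ k1, C1 ε d * ∑' j, aa P ξ ε (k1 + j) ≤ 1 / 8 := by
    have h1 := (tendsto_sum_nat_add (aa P ξ ε)).const_mul (C1 ε d)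
    rw [mul_zero] at h1
    obtain ⟨k1, hk1⟩ := ((tendsto_order.mp h1).2 (1 / 8) (by norm_num)).exists
    refine ⟨k1, ?_⟩
    have h2 : ∑' j, aa P ξ ε (k1 + j) = ∑' k, aa P ξ ε (k + k1) := by
      congr 1; ext j; rw [add_comm]
    rw [h2]
    exact hk1.le
  obtain ⟨q, hq⟩ : ∃ q : ℝ, q = 1 + 2 * 2 ^ k1 + 4 * ε := ⟨_, rfl⟩
  have hq0 : 0 < q := by rw [hq]; positivity
  have hVe : V0 ε d * Real.exp (-V0 ε d) ≤ 1 / 2 := by
    have h1 := Real.quadratic_le_exp_of_nonneg hV.le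
    rw [Real.exp_neg, ← div_eq_mul_inv, div_le_iff₀ (Real.exp_pos _)]
    nlinarith [sq_nonneg (1 - V0 ε d)]
  have hineq : ∀ n : ℕ, (3 / 4 : ℝ) ≤ V0 ε d * Real.exp (-V0 ε d) * (1 + q * (1 / ((n : ℝ) + 1))) ^ d
      + 3 * V0 ε d * ((1 + q * (1 / ((n : ℝ) + 1))) ^ d - 1) := by
    intro n
    obtain ⟨r, hr⟩ : ∃ r : ℝ, r = (n : ℝ) + 1 := ⟨_, rfl⟩
    have hr0 : 0 < r := by rw [hr]; positivity
    rw [← hr]
    obtain ⟨m, hm⟩ : ∃ m : ℕ, m = ⌈(r / (2 * ε)) ^ d⌉₊ := ⟨_, rfl⟩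
    have hm1 : (r / (2 * ε)) ^ d ≤ m := by rw [hm]; exact Nat.le_ceil _
    have hm2 : (m : ℝ) < (r / (2 * ε)) ^ d + 1 := by
      rw [hm]; exact Nat.ceil_lt_add_one (by positivity)
    have he2 : 0 < (2 * ε) ^ d := by positivity
    have hm3 : ((m : ℝ) - 1) * (2 * ε) ^ d < r ^ d := by
      have h1 : (m : ℝ) - 1 < r ^ d / (2 * ε) ^ d := by rw [← div_pow]; linarith
      rwa [lt_div_iff₀ he2] at h1
    have h1 := main_ineq H hε hd hsum le_rfl hk1 hr0 hm3
    rw [← hq] at h1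
    have h2 : 3 / 4 * (r ^ d / (2 * ε) ^ d) ≤ om d * Real.exp (-V0 ε d) * (r + q) ^ d +
        3 * (om d * ((r + q) ^ d - r ^ d)) := by
      rw [← div_pow]; linarith
    have hrd : 0 < r ^ d := by positivity
    have h3 : (1 + q * (1 / r)) ^ d = (r + q) ^ d / r ^ d := by
      rw [← div_pow]; congr 1; field_simp
    rw [h3]
    have h4 : V0 ε d = (2 * ε) ^ d * om d := rfl
    have h5 := mul_le_mul_of_nonneg_left h2 (show 0 ≤ (2 * ε) ^ d / r ^ d by positivity)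
    have h6 : (2 * ε) ^ d / r ^ d * (3 / 4 * (r ^ d / (2 * ε) ^ d)) = 3 / 4 := by
      field_simp
    rw [h6] at h5
    refine h5.trans (le_of_eq ?_)
    obtain ⟨e, he⟩ : ∃ e, e = Real.exp (-V0 ε d) := ⟨_, rfl⟩
    rw [← he, h4]
    field_simp
  have hlim : Tendsto (fun n : ℕ => V0 ε d * Real.exp (-V0 ε d) *
      (1 + q * (1 / ((n : ℝ) + 1))) ^ d + 3 * V0 ε d * ((1 + q * (1 / ((n : ℝ) + 1))) ^ d - 1))
      atTop (𝓝 (V0 ε d * Real.exp (-V0 ε d) * (1 + q * 0) ^ d +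
        3 * V0 ε d * ((1 + q * 0) ^ d - 1))) := by
    have h1 : Tendsto (fun n : ℕ => (1 + q * (1 / ((n : ℝ) + 1))) ^ d) atTop
        (𝓝 ((1 + q * 0) ^ d)) :=
      (((tendsto_one_div_add_atTop_nhds_zero_nat (𝕜 := ℝ)).const_mul q).const_add 1).pow d
    exact (h1.const_mul _).add ((h1.sub_const 1).const_mul _)
  have h1 := ge_of_tendsto' hlim hineq
  simp at h1
  linarith

end prob

end Pool.Agent.Meteor
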