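import Mathlib
import Pool.Agent.Lib_helper16.Meteor.Seq

/-!
Deterministic sums used in the second moment argument.
-/

namespace Pool.Agent.Meteor

open Finset Filter Topology

/-- The weights. -/
noncomputable def Lm (a : ℕ → ℝ) (k : ℕ) : ℝ := a k / (a k + WW a k)

theorem Lm_nonneg {a : ℕ → ℝ} (ha : ∀ k, 0 ≤ a k) (k : ℕ) : 0 ≤ Lm a k := by
  unfold Lm
  have := ha k
  have := WW_nonneg a k
  positivity

theorem Lm_le_one {a : ℕ → ℝ} (ha : ∀ k, 0 ≤ a k) (k : ℕ) : Lm a k ≤ 1 := by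
  unfold Lm
  have h1 := ha k
  have h2 := WW_nonneg a k
  apply div_le_one_of_le₀ (by linarith) (by linarith)

theorem Lm_mul_self (a : ℕ → ℝ) (k : ℕ) : Lm a k * a k = ff a k := by
  unfold Lm ff
  ring

theorem Lm_sq_mul {a : ℕ → ℝ} (ha : ∀ k, 0 ≤ a k) {k : ℕ} (hk : 1 ≤ k) :
    Lm a k ^ 2 * (a k + WW a k) = ff a k := by
  unfold Lm ff
  have h1 := ha k
  have h2 := WW_pos a hk
  field_simp

theorem cross {a : ℕ → ℝ} (ha : ∀ k, 0 ≤ a k) {i j : ℕ} (hi : 1 ≤ i) (hij : i ≤ j)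
    {q : ℝ} (hq1 : 1 ≤ q) (hq : (j : ℝ) ≤ q * i) :
    Lm a j * a i ≤ ff a j + q ^ 2 * ff a i := by
  have h1 := ha i
  have h2 := ha j
  have h3 := WW_pos a hi
  have h4 := WW_pos a (hi.trans hij)
  have h5 := ff_nonneg ha i
  have h6 := ff_nonneg ha j
  rcases le_total (a i) (a j) with h | h
  · have h7 : Lm a j * a i ≤ Lm a j * a j :=
      mul_le_mul_of_nonneg_left h (Lm_nonneg ha j)
    rw [Lm_mul_self] at h7
    have : 0 ≤ q ^ 2 * ff a i := by positivity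
    linarith
  · -- `a j ≤ a i`
    have h7 : WW a i ≤ q ^ 2 * WW a j := by
      refine (WW_le_mul a hi hij).trans ?_
      have hi' : (0 : ℝ) < i := by exact_mod_cast hi
      have h8 : (j : ℝ) / i ≤ q := by rwa [div_le_iff₀ hi']
      have h9 : 0 ≤ (j : ℝ) / i := by positivity
      gcongr
    have h8 : Lm a j * a i ≤ q ^ 2 * ff a i := by
      unfold Lm ff
      rw [div_mul_eq_mul_div, mul_div_assoc', div_le_div_iff₀ (by positivity) (by positivity)]
      -- a j * a i * (a i + W i) ≤ q² a i² (a j + W j)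
      have h9 : a j * (a i + WW a i) ≤ q ^ 2 * a i * (a j + WW a j) := by
        have h10 : a j * a i ≤ q ^ 2 * (a i * a j) := by
          have : 1 ≤ q ^ 2 := by nlinarith
          have h11 : 0 ≤ a i * a j := by positivity
          nlinarith
        have h12 : a j * WW a i ≤ a i * (q ^ 2 * WW a j) := by
          calc a j * WW a i ≤ a i * WW a i := by gcongr
            _ ≤ a i * (q ^ 2 * WW a j) := by gcongr
        nlinarith
      calc a j * a i * (a i + WW a i) = a i * (a j * (a i + WW a i)) := by ring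
        _ ≤ a i * (q ^ 2 * a i * (a j + WW a j)) := by gcongr
        _ = _ := by ring
    linarith

theorem G_step {a : ℕ → ℝ} (ha : ∀ k, 0 ≤ a k) {C : ℝ} (hC : 0 ≤ C) {k0 : ℕ}
    (hI : ∀ k, k0 ≤ k → 3 / 2 * a k - C * WW a k ≤ a (k + 1)) {k : ℕ} (hk : k0 ≤ k)
    (hk1 : 1 ≤ k) : a k + WW a k ≤ (5 + 4 * C) * (a (k + 1) + WW a (k + 1)) := by
  have h1 := hI k hk
  have h2 : WW a k ≤ 4 * WW a (k + 1) := by
    refine (WW_le_mul a hk1 (Nat.le_succ k)).trans ?_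
    have hk' : (0 : ℝ) < k := by exact_mod_cast hk1
    have h3 : (((k + 1 : ℕ) : ℝ) / k) ^ 2 ≤ 4 := by
      have h4 : ((k + 1 : ℕ) : ℝ) / k ≤ 2 := by
        rw [div_le_iff₀ hk']
        push_cast
        have : (1 : ℝ) ≤ k := by exact_mod_cast hk1
        linarith
      have h5 : 0 ≤ ((k + 1 : ℕ) : ℝ) / k := by positivity
      nlinarith
    have := WW_nonneg a (k + 1)
    gcongr
  have h3 := ha k
  have h4 := ha (k + 1)
  have h5 := WW_nonneg a (k + 1)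
  have h6 := WW_nonneg a k
  -- a k ≤ a (k+1) + C W k
  have h7 : a k ≤ a (k + 1) + C * WW a k := by linarith
  have h8 : C * WW a k ≤ C * (4 * WW a (k + 1)) := by gcongr
  have h9 : 0 ≤ C * a (k + 1) := by positivity
  nlinarith

theorem near_weight {a : ℕ → ℝ} (ha : ∀ k, 0 ≤ a k) {C : ℝ} (hC : 0 ≤ C) {k0 : ℕ}
    (hI : ∀ k, k0 ≤ k → 3 / 2 * a k - C * WW a k ≤ a (k + 1)) {k j : ℕ} (hk : k0 + 2 ≤ k)
    (hj1 : k ≤ j) (hj2 : j ≤ k + 2) :
    a (k - 1) + WW a k ≤ 2 * (5 + 4 * C) ^ 3 * (a j + WW a j) := by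
  obtain ⟨D, hD⟩ : ∃ D, D = 5 + 4 * C := ⟨_, rfl⟩
  have hD1 : 1 ≤ D := by rw [hD]; linarith
  have hstep : ∀ i, k0 + 1 ≤ i → a i + WW a i ≤ D * (a (i + 1) + WW a (i + 1)) := by
    intro i hi
    rw [hD]
    exact G_step ha hC hI (by omega) (by omega)
  have hG : ∀ i, 0 ≤ a i + WW a i := fun i => add_nonneg (ha i) (WW_nonneg a i)
  rw [← hD]
  have s1 : a (k - 1) + WW a (k - 1) ≤ D * (a k + WW a k) := by
    have := hstep (k - 1) (by omega)
    rwa [show k - 1 + 1 = k by omega] at this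
  have s0 : a (k - 1) + WW a k ≤ 2 * D * (a k + WW a k) := by
    have h1 := WW_nonneg a (k - 1)
    have h2 := ha k
    have h3 := hG k
    nlinarith
  have s2 := hstep k (by omega)
  have s3 := hstep (k + 1) (by omega)
  have hDpos : 0 < D := by linarith
  rcases (show j = k ∨ j = k + 1 ∨ j = k + 2 by omega) with rfl | rfl | rfl
  · refine s0.trans ?_
    have h3 := hG j
    have : 2 * D ≤ 2 * D ^ 3 := by nlinarith [sq_nonneg (D - 1), sq_nonneg D]
    gcongr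
  · refine s0.trans ?_
    have h3 := hG (k + 1)
    calc 2 * D * (a k + WW a k) ≤ 2 * D * (D * (a (k + 1) + WW a (k + 1))) := by gcongr
      _ = 2 * D ^ 2 * (a (k + 1) + WW a (k + 1)) := by ring
      _ ≤ 2 * D ^ 3 * (a (k + 1) + WW a (k + 1)) := by
        have : 2 * D ^ 2 ≤ 2 * D ^ 3 := by nlinarith [sq_nonneg D]
        gcongr
  · refine s0.trans ?_
    calc 2 * D * (a k + WW a k) ≤ 2 * D * (D * (D * (a (k + 1 + 1) + WW a (k + 1 + 1)))) := by
          gcongr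
          exact s2.trans (by gcongr)
      _ = _ := by ring

/-- The sum over nearby pairs. -/
theorem near_sum {a : ℕ → ℝ} (ha : ∀ k, 0 ≤ a k) {C : ℝ} (hC : 0 ≤ C) {K0 : ℕ}
    (hI : ∀ k, K0 ≤ k → 3 / 2 * a k - C * WW a k ≤ a (k + 1)) {k0 k1 : ℕ} (hk0 : K0 + 2 ≤ k0) :
    ∑ k ∈ Ico k0 k1, ∑ l ∈ Ico k0 k1, Lm a (k + 1) * Lm a (l + 1) *
      (if k ≤ l + 1 ∧ l ≤ k + 1 then a (k - 1) + WW a k else 0) ≤
      6 * (5 + 4 * C) ^ 3 * ∑ k ∈ Ico k0 k1, ff a (k + 1) := by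
  obtain ⟨E, hE⟩ : ∃ E, E = (5 + 4 * C) ^ 3 := ⟨_, rfl⟩
  have hE0 : 0 ≤ E := by rw [hE]; positivity
  have h1 : ∀ k ∈ Ico k0 k1, ∀ l ∈ Ico k0 k1, Lm a (k + 1) * Lm a (l + 1) *
      (if k ≤ l + 1 ∧ l ≤ k + 1 then a (k - 1) + WW a k else 0) ≤
      E * ((if k ≤ l + 1 ∧ l ≤ k + 1 then ff a (k + 1) else 0) +
        (if k ≤ l + 1 ∧ l ≤ k + 1 then ff a (l + 1) else 0)) := by
    intro k hk l hl
    rw [mem_Ico] at hk hl
    by_cases hnear : k ≤ l + 1 ∧ l ≤ k + 1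
    · rw [if_pos hnear, if_pos hnear, if_pos hnear]
      have w1 := near_weight ha hC hI (k := k) (j := k + 1) (by omega) (by omega) (by omega)
      have w2 := near_weight ha hC hI (k := k) (j := l + 1) (by omega) (by omega) (by omega)
      rw [← hE] at w1 w2
      have h3 := Lm_sq_mul ha (k := k + 1) (by omega)
      have h4 := Lm_sq_mul ha (k := l + 1) (by omega)
      have h5 := Lm_nonneg ha (k + 1)
      have h6 := Lm_nonneg ha (l + 1)
      have h7 : 0 ≤ a (k - 1) + WW a k := add_nonneg (ha _) (WW_nonneg a _)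
      calc Lm a (k + 1) * Lm a (l + 1) * (a (k - 1) + WW a k)
          ≤ (Lm a (k + 1) ^ 2 + Lm a (l + 1) ^ 2) / 2 * (a (k - 1) + WW a k) := by
            gcongr
            nlinarith [sq_nonneg (Lm a (k + 1) - Lm a (l + 1))]
        _ = (Lm a (k + 1) ^ 2 * (a (k - 1) + WW a k) + Lm a (l + 1) ^ 2 *
            (a (k - 1) + WW a k)) / 2 := by ring
        _ ≤ (Lm a (k + 1) ^ 2 * (2 * E * (a (k + 1) + WW a (k + 1))) + Lm a (l + 1) ^ 2 *
            (2 * E * (a (l + 1) + WW a (l + 1)))) / 2 := by gcongr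
        _ = E * (Lm a (k + 1) ^ 2 * (a (k + 1) + WW a (k + 1)) + Lm a (l + 1) ^ 2 *
            (a (l + 1) + WW a (l + 1))) := by ring
        _ = _ := by rw [h3, h4]
    · rw [if_neg hnear, if_neg hnear, if_neg hnear]
      simp
  have h2 : ∀ k ∈ Ico k0 k1, ∑ l ∈ Ico k0 k1,
      (if k ≤ l + 1 ∧ l ≤ k + 1 then ff a (k + 1) else 0) ≤ 3 * ff a (k + 1) := by
    intro k _
    rw [← sum_filter, sum_const, nsmul_eq_mul]
    have h3 : ((Ico k0 k1).filter (fun l => k ≤ l + 1 ∧ l ≤ k + 1)).card ≤ 3 := by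
      calc _ ≤ (Icc (k - 1) (k + 1)).card := by
            apply card_le_card
            intro i hi
            rw [mem_filter] at hi
            rw [mem_Icc]
            omega
        _ ≤ 3 := by rw [Nat.card_Icc]; omega
    have h4 := ff_nonneg ha (k + 1)
    have h5 : (((Ico k0 k1).filter (fun l => k ≤ l + 1 ∧ l ≤ k + 1)).card : ℝ) ≤ 3 := by
      exact_mod_cast h3
    gcongr
  calc ∑ k ∈ Ico k0 k1, ∑ l ∈ Ico k0 k1, Lm a (k + 1) * Lm a (l + 1) *
      (if k ≤ l + 1 ∧ l ≤ k + 1 then a (k - 1) + WW a k else 0)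
      ≤ ∑ k ∈ Ico k0 k1, ∑ l ∈ Ico k0 k1, E * ((if k ≤ l + 1 ∧ l ≤ k + 1 then ff a (k + 1) else 0) +
        (if k ≤ l + 1 ∧ l ≤ k + 1 then ff a (l + 1) else 0)) :=
        sum_le_sum (fun k hk => sum_le_sum (fun l hl => h1 k hk l hl))
    _ = E * (∑ k ∈ Ico k0 k1, ∑ l ∈ Ico k0 k1, (if k ≤ l + 1 ∧ l ≤ k + 1 then ff a (k + 1) else 0) +
        ∑ l ∈ Ico k0 k1, ∑ k ∈ Ico k0 k1, (if k ≤ l + 1 ∧ l ≤ k + 1 then ff a (l + 1) else 0)) := by
        simp only [← mul_sum, sum_add_distrib]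
        congr 2
        rw [sum_comm]
    _ ≤ E * (∑ k ∈ Ico k0 k1, 3 * ff a (k + 1) + ∑ l ∈ Ico k0 k1, 3 * ff a (l + 1)) := by
        gcongr with k hk l hl
        · exact h2 k hk
        · refine le_trans (le_of_eq ?_) (h2 l hl)
          apply sum_congr rfl
          intro k _
          congr 1
          apply propext
          tauto
    _ = _ := by rw [← mul_sum, hE]; ring

/-- The linear sum. -/
theorem lin_sum {a e : ℕ → ℝ} (ha : ∀ k, 0 ≤ a k) (he : ∀ k, 0 ≤ e k) {E : ℝ}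
    (hE : ∀ n, ∑ k ∈ range n, e k ≤ E) {c k0 k1 : ℕ} (hk0 : 2 * c + 2 ≤ k0) (hk01 : k0 ≤ k1) :
    ∑ k ∈ Ico k0 k1, Lm a (k + 1) * (a (k - c) + e (k - c)) ≤
      5 * ∑ k ∈ Ico k0 k1, ff a (k + 1) + (4 * ∑ i ∈ range (k0 + 1), ff a i + E) := by
  have h1 : ∀ k ∈ Ico k0 k1, Lm a (k + 1) * (a (k - c) + e (k - c)) ≤
      ff a (k + 1) + 4 * ff a (k - c) + e (k - c) := by
    intro k hk
    rw [mem_Ico] at hk
    have h2 := cross ha (i := k - c) (j := k + 1) (by omega) (by omega) (q := 2) (by norm_num)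
      (by
        have : k + 1 ≤ 2 * (k - c) := by omega
        exact_mod_cast this)
    have h3 : Lm a (k + 1) * e (k - c) ≤ 1 * e (k - c) :=
      mul_le_mul_of_nonneg_right (Lm_le_one ha _) (he _)
    rw [mul_add]
    linarith
  refine (sum_le_sum h1).trans ?_
  rw [sum_add_distrib, sum_add_distrib, ← mul_sum]
  have h4 : ∀ (f : ℕ → ℝ), ∑ k ∈ Ico k0 k1, f (k - c) = ∑ i ∈ Ico (k0 - c) (k1 - c), f i := by
    intro f
    have h2 := sum_Ico_add' (fun j => f (j - c)) (k0 - c) (k1 - c) c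
    rw [show k0 - c + c = k0 by omega, show k1 - c + c = k1 by omega] at h2
    rw [← h2]
    apply sum_congr rfl
    intro i _
    simp
  have h5 : ∑ k ∈ Ico k0 k1, ff a (k - c) ≤ ∑ i ∈ range (k0 + 1), ff a i +
      ∑ k ∈ Ico k0 k1, ff a (k + 1) := by
    rw [h4 (ff a)]
    have h6 : ∑ k ∈ Ico k0 k1, ff a (k + 1) = ∑ i ∈ Ico (k0 + 1) (k1 + 1), ff a i :=
      sum_Ico_add' (fun j => ff a j) k0 k1 1
    rw [h6]
    have h7 : ∑ i ∈ range (k0 + 1), ff a i + ∑ i ∈ Ico (k0 + 1) (k1 + 1), ff a i =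
        ∑ i ∈ range (k1 + 1), ff a i := by
      rw [range_eq_Ico, range_eq_Ico, sum_Ico_consecutive _ (by omega) (by omega)]
    rw [h7]
    apply sum_le_sum_of_subset_of_nonneg
    · intro i hi
      rw [mem_Ico] at hi
      rw [mem_range]
      omega
    · intro i _ _; exact ff_nonneg ha i
  have h6 : ∑ k ∈ Ico k0 k1, e (k - c) ≤ E := by
    rw [h4 e]
    refine le_trans ?_ (hE k1)
    apply sum_le_sum_of_subset_of_nonneg
    · intro i hi
      rw [mem_Ico] at hi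
      rw [mem_range]
      omega
    · intro i _ _; exact he i
  linarith

end Pool.Agent.Meteor
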