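import Mathlib
import Pool.Agent.Lib_helper16.Meteor.BlockSecond
import Pool.Agent.Lib_helper16.Meteor.SumLemma
import Pool.Agent.Lib_helper16.Meteor.Crec

/-!
Late visits of the origin from any set of directions happen with probability bounded below.
-/

namespace Pool.Agent.Meteor

open MeasureTheory Filter ProbabilityTheory Set
open scoped ENNReal NNReal Topology Pointwise

variable {d : ℕ}

/-- Cauchy–Schwarz: second moment method. -/
theorem second_moment_method {Ω : Type*} [MeasurableSpace Ω] (P : Measure Ω) {X : Ω → ℝ≥0∞}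
    (hX : Measurable X) : (∫⁻ ω, X ω ∂P) ^ 2 ≤ (∫⁻ ω, X ω ^ 2 ∂P) * P {ω | X ω ≠ 0} := by
  have hm : MeasurableSet {ω | X ω ≠ 0} := (hX (measurableSet_singleton 0)).compl
  have h1 : ∫⁻ ω, X ω ∂P = ∫⁻ ω, (X * (({ω | X ω ≠ 0} : Set Ω).indicator (1 : Ω → ℝ≥0∞))) ω ∂P := by
    apply lintegral_congr
    intro ω
    rw [Pi.mul_apply]
    by_cases h : X ω = 0
    · simp [h]
    · have h' : ω ∈ {ω | X ω ≠ 0} := h
      rw [Set.indicator_of_mem h', Pi.one_apply, mul_one]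
  have h2 := ENNReal.lintegral_mul_le_Lp_mul_Lq P (p := 2) (q := 2)
    (by constructor <;> norm_num) hX.aemeasurable
    (g := ({ω | X ω ≠ 0} : Set Ω).indicator 1) (measurable_one.indicator hm).aemeasurable
  rw [← h1] at h2
  have h3 : ∫⁻ ω, ({ω | X ω ≠ 0} : Set Ω).indicator (1 : Ω → ℝ≥0∞) ω ^ (2 : ℝ) ∂P =
      P {ω | X ω ≠ 0} := by
    rw [← lintegral_indicator_one hm]
    apply lintegral_congr
    intro ω
    by_cases h : ω ∈ {ω | X ω ≠ 0}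
    · rw [Set.indicator_of_mem h]; simp
    · rw [Set.indicator_of_notMem h]; simp
  rw [h3] at h2
  have h4 : (∫⁻ ω, X ω ∂P) ^ 2 ≤ ((∫⁻ ω, X ω ^ (2 : ℝ) ∂P) ^ (1 / (2 : ℝ)) *
      P {ω | X ω ≠ 0} ^ (1 / (2 : ℝ))) ^ 2 := by gcongr
  rw [mul_pow, ← ENNReal.rpow_natCast, ← ENNReal.rpow_natCast, ← ENNReal.rpow_natCast,
    ← ENNReal.rpow_mul, ← ENNReal.rpow_mul] at h4
  norm_num at h4
  exact h4

theorem ee_le' {ε : ℝ} (hε : 0 < ε) (k : ℕ) : ee ε d k ≤ 6 * (V0 ε d + 1) * (1 / 4) ^ k := by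
  have hV := V0_pos (d := d) hε
  have h1 : (2 : ℝ) ^ k * Real.exp (-2 ^ k) ≤ 6 * (1 / 4) ^ k := by
    have h2 : ((2 : ℝ) ^ k) ^ 3 / 6 ≤ Real.exp (2 ^ k) := by
      have := Real.pow_div_factorial_le_exp ((2 : ℝ) ^ k) (by positivity) 3
      simpa [Nat.factorial] using this
    rw [Real.exp_neg, ← div_eq_mul_inv, div_le_iff₀ (Real.exp_pos _)]
    calc (2 : ℝ) ^ k = 6 * (1 / 4) ^ k * (((2 : ℝ) ^ k) ^ 3 / 6) := by
          have : (1 / 4 : ℝ) ^ k * ((2 : ℝ) ^ k) ^ 2 = 1 := by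
            rw [← pow_mul, mul_comm k 2, pow_mul, ← mul_pow]; norm_num
          calc (2 : ℝ) ^ k = (1 / 4 : ℝ) ^ k * ((2 : ℝ) ^ k) ^ 2 * 2 ^ k := by rw [this, one_mul]
            _ = _ := by ring
      _ ≤ _ := by gcongr
  unfold ee
  calc (2 : ℝ) ^ k * ((V0 ε d + 1) * Real.exp (-2 ^ k)) =
        (V0 ε d + 1) * (2 ^ k * Real.exp (-2 ^ k)) := by ring
    _ ≤ (V0 ε d + 1) * (6 * (1 / 4) ^ k) := by gcongr
    _ = _ := by ring

theorem sum_ee_lin {ε : ℝ} (hε : 0 < ε) (n : ℕ) :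
    ∑ k ∈ Finset.range n, ee ε d k ≤ 8 * (V0 ε d + 1) := by
  have hV := V0_pos (d := d) hε
  calc ∑ k ∈ Finset.range n, ee ε d k
      ≤ ∑ k ∈ Finset.range n, 6 * (V0 ε d + 1) * (1 / 4) ^ k :=
        Finset.sum_le_sum (fun k _ => ee_le' hε k)
    _ = 6 * (V0 ε d + 1) * ∑ k ∈ Finset.range n, (1 / 4 : ℝ) ^ k := by
        rw [Finset.mul_sum]
    _ ≤ 6 * (V0 ε d + 1) * (4 / 3) := by
        gcongr
        have h1 : ∑ k ∈ Finset.range n, (1 / 4 : ℝ) ^ k ≤ ∑' k : ℕ, (1 / 4 : ℝ) ^ k :=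
          (summable_geometric_of_lt_one (by norm_num) (by norm_num)).sum_le_tsum _
            (fun i _ => by positivity)
        rw [tsum_geometric_of_lt_one (by norm_num) (by norm_num)] at h1
        norm_num at h1 ⊢
        exact h1
    _ = _ := by ring

theorem exists_sum_ge {f : ℕ → ℝ} (hf : ∀ k, 0 ≤ f k) (hns : ¬ Summable f) (k0 : ℕ) (A : ℝ) :
    ∃ k1, k0 ≤ k1 ∧ A ≤ ∑ k ∈ Finset.Ico k0 k1, f (k + 1) := by
  have h1 : Tendsto (fun n => ∑ i ∈ Finset.range n, f i) atTop atTop :=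
    (not_summable_iff_tendsto_nat_atTop_of_nonneg hf).mp hns
  obtain ⟨n, hn1, hn2⟩ := ((h1.eventually_ge_atTop (A + ∑ i ∈ Finset.range (k0 + 1), f i)).and
    (eventually_ge_atTop (k0 + 1))).exists
  refine ⟨n - 1, by omega, ?_⟩
  have h2 : ∑ k ∈ Finset.Ico k0 (n - 1), f (k + 1) = ∑ i ∈ Finset.Ico (k0 + 1) (n - 1 + 1), f i :=
    Finset.sum_Ico_add' (fun j => f j) k0 (n - 1) 1
  rw [h2, show n - 1 + 1 = n by omega, Finset.sum_Ico_eq_sub _ hn2]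
  linarith

section prob

variable {Ω : Type*} [MeasurableSpace Ω] {P : Measure Ω} [IsProbabilityMeasure P]
  {ξ : Ω → Set (Met d)} [NeZero d] {ε : ℝ} (H : PP P ξ (intensity d) (Kd d))

/-- The number of visits in a block. -/
noncomputable def NN (ξ : Ω → Set (Met d)) (ε : ℝ) (W : Set (Dir d)) (k : ℕ) (ω : Ω) : ℝ≥0∞ :=
  ∑ m ∈ Mk ε k, Cf ε (Dm ε W m) (tm ε m) (cnt (ξ ω))

include H

omit [NeZero d] in
theorem measurable_NN {W : Set (Dir d)} (hW : MeasurableSet W) (k : ℕ) :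
    Measurable (NN ξ ε W k) := by
  unfold NN
  apply Finset.measurable_fun_sum
  intro m _
  exact (measurable_Cf ε (measurableSet_Dm ε hW m) _).comp H.measurable_N

theorem visits_pos (hε : 0 < ε) (hd : 2 ≤ d) : ∃ c : ℝ, 0 < c ∧ ∀ W : Set (Dir d),
    MeasurableSet W → unif d W ≠ 0 → ∀ T : ℕ,
    ENNReal.ofReal c ≤ P {ω | ∃ m : ℕ, T ≤ m ∧ Cf ε (Dm ε W m) (tm ε m) (cnt (ξ ω)) ≠ 0} := by
  obtain ⟨C, K0, hC, hdec⟩ := decay (P := P) (ξ := ξ) H hε hd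
  obtain ⟨D, K1, hD, hsec⟩ := block_second (P := P) (ξ := ξ) H hε hd
  have ha : ∀ k, 0 ≤ aa P ξ ε k := fun k => aa_nonneg k
  have hns := seq_lemma (aa P ξ ε) ha (aa_succ_le H) hC hdec (not_summable_aa H hε hd)
  have hv := v0_pos (d := d) hε
  obtain ⟨D', hD'⟩ : ∃ D' : ℝ, D' = (D + 1) * (36 + 6 * (5 + 4 * C) ^ 3) := ⟨_, rfl⟩
  have hD'0 : 0 < D' := by rw [hD']; positivity
  refine ⟨1 / (16 * ε ^ 2 * D'), by positivity, ?_⟩
  intro W hW hW0 T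
  have hσ : 0 < (unif d W).toReal := ENNReal.toReal_pos hW0 (measure_ne_top _ _)
  obtain ⟨μ0, hμ0⟩ : ∃ μ0, μ0 = (unif d W).toReal * v0 ε d := ⟨_, rfl⟩
  have hμ0' : 0 < μ0 := by rw [hμ0]; positivity
  -- choice of the range
  obtain ⟨n1, hn1⟩ : ∃ n : ℕ, 2 * ε ≤ (2 : ℝ) ^ n := by
    obtain ⟨n, hn⟩ := pow_unbounded_of_one_lt (2 * ε) (by norm_num : (1 : ℝ) < 2)
    exact ⟨n, hn.le⟩
  obtain ⟨n2, hn2⟩ : ∃ n : ℕ, T * ε ≤ (2 : ℝ) ^ n := by
    obtain ⟨n, hn⟩ := pow_unbounded_of_one_lt (T * ε) (by norm_num : (1 : ℝ) < 2)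
    exact ⟨n, hn.le⟩
  obtain ⟨k0, hk0⟩ : ∃ k0, k0 = K0 + K1 + n1 + n2 + 2 * (cc ε d + 2) + 2 := ⟨_, rfl⟩
  obtain ⟨B, hB⟩ : ∃ B : ℝ, B = 4 * ∑ i ∈ Finset.range (k0 + 1), ff (aa P ξ ε) i +
    8 * (V0 ε d + 1) := ⟨_, rfl⟩
  obtain ⟨k1, hk01, hk1⟩ := exists_sum_ge (ff_nonneg ha) hns k0 (max B (1 / μ0))
  obtain ⟨F, hF⟩ : ∃ F, F = ∑ k ∈ Finset.Ico k0 k1, ff (aa P ξ ε) (k + 1) := ⟨_, rfl⟩
  rw [← hF] at hk1
  have hFB : B ≤ F := (le_max_left _ _).trans hk1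
  have hFμ : 1 / μ0 ≤ F := (le_max_right _ _).trans hk1
  have hF0 : 0 < F := lt_of_lt_of_le (by positivity) hFμ
  -- the weighted sum
  obtain ⟨lam, hlam⟩ : ∃ lam : ℕ → ℝ, lam = fun k => Lm (aa P ξ ε) (k + 1) := ⟨_, rfl⟩
  have hlam0 : ∀ k, 0 ≤ lam k := by intro k; rw [hlam]; exact Lm_nonneg ha _
  obtain ⟨X, hX⟩ : ∃ X : Ω → ℝ≥0∞, X = fun ω => ∑ k ∈ Finset.Ico k0 k1,
    ENNReal.ofReal (lam k) * NN ξ ε W k ω := ⟨_, rfl⟩
  have hXm : Measurable X := by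
    rw [hX]
    apply Finset.measurable_fun_sum
    intro k _
    exact (measurable_NN H hW k).const_mul _
  have hPZ := second_moment_method P hXm
  -- lower bound of the first moment
  have hfirst : ENNReal.ofReal (μ0 * (1 / (4 * ε)) * F) ≤ ∫⁻ ω, X ω ∂P := by
    have h1 : ∫⁻ ω, X ω ∂P = ∑ k ∈ Finset.Ico k0 k1, ENNReal.ofReal (lam k) *
        ∑ m ∈ Mk ε k, ∫⁻ ω, Cf ε (Dm ε W m) (tm ε m) (cnt (ξ ω)) ∂P := by
      rw [hX, lintegral_finsetSum _ (fun k _ => (measurable_NN H hW k).const_mul _)]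
      apply Finset.sum_congr rfl
      intro k _
      rw [lintegral_const_mul _ (measurable_NN H hW k)]
      congr 1
      unfold NN
      have hmc : ∀ m ∈ Mk ε k, Measurable (fun ω => Cf ε (Dm ε W m) (tm ε m) (cnt (ξ ω))) :=
        fun m _ => (measurable_Cf ε (measurableSet_Dm ε hW m) _).comp H.measurable_N
      rw [lintegral_finsetSum _ hmc]
    rw [h1, hF, Finset.mul_sum, ENNReal.ofReal_sum_of_nonneg]
    swap
    · intro k _
      have := ff_nonneg ha (k + 1)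
      positivity
    apply Finset.sum_le_sum
    intro k hk
    rw [Finset.mem_Ico] at hk
    have h2 := block_first (P := P) (ξ := ξ) H hε hW (k := k)
      (hn1.trans (pow_le_pow_right₀ (by norm_num) (by omega)))
    calc ENNReal.ofReal (μ0 * (1 / (4 * ε)) * ff (aa P ξ ε) (k + 1)) =
          ENNReal.ofReal (lam k) * ENNReal.ofReal (μ0 * (1 / (4 * ε)) * aa P ξ ε (k + 1)) := by
          rw [← ENNReal.ofReal_mul (hlam0 k), ← Lm_mul_self, hlam]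
          congr 1
          ring
      _ ≤ _ := by rw [hμ0]; gcongr
  -- upper bound of the second moment
  have hsecond : ∫⁻ ω, X ω ^ 2 ∂P ≤ ENNReal.ofReal (D' * (μ0 * F) ^ 2) := by
    have h1 : ∫⁻ ω, X ω ^ 2 ∂P = ∑ k ∈ Finset.Ico k0 k1, ∑ l ∈ Finset.Ico k0 k1,
        ENNReal.ofReal (lam k * lam l) * ∑ m ∈ Mk ε k, ∑ m' ∈ Mk ε l,
          ∫⁻ ω, Cf ε (Dm ε W m) (tm ε m) (cnt (ξ ω)) *
            Cf ε (Dm ε W m') (tm ε m') (cnt (ξ ω)) ∂P := by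
      have e1 : ∀ ω, X ω ^ 2 = ∑ k ∈ Finset.Ico k0 k1, ∑ l ∈ Finset.Ico k0 k1,
          ENNReal.ofReal (lam k * lam l) * ∑ m ∈ Mk ε k, ∑ m' ∈ Mk ε l,
          (Cf ε (Dm ε W m) (tm ε m) (cnt (ξ ω)) * Cf ε (Dm ε W m') (tm ε m') (cnt (ξ ω))) := by
        intro ω
        rw [hX, sq, Finset.sum_mul_sum]
        apply Finset.sum_congr rfl
        intro k _
        apply Finset.sum_congr rfl
        intro l _
        rw [ENNReal.ofReal_mul (hlam0 k), mul_mul_mul_comm]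
        congr 1
        unfold NN
        rw [Finset.sum_mul_sum]
      simp only [e1]
      have hmm : ∀ m m', Measurable (fun ω => Cf ε (Dm ε W m) (tm ε m) (cnt (ξ ω)) *
            Cf ε (Dm ε W m') (tm ε m') (cnt (ξ ω))) := by
        intro m m'
        have q1 : Measurable (fun ω => Cf ε (Dm ε W m) (tm ε m) (cnt (ξ ω))) :=
          (measurable_Cf ε (measurableSet_Dm ε hW m) _).comp H.measurable_N
        have q2 : Measurable (fun ω => Cf ε (Dm ε W m') (tm ε m') (cnt (ξ ω))) :=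
          (measurable_Cf ε (measurableSet_Dm ε hW m') _).comp H.measurable_N
        exact q1.mul q2
      have hm3 : ∀ k l, Measurable (fun ω => ∑ m ∈ Mk ε k, ∑ m' ∈ Mk ε l,
          (Cf ε (Dm ε W m) (tm ε m) (cnt (ξ ω)) * Cf ε (Dm ε W m') (tm ε m') (cnt (ξ ω)))) :=
        fun k l => Finset.measurable_fun_sum _ (fun m _ => Finset.measurable_fun_sum _
          (fun m' _ => hmm m m'))
      rw [lintegral_finsetSum _ (fun k _ => Finset.measurable_fun_sum _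
          (fun l _ => (hm3 k l).const_mul _))]
      apply Finset.sum_congr rfl
      intro k _
      rw [lintegral_finsetSum _ (fun l _ => (hm3 k l).const_mul _)]
      apply Finset.sum_congr rfl
      intro l _
      rw [lintegral_const_mul _ (hm3 k l), lintegral_finsetSum _ (fun m _ =>
        Finset.measurable_fun_sum _ (fun m' _ => hmm m m'))]
      congr 1
      apply Finset.sum_congr rfl
      intro m _
      rw [lintegral_finsetSum _ (fun m' _ => hmm m m')]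
    rw [h1]
    have h2 : ∀ k ∈ Finset.Ico k0 k1, ∀ l ∈ Finset.Ico k0 k1,
        ENNReal.ofReal (lam k * lam l) * ∑ m ∈ Mk ε k, ∑ m' ∈ Mk ε l,
          ∫⁻ ω, Cf ε (Dm ε W m) (tm ε m) (cnt (ξ ω)) *
            Cf ε (Dm ε W m') (tm ε m') (cnt (ξ ω)) ∂P ≤
        ENNReal.ofReal (D * (μ0 ^ 2 * ((lam k * GG P ξ ε k) * (lam l * GG P ξ ε l)) +
          μ0 * (lam k * lam l * (if k ≤ l + 1 ∧ l ≤ k + 1 then
            aa P ξ ε (k - 1) + WW (aa P ξ ε) k else 0)))) := by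
      intro k hk l hl
      rw [Finset.mem_Ico] at hk hl
      have h3 := hsec W hW k l (by omega) (by omega)
      refine (mul_le_mul' le_rfl h3).trans ?_
      rw [← ENNReal.ofReal_mul (mul_nonneg (hlam0 k) (hlam0 l)), ← hμ0]
      apply ENNReal.ofReal_le_ofReal
      apply le_of_eq
      split_ifs <;> ring
    have hnn : ∀ k l : ℕ, 0 ≤ D * (μ0 ^ 2 * ((lam k * GG P ξ ε k) * (lam l * GG P ξ ε l)) +
          μ0 * (lam k * lam l * (if k ≤ l + 1 ∧ l ≤ k + 1 then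
            aa P ξ ε (k - 1) + WW (aa P ξ ε) k else 0))) := by
      intro k l
      have t1 := hlam0 k
      have t2 := hlam0 l
      have t3 := GG_nonneg (P := P) (ξ := ξ) hε k
      have t4 := GG_nonneg (P := P) (ξ := ξ) hε l
      have t5 : 0 ≤ (if k ≤ l + 1 ∧ l ≤ k + 1 then
            aa P ξ ε (k - 1) + WW (aa P ξ ε) k else 0) :=
        ite_nn (add_nonneg (ha _) (WW_nonneg _ _))
      positivity
    refine (Finset.sum_le_sum (fun k hk => Finset.sum_le_sum (fun l hl => h2 k hk l hl))).trans ?_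
    have h3 : ∀ k ∈ Finset.Ico k0 k1, ∑ l ∈ Finset.Ico k0 k1,
        ENNReal.ofReal (D * (μ0 ^ 2 * ((lam k * GG P ξ ε k) * (lam l * GG P ξ ε l)) +
          μ0 * (lam k * lam l * (if k ≤ l + 1 ∧ l ≤ k + 1 then
            aa P ξ ε (k - 1) + WW (aa P ξ ε) k else 0)))) =
        ENNReal.ofReal (∑ l ∈ Finset.Ico k0 k1,
          (D * (μ0 ^ 2 * ((lam k * GG P ξ ε k) * (lam l * GG P ξ ε l)) +
          μ0 * (lam k * lam l * (if k ≤ l + 1 ∧ l ≤ k + 1 then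
            aa P ξ ε (k - 1) + WW (aa P ξ ε) k else 0))))) := by
      intro k _
      rw [ENNReal.ofReal_sum_of_nonneg (fun l _ => hnn k l)]
    rw [Finset.sum_congr rfl h3, ← ENNReal.ofReal_sum_of_nonneg
      (fun k _ => Finset.sum_nonneg (fun l _ => hnn k l))]
    apply ENNReal.ofReal_le_ofReal
    simp only [← Finset.mul_sum, Finset.sum_add_distrib]
    have hs1 : ∑ k ∈ Finset.Ico k0 k1, lam k * GG P ξ ε k ≤ 6 * F := by
      have h4 := lin_sum (a := aa P ξ ε) (e := ee ε d) ha (fun k => ee_nonneg hε k)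
        (E := 8 * (V0 ε d + 1)) (sum_ee_lin hε) (c := cc ε d + 2) (k0 := k0) (k1 := k1)
        (by omega) hk01
      rw [← hF, ← hB] at h4
      rw [hlam]
      refine h4.trans ?_
      linarith
    have hs1' : 0 ≤ ∑ k ∈ Finset.Ico k0 k1, lam k * GG P ξ ε k :=
      Finset.sum_nonneg (fun k _ => mul_nonneg (hlam0 k) (GG_nonneg hε k))
    have hs2 : ∑ k ∈ Finset.Ico k0 k1, ∑ l ∈ Finset.Ico k0 k1, lam k * lam l *
        (if k ≤ l + 1 ∧ l ≤ k + 1 then aa P ξ ε (k - 1) + WW (aa P ξ ε) k else 0) ≤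
        6 * (5 + 4 * C) ^ 3 * F := by
      rw [hlam, hF]
      exact near_sum ha hC hdec (by omega)
    have hs3 : ∑ k ∈ Finset.Ico k0 k1, ∑ l ∈ Finset.Ico k0 k1,
        (lam k * GG P ξ ε k) * (lam l * GG P ξ ε l) ≤ (6 * F) ^ 2 := by
      rw [← Finset.sum_mul_sum, ← sq]
      gcongr
    obtain ⟨S3, hS3⟩ : ∃ S3, S3 = ∑ k ∈ Finset.Ico k0 k1, ∑ l ∈ Finset.Ico k0 k1,
        (lam k * GG P ξ ε k) * (lam l * GG P ξ ε l) := ⟨_, rfl⟩
    obtain ⟨S2, hS2⟩ : ∃ S2, S2 = ∑ k ∈ Finset.Ico k0 k1, ∑ l ∈ Finset.Ico k0 k1, lam k * lam l *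
        (if k ≤ l + 1 ∧ l ≤ k + 1 then aa P ξ ε (k - 1) + WW (aa P ξ ε) k else 0) := ⟨_, rfl⟩
    rw [← hS3] at hs3
    rw [← hS2] at hs2
    have hE : 0 ≤ 6 * (5 + 4 * C) ^ 3 := by positivity
    have hμF : μ0 * F ≤ (μ0 * F) ^ 2 := by
      have : 1 ≤ μ0 * F := by
        have h5 := mul_le_mul_of_nonneg_left hFμ hμ0'.le
        rwa [mul_one_div_cancel hμ0'.ne'] at h5
      nlinarith
    have hfin : D * (μ0 ^ 2 * S3 + μ0 * S2) ≤ D' * (μ0 * F) ^ 2 := by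
      calc D * (μ0 ^ 2 * S3 + μ0 * S2) ≤ D * (μ0 ^ 2 * (6 * F) ^ 2 +
            μ0 * (6 * (5 + 4 * C) ^ 3 * F)) := by gcongr
        _ = D * (36 * (μ0 * F) ^ 2 + 6 * (5 + 4 * C) ^ 3 * (μ0 * F)) := by ring
        _ ≤ D * (36 * (μ0 * F) ^ 2 + 6 * (5 + 4 * C) ^ 3 * (μ0 * F) ^ 2) := by gcongr
        _ ≤ (D + 1) * (36 * (μ0 * F) ^ 2 + 6 * (5 + 4 * C) ^ 3 * (μ0 * F) ^ 2) := by
            gcongr; linarith
        _ = _ := by rw [hD']; ring
    refine le_trans (le_of_eq ?_) hfin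
    rw [hS3, hS2]
    simp only [Finset.mul_sum]
  -- conclusion
  have hincl : {ω | X ω ≠ 0} ⊆ {ω | ∃ m : ℕ, T ≤ m ∧
      Cf ε (Dm ε W m) (tm ε m) (cnt (ξ ω)) ≠ 0} := by
    intro ω hω
    have hω' : X ω ≠ 0 := hω
    rw [hX] at hω'
    obtain ⟨k, hk, hk2⟩ := Finset.exists_ne_zero_of_sum_ne_zero hω'
    have h5 : NN ξ ε W k ω ≠ 0 := by
      intro h; rw [h, mul_zero] at hk2; exact hk2 rfl
    unfold NN at h5
    obtain ⟨m, hm, hm2⟩ := Finset.exists_ne_zero_of_sum_ne_zero h5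
    refine ⟨m, ?_, hm2⟩
    rw [Finset.mem_Ico] at hk
    have h6 := (mem_Mk hε hm).1
    have h7 : (2 : ℝ) ^ n2 ≤ 2 ^ k := pow_le_pow_right₀ (by norm_num) (by omega)
    have h8 : (T : ℝ) * ε ≤ m * ε := by linarith
    have h9 := le_of_mul_le_mul_right h8 hε
    exact_mod_cast h9
  refine le_trans ?_ (measure_mono hincl)
  obtain ⟨p, hp⟩ : ∃ p : ℝ, p = (P {ω | X ω ≠ 0}).toReal := ⟨_, rfl⟩
  have hp0 : 0 ≤ p := by rw [hp]; exact ENNReal.toReal_nonneg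
  have hp' : P {ω | X ω ≠ 0} = ENNReal.ofReal p := by
    rw [hp, ENNReal.ofReal_toReal (measure_ne_top _ _)]
  rw [hp'] at hPZ ⊢
  apply ENNReal.ofReal_le_ofReal
  have hG : ENNReal.ofReal ((μ0 * (1 / (4 * ε)) * F) ^ 2) ≤
      ENNReal.ofReal (D' * (μ0 * F) ^ 2 * p) := by
    calc ENNReal.ofReal ((μ0 * (1 / (4 * ε)) * F) ^ 2) =
          ENNReal.ofReal (μ0 * (1 / (4 * ε)) * F) ^ 2 := by
          rw [ENNReal.ofReal_pow (by positivity)]
      _ ≤ (∫⁻ ω, X ω ∂P) ^ 2 := by gcongr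
      _ ≤ (∫⁻ ω, X ω ^ 2 ∂P) * ENNReal.ofReal p := hPZ
      _ ≤ ENNReal.ofReal (D' * (μ0 * F) ^ 2) * ENNReal.ofReal p := by gcongr
      _ = _ := by rw [← ENNReal.ofReal_mul (by positivity)]
  rw [ENNReal.ofReal_le_ofReal_iff (by positivity)] at hG
  have hq : 0 < (μ0 * F) ^ 2 := by positivity
  have h6 : (μ0 * (1 / (4 * ε)) * F) ^ 2 = (1 / (16 * ε ^ 2)) * (μ0 * F) ^ 2 := by
    field_simp
    norm_num
  rw [h6] at hG
  have h7 : 1 / (16 * ε ^ 2) ≤ D' * p := by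
    have h8 : D' * (μ0 * F) ^ 2 * p = (D' * p) * (μ0 * F) ^ 2 := by ring
    rw [h8] at hG
    exact le_of_mul_le_mul_right hG hq
  rw [div_le_iff₀ (by positivity)] at h7
  rw [div_le_iff₀ (by positivity)]
  linarith

end prob

end Pool.Agent.Meteor
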