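import Mathlib
import Pool.Agent.Lib_helper16.Meteor.VisitsPos

/-!
From visits with positive probability to infinitely many visits almost surely.
-/

namespace Pool.Agent.Meteor

open MeasureTheory Filter ProbabilityTheory Set
open scoped ENNReal NNReal Topology Pointwise

variable {d : ℕ}

theorem mem_iUnion_Kd_measurable {F : Set (Met d)} (hF : cnt F ∈ LF (Kd d)) : MeasurableSet F := by
  have : F = ⋃ m : ℕ, (F ∩ Kd d m) := by
    rw [← Set.inter_iUnion, Kd_cov, Set.inter_univ]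
  rw [this]
  exact MeasurableSet.iUnion (fun m =>
    (finite_of_cnt_lt_top (measurableSet_Kd m) (hF m)).measurableSet)

theorem Cf_ne_zero_iff {ε : ℝ} {D : Set (Met d)} (hD : MeasurableSet D) {t : ℝ≥0}
    {F : Set (Met d)} (hF : cnt F ∈ LF (Kd d)) :
    Cf ε D t (cnt F) ≠ 0 ↔ ∃ y ∈ F, y ∈ D ∧ alive (tau ε) (F \ {y}) y t := by
  rw [Cf_cnt hF, Ne, cnt_eq_zero_iff _ (measurableSet_Sf hD hF)]
  push Not
  rfl

theorem measurableSet_Cf_ne_zero (ε : ℝ) {D : Set (Met d)} (hD : MeasurableSet D) (t : ℝ≥0) :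
    MeasurableSet {ν : Measure (Met d) | Cf ε D t ν ≠ 0} :=
  (measurable_Cf ε hD t (measurableSet_singleton 0)).compl

variable [NeZero d]

/-- The meteors that at time `m * ε` are close to the `j`-th point of the ray. -/
def Ej (d : ℕ) [NeZero d] (ε : ℝ) (j m : ℕ) : Set (Met d) :=
  {y | ‖pos y (m * ε) + (j * ε) • (dir0 d : Sp d)‖ ≤ 3 / 4 * ε}

theorem measurableSet_Ej (ε : ℝ) (j m : ℕ) : MeasurableSet (Ej d ε j m) :=
  measurableSet_le ((measurable_pos _).add measurable_const).norm measurable_const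

/-- The event that all points of the ray are visited at arbitrarily late times. -/
def RR (d : ℕ) [NeZero d] (ε : ℝ) : Set (Measure (Met d)) :=
  {ν | ∀ j T : ℕ, ∃ m, T ≤ m ∧ Cf ε (Ej d ε j m) (tm ε m) ν ≠ 0}

theorem measurableSet_RR (ε : ℝ) : MeasurableSet (RR d ε) := by
  have : RR d ε = ⋂ j : ℕ, ⋂ T : ℕ, ⋃ m : ℕ, ({ν | T ≤ m} ∩
      {ν : Measure (Met d) | Cf ε (Ej d ε j m) (tm ε m) ν ≠ 0}) := by
    ext ν
    simp only [RR, mem_ofPred_eq, mem_iInter, mem_iUnion, mem_inter_iff]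
  rw [this]
  exact MeasurableSet.iInter (fun j => MeasurableSet.iInter (fun T => MeasurableSet.iUnion
    (fun m => (MeasurableSet.const _).inter (measurableSet_Cf_ne_zero ε (measurableSet_Ej ε j m) _))))

/-- The caps. -/
def Wn (d : ℕ) [NeZero d] (n : ℕ) : Set (Dir d) := Metric.ball (dir0 d) (1 / ((n : ℝ) + 1))

theorem measurableSet_Wn (n : ℕ) : MeasurableSet (Wn d n) := Metric.isOpen_ball.measurableSet

theorem unif_Wn_pos (n : ℕ) : unif d (Wn d n) ≠ 0 := by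
  have hδ : (0 : ℝ) < 1 / ((n : ℝ) + 1) := by positivity
  unfold unif Wn
  rw [Measure.smul_apply, smul_eq_mul]
  apply mul_ne_zero
  · exact ENNReal.inv_ne_zero.mpr toSphere_univ_lt_top.ne
  · exact (Metric.measure_ball_pos _ _ hδ).ne'

/-- The event at level `n`. -/
def Vn (d : ℕ) [NeZero d] (ε : ℝ) (n : ℕ) : Set (Measure (Met d)) :=
  {ν | ∃ m, n ≤ m ∧ Cf ε (Dm ε (Wn d n) m) (tm ε m) ν ≠ 0}

theorem measurableSet_Vn (ε : ℝ) (n : ℕ) : MeasurableSet (Vn d ε n) := by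
  have : Vn d ε n = ⋃ m : ℕ, ({ν | n ≤ m} ∩
      {ν : Measure (Met d) | Cf ε (Dm ε (Wn d n) m) (tm ε m) ν ≠ 0}) := by
    ext ν
    simp only [Vn, mem_ofPred_eq, mem_iUnion, mem_inter_iff]
  rw [this]
  exact MeasurableSet.iUnion (fun m => (MeasurableSet.const _).inter
    (measurableSet_Cf_ne_zero ε (measurableSet_Dm ε (measurableSet_Wn n) m) _))

/-- A meteor with direction close to the axis visits the ray. -/
theorem mem_Ej_of_mem_Dm {ε : ℝ} (hε : 0 < ε) {n m j : ℕ} {y : Met d}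
    (hy : y ∈ Dm ε (Wn d n) m) (hn : 4 * j ≤ n) (hjm : j ≤ m) : y ∈ Ej d ε j (m - j) := by
  obtain ⟨h1, h2⟩ := hy
  have h3 : ‖(y.2 : Sp d) - dir0 d‖ < 1 / ((n : ℝ) + 1) := by
    have h4 : dist y.2 (dir0 d) < 1 / ((n : ℝ) + 1) := h1
    rwa [Subtype.dist_eq, dist_eq_norm] at h4
  show ‖pos y (((m - j : ℕ) : ℝ) * ε) + (j * ε) • (dir0 d : Sp d)‖ ≤ 3 / 4 * ε
  have h4 : pos y (((m - j : ℕ) : ℝ) * ε) + (j * ε) • (dir0 d : Sp d) =
      pos y (m * ε) - (j * ε) • ((y.2 : Sp d) - dir0 d) := by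
    unfold pos
    rw [Nat.cast_sub hjm, sub_mul, sub_smul, smul_sub]
    abel
  rw [h4]
  have h5 : ‖(j * ε) • ((y.2 : Sp d) - dir0 d)‖ ≤ ε / 4 := by
    rw [norm_smul, Real.norm_eq_abs, abs_of_nonneg (by positivity)]
    have h6 : (4 * j : ℝ) ≤ n := by exact_mod_cast hn
    have h7 : (j : ℝ) * (1 / ((n : ℝ) + 1)) ≤ 1 / 4 := by
      rw [mul_one_div, div_le_iff₀ (by positivity)]
      linarith
    calc j * ε * ‖(y.2 : Sp d) - dir0 d‖ ≤ j * ε * (1 / ((n : ℝ) + 1)) := by gcongr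
      _ = ε * (j * (1 / ((n : ℝ) + 1))) := by ring
      _ ≤ ε * (1 / 4) := by gcongr
      _ = _ := by ring
  calc _ ≤ ‖pos y (m * ε)‖ + ‖(j * ε) • ((y.2 : Sp d) - dir0 d)‖ := norm_sub_le _ _
    _ ≤ ε / 2 + ε / 4 := add_le_add h2.le h5
    _ = _ := by ring

theorem RR_of_frequently {ε : ℝ} (hε : 0 < ε) {F : Set (Met d)} (hF : cnt F ∈ LF (Kd d))
    (h : ∀ N, ∃ n, N ≤ n ∧ cnt F ∈ Vn d ε n) : cnt F ∈ RR d ε := by
  intro j T
  obtain ⟨n, hn, m, hnm, hm⟩ := h (4 * j + T + j)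
  rw [Cf_ne_zero_iff (measurableSet_Dm ε (measurableSet_Wn n) m) hF] at hm
  obtain ⟨y, hyF, hyD, hyA⟩ := hm
  refine ⟨m - j, by omega, ?_⟩
  rw [Cf_ne_zero_iff (measurableSet_Ej ε j _) hF]
  refine ⟨y, hyF, mem_Ej_of_mem_Dm hε hyD (by omega) (by omega), alive_anti ?_ hyA⟩
  rw [ENNReal.coe_le_coe]
  unfold tm
  gcongr
  omega

/-- The shift along the axis. -/
noncomputable def sh (d : ℕ) [NeZero d] (ε : ℝ) : Met d ≃ᵐ Met d :=
  metEquiv (LinearIsometryEquiv.refl ℝ (Sp d)) (ε • (dir0 d : Sp d))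

theorem pos_sh (ε : ℝ) (x : Met d) (t : ℝ) : pos (sh d ε x) t = pos x t + ε • (dir0 d : Sp d) := by
  unfold sh
  rw [pos_metEquiv]
  rfl

theorem sh_iterate_fst (ε : ℝ) (x : Met d) (n : ℕ) :
    ((sh d ε)^[n] x).1 = x.1 + (n * ε) • (dir0 d : Sp d) := by
  induction n with
  | zero => simp
  | succ n ih =>
    rw [Function.iterate_succ', Function.comp]
    have h1 : ∀ z : Met d, (sh d ε z).1 = z.1 + ε • (dir0 d : Sp d) := fun z => rfl
    rw [h1, ih]
    push_cast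
    rw [add_mul, add_smul, one_mul, add_assoc]

theorem RR_shift {ε : ℝ} {F : Set (Met d)} (hF : cnt F ∈ LF (Kd d))
    (hF' : cnt (sh d ε '' F) ∈ LF (Kd d)) (h : cnt F ∈ RR d ε) : cnt (sh d ε '' F) ∈ RR d ε := by
  intro j T
  obtain ⟨m, hTm, hm⟩ := h (j + 1) T
  refine ⟨m, hTm, ?_⟩
  rw [Cf_ne_zero_iff (measurableSet_Ej ε _ _) hF] at hm
  rw [Cf_ne_zero_iff (measurableSet_Ej ε _ _) hF']
  obtain ⟨y, hyF, hyD, hyA⟩ := hm
  refine ⟨sh d ε y, mem_image_of_mem _ hyF, ?_, ?_⟩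
  · show ‖pos (sh d ε y) (m * ε) + (j * ε) • (dir0 d : Sp d)‖ ≤ 3 / 4 * ε
    have h1 : ‖pos y (m * ε) + (((j + 1 : ℕ) : ℝ) * ε) • (dir0 d : Sp d)‖ ≤ 3 / 4 * ε := hyD
    refine le_trans (le_of_eq ?_) h1
    congr 1
    rw [pos_sh]
    push_cast
    rw [add_mul, add_smul, one_mul]
    abel
  · have h1 : (sh d ε '' F) \ {sh d ε y} = sh d ε '' (F \ {y}) :=
      image_sdiff_singleton_equiv (sh d ε).toEquiv F y
    rw [h1]
    intro n
    exact (SS_equiv (sh d ε).toEquiv (tau_metEquiv ε _ _) (2 * n) _ _ _).mpr (hyA n)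

section prob

variable {Ω : Type*} [MeasurableSpace Ω] {P : Measure Ω} [IsProbabilityMeasure P]
  {ξ : Ω → Set (Met d)} {ε : ℝ} (H : PP P ξ (intensity d) (Kd d))

include H

theorem ae_RR (hε : 0 < ε) (hd : 2 ≤ d) : ∀ᵐ ω ∂P, cnt (ξ ω) ∈ RR d ε := by
  obtain ⟨c, hc, hpos⟩ := visits_pos H hε hd
  have hN := H.measurable_N
  -- positive probability
  have hpR : P {ω | cnt (ξ ω) ∈ RR d ε} ≠ 0 := by
    obtain ⟨U, hU⟩ : ∃ U : ℕ → Set Ω, U = fun N => {ω | ∃ n, N ≤ n ∧ cnt (ξ ω) ∈ Vn d ε n} :=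
      ⟨_, rfl⟩
    have hUm : ∀ N, MeasurableSet (U N) := by
      intro N
      have : U N = ⋃ n : ℕ, ({ω | N ≤ n} ∩ {ω | cnt (ξ ω) ∈ Vn d ε n}) := by
        rw [hU]
        ext ω
        simp only [mem_ofPred_eq, mem_iUnion, mem_inter_iff]
      rw [this]
      refine MeasurableSet.iUnion (fun n => (MeasurableSet.const _).inter ?_)
      exact hN (measurableSet_Vn ε n)
    have hUa : Antitone U := by
      intro N N' hNN ω hω
      rw [hU] at hω ⊢
      obtain ⟨n, hn, hv⟩ := hω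
      exact ⟨n, hNN.trans hn, hv⟩
    have hUc : ∀ N, ENNReal.ofReal c ≤ P (U N) := by
      intro N
      refine (hpos (Wn d N) Metric.isOpen_ball.measurableSet (unif_Wn_pos N) N).trans ?_
      apply measure_mono
      intro ω hω
      rw [hU]
      exact ⟨N, le_rfl, hω⟩
    have h1 : ENNReal.ofReal c ≤ P (⋂ N, U N) := by
      rw [hUa.measure_iInter (fun N => (hUm N).nullMeasurableSet) ⟨0, measure_ne_top _ _⟩]
      exact le_iInf hUc
    have h2 : P (⋂ N, U N) ≤ P {ω | cnt (ξ ω) ∈ RR d ε} := by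
      apply measure_mono_ae
      filter_upwards [H.ae_LF] with ω hω hmem
      have h3 : ∀ N, ω ∈ U N := mem_iInter.mp hmem
      apply RR_of_frequently hε hω
      intro N
      have h4 := h3 N
      rw [hU] at h4
      exact h4
    intro h0
    rw [h0] at h2
    have h3 := h1.trans h2
    rw [nonpos_iff_eq_zero, ENNReal.ofReal_eq_zero] at h3
    linarith
  -- invariance
  have himg := H.image (LinearIsometryEquiv.refl ℝ (Sp d)) (ε • (dir0 d : Sp d))
  have hlaw := H.law_image (LinearIsometryEquiv.refl ℝ (Sp d)) (ε • (dir0 d : Sp d))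
    (measurableSet_RR (d := d) ε)
  have hsub : {ω | cnt (ξ ω) ∈ RR d ε} ≤ᵐ[P] {ω | cnt (sh d ε '' ξ ω) ∈ RR d ε} := by
    filter_upwards [H.ae_LF, himg.ae_LF] with ω h1 h2 h3
    exact RR_shift h1 h2 h3
  have heq : {ω | cnt (ξ ω) ∈ RR d ε} =ᵐ[P] {ω | cnt (sh d ε '' ξ ω) ∈ RR d ε} := by
    apply ae_eq_of_ae_subset_of_measure_ge hsub
    · exact hlaw.le
    · exact (hN (measurableSet_RR ε)).nullMeasurableSet
    · exact measure_ne_top _ _
  have hzo := zero_one H.poisson H.meas H.mono H.cov H.fin (sh d ε)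
    (measurePreserving_metEquiv _ _) (by
      intro m
      obtain ⟨n, hn⟩ := exists_nat_gt ((2 * m : ℝ) / ε)
      refine ⟨n, ?_⟩
      rw [Set.disjoint_left]
      intro x hx hx'
      have h1 : ‖x.1‖ ≤ m := hx
      have h2 : ‖((sh d ε)^[n] x).1‖ ≤ m := hx'
      rw [sh_iterate_fst] at h2
      rw [div_lt_iff₀ hε] at hn
      have h3 : ‖((n * ε) • (dir0 d : Sp d))‖ = n * ε := by
        have h4 : ‖(dir0 d : Sp d)‖ = 1 := by simp
        rw [norm_smul, h4, mul_one, Real.norm_eq_abs, abs_of_nonneg (by positivity)]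
      have h4 : ‖((n * ε) • (dir0 d : Sp d))‖ ≤ ‖x.1 + (n * ε) • (dir0 d : Sp d)‖ + ‖x.1‖ := by
        have h5 : (n * ε) • (dir0 d : Sp d) = (x.1 + (n * ε) • (dir0 d : Sp d)) - x.1 := by abel
        calc ‖((n * ε) • (dir0 d : Sp d))‖ = ‖(x.1 + (n * ε) • (dir0 d : Sp d)) - x.1‖ := by
              rw [← h5]
          _ ≤ _ := norm_sub_le _ _
      linarith) (measurableSet_RR ε) (by
      filter_upwards [heq] with ω hω
      rw [← cnt_image]
      exact iff_of_eq hω)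
  rcases hzo with h | h
  · exact h
  · exfalso
    apply hpR
    have h' : P {ω | ¬ cnt (ξ ω) ∉ RR d ε} = 0 := h
    simpa using h'

end prob

end Pool.Agent.Meteor
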