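import Mathlib
import Pool.Agent.Lib_helper16.Meteor.Ray

/-!
Existence of the infinite process and the final statement in dimension at least two.
-/

namespace Pool.Agent.Meteor

open MeasureTheory Filter ProbabilityTheory Set
open scoped ENNReal NNReal Topology Pointwise

variable {d : ℕ}

/-- The infinite process exists for locally finite configurations without infinite chains. -/
theorem process_exists {ε : ℝ} (hε : 0 ≤ ε) {F : Set (Met d)} (hF : ∀ R, (inBall F R).Finite)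
    (hC : ∀ y ∈ F, CF (tau ε) (F \ {y}) y) : InfiniteProcessExists ε F := by
  intro x hx t
  obtain ⟨Z, hZ⟩ : ∃ Z : Set (Met d), Z = {z ∈ F | z ≠ x ∧ tau ε x z = t} := ⟨_, rfl⟩
  have hZR : Z ⊆ inBall F (‖x.1‖ + (2 * t + 2 * ε)) := by
    rw [hZ]
    rintro z ⟨hz, _, hzt⟩
    refine ⟨hz, ?_⟩
    have h1 := contact_of_tau_eq hzt
    have h2 := norm_diff_move x z 0 t
    have h3 : ‖pos x 0 - pos z 0‖ ≤ ‖pos x t - pos z t‖ +
        ‖(pos x 0 - pos z 0) - (pos x t - pos z t)‖ := by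
      have := norm_add_le (pos x t - pos z t) ((pos x 0 - pos z 0) - (pos x t - pos z t))
      simpa using this
    have h4 : ∀ w : Met d, pos w 0 = w.1 := fun w => by simp [pos]
    rw [h4, h4] at h3 h2
    have h5 : ‖z.1‖ ≤ ‖x.1‖ + ‖x.1 - z.1‖ := by
      have := norm_sub_le x.1 (x.1 - z.1)
      simpa using this
    rw [zero_sub, abs_neg, abs_of_nonneg (NNReal.coe_nonneg t)] at h2
    linarith
  have hZfin : Z.Finite := (hF _).subset hZR
  have h1 := eventually_alive_iff hε hF (hC x hx) t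
  have h2 : ∀ᶠ R : ℝ in atTop, ∀ z ∈ Z, (((t : ℝ≥0∞) ≤ life (tau ε) (inBall F R) z) ↔
      alive (tau ε) (F \ {z}) z t) := by
    rw [hZfin.eventually_all]
    intro z hz
    rw [hZ] at hz
    exact eventually_alive_iff hε hF (hC z hz.1) t
  have key : ∀ᶠ R : ℝ in atTop, (ExistsAt ε (inBall F R) x t ↔
      (alive (tau ε) (F \ {x}) x t ∧ ∀ z ∈ Z, ¬ alive (tau ε) (F \ {z}) z t)) := by
    filter_upwards [h1, h2, eventually_ge_atTop ‖x.1‖,
      eventually_ge_atTop (‖x.1‖ + (2 * t + 2 * ε))] with R e1 e2 hR1 hR2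
    have hxR : x ∈ inBall F R := ⟨hx, hR1⟩
    have hZR' : ∀ z ∈ Z, z ∈ inBall F R := fun z hz => ⟨(hZR hz).1, (hZR hz).2.trans hR2⟩
    rw [existsAt_iff (hF R) hxR]
    constructor
    · intro hlt
      refine ⟨e1.mp hlt.le, fun z hz hal => ?_⟩
      have hzt := (e2 z hz).mpr hal
      have hz' := hz
      rw [hZ] at hz'
      have h3 := life_le (tau_symm ε) (hF R) hxR (hZR' z hz) hz'.2.1 (by rw [hz'.2.2]; exact hzt)
      rw [hz'.2.2] at h3
      exact absurd hlt (not_lt.mpr h3)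
    · rintro ⟨hal, hno⟩
      refine lt_of_le_of_ne (e1.mpr hal) (fun heq => ?_)
      obtain ⟨z, hz, hne, hz1, hz2⟩ := exists_killer (tau_symm ε) (hF R) hxR
        (by rw [← heq]; exact ENNReal.coe_lt_top)
      have hzZ : z ∈ Z := by
        rw [hZ]
        exact ⟨hz.1, hne, by rw [← hz2, ← heq]⟩
      apply hno z hzZ
      rw [← e2 z hzZ, hz1, ← hz2, ← heq]
  by_cases hp : alive (tau ε) (F \ {x}) x t ∧ ∀ z ∈ Z, ¬ alive (tau ε) (F \ {z}) z t
  · left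
    filter_upwards [key] with R hR
    exact hR.mpr hp
  · right
    filter_upwards [key] with R hR h
    exact hp (hR.mp h)

theorem infExistsAt_of_alive {ε : ℝ} (hε : 0 ≤ ε) {F : Set (Met d)}
    (hF : ∀ R, (inBall F R).Finite) {x : Met d} (hx : x ∈ F) (hC : CF (tau ε) (F \ {x}) x)
    {s t : ℝ≥0} (hst : s < t) (h : alive (tau ε) (F \ {x}) x t) : InfExistsAt ε F x s := by
  filter_upwards [eventually_alive_iff hε hF hC t, eventually_ge_atTop ‖x.1‖] with R e1 hR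
  rw [existsAt_iff (hF R) ⟨hx, hR⟩]
  exact lt_of_lt_of_le (ENNReal.coe_lt_coe.mpr hst) (e1.mpr h)

/-- The origin is occupied at arbitrarily large times. -/
def OccupiedLate (ε : ℝ) (F : Set (Met d)) : Prop :=
  ∀ T : ℝ≥0, ∃ t : ℝ≥0, T ≤ t ∧ ∃ y ∈ F, InfExistsAt ε F y t ∧ ‖pos y t‖ ≤ ε

theorem visitors_infinite_of_late {ε : ℝ} {F : Set (Met d)} (h : OccupiedLate ε F) :
    (visitors ε F).Infinite := by
  intro hfin
  obtain ⟨B, hB⟩ : ∃ B : ℝ, ∀ y ∈ visitors ε F, ‖y.1‖ ≤ B := by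
    obtain ⟨B, hB⟩ := (hfin.image (fun y => ‖y.1‖)).bddAbove
    exact ⟨B, fun y hy => hB (mem_image_of_mem _ hy)⟩
  obtain ⟨t, hTt, y, hyF, hy1, hy2⟩ := h (B + ε + 1).toNNReal
  have hyv : y ∈ visitors ε F := ⟨hyF, t, hy1, hy2⟩
  have h1 := hB y hyv
  have h2 : B + ε + 1 ≤ t := Real.toNNReal_le_iff_le_coe.mp hTt
  have h3 : (t : ℝ) ≤ ‖pos y t‖ + ‖y.1‖ := by
    have h4 : (t : ℝ) • (y.2 : Sp d) = pos y t - y.1 := by unfold pos; abel
    have h5 : ‖(t : ℝ) • (y.2 : Sp d)‖ = t := by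
      have h6 : ‖(y.2 : Sp d)‖ = 1 := by simp
      rw [norm_smul, h6, mul_one, Real.norm_eq_abs, abs_of_nonneg (NNReal.coe_nonneg t)]
    calc (t : ℝ) = ‖(t : ℝ) • (y.2 : Sp d)‖ := h5.symm
      _ = ‖pos y t - y.1‖ := by rw [h4]
      _ ≤ _ := norm_sub_le _ _
  linarith

theorem late_of_visitors_infinite {ε : ℝ} {F : Set (Met d)} (hF : ∀ R, (inBall F R).Finite)
    (h : (visitors ε F).Infinite) : OccupiedLate ε F := by
  intro T
  by_contra hcon
  push Not at hcon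
  apply h
  apply (hF (T + ε)).subset
  rintro y ⟨hyF, t, hy1, hy2⟩
  refine ⟨hyF, ?_⟩
  have h1 : t < T := by
    by_contra hle
    push Not at hle
    exact absurd hy2 (not_le.mpr (hcon t hle y hyF hy1))
  have h2 : y.1 = pos y t - (t : ℝ) • (y.2 : Sp d) := by unfold pos; abel
  have h5 : ‖(t : ℝ) • (y.2 : Sp d)‖ = t := by
    have h6 : ‖(y.2 : Sp d)‖ = 1 := by simp
    rw [norm_smul, h6, mul_one, Real.norm_eq_abs, abs_of_nonneg (NNReal.coe_nonneg t)]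
  have h3 : (t : ℝ) < T := by exact_mod_cast h1
  calc ‖y.1‖ = ‖pos y t - (t : ℝ) • (y.2 : Sp d)‖ := by rw [← h2]
    _ ≤ ‖pos y t‖ + ‖(t : ℝ) • (y.2 : Sp d)‖ := norm_sub_le _ _
    _ ≤ _ := by rw [h5]; linarith

variable [NeZero d]

theorem late_of_RR {ε : ℝ} (hε : 0 < ε) {F : Set (Met d)} (hF : cnt F ∈ LF (Kd d))
    (hC : ∀ y ∈ F, CF (tau ε) (F \ {y}) y) (h : cnt F ∈ RR d ε) : OccupiedLate ε F := by
  intro T
  obtain ⟨n, hn⟩ := exists_nat_ge ((T + ε) / ε)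
  rw [div_le_iff₀ hε] at hn
  obtain ⟨m, hnm, hm⟩ := h 0 n
  rw [Cf_ne_zero_iff (measurableSet_Ej ε _ _) hF] at hm
  obtain ⟨y, hyF, hyD, hyA⟩ := hm
  have hy1 : ‖pos y (m * ε) + (((0 : ℕ) : ℝ) * ε) • (dir0 d : Sp d)‖ ≤ 3 / 4 * ε := hyD
  rw [Nat.cast_zero, zero_mul, zero_smul, add_zero] at hy1
  have hmn : (n : ℝ) * ε ≤ m * ε := by
    have : (n : ℝ) ≤ m := by exact_mod_cast hnm
    gcongr
  have hT0 : (0 : ℝ) ≤ T := T.2
  obtain ⟨s, hs⟩ : ∃ s : ℝ≥0, (s : ℝ) = m * ε - ε / 4 :=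
    ⟨⟨m * ε - ε / 4, by linarith⟩, rfl⟩
  refine ⟨s, ?_, y, hyF, ?_, ?_⟩
  · rw [← NNReal.coe_le_coe, hs]
    linarith
  · apply infExistsAt_of_alive hε.le (fun R => finite_inBall hF R) hyF (hC y hyF) (t := tm ε m) _ hyA
    rw [← NNReal.coe_lt_coe, hs, tm_coe hε.le]
    linarith
  · have h1 : pos y s = pos y (m * ε) + (pos y s - pos y (m * ε)) := by abel
    rw [h1]
    refine (norm_add_le _ _).trans ?_
    rw [norm_pos_sub_pos, hs]
    have h2 : |(m : ℝ) * ε - ε / 4 - m * ε| = ε / 4 := by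
      have : (m : ℝ) * ε - ε / 4 - m * ε = -(ε / 4) := by ring
      rw [this, abs_neg, abs_of_pos (by positivity)]
    rw [h2]
    linarith

section prob

variable {Ω : Type*} [MeasurableSpace Ω] {P : Measure Ω} [IsProbabilityMeasure P]
  {ξ : Ω → Set (Met d)} {ε : ℝ}

theorem ae_process_exists (hε : 0 < ε) (H : IsPoissonSet P ξ (intensity d)) :
    ∀ᵐ ω ∂P, InfiniteProcessExists ε (ξ ω) := by
  have H' : PP P ξ (intensity d) (Kd d) := PP.of_poisson H
  filter_upwards [H'.ae_LF, ae_CF_mem hε H'] with ω h1 h2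
  exact process_exists hε.le (fun R => finite_inBall h1 R) h2

theorem ae_late_ge_two (hε : 0 < ε) (hd : 2 ≤ d) (H : IsPoissonSet P ξ (intensity d)) :
    ∀ᵐ ω ∂P, OccupiedLate ε (ξ ω) := by
  have H' : PP P ξ (intensity d) (Kd d) := PP.of_poisson H
  filter_upwards [H'.ae_LF, ae_CF_mem hε H', ae_RR H' hε hd] with ω h1 h2 h3
  exact late_of_RR hε h1 h2 h3

end prob

end Pool.Agent.Meteor
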