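import Mathlib
import Pool.Agent.Lib_helper16.Meteor.Final

/-!
Dimension one: isolated meteors and their counts as functionals of the counting measure.
-/

namespace Pool.Agent.Meteor

open MeasureTheory Filter ProbabilityTheory Set
open scoped ENNReal NNReal Topology Pointwise

/-- The position of a meteor on the line. -/
noncomputable def p1 (x : Met 1) : ℝ := x.1 0

/-- The direction of a meteor on the line. -/
noncomputable def s1 (x : Met 1) : ℝ := (x.2 : Sp 1) 0

theorem norm_sp1 (v : Sp 1) : ‖v‖ = |v 0| := by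
  rw [EuclideanSpace.norm_eq]
  simp [Real.sqrt_sq_eq_abs]

theorem abs_s1 (x : Met 1) : |s1 x| = 1 := by
  unfold s1
  rw [← norm_sp1]
  simp

theorem s1_eq (x : Met 1) : s1 x = 1 ∨ s1 x = -1 := by
  have h := abs_s1 x
  rcases le_total 0 (s1 x) with h0 | h0
  · rw [abs_of_nonneg h0] at h; exact Or.inl h
  · rw [abs_of_nonpos h0] at h; right; linarith

theorem measurable_p1 : Measurable p1 := by
  unfold p1
  have h1 : Measurable (fun x : Met 1 => x.1) := measurable_fst
  have h2 : Continuous (fun v : Sp 1 => v 0) := by fun_prop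
  exact h2.measurable.comp h1

theorem measurable_s1 : Measurable s1 := by
  unfold s1
  have h1 : Measurable (fun x : Met 1 => ((x.2 : Dir 1) : Sp 1)) :=
    measurable_subtype_coe.comp measurable_snd
  have h2 : Continuous (fun v : Sp 1 => v 0) := by fun_prop
  exact h2.measurable.comp h1

/-- The isolated meteors. -/
def isoS (ε : ℝ) (F : Set (Met 1)) : Set (Met 1) :=
  {y | y ∈ F ∧ ∀ z ∈ F, z ≠ y → 2 * ε < |p1 y - p1 z|}

/-- The number of isolated meteors in `D`. -/
noncomputable def isoc (ε : ℝ) (D : Set (Met 1)) (ν : Measure (Met 1)) : ℝ≥0∞ :=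
  goodK (Kd 1) measurableSet_Kd ν {y | y ∈ D ∧
    goodK (Kd 1) measurableSet_Kd (del measurableSet_Kd ν y) {z | |p1 y - p1 z| ≤ 2 * ε} = 0}

theorem measurableSet_close (ε : ℝ) (y : Met 1) :
    MeasurableSet {z : Met 1 | |p1 y - p1 z| ≤ 2 * ε} := by
  apply measurableSet_le _ measurable_const
  exact (measurable_const.sub measurable_p1).abs

theorem measurableSet_isoc_inner (ε : ℝ) {D : Set (Met 1)} (hD : MeasurableSet D) :
    MeasurableSet {p : Measure (Met 1) × Met 1 | p.2 ∈ D ∧
      goodK (Kd 1) measurableSet_Kd (del measurableSet_Kd p.1 p.2)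
        {z | |p1 p.2 - p1 z| ≤ 2 * ε} = 0} := by
  have m1 : MeasurableSet {p : Measure (Met 1) × Met 1 | p.2 ∈ D} := measurable_snd hD
  have hT : MeasurableSet {q : (Measure (Met 1) × Met 1) × Met 1 |
      |p1 q.1.2 - p1 q.2| ≤ 2 * ε} := by
    have a1 : Measurable (fun q : (Measure (Met 1) × Met 1) × Met 1 => p1 q.1.2) := by
      have : Measurable (fun q : (Measure (Met 1) × Met 1) × Met 1 => q.1.2) := by fun_prop
      exact measurable_p1.comp this
    have a2 : Measurable (fun q : (Measure (Met 1) × Met 1) × Met 1 => p1 q.2) :=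
      measurable_p1.comp measurable_snd
    exact measurableSet_le (a1.sub a2).abs measurable_const
  have h1 : Measurable (fun p : Measure (Met 1) × Met 1 => del measurableSet_Kd p.1 p.2) :=
    measurable_del measurableSet_Kd Kd_cov diag_met
  have h2 := measurable_goodK_left measurableSet_Kd Kd_cov
    (g := fun p : Measure (Met 1) × Met 1 => del measurableSet_Kd p.1 p.2) h1 hT
  have m2 : MeasurableSet {p : Measure (Met 1) × Met 1 |
      goodK (Kd 1) measurableSet_Kd (del measurableSet_Kd p.1 p.2)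
        {z | |p1 p.2 - p1 z| ≤ 2 * ε} = 0} := h2 (measurableSet_singleton 0)
  exact m1.inter m2

theorem measurable_isoc (ε : ℝ) {D : Set (Met 1)} (hD : MeasurableSet D) :
    Measurable (isoc ε D) :=
  measurable_goodK_left measurableSet_Kd Kd_cov measurable_id (measurableSet_isoc_inner ε hD)

theorem isoc_cnt {ε : ℝ} {D : Set (Met 1)} (hD : MeasurableSet D) {F : Set (Met 1)}
    (hF : cnt F ∈ LF (Kd 1)) : isoc ε D (cnt F) = ((isoS ε F ∩ D).encard : ℝ≥0∞) := by
  have hm : MeasurableSet {y | y ∈ D ∧ goodK (Kd 1) measurableSet_Kd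
      (del measurableSet_Kd (cnt F) y) {z | |p1 y - p1 z| ≤ 2 * ε} = 0} :=
    measurable_prodMk_left (x := cnt F) (measurableSet_isoc_inner ε hD)
  unfold isoc
  rw [goodK_apply measurableSet_Kd hF, cnt_apply F hm]
  congr 2
  ext y
  constructor
  · rintro ⟨hy, hyD, h0⟩
    rw [del_cnt measurableSet_Kd hF, goodK_apply measurableSet_Kd
      (LF_cnt_subset Set.sdiff_subset hF), cnt_eq_zero_iff _ (measurableSet_close ε y)] at h0
    refine ⟨⟨hy, fun z hz hne => ?_⟩, hyD⟩
    have := h0 z ⟨hz, hne⟩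
    by_contra hle
    push Not at hle
    exact this hle
  · rintro ⟨⟨hy, h0⟩, hyD⟩
    refine ⟨hy, hyD, ?_⟩
    rw [del_cnt measurableSet_Kd hF, goodK_apply measurableSet_Kd
      (LF_cnt_subset Set.sdiff_subset hF), cnt_eq_zero_iff _ (measurableSet_close ε y)]
    rintro z ⟨hz, hne⟩ hle
    exact absurd (h0 z hz hne) (not_lt.mpr hle)

/-- Right-movers in an open interval. -/
def DR (q y : ℝ) : Set (Met 1) := {x | 0 < s1 x ∧ q < p1 x ∧ p1 x < y}

/-- Left-movers in an open interval. -/
def DL (q y : ℝ) : Set (Met 1) := {x | s1 x < 0 ∧ q < p1 x ∧ p1 x < y}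

theorem measurableSet_DR (q y : ℝ) : MeasurableSet (DR q y) :=
  (measurableSet_lt measurable_const measurable_s1).inter
    ((measurableSet_lt measurable_const measurable_p1).inter
      (measurableSet_lt measurable_p1 measurable_const))

theorem measurableSet_DL (q y : ℝ) : MeasurableSet (DL q y) :=
  (measurableSet_lt measurable_s1 measurable_const).inter
    ((measurableSet_lt measurable_const measurable_p1).inter
      (measurableSet_lt measurable_p1 measurable_const))

theorem finite_inter_interval {F : Set (Met 1)} (hF : cnt F ∈ LF (Kd 1)) (q y : ℝ) :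
    (F ∩ {x | q < p1 x ∧ p1 x < y}).Finite := by
  apply (finite_inBall hF (|q| + |y|)).subset
  rintro x ⟨hx, h1, h2⟩
  refine ⟨hx, ?_⟩
  rw [norm_sp1]
  have h1' : q < x.1 0 := h1
  have h2' : x.1 0 < y := h2
  rw [abs_le]
  constructor
  · linarith [neg_abs_le q, abs_nonneg y]
  · linarith [le_abs_self y, abs_nonneg q]

theorem isoS_equiv {ε : ℝ} (e : Met 1 ≃ Met 1) (he : ∀ x y, |p1 (e x) - p1 (e y)| = |p1 x - p1 y|)
    (F D : Set (Met 1)) : (isoS ε (e '' F) ∩ D).encard = (isoS ε F ∩ e ⁻¹' D).encard := by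
  have h1 : isoS ε (e '' F) ∩ D = e '' (isoS ε F ∩ e ⁻¹' D) := by
    ext y
    constructor
    · rintro ⟨⟨⟨x, hx, rfl⟩, h⟩, hD⟩
      refine ⟨x, ⟨⟨hx, fun z hz hne => ?_⟩, hD⟩, rfl⟩
      have := h (e z) (mem_image_of_mem e hz) (fun h' => hne (e.injective h'))
      rwa [he] at this
    · rintro ⟨x, ⟨⟨hx, h⟩, hD⟩, rfl⟩
      refine ⟨⟨mem_image_of_mem e hx, ?_⟩, hD⟩
      rintro _ ⟨z, hz, rfl⟩ hne
      rw [he]
      exact h z hz (fun h' => hne (by rw [h']))
  rw [h1, e.injective.encard_image]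

end Pool.Agent.Meteor
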