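import Mathlib
import Pool.Agent.Lib_helper16.Meteor.OneIso

/-!
Dimension one: a half-line cannot stay unbalanced in favour of right-movers.
-/

namespace Pool.Agent.Meteor

open MeasureTheory Filter ProbabilityTheory Set
open scoped ENNReal NNReal Topology Pointwise

/-- From `n - a` on, right-movers always dominate. -/
def AA (ε : ℝ) (a : ℕ) (n : ℤ) : Set (Measure (Met 1)) :=
  {ν | ∀ j : ℤ, n ≤ j → isoc ε (DL ((n : ℝ) - a) j) ν + 1 ≤ isoc ε (DR ((n : ℝ) - a) j) ν}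

/-- Looking to the left from `n + a`, left-movers always dominate. -/
def BB (ε : ℝ) (a : ℕ) (n : ℤ) : Set (Measure (Met 1)) :=
  {ν | ∀ j : ℤ, j ≤ n → isoc ε (DR j ((n : ℝ) + a)) ν + 1 ≤ isoc ε (DL j ((n : ℝ) + a)) ν}

theorem measurableSet_AA (ε : ℝ) (a : ℕ) (n : ℤ) : MeasurableSet (AA ε a n) := by
  have : AA ε a n = ⋂ j : ℤ, ({ν | n ≤ j}ᶜ ∪ {ν : Measure (Met 1) |
      isoc ε (DL ((n : ℝ) - a) j) ν + 1 ≤ isoc ε (DR ((n : ℝ) - a) j) ν}) := by
    ext ν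
    simp only [AA, mem_ofPred_eq, mem_iInter, mem_union, mem_compl_iff]
    exact forall_congr' (fun j => by tauto)
  rw [this]
  refine MeasurableSet.iInter (fun j => (MeasurableSet.const _).compl.union ?_)
  exact measurableSet_le ((measurable_isoc ε (measurableSet_DL _ _)).add measurable_const)
    (measurable_isoc ε (measurableSet_DR _ _))

theorem measurableSet_BB (ε : ℝ) (a : ℕ) (n : ℤ) : MeasurableSet (BB ε a n) := by
  have : BB ε a n = ⋂ j : ℤ, ({ν | j ≤ n}ᶜ ∪ {ν : Measure (Met 1) |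
      isoc ε (DR j ((n : ℝ) + a)) ν + 1 ≤ isoc ε (DL j ((n : ℝ) + a)) ν}) := by
    ext ν
    simp only [BB, mem_ofPred_eq, mem_iInter, mem_union, mem_compl_iff]
    exact forall_congr' (fun j => by tauto)
  rw [this]
  refine MeasurableSet.iInter (fun j => (MeasurableSet.const _).compl.union ?_)
  exact measurableSet_le ((measurable_isoc ε (measurableSet_DR _ _)).add measurable_const)
    (measurable_isoc ε (measurableSet_DL _ _))

theorem isoc_ne_top {ε : ℝ} {F : Set (Met 1)} (hF : cnt F ∈ LF (Kd 1)) (q y : ℝ) :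
    isoc ε (DR q y) (cnt F) ≠ ∞ := by
  rw [isoc_cnt (measurableSet_DR q y) hF]
  have h1 : (isoS ε F ∩ DR q y).Finite :=
    (finite_inter_interval hF q y).subset (fun x hx => ⟨hx.1.1, hx.2.2⟩)
  rw [← h1.cast_ncard_eq]
  simp

theorem AA_BB_disjoint {ε : ℝ} {F : Set (Met 1)} (hF : cnt F ∈ LF (Kd 1)) {a : ℕ} {n m : ℤ}
    (hnm : n ≤ m) (hA : cnt F ∈ AA ε a n) (hB : cnt F ∈ BB ε a m) : False := by
  have h1 := hA (m + a) (by omega)
  have h2 := hB (n - a) (by omega)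
  push_cast at h1 h2
  have h3 := isoc_ne_top (ε := ε) hF ((n : ℝ) - a) ((m : ℝ) + a)
  have h4 : isoc ε (DR ((n : ℝ) - a) ((m : ℝ) + a)) (cnt F) + 1 ≤
      isoc ε (DR ((n : ℝ) - a) ((m : ℝ) + a)) (cnt F) := by
    calc _ ≤ _ := h2
      _ ≤ _ := le_self_add
      _ ≤ _ := h1
  have h5 := ENNReal.lt_add_right h3 one_ne_zero
  exact absurd h4 (not_le.mpr h5)

/-- Translation by one. -/
noncomputable def tr : Met 1 ≃ᵐ Met 1 :=
  metEquiv (LinearIsometryEquiv.refl ℝ (Sp 1)) (EuclideanSpace.single (0 : Fin 1) (1 : ℝ))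

theorem p1_tr (x : Met 1) : p1 (tr x) = p1 x + 1 := by
  unfold p1 tr
  rw [metEquiv_fst]
  simp

theorem s1_tr (x : Met 1) : s1 (tr x) = s1 x := by
  unfold s1 tr
  rw [metEquiv_snd]
  simp

/-- Reflection. -/
noncomputable def rf : Met 1 ≃ᵐ Met 1 :=
  metEquiv (LinearIsometryEquiv.neg ℝ (E := Sp 1)) 0

theorem p1_rf (x : Met 1) : p1 (rf x) = - p1 x := by
  unfold p1 rf
  rw [metEquiv_fst]
  simp

theorem s1_rf (x : Met 1) : s1 (rf x) = - s1 x := by
  unfold s1 rf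
  rw [metEquiv_snd]
  simp

theorem isoc_tr {ε : ℝ} {F : Set (Met 1)} (hF : cnt F ∈ LF (Kd 1))
    (hF' : cnt (tr '' F) ∈ LF (Kd 1)) {D D' : Set (Met 1)} (hD : MeasurableSet D)
    (hD' : MeasurableSet D') (h : tr ⁻¹' D = D') :
    isoc ε D (cnt (tr '' F)) = isoc ε D' (cnt F) := by
  rw [isoc_cnt hD hF', isoc_cnt hD' hF, ← h]
  congr 1
  apply isoS_equiv tr.toEquiv
  intro x y
  show |p1 (tr x) - p1 (tr y)| = _
  rw [p1_tr, p1_tr, add_sub_add_right_eq_sub]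

theorem isoc_rf {ε : ℝ} {F : Set (Met 1)} (hF : cnt F ∈ LF (Kd 1))
    (hF' : cnt (rf '' F) ∈ LF (Kd 1)) {D D' : Set (Met 1)} (hD : MeasurableSet D)
    (hD' : MeasurableSet D') (h : rf ⁻¹' D = D') :
    isoc ε D (cnt (rf '' F)) = isoc ε D' (cnt F) := by
  rw [isoc_cnt hD hF', isoc_cnt hD' hF, ← h]
  congr 1
  apply isoS_equiv rf.toEquiv
  intro x y
  show |p1 (rf x) - p1 (rf y)| = _
  rw [p1_rf, p1_rf, ← abs_neg]
  congr 1
  ring

theorem tr_preimage_DR (q y : ℝ) : tr ⁻¹' (DR q y) = DR (q - 1) (y - 1) := by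
  ext x
  simp only [DR, mem_preimage, mem_ofPred_eq, p1_tr, s1_tr]
  constructor
  · rintro ⟨h1, h2, h3⟩; exact ⟨h1, by linarith, by linarith⟩
  · rintro ⟨h1, h2, h3⟩; exact ⟨h1, by linarith, by linarith⟩

theorem tr_preimage_DL (q y : ℝ) : tr ⁻¹' (DL q y) = DL (q - 1) (y - 1) := by
  ext x
  simp only [DL, mem_preimage, mem_ofPred_eq, p1_tr, s1_tr]
  constructor
  · rintro ⟨h1, h2, h3⟩; exact ⟨h1, by linarith, by linarith⟩
  · rintro ⟨h1, h2, h3⟩; exact ⟨h1, by linarith, by linarith⟩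

theorem rf_preimage_DR (q y : ℝ) : rf ⁻¹' (DR q y) = DL (-y) (-q) := by
  ext x
  simp only [DR, DL, mem_preimage, mem_ofPred_eq, p1_rf, s1_rf]
  constructor
  · rintro ⟨h1, h2, h3⟩; exact ⟨by linarith, by linarith, by linarith⟩
  · rintro ⟨h1, h2, h3⟩; exact ⟨by linarith, by linarith, by linarith⟩

theorem rf_preimage_DL (q y : ℝ) : rf ⁻¹' (DL q y) = DR (-y) (-q) := by
  ext x
  simp only [DR, DL, mem_preimage, mem_ofPred_eq, p1_rf, s1_rf]
  constructor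
  · rintro ⟨h1, h2, h3⟩; exact ⟨by linarith, by linarith, by linarith⟩
  · rintro ⟨h1, h2, h3⟩; exact ⟨by linarith, by linarith, by linarith⟩

theorem AA_shift {ε : ℝ} {F : Set (Met 1)} (hF : cnt F ∈ LF (Kd 1))
    (hF' : cnt (tr '' F) ∈ LF (Kd 1)) (a : ℕ) (n : ℤ) :
    cnt (tr '' F) ∈ AA ε a (n + 1) ↔ cnt F ∈ AA ε a n := by
  have key : ∀ j : ℤ, (isoc ε (DL (((n + 1 : ℤ) : ℝ) - a) ((j + 1 : ℤ) : ℝ)) (cnt (tr '' F)) + 1 ≤
      isoc ε (DR (((n + 1 : ℤ) : ℝ) - a) ((j + 1 : ℤ) : ℝ)) (cnt (tr '' F))) ↔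
      (isoc ε (DL ((n : ℝ) - a) j) (cnt F) + 1 ≤ isoc ε (DR ((n : ℝ) - a) j) (cnt F)) := by
    intro j
    have e1 : (((n + 1 : ℤ) : ℝ) - a) - 1 = (n : ℝ) - a := by push_cast; ring
    have e2 : ((j + 1 : ℤ) : ℝ) - 1 = j := by push_cast; ring
    rw [isoc_tr hF hF' (measurableSet_DL _ _) (measurableSet_DL ((n : ℝ) - a) j)
      (by rw [tr_preimage_DL, e1, e2]),
      isoc_tr hF hF' (measurableSet_DR _ _) (measurableSet_DR ((n : ℝ) - a) j)
      (by rw [tr_preimage_DR, e1, e2])]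
  constructor
  · intro h j hj
    exact (key j).mp (h (j + 1) (by omega))
  · intro h j hj
    have := (key (j - 1)).mpr (h (j - 1) (by omega))
    rw [show j - 1 + 1 = j by ring] at this
    exact this

theorem BB_shift {ε : ℝ} {F : Set (Met 1)} (hF : cnt F ∈ LF (Kd 1))
    (hF' : cnt (tr '' F) ∈ LF (Kd 1)) (a : ℕ) (n : ℤ) :
    cnt (tr '' F) ∈ BB ε a (n + 1) ↔ cnt F ∈ BB ε a n := by
  have key : ∀ j : ℤ, (isoc ε (DR ((j + 1 : ℤ) : ℝ) (((n + 1 : ℤ) : ℝ) + a)) (cnt (tr '' F)) + 1 ≤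
      isoc ε (DL ((j + 1 : ℤ) : ℝ) (((n + 1 : ℤ) : ℝ) + a)) (cnt (tr '' F))) ↔
      (isoc ε (DR j ((n : ℝ) + a)) (cnt F) + 1 ≤ isoc ε (DL j ((n : ℝ) + a)) (cnt F)) := by
    intro j
    have e1 : (((n + 1 : ℤ) : ℝ) + a) - 1 = (n : ℝ) + a := by push_cast; ring
    have e2 : ((j + 1 : ℤ) : ℝ) - 1 = j := by push_cast; ring
    rw [isoc_tr hF hF' (measurableSet_DL _ _) (measurableSet_DL j ((n : ℝ) + a))
      (by rw [tr_preimage_DL, e1, e2]),
      isoc_tr hF hF' (measurableSet_DR _ _) (measurableSet_DR j ((n : ℝ) + a))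
      (by rw [tr_preimage_DR, e1, e2])]
  constructor
  · intro h j hj
    exact (key j).mp (h (j + 1) (by omega))
  · intro h j hj
    have := (key (j - 1)).mpr (h (j - 1) (by omega))
    rw [show j - 1 + 1 = j by ring] at this
    exact this

theorem AA_rf {ε : ℝ} {F : Set (Met 1)} (hF : cnt F ∈ LF (Kd 1))
    (hF' : cnt (rf '' F) ∈ LF (Kd 1)) (a : ℕ) :
    cnt (rf '' F) ∈ BB ε a 0 ↔ cnt F ∈ AA ε a 0 := by
  have key : ∀ j : ℤ, (isoc ε (DR ((-j : ℤ) : ℝ) (((0 : ℤ) : ℝ) + a)) (cnt (rf '' F)) + 1 ≤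
      isoc ε (DL ((-j : ℤ) : ℝ) (((0 : ℤ) : ℝ) + a)) (cnt (rf '' F))) ↔
      (isoc ε (DL (((0 : ℤ) : ℝ) - a) j) (cnt F) + 1 ≤
        isoc ε (DR (((0 : ℤ) : ℝ) - a) j) (cnt F)) := by
    intro j
    have e1 : -(((0 : ℤ) : ℝ) + a) = ((0 : ℤ) : ℝ) - a := by push_cast; ring
    have e2 : -((-j : ℤ) : ℝ) = j := by push_cast; ring
    rw [isoc_rf hF hF' (measurableSet_DL _ _) (measurableSet_DR (((0 : ℤ) : ℝ) - a) j)
      (by rw [rf_preimage_DL, e1, e2]),
      isoc_rf hF hF' (measurableSet_DR _ _) (measurableSet_DL (((0 : ℤ) : ℝ) - a) j)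
      (by rw [rf_preimage_DR, e1, e2])]
  constructor
  · intro h j hj
    exact (key j).mp (h (-j) (by omega))
  · intro h j hj
    have := (key (-j)).mpr (h (-j) (by omega))
    rw [neg_neg] at this
    exact this

section prob

variable {Ω : Type*} [MeasurableSpace Ω] {P : Measure Ω} [IsProbabilityMeasure P]
  {ξ : Ω → Set (Met 1)} {ε : ℝ} (H : PP P ξ (intensity 1) (Kd 1))

include H

/-- Shift covariant events of positive probability occur for infinitely many shifts. -/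
theorem ae_io {V : ℤ → Set (Measure (Met 1))} (hV : ∀ n, MeasurableSet (V n))
    (hsh : ∀ F : Set (Met 1), cnt F ∈ LF (Kd 1) → cnt (tr '' F) ∈ LF (Kd 1) → ∀ n,
      (cnt (tr '' F) ∈ V (n + 1) ↔ cnt F ∈ V n))
    (hpos : P {ω | cnt (ξ ω) ∈ V 0} ≠ 0) :
    ∀ᵐ ω ∂P, ∀ N : ℕ, ∃ n : ℤ, (N : ℤ) ≤ n ∧ cnt (ξ ω) ∈ V n := by
  have hN := H.measurable_N
  have himg := H.image (LinearIsometryEquiv.refl ℝ (Sp 1))
    (EuclideanSpace.single (0 : Fin 1) (1 : ℝ))
  have hlaw : ∀ {B : Set (Measure (Met 1))}, MeasurableSet B →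
      P {ω | cnt (tr '' ξ ω) ∈ B} = P {ω | cnt (ξ ω) ∈ B} := fun hB =>
    H.law_image (LinearIsometryEquiv.refl ℝ (Sp 1)) (EuclideanSpace.single (0 : Fin 1) (1 : ℝ)) hB
  have hconst : ∀ n : ℕ, P {ω | cnt (ξ ω) ∈ V n} = P {ω | cnt (ξ ω) ∈ V 0} := by
    intro n
    induction n with
    | zero => rfl
    | succ n ih =>
      rw [← ih, ← hlaw (hV _)]
      apply measure_congr
      filter_upwards [H.ae_LF, himg.ae_LF] with ω h1 h2
      apply propext
      show cnt (tr '' ξ ω) ∈ V ((n + 1 : ℕ) : ℤ) ↔ cnt (ξ ω) ∈ V n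
      have h3 := hsh (ξ ω) h1 h2 n
      push_cast
      exact h3
  obtain ⟨G, hG⟩ : ∃ G : Set (Measure (Met 1)), G = {ν | ∀ N : ℕ, ∃ n : ℤ, (N : ℤ) ≤ n ∧ ν ∈ V n} :=
    ⟨_, rfl⟩
  have hGm : MeasurableSet G := by
    have : G = ⋂ N : ℕ, ⋃ n : ℤ, ({ν | (N : ℤ) ≤ n} ∩ V n) := by
      rw [hG]
      ext ν
      simp only [mem_ofPred_eq, mem_iInter, mem_iUnion, mem_inter_iff]
    rw [this]
    exact MeasurableSet.iInter (fun N => MeasurableSet.iUnion (fun n =>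
      (MeasurableSet.const _).inter (hV n)))
  have hGpos : P {ω | cnt (ξ ω) ∈ G} ≠ 0 := by
    obtain ⟨U, hU⟩ : ∃ U : ℕ → Set Ω, U = fun N : ℕ => {ω | ∃ n : ℤ, (N : ℤ) ≤ n ∧
      cnt (ξ ω) ∈ V n} := ⟨_, rfl⟩
    have hUm : ∀ N, MeasurableSet (U N) := by
      intro N
      have : U N = ⋃ n : ℤ, ({ω | (N : ℤ) ≤ n} ∩ {ω | cnt (ξ ω) ∈ V n}) := by
        rw [hU]
        ext ω
        simp only [mem_ofPred_eq, mem_iUnion, mem_inter_iff]
      rw [this]
      refine MeasurableSet.iUnion (fun n => (MeasurableSet.const _).inter ?_)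
      exact hN (hV n)
    have hUa : Antitone U := by
      intro N N' hNN ω hω
      rw [hU] at hω ⊢
      obtain ⟨n, hn, hv⟩ := hω
      exact ⟨n, le_trans (by exact_mod_cast hNN) hn, hv⟩
    have hUc : ∀ N, P {ω | cnt (ξ ω) ∈ V 0} ≤ P (U N) := by
      intro N
      rw [← hconst N]
      apply measure_mono
      intro ω hω
      rw [hU]
      exact ⟨N, le_rfl, hω⟩
    have h1 : P {ω | cnt (ξ ω) ∈ V 0} ≤ P (⋂ N, U N) := by
      rw [hUa.measure_iInter (fun N => (hUm N).nullMeasurableSet) ⟨0, measure_ne_top _ _⟩]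
      exact le_iInf hUc
    have h2 : (⋂ N, U N) = {ω | cnt (ξ ω) ∈ G} := by
      rw [hU, hG]
      ext ω
      simp only [mem_iInter, mem_ofPred_eq]
    rw [h2] at h1
    intro h0
    rw [h0] at h1
    exact hpos (le_antisymm h1 zero_le)
  have hinv : ∀ᵐ ω ∂P, cnt (ξ ω) ∈ G ↔ (cnt (ξ ω)).map tr ∈ G := by
    filter_upwards [H.ae_LF, himg.ae_LF] with ω h1 h2
    rw [← cnt_image, hG]
    have h3 := hsh (ξ ω) h1 h2
    constructor
    · intro h N
      obtain ⟨n, hn, hv⟩ := h N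
      exact ⟨n + 1, by omega, (h3 n).mpr hv⟩
    · intro h N
      obtain ⟨n, hn, hv⟩ := h (N + 1)
      refine ⟨n - 1, by push_cast at hn; omega, (h3 (n - 1)).mp ?_⟩
      rwa [show n - 1 + 1 = n by ring]
  have hzo := zero_one H.poisson H.meas H.mono H.cov H.fin tr
    (measurePreserving_metEquiv _ _) (by
      intro m
      obtain ⟨n, hn⟩ := exists_nat_gt (2 * m : ℝ)
      refine ⟨n, ?_⟩
      have hit : ∀ (k : ℕ) (x : Met 1), p1 (tr^[k] x) = p1 x + k := by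
        intro k x
        induction k with
        | zero => simp
        | succ k ih =>
          rw [Function.iterate_succ', Function.comp, p1_tr, ih]
          push_cast; ring
      rw [Set.disjoint_left]
      intro x hx hx'
      have h1 : ‖x.1‖ ≤ m := hx
      have h2 : ‖(tr^[n] x).1‖ ≤ m := hx'
      rw [norm_sp1] at h1 h2
      have h3 := hit n x
      unfold p1 at h3
      rw [h3] at h2
      rw [abs_le] at h1 h2
      linarith [h1.1, h2.2]) hGm hinv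
  rcases hzo with h | h
  · filter_upwards [h] with ω hω
    rw [hG] at hω
    exact hω
  · exfalso
    apply hGpos
    have h' : P {ω | ¬ cnt (ξ ω) ∉ G} = 0 := h
    simpa using h'

/-- Right-movers cannot dominate a half-line. -/
theorem prob_AA (a : ℕ) : P {ω | cnt (ξ ω) ∈ AA ε a 0} = 0 := by
  by_contra hpos
  have h1 := ae_io H (V := AA ε a) (measurableSet_AA ε a) (fun F h1 h2 n => AA_shift h1 h2 a n) hpos
  have hposB : P {ω | cnt (ξ ω) ∈ BB ε a 0} ≠ 0 := by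
    have himg := H.image (LinearIsometryEquiv.neg ℝ (E := Sp 1)) 0
    have hlaw : P {ω | cnt (rf '' ξ ω) ∈ BB ε a 0} = P {ω | cnt (ξ ω) ∈ BB ε a 0} :=
      H.law_image (LinearIsometryEquiv.neg ℝ (E := Sp 1)) 0 (measurableSet_BB ε a 0)
    rw [← hlaw]
    have h2 : P {ω | cnt (rf '' ξ ω) ∈ BB ε a 0} = P {ω | cnt (ξ ω) ∈ AA ε a 0} := by
      apply measure_congr
      filter_upwards [H.ae_LF, himg.ae_LF] with ω h1 h2
      apply propext
      exact AA_rf h1 h2 a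
    rw [h2]
    exact hpos
  have h2 := ae_io H (V := BB ε a) (measurableSet_BB ε a) (fun F h1 h2 n => BB_shift h1 h2 a n)
    hposB
  have h3 : ∀ᵐ ω ∂P, False := by
    filter_upwards [h1, h2, H.ae_LF] with ω h4 h5 h6
    obtain ⟨n, hn, hA⟩ := h4 0
    obtain ⟨m, hm, hB⟩ := h5 n.toNat
    exact AA_BB_disjoint h6 (by omega) hA hB
  rw [ae_iff] at h3
  simp at h3

end prob

end Pool.Agent.Meteor
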