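import Mathlib
import Pool.Agent.Lib_helper16.Meteor.OneEvents

/-!
Dimension one: the isolated left-movers on the positive half-line outnumber the right-movers
arbitrarily often.
-/

namespace Pool.Agent.Meteor

open MeasureTheory Filter ProbabilityTheory Set
open scoped ENNReal NNReal Topology Pointwise

/-- The window. -/
def B1 (a : ℕ) : Set (Met 1) := {x | -(a : ℝ) < p1 x ∧ p1 x ≤ 0}

theorem measurableSet_B1 (a : ℕ) : MeasurableSet (B1 a) :=
  (measurableSet_lt measurable_const measurable_p1).inter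
    (measurableSet_le measurable_p1 measurable_const)

theorem resamp_AA {ε : ℝ} (hε : 0 < ε) {a k k' n : ℕ} {F F' : Set (Met 1)}
    (hF' : cnt F' ∈ LF (Kd 1)) (c : Fin n → Met 1)
    (hinj : Function.Injective c)
    (hcs : ∀ i, 0 < s1 (c i)) (hcp : ∀ i, p1 (c i) < -(2 * ε)) (hcp' : ∀ i, -(a : ℝ) + 2 * ε < p1 (c i))
    (hcc : ∀ i j, i ≠ j → 2 * ε < |p1 (c i) - p1 (c j)|)
    (h1 : F' ∩ B1 a = range c) (h2 : F' \ B1 a = F \ B1 a)
    (hE : ∀ y : ℕ, (isoS ε F ∩ DL 0 y).encard ≤ (isoS ε F ∩ DR 0 y).encard + k)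
    (hk' : (F ∩ {x | 0 < p1 x ∧ p1 x ≤ 2 * ε}).encard ≤ k') (hn : n = k + k' + 1) :
    cnt F' ∈ AA ε a 0 := by
  intro j hj
  obtain ⟨y, rfl⟩ : ∃ y : ℕ, j = y := ⟨j.toNat, (Int.toNat_of_nonneg hj).symm⟩
  rw [isoc_cnt (measurableSet_DL _ _) hF', isoc_cnt (measurableSet_DR _ _) hF']
  have hy : (((y : ℕ) : ℤ) : ℝ) = (y : ℝ) := by push_cast; ring
  have ha : ((0 : ℤ) : ℝ) - a = -(a : ℝ) := by push_cast; ring
  rw [hy, ha]
  have e1 : (1 : ℝ≥0∞) = ((1 : ℕ∞) : ℝ≥0∞) := by simp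
  rw [e1, ← ENat.toENNReal_add, ENat.toENNReal_le]
  -- facts about membership
  have hout : ∀ z, z ∉ B1 a → (z ∈ F' ↔ z ∈ F) := by
    intro z hz
    constructor
    · intro h
      have : z ∈ F' \ B1 a := ⟨h, hz⟩
      rw [h2] at this
      exact this.1
    · intro h
      have : z ∈ F \ B1 a := ⟨h, hz⟩
      rw [← h2] at this
      exact this.1
  have hcF : ∀ i, c i ∈ F' := by
    intro i
    have : c i ∈ F' ∩ B1 a := by rw [h1]; exact mem_range_self i
    exact this.1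
  -- the right-movers
  have hR : range c ∪ (isoS ε F ∩ DR 0 y) ⊆ isoS ε F' ∩ DR (-(a : ℝ)) y := by
    rintro z (⟨i, rfl⟩ | ⟨⟨hzF, hziso⟩, hzs, hz0, hzy⟩)
    · refine ⟨⟨hcF i, ?_⟩, hcs i, ?_, ?_⟩
      · intro w hw hne
        by_cases hwB : w ∈ B1 a
        · have : w ∈ F' ∩ B1 a := ⟨hw, hwB⟩
          rw [h1] at this
          obtain ⟨i', rfl⟩ := this
          exact hcc i i' (fun h => hne (by rw [h]))
        · have h3 : ¬ (-(a : ℝ) < p1 w ∧ p1 w ≤ 0) := hwB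
          have h4 := hcp i
          have h5 := hcp' i
          by_cases h6 : -(a : ℝ) < p1 w
          · have h7 : 0 < p1 w := by
              by_contra hle
              push Not at hle
              exact h3 ⟨h6, hle⟩
            rw [abs_sub_comm, lt_abs]
            left; linarith
          · push Not at h6
            rw [lt_abs]
            left; linarith
      · linarith [hcp' i]
      · have h4 := hcp i
        have : (0 : ℝ) ≤ y := Nat.cast_nonneg y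
        linarith
    · have hzB : z ∉ B1 a := fun h => absurd h.2 (not_le.mpr hz0)
      refine ⟨⟨(hout z hzB).mpr hzF, ?_⟩, hzs, ?_, hzy⟩
      · intro w hw hne
        by_cases hwB : w ∈ B1 a
        · have : w ∈ F' ∩ B1 a := ⟨hw, hwB⟩
          rw [h1] at this
          obtain ⟨i', rfl⟩ := this
          have h4 := hcp i'
          rw [lt_abs]
          left; linarith
        · exact hziso w ((hout w hwB).mp hw) hne
      · have : (0 : ℝ) ≤ a := Nat.cast_nonneg a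
        linarith
  have hRc : (n : ℕ∞) + (isoS ε F ∩ DR 0 y).encard ≤ (isoS ε F' ∩ DR (-(a : ℝ)) y).encard := by
    refine le_trans (le_of_eq ?_) (Set.encard_le_encard hR)
    rw [Set.encard_union_eq]
    · congr 1
      rw [← Set.image_univ, hinj.encard_image, Set.encard_univ]
      simp
    · rw [Set.disjoint_left]
      rintro z ⟨i, rfl⟩ ⟨_, _, hz0, _⟩
      have h4 := hcp i
      linarith
  -- the left-movers
  have hL : isoS ε F' ∩ DL (-(a : ℝ)) y ⊆ (isoS ε F ∩ DL 0 y) ∪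
      (F ∩ {x | 0 < p1 x ∧ p1 x ≤ 2 * ε}) := by
    rintro z ⟨⟨hzF, hziso⟩, hzs, hza, hzy⟩
    have hzB : z ∉ B1 a := by
      intro hB
      have : z ∈ F' ∩ B1 a := ⟨hzF, hB⟩
      rw [h1] at this
      obtain ⟨i, rfl⟩ := this
      linarith [hcs i]
    have hz0 : 0 < p1 z := by
      by_contra hle
      push Not at hle
      exact hzB ⟨hza, hle⟩
    have hzF' := (hout z hzB).mp hzF
    by_cases hiso : z ∈ isoS ε F
    · left
      exact ⟨hiso, hzs, hz0, hzy⟩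
    · right
      refine ⟨hzF', hz0, ?_⟩
      have h3 : ∃ w ∈ F, w ≠ z ∧ |p1 z - p1 w| ≤ 2 * ε := by
        by_contra hcon
        push Not at hcon
        exact hiso ⟨hzF', hcon⟩
      obtain ⟨w, hw, hne, hle⟩ := h3
      have hwB : w ∈ B1 a := by
        by_contra hwB
        exact absurd (hziso w ((hout w hwB).mpr hw) hne) (not_lt.mpr hle)
      have h4 := (abs_le.mp hle).2
      linarith [hwB.2]
  have hLc : (isoS ε F' ∩ DL (-(a : ℝ)) y).encard ≤ (isoS ε F ∩ DL 0 y).encard + k' :=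
    (Set.encard_le_encard hL).trans ((Set.encard_union_le _ _).trans (add_le_add le_rfl hk'))
  calc (isoS ε F' ∩ DL (-(a : ℝ)) y).encard + 1 ≤ (isoS ε F ∩ DL 0 y).encard + k' + 1 :=
        add_le_add hLc le_rfl
    _ ≤ (isoS ε F ∩ DR 0 y).encard + k + k' + 1 := by
        gcongr
        exact hE y
    _ = (n : ℕ∞) + (isoS ε F ∩ DR 0 y).encard := by
        rw [hn]
        push_cast
        ring
    _ ≤ _ := hRc

section prob

variable {Ω : Type*} [MeasurableSpace Ω] {P : Measure Ω} [IsProbabilityMeasure P]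
  {ξ : Ω → Set (Met 1)} {ε : ℝ} (H : PP P ξ (intensity 1) (Kd 1))

include H

theorem prob_E_zero (hε : 0 < ε) (k k' : ℕ) :
    P {ω | (∀ y : ℕ, isoc ε (DL 0 y) (cnt (ξ ω)) ≤ isoc ε (DR 0 y) (cnt (ξ ω)) + k) ∧
      cnt (ξ ω) {x | 0 < p1 x ∧ p1 x ≤ 2 * ε} ≤ k'} = 0 := by
  by_contra hpos
  obtain ⟨n, hn⟩ : ∃ n, n = k + k' + 1 := ⟨_, rfl⟩
  obtain ⟨s0, hs0⟩ : ∃ s0 : ℝ, s0 = 2 * ε + 1 := ⟨_, rfl⟩
  have hs0' : 0 < s0 := by rw [hs0]; positivity
  obtain ⟨a, ha⟩ : ∃ a : ℕ, s0 * n + 2 * ε + 1 ≤ (a : ℝ) := exists_nat_ge _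
  -- the cells
  obtain ⟨q, hq⟩ : ∃ q : Fin n → Met 1, q = fun i : Fin n =>
    (EuclideanSpace.single (0 : Fin 1) (-(s0 * (((i : ℕ) : ℝ) + 1))), dir0 1) := ⟨_, rfl⟩
  have hqp : ∀ i, p1 (q i) = -(s0 * ((i : ℕ) + 1)) := by
    intro i
    rw [hq]
    simp [p1]
  have hqs : ∀ i, s1 (q i) = 1 := by
    intro i
    rw [hq]
    simp [s1, dir0]
  have hball : ∀ i, ∀ x ∈ Metric.ball (q i) (1 / 4), |p1 x - p1 (q i)| < 1 / 4 ∧ 0 < s1 x := by
    intro i x hx
    have hx' : dist x (q i) < 1 / 4 := hx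
    have h1 : dist x.1 (q i).1 ≤ dist x (q i) := le_max_left _ _
    have h2 : dist x.2 (q i).2 ≤ dist x (q i) := le_max_right _ _
    rw [dist_eq_norm, norm_sp1] at h1
    rw [Subtype.dist_eq, dist_eq_norm, norm_sp1] at h2
    have h3 : |s1 x - s1 (q i)| < 1 / 4 := lt_of_le_of_lt h2 hx'
    rw [hqs] at h3
    refine ⟨lt_of_le_of_lt h1 hx', ?_⟩
    have := (abs_lt.mp h3).1
    linarith
  have hsep : ∀ i j : Fin n, i ≠ j → ∀ x ∈ Metric.ball (q i) (1 / 4), ∀ y ∈ Metric.ball (q j) (1 / 4),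
      2 * ε < |p1 x - p1 y| := by
    intro i j hij x hx y hy
    have h1 := (hball i x hx).1
    have h2 := (hball j y hy).1
    have h3 : s0 ≤ |p1 (q i) - p1 (q j)| := by
      rw [hqp, hqp]
      have h4 : -(s0 * (((i : ℕ) : ℝ) + 1)) - -(s0 * (((j : ℕ) : ℝ) + 1)) =
        s0 * (((j : ℕ) : ℝ) - (i : ℕ)) := by ring
      rw [h4, abs_mul, abs_of_pos hs0']
      have h5 : (1 : ℝ) ≤ |((j : ℕ) : ℝ) - ((i : ℕ) : ℝ)| := by
        have h6 : ((j : ℕ) : ℤ) - ((i : ℕ) : ℤ) ≠ 0 := by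
          intro h
          apply hij
          apply Fin.ext
          omega
        have h7 := Int.one_le_abs h6
        exact_mod_cast h7
      nlinarith
    have h4 : |p1 (q i) - p1 (q j)| ≤ |p1 x - p1 (q i)| + |p1 x - p1 y| + |p1 y - p1 (q j)| := by
      have h5 : p1 (q i) - p1 (q j) = -(p1 x - p1 (q i)) + (p1 x - p1 y) + (p1 y - p1 (q j)) := by
        ring
      rw [h5]
      calc _ ≤ |-(p1 x - p1 (q i)) + (p1 x - p1 y)| + |p1 y - p1 (q j)| := abs_add_le _ _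
        _ ≤ |-(p1 x - p1 (q i))| + |p1 x - p1 y| + |p1 y - p1 (q j)| := by
            gcongr; exact abs_add_le _ _
        _ = _ := by rw [abs_neg]
    rw [hs0] at h3
    linarith
  have hpos1 : ∀ i : Fin n, ∀ x ∈ Metric.ball (q i) (1 / 4), p1 x < -(2 * ε) ∧
      -(a : ℝ) + 2 * ε < p1 x := by
    intro i x hx
    have h1 := abs_lt.mp (hball i x hx).1
    rw [hqp] at h1
    have h2 : (0 : ℝ) ≤ (i : ℕ) := Nat.cast_nonneg _
    have h3 : ((i : ℕ) : ℝ) + 1 ≤ n := by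
      have := i.2
      exact_mod_cast this
    have h4 : s0 ≤ s0 * (((i : ℕ) : ℝ) + 1) := by nlinarith
    have h5 : s0 * (((i : ℕ) : ℝ) + 1) ≤ s0 * n := by gcongr
    constructor
    · linarith [h1.2]
    · linarith [h1.1]
  have hCm : ∀ i : Fin n, MeasurableSet (Metric.ball (q i) (1 / 4)) := fun i =>
    Metric.isOpen_ball.measurableSet
  have hCd : ∀ i j : Fin n, i ≠ j → Disjoint (Metric.ball (q i) (1 / 4))
      (Metric.ball (q j) (1 / 4)) := by
    intro i j hij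
    rw [Set.disjoint_left]
    intro c hc hc'
    have h1 := hsep i j hij c hc c hc'
    rw [sub_self, abs_zero] at h1
    linarith
  have hCB : ∀ i : Fin n, Metric.ball (q i) (1 / 4) ⊆ B1 a := by
    intro i x hx
    obtain ⟨h1, h2⟩ := hpos1 i x hx
    exact ⟨by linarith, by linarith⟩
  have hBfin : intensity 1 (B1 a) < ∞ := by
    apply intensity_bounded_lt_top (R := a)
    intro x hx
    rw [norm_sp1]
    have h1 : -(a : ℝ) < x.1 0 := hx.1
    have h2 : x.1 0 ≤ 0 := hx.2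
    rw [abs_le]
    have : (0 : ℝ) ≤ a := Nat.cast_nonneg a
    constructor <;> linarith
  have hconf := prob_config_pos H hCm hCd (fun i => intensity_ball_pos (q i) (by norm_num))
    (measurableSet_B1 a) hBfin hCB
  -- the product event
  have H' := H.resample (measurableSet_B1 a)
  have hlaw := H.law_resamp (measurableSet_B1 a) (measurableSet_AA ε a 0)
  rw [prob_AA H a] at hlaw
  have hprod : (P.prod P) ({ω | (∀ y : ℕ, isoc ε (DL 0 y) (cnt (ξ ω)) ≤
        isoc ε (DR 0 y) (cnt (ξ ω)) + k) ∧ cnt (ξ ω) {x | 0 < p1 x ∧ p1 x ≤ 2 * ε} ≤ k'} ×ˢ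
      {ω | (∀ i, (ξ ω ∩ Metric.ball (q i) (1 / 4)).encard = 1) ∧
        (ξ ω ∩ (B1 a \ ⋃ i, Metric.ball (q i) (1 / 4))).encard = 0}) ≤
      (P.prod P) {p | cnt (resamp ξ (B1 a) p) ∈ AA ε a 0} := by
    apply measure_mono_ae
    have hLF1 : ∀ᵐ p ∂(P.prod P), cnt (ξ p.1) ∈ LF (Kd 1) :=
      Measure.quasiMeasurePreserving_fst.ae H.ae_LF
    filter_upwards [hLF1, H'.ae_LF] with p hp1 hp2 hp
    obtain ⟨⟨hE, hk'⟩, hω1, hω2⟩ := hp
    have hc : ∀ i, ∃ c, ξ p.2 ∩ Metric.ball (q i) (1 / 4) = {c} := fun i =>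
      Set.encard_eq_one.mp (hω1 i)
    choose c hc using hc
    have hcm : ∀ i, c i ∈ ξ p.2 ∧ c i ∈ Metric.ball (q i) (1 / 4) := by
      intro i
      have : c i ∈ ξ p.2 ∩ Metric.ball (q i) (1 / 4) := by rw [hc i]; rfl
      exact this
    have hinj : Function.Injective c := by
      intro i j hij
      by_contra hne
      exact Set.disjoint_left.mp (hCd i j hne) (hcm i).2 (hij ▸ (hcm j).2)
    have hwin : ξ p.2 ∩ B1 a = range c := by
      ext x
      constructor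
      · rintro ⟨hx1, hx2⟩
        by_cases hx3 : x ∈ ⋃ i, Metric.ball (q i) (1 / 4)
        · obtain ⟨i, hi⟩ := mem_iUnion.mp hx3
          have : x ∈ ξ p.2 ∩ Metric.ball (q i) (1 / 4) := ⟨hx1, hi⟩
          rw [hc i] at this
          exact ⟨i, this.symm⟩
        · exfalso
          rw [Set.encard_eq_zero] at hω2
          have : x ∈ ξ p.2 ∩ (B1 a \ ⋃ i, Metric.ball (q i) (1 / 4)) := ⟨hx1, hx2, hx3⟩
          rw [hω2] at this
          exact this
      · rintro ⟨i, rfl⟩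
        exact ⟨(hcm i).1, hCB i (hcm i).2⟩
    have e1 : resamp ξ (B1 a) p ∩ B1 a = range c := by
      rw [← hwin]
      ext x
      simp only [resamp, mem_inter_iff, mem_union, Set.mem_sdiff]
      tauto
    have e2 : resamp ξ (B1 a) p \ B1 a = ξ p.1 \ B1 a := by
      ext x
      simp only [resamp, mem_inter_iff, mem_union, Set.mem_sdiff]
      tauto
    show cnt (resamp ξ (B1 a) p) ∈ AA ε a 0
    apply resamp_AA hε hp2 c hinj (fun i => (hball i _ (hcm i).2).2)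
      (fun i => (hpos1 i _ (hcm i).2).1) (fun i => (hpos1 i _ (hcm i).2).2)
      (fun i j hij => hsep i j hij _ (hcm i).2 _ (hcm j).2) e1 e2 (k := k) (k' := k') _ _ hn
    · intro y
      have h1 := hE y
      rw [isoc_cnt (measurableSet_DL _ _) hp1, isoc_cnt (measurableSet_DR _ _) hp1] at h1
      have h2 : (k : ℝ≥0∞) = ((k : ℕ∞) : ℝ≥0∞) := by simp
      rw [h2, ← ENat.toENNReal_add, ENat.toENNReal_le] at h1
      exact h1
    · have hm : MeasurableSet {x : Met 1 | 0 < p1 x ∧ p1 x ≤ 2 * ε} :=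
        (measurableSet_lt measurable_const measurable_p1).inter
          (measurableSet_le measurable_p1 measurable_const)
      rw [cnt_apply _ hm] at hk'
      have h2 : (k' : ℝ≥0∞) = ((k' : ℕ∞) : ℝ≥0∞) := by simp
      rw [h2, ENat.toENNReal_le] at hk'
      exact hk'
  rw [hlaw, Measure.prod_prod] at hprod
  have h1 := le_antisymm hprod zero_le
  rw [mul_eq_zero] at h1
  rcases h1 with h | h
  · exact hpos h
  · exact hconf.ne' h

/-- Left-movers of the positive half-line outnumber the right-movers. -/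
theorem one_right (hε : 0 < ε) : ∀ᵐ ω ∂P, ∀ k : ℕ, ∃ y : ℕ,
    (isoS ε (ξ ω) ∩ DR 0 y).encard + k ≤ (isoS ε (ξ ω) ∩ DL 0 y).encard := by
  rw [ae_all_iff]
  intro k
  have h1 : ∀ᵐ ω ∂P, ∀ k' : ℕ,
      ¬ ((∀ y : ℕ, isoc ε (DL 0 y) (cnt (ξ ω)) ≤ isoc ε (DR 0 y) (cnt (ξ ω)) + k) ∧
      cnt (ξ ω) {x | 0 < p1 x ∧ p1 x ≤ 2 * ε} ≤ k') := by
    rw [ae_all_iff]
    intro k'
    rw [ae_iff]
    simp only [not_not]
    exact prob_E_zero H hε k k'
  filter_upwards [h1, H.ae_LF] with ω hω hLF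
  have hm : MeasurableSet {x : Met 1 | 0 < p1 x ∧ p1 x ≤ 2 * ε} :=
    (measurableSet_lt measurable_const measurable_p1).inter
      (measurableSet_le measurable_p1 measurable_const)
  have hfin : (ξ ω ∩ {x : Met 1 | 0 < p1 x ∧ p1 x ≤ 2 * ε}).Finite :=
    (finite_inter_interval hLF 0 (2 * ε + 1)).subset (fun x hx =>
      ⟨hx.1, hx.2.1, by linarith [hx.2.2]⟩)
  obtain ⟨k', hk'⟩ : ∃ k' : ℕ, (ξ ω ∩ {x : Met 1 | 0 < p1 x ∧ p1 x ≤ 2 * ε}).encard = k' :=
    ⟨_, hfin.cast_ncard_eq.symm⟩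
  have h2 := hω k'
  rw [not_and] at h2
  have h3 : ¬ (∀ y : ℕ, isoc ε (DL 0 y) (cnt (ξ ω)) ≤ isoc ε (DR 0 y) (cnt (ξ ω)) + k) := by
    intro h4
    apply h2 h4
    rw [cnt_apply _ hm, hk']
    simp
  push Not at h3
  obtain ⟨y, hy⟩ := h3
  refine ⟨y, ?_⟩
  rw [isoc_cnt (measurableSet_DL _ _) hLF, isoc_cnt (measurableSet_DR _ _) hLF] at hy
  have h2 : (k : ℝ≥0∞) = ((k : ℕ∞) : ℝ≥0∞) := by simp
  rw [h2, ← ENat.toENNReal_add, ENat.toENNReal_lt] at hy
  exact hy.le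

/-- Right-movers of the negative half-line outnumber the left-movers. -/
theorem one_left (hε : 0 < ε) : ∀ᵐ ω ∂P, ∀ k : ℕ, ∃ y : ℕ,
    (isoS ε (ξ ω) ∩ DL (-(y : ℝ)) 0).encard + k ≤ (isoS ε (ξ ω) ∩ DR (-(y : ℝ)) 0).encard := by
  have himg := H.image (LinearIsometryEquiv.neg ℝ (E := Sp 1)) 0
  have h1 := one_right himg hε
  filter_upwards [h1] with ω hω k
  obtain ⟨y, hy⟩ := hω k
  refine ⟨y, ?_⟩
  have he : ∀ x y : Met 1, |p1 (rf.toEquiv x) - p1 (rf.toEquiv y)| = |p1 x - p1 y| := by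
    intro x y
    show |p1 (rf x) - p1 (rf y)| = _
    rw [p1_rf, p1_rf, ← abs_neg]
    congr 1
    ring
  have e1 : ∀ D : Set (Met 1), (isoS ε (metEquiv (LinearIsometryEquiv.neg ℝ (E := Sp 1)) 0 '' ξ ω)
      ∩ D).encard = (isoS ε (ξ ω) ∩ rf ⁻¹' D).encard := fun D =>
    isoS_equiv rf.toEquiv he (ξ ω) D
  rw [e1, e1, rf_preimage_DR, rf_preimage_DL, neg_zero] at hy
  exact hy

end prob

end Pool.Agent.Meteor
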