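import Mathlib
import Pool.Agent.Lib_helper16.Meteor.OneProb
import Pool.Agent.Lib_helper89.MeteorOne.Visit

/-!
Dimension one: conclusion.
-/

namespace Pool.Agent.Meteor

open MeasureTheory Filter ProbabilityTheory Set MeteorOne
open scoped ENNReal NNReal Topology Pointwise

theorem intensity_p1_eq (c : ℝ) : intensity 1 {z : Met 1 | p1 z = c} = 0 := by
  have h1 : {z : Met 1 | p1 z = c} ⊆ {v : Sp 1 | v 0 = c} ×ˢ (univ : Set (Dir 1)) := by
    intro z hz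
    exact ⟨hz, mem_univ _⟩
  apply measure_mono_null h1
  unfold intensity
  rw [Measure.prod_prod]
  have h2 : {v : Sp 1 | v 0 = c} ⊆ {EuclideanSpace.single (0 : Fin 1) c} := by
    intro v hv
    rw [mem_singleton_iff]
    ext i
    fin_cases i
    simpa using hv
  rw [measure_mono_null h2 (measure_singleton _), zero_mul]

section prob

variable {Ω : Type*} [MeasurableSpace Ω] {P : Measure Ω} [IsProbabilityMeasure P]
  {ξ : Ω → Set (Met 1)} {ε : ℝ} (H : PP P ξ (intensity 1) (Kd 1))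

include H

theorem ae_not_mem_null {T : Set (Met 1)} (hT : MeasurableSet T) (h0 : intensity 1 T = 0) :
    ∀ᵐ ω ∂P, ∀ x ∈ ξ ω, x ∉ T := by
  have hS : MeasurableSet {p : Met 1 × Measure (Met 1) | p.1 ∈ T} := measurable_fst hT
  have h1 := H.ae_forall_mem hS (by
    have h2 : ∀ᵐ z ∂(intensity 1), z ∉ T := by
      rw [ae_iff]
      simpa using h0
    filter_upwards [h2] with z hz
    exact Filter.Eventually.of_forall (fun ω h => hz h))
  filter_upwards [h1] with ω hω z hz hzT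
  exact hω z hz hzT

theorem one_noTie : ∀ᵐ ω ∂P, (∀ x ∈ ξ ω, p1 x ≠ 0) ∧
    ∀ x ∈ ξ ω, ∀ y ∈ ξ ω, x ≠ y → p1 x ≠ - p1 y := by
  have hm : ∀ c : ℝ, MeasurableSet {z : Met 1 | p1 z = c} := fun c =>
    measurable_p1 (measurableSet_singleton c)
  have h1 := ae_not_mem_null H (hm 0) (intensity_p1_eq 0)
  have hS : MeasurableSet {p : Met 1 × Measure (Met 1) |
      goodK (Kd 1) H.meas p.2 {z | p1 z = - p1 p.1} ≠ 0} := by
    have h1 : MeasurableSet {q : (Met 1 × Measure (Met 1)) × Met 1 | p1 q.2 = - p1 q.1.1} := by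
      have a1 : Measurable (fun q : (Met 1 × Measure (Met 1)) × Met 1 => p1 q.2) :=
        measurable_p1.comp measurable_snd
      have a2 : Measurable (fun q : (Met 1 × Measure (Met 1)) × Met 1 => - p1 q.1.1) := by
        have : Measurable (fun q : (Met 1 × Measure (Met 1)) × Met 1 => q.1.1) := by fun_prop
        exact (measurable_p1.comp this).neg
      exact measurableSet_eq_fun a1 a2
    have h2 := measurable_goodK_left H.meas H.cov (g := fun p : Met 1 × Measure (Met 1) => p.2)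
      measurable_snd h1
    exact (h2 (measurableSet_singleton 0)).compl
  have h2 := H.ae_forall_mem hS (by
    refine Filter.Eventually.of_forall (fun y => ?_)
    filter_upwards [ae_not_mem_null H (hm (-p1 y)) (intensity_p1_eq _), H.ae_LF] with ω hω hLF
    show ¬ (goodK (Kd 1) H.meas (cnt (ξ ω)) {z | p1 z = - p1 y} ≠ 0)
    rw [not_not, goodK_apply H.meas hLF, cnt_eq_zero_iff _ (hm _)]
    exact hω)
  filter_upwards [h1, h2, H.ae_LF] with ω hω1 hω2 hLF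
  refine ⟨fun x hx h => hω1 x hx h, fun x hx y hy hne h => ?_⟩
  apply hω2 y hy
  show goodK (Kd 1) H.meas (cnt (ξ ω \ {y})) {z | p1 z = - p1 y} ≠ 0
  rw [goodK_apply H.meas (LF_cnt_subset Set.sdiff_subset hLF), Ne, cnt_eq_zero_iff _ (hm _)]
  push Not
  exact ⟨x, ⟨hx, hne⟩, h⟩

end prob

theorem isoS_eq (ε : ℝ) (F : Set (Met 1)) : isoS ε F = MeteorOne.iso ε F := by
  ext y
  constructor
  · rintro ⟨h1, h2⟩
    refine ⟨h1, fun z hz hne => ?_⟩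
    have := h2 z hz hne
    rw [abs_sub_comm] at this
    exact this
  · rintro ⟨h1, h2⟩
    refine ⟨h1, fun z hz hne => ?_⟩
    have := h2 z hz hne
    rw [abs_sub_comm] at this
    exact this

theorem s1_pos_iff (x : Met 1) : 0 < s1 x ↔ sx x = 1 := by
  have h : sx x = s1 x := rfl
  rw [h]
  rcases s1_eq x with h1 | h1 <;> rw [h1] <;> norm_num

theorem s1_neg_iff (x : Met 1) : s1 x < 0 ↔ sx x = -1 := by
  have h : sx x = s1 x := rfl
  rw [h]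
  rcases s1_eq x with h1 | h1 <;> rw [h1] <;> norm_num

theorem exists_closed_end {F : Set (Met 1)} (hfin : ∀ q y : ℝ, (F ∩ {x | q < p1 x ∧ p1 x < y}).Finite)
    (y : ℝ) : ∃ y' : ℝ, ∀ z ∈ F, (0 < p1 z ∧ p1 z < y) ↔ (0 < p1 z ∧ p1 z ≤ y') := by
  rcases (F ∩ {x | 0 < p1 x ∧ p1 x < y}).eq_empty_or_nonempty with h | h
  · refine ⟨0, fun z hz => ⟨fun h1 => ?_, fun h1 => ?_⟩⟩
    · have : z ∈ F ∩ {x | 0 < p1 x ∧ p1 x < y} := ⟨hz, h1⟩
      rw [h] at this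
      exact absurd this (notMem_empty z)
    · linarith [h1.1, h1.2]
  · obtain ⟨w, hw, hmax⟩ := (hfin 0 y).exists_maximalFor p1 _ h
    refine ⟨p1 w, fun z hz => ⟨fun h1 => ⟨h1.1, ?_⟩, fun h1 => ⟨h1.1, ?_⟩⟩⟩
    · by_contra hlt
      push Not at hlt
      have := hmax (j := z) ⟨hz, h1⟩ hlt.le
      linarith
    · exact lt_of_le_of_lt h1.2 hw.2.2

theorem exists_closed_end' {F : Set (Met 1)}
    (hfin : ∀ q y : ℝ, (F ∩ {x | q < p1 x ∧ p1 x < y}).Finite)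
    (y : ℝ) : ∃ y' : ℝ, ∀ z ∈ F, (-y < p1 z ∧ p1 z < 0) ↔ (-y' ≤ p1 z ∧ p1 z < 0) := by
  rcases (F ∩ {x | -y < p1 x ∧ p1 x < 0}).eq_empty_or_nonempty with h | h
  · refine ⟨0, fun z hz => ⟨fun h1 => ?_, fun h1 => ?_⟩⟩
    · have : z ∈ F ∩ {x | -y < p1 x ∧ p1 x < 0} := ⟨hz, h1⟩
      rw [h] at this
      exact absurd this (notMem_empty z)
    · linarith [h1.1, h1.2]
  · obtain ⟨w, hw, hmin⟩ := (hfin (-y) 0).exists_minimalFor p1 _ h
    refine ⟨-p1 w, fun z hz => ⟨fun h1 => ⟨?_, h1.2⟩, fun h1 => ⟨?_, h1.2⟩⟩⟩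
    · by_contra hlt
      push Not at hlt
      have := hmin (j := z) ⟨hz, h1⟩ (by linarith)
      linarith
    · have := hw.2.1
      linarith [h1.1]

theorem d_one {Ω : Type*} [MeasurableSpace Ω] {P : Measure Ω} [IsProbabilityMeasure P]
    {ξ : Ω → Set (Met 1)} {ε : ℝ} (hε : 0 < ε) (H : IsPoissonSet P ξ (intensity 1)) :
    ∀ᵐ ω ∂P, (visitors ε (ξ ω)).Infinite := by
  have H' : PP P ξ (intensity 1) (Kd 1) := PP.of_poisson H
  filter_upwards [one_right H' hε, one_left H' hε, one_noTie H', H'.ae_LF] with ω h1 h2 h3 h4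
  have hint : ∀ q y : ℝ, (ξ ω ∩ {x | q < p1 x ∧ p1 x < y}).Finite := finite_inter_interval h4
  have hR : ∀ (A B : Set ℝ), (∀ z ∈ ξ ω, p1 z ∈ A ↔ p1 z ∈ B) →
      {z ∈ Rt ε (ξ ω) | px z ∈ A} = isoS ε (ξ ω) ∩ {x | 0 < s1 x ∧ p1 x ∈ B} := by
    intro A B hAB
    ext z
    rw [isoS_eq]
    constructor
    · rintro ⟨⟨a1, a2⟩, a3⟩
      exact ⟨a1, (s1_pos_iff z).mpr a2, (hAB z a1.1).mp a3⟩
    · rintro ⟨a1, a2, a3⟩
      exact ⟨⟨a1, (s1_pos_iff z).mp a2⟩, (hAB z a1.1).mpr a3⟩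
  have hL : ∀ (A B : Set ℝ), (∀ z ∈ ξ ω, p1 z ∈ A ↔ p1 z ∈ B) →
      {z ∈ Lt ε (ξ ω) | px z ∈ A} = isoS ε (ξ ω) ∩ {x | s1 x < 0 ∧ p1 x ∈ B} := by
    intro A B hAB
    ext z
    rw [isoS_eq]
    constructor
    · rintro ⟨⟨a1, a2⟩, a3⟩
      exact ⟨a1, (s1_neg_iff z).mpr a2, (hAB z a1.1).mp a3⟩
    · rintro ⟨a1, a2, a3⟩
      exact ⟨⟨a1, (s1_neg_iff z).mp a2⟩, (hAB z a1.1).mpr a3⟩
  have hcard : ∀ (S T : Set (Met 1)) (k : ℕ), S.Finite → T.Finite → S.encard + k ≤ T.encard →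
      (k : ℤ) ≤ (T.ncard : ℤ) - S.ncard := by
    intro S T k hS hT h
    rw [← hS.cast_ncard_eq, ← hT.cast_ncard_eq] at h
    have h' : S.ncard + k ≤ T.ncard := by exact_mod_cast h
    omega
  apply MeteorOne.visitors_infinite (fun R => finite_inBall h4 R) hε h3.1 h3.2
  · intro k
    obtain ⟨y, hy⟩ := h1 k.toNat
    obtain ⟨y', hy'⟩ := exists_closed_end hint (y : ℝ)
    refine ⟨y', ?_⟩
    have hAB : ∀ z ∈ ξ ω, p1 z ∈ Ioc 0 y' ↔ p1 z ∈ Ioo 0 (y : ℝ) := fun z hz => (hy' z hz).symm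
    unfold bal gbal
    rw [hR _ _ hAB, hL _ _ hAB]
    have f1 : (isoS ε (ξ ω) ∩ {x | 0 < s1 x ∧ p1 x ∈ Ioo 0 (y : ℝ)}).Finite :=
      (hint 0 y).subset (fun z hz => ⟨hz.1.1, hz.2.2⟩)
    have f2 : (isoS ε (ξ ω) ∩ {x | s1 x < 0 ∧ p1 x ∈ Ioo 0 (y : ℝ)}).Finite :=
      (hint 0 y).subset (fun z hz => ⟨hz.1.1, hz.2.2⟩)
    have h5 := hcard _ _ k.toNat f1 f2 hy
    have h6 := Int.self_le_toNat k
    linarith
  · intro k
    obtain ⟨y, hy⟩ := h2 k.toNat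
    obtain ⟨y', hy'⟩ := exists_closed_end' hint (y : ℝ)
    refine ⟨y', ?_⟩
    have hAB : ∀ z ∈ ξ ω, p1 z ∈ Ico (-y') 0 ↔ p1 z ∈ Ioo (-(y : ℝ)) 0 :=
      fun z hz => (hy' z hz).symm
    unfold bal gbal
    rw [hR _ _ hAB, hL _ _ hAB]
    have f1 : (isoS ε (ξ ω) ∩ {x | 0 < s1 x ∧ p1 x ∈ Ioo (-(y : ℝ)) 0}).Finite :=
      (hint (-y) 0).subset (fun z hz => ⟨hz.1.1, hz.2.2⟩)
    have f2 : (isoS ε (ξ ω) ∩ {x | s1 x < 0 ∧ p1 x ∈ Ioo (-(y : ℝ)) 0}).Finite :=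
      (hint (-y) 0).subset (fun z hz => ⟨hz.1.1, hz.2.2⟩)
    have h5 := hcard _ _ k.toNat f2 f1 hy
    have h6 := Int.self_le_toNat k
    linarith

end Pool.Agent.Meteor
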